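import Pool.Agent.Lib.Tup.Basic
import Pool.Agent.Lib.Sieve.CharSum
import Pool.Agent.Lib.Sieve.Mertens

namespace Pool.Agent.Lib.Tup
open Finset Real Filter Topology
open ArithmeticFunction hiding log

/-- The hyperbola rearrangement for a completely multiplicative weight. -/
theorem map_hyperbola {R : Type*} [Field R] [CharZero R] (φ : ℝ →+* R) (f : ℕ → R)
    (hf : ∀ a b, f (a * b) = f a * f b) (y : ℕ) :
    ∑ n ∈ Ioc 0 y, f n * φ (log n) =
      ∑ d ∈ Ioc 0 y, f d * φ (vonMangoldt d) * ∑ k ∈ Ioc 0 (y / d), f k := by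
  let g : ArithmeticFunction R := ⟨fun n => if n = 0 then 0 else f n, by simp⟩
  let u : ArithmeticFunction R := ⟨fun n => f n * φ (vonMangoldt n), by simp⟩
  have h := sum_Ioc_mul_eq_sum_sum u g y
  have h1 : ∀ K, ∑ k ∈ Ioc 0 K, g k = ∑ k ∈ Ioc 0 K, f k := fun K =>
    sum_congr rfl fun k hk => if_neg (mem_Ioc.1 hk).1.ne'
  simp only [h1] at h
  refine Eq.trans (sum_congr rfl fun n _ => ?_) h
  rw [ArithmeticFunction.mul_apply, ← vonMangoldt_sum, map_sum, mul_sum,
    ← Nat.sum_divisorsAntidiagonal (fun a _ => f n * φ (vonMangoldt a))]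
  refine sum_congr rfl fun x hx => ?_
  have h2 := Nat.mem_divisorsAntidiagonal.1 hx
  have h3 : x.2 ≠ 0 := by
    intro h
    rw [h, mul_zero] at h2
    exact h2.2 h2.1.symm
  show _ = f x.1 * φ (vonMangoldt x.1) * (if x.2 = 0 then 0 else f x.2)
  rw [if_neg h3, ← h2.1, hf]
  ring

theorem map_tail {W : ℕ} [NeZero W] {χ : DirichletCharacter ℂ W} (hχ : χ ≠ 1) (K : ℕ) :
    ‖χ.LFunction 1 - ∑ n ∈ Ioc 0 K, χ (n : ZMod W) / (n : ℂ)‖ ≤ 2 * W / (K + 1) := by
  let F : ℝ → ℂ := fun σ => χ.LFunction σ - ∑ n ∈ Ioc 0 K, χ (n : ZMod W) / (n : ℂ) ^ (σ : ℂ)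
  have hF : Continuous F := by
    refine ((DirichletCharacter.differentiable_LFunction hχ).continuous.comp
      Complex.continuous_ofReal).sub (continuous_finsetSum _ fun n hn => ?_)
    have hn' : (n : ℂ) ≠ 0 := by exact_mod_cast (mem_Ioc.1 hn).1.ne'
    exact continuous_const.div (Complex.continuous_ofReal.const_cpow (Or.inl hn'))
      fun σ => (Complex.cpow_ne_zero_iff.2 (Or.inl hn'))
  have h1 : ∀ σ : ℝ, 1 < σ → ‖F σ‖ ≤ 2 * W / (K + 1) := fun σ hσ => by
    have hσ' : 1 < (σ : ℂ).re := hσ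
    have hs := (χ.LSeriesSummable_of_one_lt_re hσ').hasSum.tendsto_sum_nat.comp
      (tendsto_add_atTop_nat (K + 1))
    have hs' := (hs.sub_const (∑ n ∈ Ioc 0 K, χ (n : ZMod W) / (n : ℂ) ^ (σ : ℂ))).norm
    simp only [F]
    rw [χ.LFunction_eq_LSeries hσ']
    refine le_of_tendsto' hs' fun j => ?_
    have a1 : ∑ n ∈ range (K + 1), LSeries.term (fun n : ℕ => χ (n : ZMod W)) σ n =
        ∑ n ∈ Ioc 0 K, χ (n : ZMod W) / (n : ℂ) ^ (σ : ℂ) := by
      rw [range_eq_Ico, sum_eq_sum_Ico_succ_bot (Nat.succ_pos K), LSeries.term_zero, zero_add]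
      exact sum_congr rfl fun n hn => LSeries.term_of_ne_zero (mem_Ioc.1 hn).1.ne' _ _
    have a2 : ∑ n ∈ Ico (K + 1) (K + 1 + j), LSeries.term (fun n : ℕ => χ (n : ZMod W)) σ n =
        ∑ n ∈ Ico (K + 1) (K + 1 + j), χ (n : ZMod W) * ((n : ℝ) ^ (-σ) : ℝ) := by
      refine sum_congr rfl fun n hn => ?_
      have hn' : n ≠ 0 := by have := (mem_Ico.1 hn).1; omega
      rw [LSeries.term_of_ne_zero hn', Complex.ofReal_cpow (Nat.cast_nonneg n), div_eq_mul_inv,
        ← Complex.cpow_neg]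
      simp
    simp only [Function.comp_apply]
    rw [← a1, add_comm j, ← sum_Ico_eq_sub _ (Nat.le_add_right _ _), a2]
    refine (Sieve.abel_ineq _ (fun n : ℕ => (n : ℝ) ^ (-σ)) (Sieve.norm_sum_Ico_char_le hχ _)
      (fun n => by positivity) (fun n hn => ?_) j).trans ?_
    · have : (0 : ℝ) < n := by exact_mod_cast (show 0 < n by omega)
      exact rpow_le_rpow_of_nonpos this (by push_cast; linarith) (by linarith)
    · rw [div_eq_mul_inv, ← rpow_neg_one]
      push_cast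
      refine mul_le_mul_of_nonneg_left
        (rpow_le_rpow_of_exponent_le (by linarith [Nat.cast_nonneg (α := ℝ) K]) (by linarith))
        (by positivity)
  have h2 : Tendsto (fun σ => ‖F σ‖) (𝓝[>] 1) (𝓝 ‖F 1‖) :=
    (hF.norm.tendsto 1).mono_left nhdsWithin_le_nhds
  simpa [F] using le_of_tendsto h2 (eventually_nhdsWithin_of_forall h1)

theorem map_log_sum {W : ℕ} [NeZero W] {χ : DirichletCharacter ℂ W} (hχ : χ ≠ 1) (y : ℕ) :
    ‖∑ n ∈ Ioc 0 y, χ (n : ZMod W) / (n : ℂ) * (log n : ℝ)‖ ≤ 8 + 2 * W := by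
  have h0 : ∀ n : ℕ, Sieve.wk 1 1 n = log n / n := fun n => by
    rw [Sieve.wk, pow_one, rpow_neg_one, div_eq_mul_inv]
  have h1 : ∀ n : ℕ, Sieve.wk 1 1 n ≤ 1 := fun n => by
    rw [h0]
    exact div_le_one_of_le₀ (log_le_self (Nat.cast_nonneg n)) (Nat.cast_nonneg n)
  have h2 : ∑ n ∈ Ioc 0 y, χ (n : ZMod W) / (n : ℂ) * (log n : ℝ) =
      ∑ n ∈ range (y + 1), χ (n : ZMod W) * (Sieve.wk 1 1 n : ℝ) := by
    rw [range_eq_Ico, sum_eq_sum_Ico_succ_bot (Nat.succ_pos y), Sieve.wk_zero 1 le_rfl,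
      Complex.ofReal_zero, mul_zero, zero_add]
    refine sum_congr rfl fun n _ => ?_
    rw [h0]
    push_cast
    ring
  have h3 : ∀ K, ‖∑ n ∈ range K, χ (n : ZMod W) * (Sieve.wk 1 1 n : ℝ)‖ ≤ K := fun K => by
    refine (norm_sum_le _ _).trans ((sum_le_card_nsmul _ _ 1 fun n _ => ?_).trans (by simp))
    rw [norm_mul, Complex.norm_real, norm_of_nonneg (Sieve.wk_nonneg _ _ _)]
    exact mul_le_one₀ (χ.norm_le_one _) (Sieve.wk_nonneg _ _ _) (h1 n)
  rw [h2]
  have hW : (0 : ℝ) ≤ 2 * W := by positivity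
  rcases le_total (y + 1) 8 with h | h
  · have : ((y + 1 : ℕ) : ℝ) ≤ 8 := by exact_mod_cast h
    linarith [h3 (y + 1)]
  · obtain ⟨j, hj⟩ := Nat.exists_eq_add_of_le h
    rw [hj, range_eq_Ico, ← sum_Ico_consecutive _ (Nat.zero_le 8) (Nat.le_add_right 8 j),
      ← range_eq_Ico]
    have a1 := Sieve.abel_ineq _ (Sieve.wk 1 1) (Sieve.norm_sum_Ico_char_le hχ 8)
      (Sieve.wk_nonneg _ _) (fun n hn => Sieve.wk_succ_le (by norm_num) le_rfl hn) j
    have a2 := mul_le_of_le_one_right hW (h1 8)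
    have a3 := h3 8
    push_cast at a3
    exact (norm_add_le _ _).trans (by linarith)

theorem map_char_vm {W : ℕ} [NeZero W] {χ : DirichletCharacter ℂ W} (hχ : χ ≠ 1) :
    ∃ C : ℝ, ∀ y : ℕ, ‖∑ d ∈ Ioc 0 y, χ (d : ZMod W) / (d : ℂ) * (vonMangoldt d : ℝ)‖ ≤ C := by
  have hL := norm_pos_iff.2 (χ.LFunction_apply_one_ne_zero hχ)
  refine ⟨(8 + 2 * W + 2 * W * (log 4 + 4)) / ‖χ.LFunction 1‖, fun y => ?_⟩
  have h1 := map_hyperbola Complex.ofRealHom (fun n => χ (n : ZMod W) / (n : ℂ))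
    (fun a b => by push_cast; rw [map_mul]; ring) y
  simp only [Complex.ofRealHom_eq_coe] at h1
  have h2 := map_log_sum hχ y
  have h3 : (∑ d ∈ Ioc 0 y, χ (d : ZMod W) / (d : ℂ) * (vonMangoldt d : ℝ)) * χ.LFunction 1 =
      ∑ n ∈ Ioc 0 y, χ (n : ZMod W) / (n : ℂ) * (log n : ℝ) +
        ∑ d ∈ Ioc 0 y, χ (d : ZMod W) / (d : ℂ) * (vonMangoldt d : ℝ) *
          (χ.LFunction 1 - ∑ k ∈ Ioc 0 (y / d), χ (k : ZMod W) / (k : ℂ)) := by
    rw [h1, ← sum_add_distrib, sum_mul]
    exact sum_congr rfl fun d _ => by ring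
  have h4 : ‖∑ d ∈ Ioc 0 y, χ (d : ZMod W) / (d : ℂ) * (vonMangoldt d : ℝ) *
      (χ.LFunction 1 - ∑ k ∈ Ioc 0 (y / d), χ (k : ZMod W) / (k : ℂ))‖ ≤ 2 * W * (log 4 + 4) := by
    rcases Nat.eq_zero_or_pos y with rfl | hy
    · simp only [Ioc_self, sum_empty, norm_zero]
      positivity
    have hy' : (0 : ℝ) < y := by exact_mod_cast hy
    calc _ ≤ ∑ d ∈ Ioc 0 y, 2 * W / y * vonMangoldt d := by
          refine (norm_sum_le _ _).trans (sum_le_sum fun d hd => ?_)
          have hd0 : (0 : ℝ) < d := by exact_mod_cast (mem_Ioc.1 hd).1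
          have a1 : (y : ℝ) ≤ d * ((y / d : ℕ) + 1) := by
            exact_mod_cast (Nat.lt_mul_div_succ y (mem_Ioc.1 hd).1).le
          have a2 : 2 * (W : ℝ) / ((y / d : ℕ) + 1) ≤ 2 * W / y * d := by
            rw [div_mul_eq_mul_div, div_le_div_iff₀ (by positivity) hy', mul_assoc (2 * (W : ℝ))]
            exact mul_le_mul_of_nonneg_left a1 (by positivity)
          rw [norm_mul, norm_mul, norm_div, Complex.norm_natCast, Complex.norm_real,
            norm_of_nonneg vonMangoldt_nonneg]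
          calc _ ≤ 1 / d * vonMangoldt d * (2 * W / y * d) := by
                have := vonMangoldt_nonneg (n := d)
                gcongr
                · exact χ.norm_le_one _
                · exact (map_tail hχ _).trans a2
            _ = _ := by field_simp
      _ = 2 * W / y * Chebyshev.psi y := by rw [← mul_sum, Chebyshev.psi, Nat.floor_natCast]
      _ ≤ 2 * W / y * ((log 4 + 4) * y) :=
          mul_le_mul_of_nonneg_left (Chebyshev.psi_le_const_mul_self hy'.le) (by positivity)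
      _ = _ := by field_simp
  rw [le_div_iff₀ hL, ← norm_mul, h3]
  exact (norm_add_le _ _).trans (by linarith)

theorem map_nonprime : ∃ C : ℝ, ∀ y : ℕ,
    ∑ d ∈ Ioc 0 y, (if d.Prime then 0 else vonMangoldt d) / (d : ℝ) ≤ C := by
  have h := vonMangoldt.summable_residueClass_non_primes_div (q := 1) 0
  have h1 : ∀ n, vonMangoldt.residueClass (q := 1) 0 n = vonMangoldt n := fun n =>
    Set.indicator_of_mem (s := {n : ℕ | (n : ZMod 1) = 0}) (Subsingleton.elim (α := ZMod 1) _ _) _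
  simp only [h1] at h
  refine ⟨_, fun y => h.sum_le_tsum _ fun n _ => ?_⟩
  have := vonMangoldt_nonneg (n := n)
  positivity

theorem map_primes : ∃ C : ℝ, ∀ y : ℕ, 1 ≤ y →
    |∑ d ∈ Ioc 0 y, (if d.Prime then log d / d else 0) - log y| ≤ C := by
  obtain ⟨C, hC⟩ := map_nonprime
  refine ⟨|C| + 2, fun y hy => ?_⟩
  have hy' : (0 : ℝ) < y := by exact_mod_cast hy
  have h1 : ∑ d ∈ Ioc 0 y, (if d.Prime then log d / d else 0) ≤ log y + log 4 := by
    rw [← sum_filter, ← Nat.primesLE_eq_filter_Ioc_zero]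
    exact Sieve.sum_log_div_le hy
  have h2 : log 4 ≤ 2 := by
    rw [show (4 : ℝ) = 2 ^ 2 by norm_num, log_pow]
    have := log_two_lt_d9
    push_cast
    linarith
  have h3 := map_hyperbola (RingHom.id ℝ) (fun _ => 1) (fun _ _ => (mul_one _).symm) y
  simp only [one_mul, RingHom.id_apply, sum_const, Nat.card_Ioc, tsub_zero, nsmul_eq_mul,
    mul_one] at h3
  have h4 : y * log y - y ≤ ∑ n ∈ Ioc 0 y, log n := by
    have hf : (0 : ℝ) < y.factorial := by exact_mod_cast y.factorial_pos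
    have a1 := log_le_log (by positivity) (pow_div_factorial_le_exp (y : ℝ) hy'.le y)
    rw [log_exp, log_div (by positivity) hf.ne', log_pow] at a1
    have a2 : log y.factorial = ∑ n ∈ Ioc 0 y, log n := by
      rw [← log_prod fun n hn => by exact_mod_cast (mem_Ioc.1 hn).1.ne', ← prod_Ico_id_eq_factorial]
      push_cast
      rfl
    linarith
  have h5 : ∑ d ∈ Ioc 0 y, vonMangoldt d * ((y / d : ℕ) : ℝ) ≤
      y * (∑ d ∈ Ioc 0 y, (if d.Prime then log d / d else 0) +
        ∑ d ∈ Ioc 0 y, (if d.Prime then 0 else vonMangoldt d) / (d : ℝ)) := by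
    rw [← sum_add_distrib, mul_sum]
    refine sum_le_sum fun d _ => ?_
    refine (mul_le_mul_of_nonneg_left Nat.cast_div_le vonMangoldt_nonneg).trans (le_of_eq ?_)
    split_ifs with h
    · rw [vonMangoldt_apply_prime h]; ring
    · ring
  have h6 : log y - 1 ≤ ∑ d ∈ Ioc 0 y, (if d.Prime then log d / d else 0) +
      ∑ d ∈ Ioc 0 y, (if d.Prime then 0 else vonMangoldt d) / (d : ℝ) :=
    le_of_mul_le_mul_left (by linarith) hy'
  rw [abs_le]
  constructor <;> linarith [hC y, le_abs_self C, abs_nonneg C]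

open Classical in
theorem map_char {W : ℕ} [NeZero W] (χ : DirichletCharacter ℂ W) : ∃ C : ℝ, ∀ y : ℕ, 1 ≤ y →
    ‖∑ d ∈ Ioc 0 y, χ (d : ZMod W) * ((if d.Prime then log d / d else 0 : ℝ) : ℂ) -
      if χ = 1 then (log y : ℝ) else 0‖ ≤ C := by
  by_cases hχ : χ = 1
  · obtain ⟨C, hC⟩ := map_primes
    refine ⟨W + C, fun y hy => ?_⟩
    have h1 : ‖∑ d ∈ Ioc 0 y, (χ (d : ZMod W) - 1) *
        ((if d.Prime then log d / d else 0 : ℝ) : ℂ)‖ ≤ W := by
      calc _ ≤ ∑ d ∈ Ioc 0 y, if d ∈ Ioc 0 W then (1 : ℝ) else 0 := by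
            refine (norm_sum_le _ _).trans (sum_le_sum fun d hd => ?_)
            by_cases hu : IsUnit (d : ZMod W)
            · rw [hχ, MulChar.one_apply hu, sub_self, zero_mul, norm_zero]
              positivity
            · by_cases hp : d.Prime
              · have a1 : d ∣ W := by
                  by_contra h
                  exact hu ((ZMod.isUnit_iff_coprime d W).2 (hp.coprime_iff_not_dvd.2 h))
                rw [MulChar.map_nonunit _ hu, if_pos hp,
                  if_pos (mem_Ioc.2 ⟨hp.pos, Nat.le_of_dvd (NeZero.pos W) a1⟩), zero_sub,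
                  norm_mul, norm_neg, norm_one, one_mul, Complex.norm_real,
                  norm_of_nonneg (div_nonneg (log_natCast_nonneg d) (Nat.cast_nonneg d))]
                exact div_le_one_of_le₀ (log_le_self (Nat.cast_nonneg d)) (Nat.cast_nonneg d)
              · rw [if_neg hp, Complex.ofReal_zero, mul_zero, norm_zero]
                positivity
        _ ≤ W := by
            rw [sum_boole]
            exact_mod_cast (card_le_card fun d hd => (mem_filter.1 hd).2).trans (by simp)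
    have h2 := hC y hy
    rw [← Real.norm_eq_abs, ← Complex.norm_real] at h2
    rw [if_pos hχ]
    refine le_trans (le_of_eq ?_) ((norm_add_le _ _).trans (add_le_add h1 h2))
    congr 1
    simp only [sub_mul, sum_sub_distrib, one_mul, Complex.ofReal_sub, Complex.ofReal_sum]
    ring
  · obtain ⟨C, hC⟩ := map_char_vm hχ
    obtain ⟨C', hC'⟩ := map_nonprime
    refine ⟨C + C', fun y _ => ?_⟩
    have h1 : ‖∑ d ∈ Ioc 0 y, χ (d : ZMod W) *
        (((if d.Prime then 0 else vonMangoldt d) / (d : ℝ) : ℝ) : ℂ)‖ ≤ C' := by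
      refine (norm_sum_le _ _).trans (le_trans (sum_le_sum fun d _ => ?_) (hC' y))
      have a1 : 0 ≤ (if d.Prime then 0 else vonMangoldt d) / (d : ℝ) := by
        have := vonMangoldt_nonneg (n := d)
        positivity
      rw [norm_mul, Complex.norm_real, norm_of_nonneg a1]
      exact mul_le_of_le_one_left a1 (χ.norm_le_one _)
    rw [if_neg hχ, Complex.ofReal_zero, sub_zero]
    refine le_trans (le_of_eq ?_) ((norm_sub_le _ _).trans (add_le_add (hC y) h1))
    congr 1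
    rw [← sum_sub_distrib]
    refine sum_congr rfl fun d _ => ?_
    split_ifs with h
    · rw [vonMangoldt_apply_prime h]; push_cast; ring
    · push_cast; ring

theorem map_class {W : ℕ} (hW : 0 < W) : ∃ C : ℝ, ∀ a y : ℕ, Nat.Coprime a W → 1 ≤ y →
    |∑ n ∈ Ioc 0 y, (if n.Prime ∧ n ≡ a [MOD W] then log n / n else 0) -
      1 / (Nat.totient W : ℝ) * log y| ≤ C := by
  classical
  have : NeZero W := ⟨hW.ne'⟩
  choose C hC using fun χ : DirichletCharacter ℂ W => map_char χ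
  refine ⟨∑ χ, C χ, fun a y ha hy => ?_⟩
  have hφ : (1 : ℝ) ≤ Nat.totient W := by exact_mod_cast Nat.totient_pos.2 hW
  have hu : IsUnit (a : ZMod W) := (ZMod.isUnit_iff_coprime a W).2 ha
  have hu' : IsUnit (a : ZMod W)⁻¹ := IsUnit.of_mul_eq_one _ (ZMod.inv_mul_of_unit _ hu)
  have h1 : ∑ χ : DirichletCharacter ℂ W, χ (a : ZMod W)⁻¹ *
      (∑ d ∈ Ioc 0 y, χ (d : ZMod W) * ((if d.Prime then log d / d else 0 : ℝ) : ℂ) -
        if χ = 1 then (log y : ℝ) else 0) =
      ((Nat.totient W * (∑ n ∈ Ioc 0 y, (if n.Prime ∧ n ≡ a [MOD W] then log n / n else 0) -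
        1 / (Nat.totient W : ℝ) * log y) : ℝ) : ℂ) := by
    have a1 : ∑ χ : DirichletCharacter ℂ W, χ (a : ZMod W)⁻¹ *
        ((if χ = 1 then (log y : ℝ) else 0 : ℝ) : ℂ) = (log y : ℝ) := by
      rw [sum_eq_single 1 (fun χ _ h => by simp [h]) (by simp), MulChar.one_apply hu', if_pos rfl,
        one_mul]
    have a2 : (Nat.totient W : ℝ) * (1 / (Nat.totient W : ℝ) * log y) = log y := by field_simp
    simp only [mul_sub, sum_sub_distrib, a1, a2, mul_sum, Complex.ofReal_sub, Complex.ofReal_sum]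
    congr 1
    rw [sum_comm]
    refine sum_congr rfl fun d _ => ?_
    simp only [← mul_assoc, ← sum_mul]
    rw [DirichletCharacter.sum_char_inv_mul_char_eq ℂ hu]
    by_cases h : d ≡ a [MOD W]
    · rw [if_pos ((ZMod.natCast_eq_natCast_iff _ _ _).2 h.symm)]
      by_cases hp : d.Prime <;> simp [h, hp]
    · rw [if_neg fun h' => h ((ZMod.natCast_eq_natCast_iff _ _ _).1 h').symm]
      simp [h]
  have h2 := congrArg norm h1
  rw [Complex.norm_real, norm_mul, norm_of_nonneg (Nat.cast_nonneg _), Real.norm_eq_abs] at h2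
  refine (le_mul_of_one_le_left (abs_nonneg _) hφ).trans (h2.symm.trans_le ?_)
  refine (norm_sum_le _ _).trans (sum_le_sum fun χ _ => ?_)
  rw [norm_mul]
  exact (mul_le_of_le_one_left (norm_nonneg _) (χ.norm_le_one _)).trans (hC χ y hy)

/-- Mertens' first theorem in a fixed arithmetic progression. -/
theorem mertens_ap {W : ℕ} (hW : 0 < W) :
    ∃ C : ℝ, 0 ≤ C ∧ ∀ (a N : ℕ) (x : ℝ), Nat.Coprime a W → 0 ≤ x → exp x ≤ N →
      |∑ n ∈ (range N).filter (fun n : ℕ => log n < x),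
          (if n.Prime ∧ n ≡ a [MOD W] then log n / n else 0) - 1 / (Nat.totient W : ℝ) * x|
        ≤ C := by
  obtain ⟨C, hC⟩ := map_class hW
  refine ⟨|C| + 2, by positivity, fun a N x ha hx hN => ?_⟩
  have hφ : (1 : ℝ) ≤ Nat.totient W := by exact_mod_cast Nat.totient_pos.2 hW
  set K := ⌈exp x⌉₊ with hK
  have h1 : 1 ≤ exp x := one_le_exp hx
  have hK1 : 1 ≤ K := Nat.ceil_pos.2 (exp_pos x)
  have h2 : x ≤ log K := (le_log_iff_exp_le (by exact_mod_cast hK1)).2 (Nat.le_ceil _)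
  have h3 : log K ≤ x + 1 := by
    rw [log_le_iff_le_exp (by exact_mod_cast hK1), exp_add]
    have := (Nat.ceil_lt_add_one (exp_pos x).le).le
    have := add_one_le_exp 1
    nlinarith
  have h4 : ∑ n ∈ (range N).filter (fun n : ℕ => log n < x),
      (if n.Prime ∧ n ≡ a [MOD W] then log n / n else 0) =
        ∑ n ∈ Ioo 0 K, (if n.Prime ∧ n ≡ a [MOD W] then log n / n else 0) := by
    symm
    refine sum_subset (fun n hn => ?_) fun n hn hn' => if_neg fun h => hn' ?_
    · have a1 := mem_Ioo.1 hn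
      exact mem_filter.2 ⟨mem_range.2 (a1.2.trans_le (Nat.ceil_le.2 hN)),
        (log_lt_iff_lt_exp (by exact_mod_cast a1.1)).2 (Nat.lt_ceil.1 a1.2)⟩
    · exact mem_Ioo.2 ⟨h.1.pos, Nat.lt_ceil.2
        ((log_lt_iff_lt_exp (by exact_mod_cast h.1.pos)).1 (mem_filter.1 hn).2)⟩
  have h5 := hC a K ha hK1
  rw [← Ioo_insert_right hK1, sum_insert right_notMem_Ioo] at h5
  have h6 : 0 ≤ (if K.Prime ∧ K ≡ a [MOD W] then log K / K else 0) := by
    have := log_natCast_nonneg K
    positivity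
  have h7 : (if K.Prime ∧ K ≡ a [MOD W] then log K / K else 0) ≤ 1 := by
    split_ifs
    · exact div_le_one_of_le₀ (log_le_self (Nat.cast_nonneg K)) (Nat.cast_nonneg K)
    · exact zero_le_one
  have h8 : 1 / (Nat.totient W : ℝ) ≤ 1 := div_le_one_of_le₀ hφ (by linarith)
  have h9 : 0 ≤ 1 / (Nat.totient W : ℝ) := by positivity
  have h10 : 1 / (Nat.totient W : ℝ) * (log K - x) ≤ 1 :=
    mul_le_one₀ h8 (by linarith) (by linarith)
  have h11 : 0 ≤ 1 / (Nat.totient W : ℝ) * (log K - x) := mul_nonneg h9 (by linarith)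
  rw [h4, abs_le]
  rw [abs_le] at h5
  constructor <;> linarith [h5.1, h5.2, le_abs_self C]

end Pool.Agent.Lib.Tup
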