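import Pool.Agent.Lib.Tup.Basic

namespace Pool.Agent.Lib.Tup
open Finset Real Filter

/-- The error of the test on the window `[s, t)`. -/
noncomputable def ltErr (ρ l : ℝ) (N : ℕ) (a : ℕ → ℝ) (φ : ℝ → ℝ) (s t : ℝ) : ℝ :=
  ∑ n ∈ (range N).filter (fun n : ℕ => s * l ≤ log n ∧ log n < t * l), a n * φ (log n / l)
    - ρ * l * ∫ x in s..t, φ x

theorem sum_window_split (N : ℕ) (g : ℕ → ℝ) {x y z : ℝ} (hxy : x ≤ y) (hyz : y ≤ z) :
    ∑ n ∈ (range N).filter (fun n : ℕ => x ≤ log n ∧ log n < z), g n =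
      ∑ n ∈ (range N).filter (fun n : ℕ => x ≤ log n ∧ log n < y), g n +
      ∑ n ∈ (range N).filter (fun n : ℕ => y ≤ log n ∧ log n < z), g n := by
  simp only [sum_filter]
  rw [← sum_add_distrib]
  refine sum_congr rfl fun n _ => ?_
  by_cases h1 : log n < y
  · have h2 : ¬ y ≤ log n := not_le.2 h1
    have h3 : log n < z := lt_of_lt_of_le h1 hyz
    simp [h1, h2, h3]
  · have h2 : y ≤ log n := not_lt.1 h1
    have h3 : x ≤ log n := hxy.trans h2
    simp [h1, h2, h3]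

theorem sum_window_sub (N : ℕ) (g : ℕ → ℝ) {x y : ℝ} (hxy : x ≤ y) :
    ∑ n ∈ (range N).filter (fun n : ℕ => x ≤ log n ∧ log n < y), g n =
      ∑ n ∈ (range N).filter (fun n : ℕ => log n < y), g n -
      ∑ n ∈ (range N).filter (fun n : ℕ => log n < x), g n := by
  simp only [sum_filter]
  rw [← sum_sub_distrib]
  refine sum_congr rfl fun n _ => ?_
  by_cases h1 : log n < x
  · have h2 : ¬ x ≤ log n := not_le.2 h1
    have h3 : log n < y := lt_of_lt_of_le h1 hxy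
    simp [h1, h2, h3]
  · have h2 : x ≤ log n := not_lt.1 h1
    simp [h1, h2]

theorem contOn_of_lip {φ : ℝ → ℝ} {u v B : ℝ} (hB : 0 ≤ B)
    (h : ∀ s ∈ Set.Icc u v, ∀ t ∈ Set.Icc u v, |φ s - φ t| ≤ B * |s - t|) :
    ContinuousOn φ (Set.Icc u v) := by
  have : LipschitzOnWith ⟨B, hB⟩ φ (Set.Icc u v) :=
    LipschitzOnWith.of_dist_le_mul fun s hs t ht => by
      rw [Real.dist_eq, Real.dist_eq]; exact h s hs t ht
  exact this.continuousOn

theorem ltErr_add {ρ l : ℝ} (hl : 0 ≤ l) (N : ℕ) (a : ℕ → ℝ) {φ : ℝ → ℝ} {x y z : ℝ}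
    (hxy : x ≤ y) (hyz : y ≤ z) (hc : ContinuousOn φ (Set.Icc x z)) :
    ltErr ρ l N a φ x z = ltErr ρ l N a φ x y + ltErr ρ l N a φ y z := by
  unfold ltErr
  rw [sum_window_split N _ (mul_le_mul_of_nonneg_right hxy hl) (mul_le_mul_of_nonneg_right hyz hl),
    ← intervalIntegral.integral_add_adjacent_intervals (a := x) (b := y) (c := z)
      ((hc.mono (Set.Icc_subset_Icc_right hyz)).intervalIntegrable_of_Icc hxy)
      ((hc.mono (Set.Icc_subset_Icc_left hxy)).intervalIntegrable_of_Icc hyz)]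
  ring

theorem ltErr_piece {ρ C l B : ℝ} (hl : 0 < l) {N : ℕ} {a : ℕ → ℝ} {φ : ℝ → ℝ} {s t : ℝ}
    (ha : ∀ n, 0 ≤ a n)
    (hA : ∀ x, 0 ≤ x → x ≤ 5 * l →
        |∑ n ∈ (range N).filter (fun n : ℕ => log n < x), a n - ρ * x| ≤ C)
    (hs : 0 ≤ s) (hst : s ≤ t) (ht : t ≤ 5) (hb : ∀ x ∈ Set.Icc s t, |φ x| ≤ B)
    (hlip : ∀ x ∈ Set.Icc s t, ∀ y ∈ Set.Icc s t, |φ x - φ y| ≤ B * |x - y|) :
    |ltErr ρ l N a φ s t| ≤ B * (2 * |ρ| * l * (t - s) ^ 2 + 2 * C * (t - s) + 2 * C) := by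
  have hsI : s ∈ Set.Icc s t := ⟨le_rfl, hst⟩
  have hB : 0 ≤ B := (abs_nonneg _).trans (hb s hsI)
  have hδ : 0 ≤ t - s := sub_nonneg.2 hst
  set F := (range N).filter (fun n : ℕ => s * l ≤ log n ∧ log n < t * l) with hF
  set m := ∑ n ∈ F, a n with hm
  have hm1 : |m - ρ * l * (t - s)| ≤ 2 * C := by
    have h1 := hA (t * l) (by nlinarith) (by nlinarith)
    have h2 := hA (s * l) (by nlinarith) (by nlinarith)
    rw [hm, hF, sum_window_sub N a (mul_le_mul_of_nonneg_right hst hl.le)]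
    rw [abs_le] at h1 h2 ⊢
    constructor <;> nlinarith [h1.1, h1.2, h2.1, h2.2]
  have hm2 : m ≤ |ρ| * l * (t - s) + 2 * C := by
    have h1 := (abs_le.1 hm1).2
    have h2 : ρ * l * (t - s) ≤ |ρ| * l * (t - s) :=
      mul_le_mul_of_nonneg_right (mul_le_mul_of_nonneg_right (le_abs_self ρ) hl.le) hδ
    linarith
  have e1 : |∑ n ∈ F, a n * φ (log n / l) - φ s * m| ≤ B * (t - s) * m := by
    rw [hm, mul_sum, mul_sum, ← sum_sub_distrib]
    refine (abs_sum_le_sum_abs _ _).trans (sum_le_sum fun n hn => ?_)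
    have hn' := (mem_filter.1 hn).2
    have h1 : s ≤ log n / l := by rw [le_div_iff₀ hl]; exact hn'.1
    have h2 : log n / l ≤ t := by rw [div_le_iff₀ hl]; exact hn'.2.le
    have h3 := hlip _ ⟨h1, h2⟩ s hsI
    have h4 : |log n / l - s| ≤ t - s := by rw [abs_of_nonneg (by linarith)]; linarith
    have h5 : |φ (log n / l) - φ s| ≤ B * (t - s) := h3.trans (mul_le_mul_of_nonneg_left h4 hB)
    rw [show a n * φ (log n / l) - φ s * a n = (φ (log n / l) - φ s) * a n by ring, abs_mul,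
      abs_of_nonneg (ha n)]
    exact mul_le_mul_of_nonneg_right h5 (ha n)
  have e2 : |φ s * m - φ s * (ρ * l * (t - s))| ≤ B * (2 * C) := by
    rw [← mul_sub, abs_mul]
    exact mul_le_mul (hb s hsI) hm1 (abs_nonneg _) hB
  have e3 : |(∫ x in s..t, φ x) - (t - s) * φ s| ≤ B * (t - s) * (t - s) := by
    have hc := contOn_of_lip hB hlip
    have h1 : (∫ x in s..t, φ x) - (t - s) * φ s = ∫ x in s..t, (φ x - φ s) := by
      rw [intervalIntegral.integral_sub (hc.intervalIntegrable_of_Icc hst) intervalIntegrable_const,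
        intervalIntegral.integral_const, smul_eq_mul]
    rw [h1]
    have h2 := intervalIntegral.norm_integral_le_of_norm_le_const (a := s) (b := t)
      (f := fun x => φ x - φ s) (C := B * (t - s)) (fun x hx => by
        rw [Set.uIoc_of_le hst] at hx
        have h3 := hlip x ⟨hx.1.le, hx.2⟩ s hsI
        have h4 : |x - s| ≤ t - s := by
          rw [abs_of_nonneg (by linarith [hx.1])]; linarith [hx.2]
        rw [Real.norm_eq_abs]
        exact h3.trans (mul_le_mul_of_nonneg_left h4 hB))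
    rwa [Real.norm_eq_abs, abs_of_nonneg hδ] at h2
  have e4 : |φ s * (ρ * l * (t - s)) - ρ * l * ∫ x in s..t, φ x|
      ≤ |ρ| * l * (B * (t - s) * (t - s)) := by
    rw [show φ s * (ρ * l * (t - s)) - ρ * l * ∫ x in s..t, φ x
      = -(ρ * l) * ((∫ x in s..t, φ x) - (t - s) * φ s) by ring, abs_mul, abs_neg, abs_mul,
      abs_of_pos hl]
    exact mul_le_mul_of_nonneg_left e3 (by positivity)
  have e5 : B * (t - s) * m ≤ B * (t - s) * (|ρ| * l * (t - s) + 2 * C) :=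
    mul_le_mul_of_nonneg_left hm2 (by positivity)
  have e6 : ltErr ρ l N a φ s t = (∑ n ∈ F, a n * φ (log n / l) - φ s * m)
      + (φ s * m - φ s * (ρ * l * (t - s)))
      + (φ s * (ρ * l * (t - s)) - ρ * l * ∫ x in s..t, φ x) := by
    unfold ltErr; ring
  rw [e6]
  refine (abs_add_three _ _ _).trans ?_
  nlinarith [e1, e2, e4, e5]

/-- Testing a counting function of logarithmic density `ρ` against a Lipschitz function. -/
theorem lip_test (ρ C : ℝ) {ε : ℝ} (hε : 0 < ε) :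
    ∀ᶠ l : ℝ in atTop, ∀ (N : ℕ) (a : ℕ → ℝ) (u v B : ℝ) (φ : ℝ → ℝ), (∀ n, 0 ≤ a n) →
      (∀ x, 0 ≤ x → x ≤ 5 * l →
        |∑ n ∈ (range N).filter (fun n : ℕ => log n < x), a n - ρ * x| ≤ C) →
      0 ≤ u → u ≤ v → v ≤ 5 → (∀ s ∈ Set.Icc u v, |φ s| ≤ B) →
      (∀ s ∈ Set.Icc u v, ∀ t ∈ Set.Icc u v, |φ s - φ t| ≤ B * |s - t|) →
      |∑ n ∈ (range N).filter (fun n : ℕ => u * l ≤ log n ∧ log n < v * l), a n * φ (log n / l)
          - ρ * l * ∫ s in u..v, φ s| ≤ ε * l * B := by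
  obtain ⟨J, hJ⟩ := exists_nat_gt (100 * |ρ| / ε)
  have hJ0 : (0 : ℝ) < J := lt_of_le_of_lt (by positivity) hJ
  filter_upwards [eventually_gt_atTop (0 : ℝ),
    eventually_ge_atTop (2 * (10 * C + 2 * C * J) / ε)] with l hl hl2
  intro N a u v B φ ha hA hu huv hv hb hlip
  have hB : 0 ≤ B := (abs_nonneg _).trans (hb u ⟨le_rfl, huv⟩)
  have hC : 0 ≤ C := (abs_nonneg _).trans (hA 0 le_rfl (by positivity))
  have hc := contOn_of_lip hB hlip
  set δ := (v - u) / J with hδ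
  have hδ0 : 0 ≤ δ := div_nonneg (sub_nonneg.2 huv) hJ0.le
  have hδJ : J * δ = v - u := by rw [hδ]; field_simp
  set E := B * (2 * |ρ| * l * δ ^ 2 + 2 * C * δ + 2 * C) with hE
  have key : ∀ j : ℕ, j ≤ J → |ltErr ρ l N a φ u (u + j * δ)| ≤ j * E := by
    intro j
    induction j with
    | zero =>
      intro _
      have : (range N).filter (fun n : ℕ => u * l ≤ log n ∧ log n < u * l) = ∅ :=
        filter_eq_empty_iff.2 fun n _ h => absurd h.2 (not_lt.2 h.1)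
      simp [ltErr, this]
    | succ j ih =>
      intro hj
      have hj1 : ((j + 1 : ℕ) : ℝ) ≤ J := by exact_mod_cast hj
      have hj0 : (0 : ℝ) ≤ j := Nat.cast_nonneg j
      have h1 : u ≤ u + j * δ := by nlinarith
      have h2 : u + j * δ ≤ u + ((j + 1 : ℕ) : ℝ) * δ := by push_cast; nlinarith
      have h3 : u + ((j + 1 : ℕ) : ℝ) * δ ≤ v := by nlinarith
      have hsub : Set.Icc (u + j * δ) (u + ((j + 1 : ℕ) : ℝ) * δ) ⊆ Set.Icc u v :=
        Set.Icc_subset_Icc h1 h3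
      rw [ltErr_add hl.le N a h1 h2 (hc.mono (Set.Icc_subset_Icc_right h3))]
      have h4 := ltErr_piece hl ha hA (hu.trans h1) h2 (h3.trans hv) (fun x hx => hb x (hsub hx))
        (fun x hx y hy => hlip x (hsub hx) y (hsub hy))
      rw [show u + ((j + 1 : ℕ) : ℝ) * δ - (u + j * δ) = δ by push_cast; ring] at h4
      refine (abs_add_le _ _).trans ?_
      have h5 := ih (Nat.le_of_succ_le hj)
      push_cast at h4 ⊢
      linarith
  have h1 := key J le_rfl
  rw [hδJ, show u + (v - u) = v by ring] at h1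
  refine le_trans h1 ?_
  have h5 : v - u ≤ 5 := by linarith
  have h6 : 0 ≤ v - u := sub_nonneg.2 huv
  have h7 : (J : ℝ) * δ ^ 2 ≤ 25 / J := by
    rw [le_div_iff₀ hJ0]
    have : (J : ℝ) * δ ^ 2 * J = (J * δ) ^ 2 := by ring
    rw [this, hδJ]; nlinarith
  have h8 : 50 * |ρ| / J ≤ ε / 2 := by
    rw [div_lt_iff₀ hε] at hJ
    rw [div_le_iff₀ hJ0]; nlinarith
  have h9 : 10 * C + 2 * C * J ≤ ε * l / 2 := by
    rw [div_le_iff₀ hε] at hl2; nlinarith
  have h10 : J * (2 * |ρ| * l * δ ^ 2 + 2 * C * δ + 2 * C) ≤ ε * l := by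
    have a1 : 2 * |ρ| * l * (J * δ ^ 2) ≤ 2 * |ρ| * l * (25 / J) :=
      mul_le_mul_of_nonneg_left h7 (by positivity)
    have a2 : 2 * |ρ| * l * (25 / J) = (50 * |ρ| / J) * l := by ring
    have a3 : (50 * |ρ| / J) * l ≤ ε / 2 * l := mul_le_mul_of_nonneg_right h8 hl.le
    have a4 : 2 * C * (J * δ) ≤ 10 * C := by rw [hδJ]; nlinarith
    nlinarith
  calc (J : ℝ) * E = B * (J * (2 * |ρ| * l * δ ^ 2 + 2 * C * δ + 2 * C)) := by rw [hE]; ring
    _ ≤ B * (ε * l) := mul_le_mul_of_nonneg_left h10 hB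
    _ = ε * l * B := by ring

end Pool.Agent.Lib.Tup
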