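import Pool.Agent.Lib.Tup.MAP
import Pool.Agent.Lib.Tup.LT

namespace Pool.Agent.Lib.Tup
open Finset Real Filter

theorem inner_lip {ψ : ℝ → ℝ} {s0 s1 : ℝ} (hψ : Bump ψ s0 s1) (τ : ℝ) {s t : ℝ}
    (hs : 4 / 5 ≤ s) (ht : 4 / 5 ≤ t) : |ψ (τ + s) / s - ψ (τ + t) / t| ≤ 3 * |s - t| := by
  have hs0 : 0 < s := by linarith
  have ht0 : 0 < t := by linarith
  have h1 : ψ (τ + s) / s - ψ (τ + t) / t =
      (ψ (τ + s) - ψ (τ + t)) * (1 / s) + ψ (τ + t) * (1 / s * (1 / t)) * (t - s) := by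
    field_simp; ring
  have h2 : 1 / s ≤ 5 / 4 := by rw [div_le_iff₀ hs0]; linarith
  have h3 : 1 / t ≤ 5 / 4 := by rw [div_le_iff₀ ht0]; linarith
  have h4 := hψ.lip (τ + s) (τ + t)
  rw [add_sub_add_left_eq_sub] at h4
  have h5 : ψ (τ + t) * (1 / s * (1 / t)) ≤ 1 * (5 / 4 * (5 / 4)) := by
    have := hψ.le_one (τ + t)
    gcongr
  have h6 : 0 ≤ ψ (τ + t) * (1 / s * (1 / t)) := by
    have := hψ.nonneg (τ + t)
    positivity
  rw [h1]
  refine (abs_add_le _ _).trans ?_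
  rw [abs_mul, abs_mul (_ * _), abs_of_nonneg h6, abs_of_pos (one_div_pos.2 hs0), abs_sub_comm t s]
  have h7 := mul_le_mul h4 h2 (one_div_pos.2 hs0).le (abs_nonneg _)
  have h8 := mul_le_mul_of_nonneg_right h5 (abs_nonneg (s - t))
  linarith [abs_nonneg (s - t)]

theorem inner_int {ψ : ℝ → ℝ} {s0 s1 : ℝ} (hψ : Bump ψ s0 s1) {τ : ℝ} (hτ : τ ≤ 3) :
    (∫ s in s0..s1, ψ s) / (s1 - τ) ≤ ∫ s in (s0 - τ)..(s1 - τ), ψ (τ + s) / s := by
  have hc : Continuous ψ := (LipschitzWith.of_dist_le_mul (K := 1) fun s t => by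
    simpa [Real.dist_eq] using hψ.lip s t).continuous
  have hle : s0 - τ ≤ s1 - τ := by linarith [hψ.le]
  have h1 : ∫ s in s0..s1, ψ s = ∫ s in (s0 - τ)..(s1 - τ), ψ (τ + s) := by
    rw [intervalIntegral.integral_comp_add_left]
    congr 1 <;> ring
  have hc' : Continuous fun s => ψ (τ + s) := by fun_prop
  rw [h1, ← intervalIntegral.integral_div]
  refine intervalIntegral.integral_mono_on hle ((hc'.div_const _).intervalIntegrable _ _)
    (ContinuousOn.intervalIntegrable_of_Icc hle (hc'.continuousOn.div continuousOn_id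
      fun s hs => ?_)) fun s hs => div_le_div_of_nonneg_left (hψ.nonneg _) ?_ hs.2
  · have : 0 < s := by linarith [hs.1, hψ.lo]
    exact this.ne'
  · linarith [hs.1, hψ.lo]

/-- The sum over the largest prime factor. -/
theorem inner_ge {ψ : ℝ → ℝ} {s0 s1 : ℝ} (hψ : Bump ψ s0 s1) {W : ℕ} (hW : 0 < W)
    {ε : ℝ} (hε : 0 < ε) :
    ∀ᶠ l : ℝ in atTop, ∀ k b : ℕ, k ≠ 0 → Nat.Coprime k W → Nat.Coprime b W → log k ≤ 3 * l →
      ((∫ s in s0..s1, ψ s) / (s1 - log k / l) - ε) / (Nat.totient W : ℝ)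
        ≤ ∑ p ∈ (range (NN l)).filter (fun p => p.Prime ∧ k * p ≡ b [MOD W] ∧ ¬ p ∣ k),
            ψ (log (k * p : ℕ) / l) / p := by
  obtain ⟨C, -, hC⟩ := mertens_ap hW
  have hφ : (0 : ℝ) < Nat.totient W := by exact_mod_cast Nat.totient_pos.2 hW
  set ρ : ℝ := 1 / Nat.totient W with hρ
  have hρ0 : 0 < ρ := by positivity
  have t1 : Tendsto (fun l : ℝ => exp (-(4 / 5 * l))) atTop (nhds 0) :=
    tendsto_exp_neg_atTop_nhds_zero.comp (tendsto_id.const_mul_atTop (by norm_num))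
  filter_upwards [lip_test ρ C (ε := ρ * ε / 6) (by positivity), eventually_gt_atTop 0,
    t1.eventually_le_const (show 0 < ρ * ε / 8 by positivity)] with l h1 hl h2 k b hk hkW hbW hkl
  set τ := log k / l with hτ
  have hτ0 : 0 ≤ τ := div_nonneg (log_natCast_nonneg k) hl.le
  have hτ3 : τ ≤ 3 := (div_le_iff₀ hl).2 hkl
  obtain ⟨a, ha⟩ : ∃ a : ℕ, k * a ≡ b [MOD W] := by
    have : NeZero W := ⟨hW.ne'⟩
    refine ⟨((k : ZMod W)⁻¹ * b).val, (ZMod.natCast_eq_natCast_iff _ _ _).1 ?_⟩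
    push_cast
    rw [ZMod.natCast_zmod_val, ← mul_assoc, ZMod.coe_mul_inv_eq_one k hkW, one_mul]
  have haW : Nat.Coprime a W := by
    have : Nat.Coprime (k * a) W := by
      rw [Nat.Coprime, ha.gcd_eq]; exact hbW
    exact this.coprime_mul_left
  have hu : 4 / 5 ≤ s0 - τ := by linarith [hψ.lo]
  have h3 := h1 (NN l) (fun n => if n.Prime ∧ n ≡ a [MOD W] then log n / n else 0) (s0 - τ)
    (s1 - τ) 3 (fun s => ψ (τ + s) / s)
    (fun n => by
      have := log_natCast_nonneg n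
      positivity)
    (fun x hx hx' => hC a _ x haW hx ((exp_le_exp.2 hx').trans (Nat.le_ceil _)))
    (by linarith) (by linarith [hψ.le]) (by linarith [hψ.hi])
    (fun s hs => by
      have a1 : 0 < s := by linarith [hs.1]
      rw [abs_of_nonneg (div_nonneg (hψ.nonneg _) a1.le), div_le_iff₀ a1]
      linarith [hs.1, hψ.le_one (τ + s)])
    (fun s hs t ht => inner_lip hψ τ (hu.trans hs.1) (hu.trans ht.1))
  have h4 : ∑ n ∈ (range (NN l)).filter
        (fun n : ℕ => (s0 - τ) * l ≤ log n ∧ log n < (s1 - τ) * l),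
      (if n.Prime ∧ n ≡ a [MOD W] then log n / n else 0) * (ψ (τ + log n / l) / (log n / l)) ≤
      l * ∑ p ∈ (range (NN l)).filter (fun p => p.Prime ∧ k * p ≡ b [MOD W] ∧ ¬ p ∣ k),
          ψ (log (k * p : ℕ) / l) / p +
        5 / 4 * exp (-(4 / 5 * l)) * ∑ p ∈ k.primeFactors, log p := by
    have a1 : ∑ p ∈ k.primeFactors, log p =
        ∑ p ∈ (range (NN l)).filter (fun p => p ∈ k.primeFactors), log p := by
      refine sum_congr ?_ fun _ _ => rfl
      ext p
      rw [mem_filter, and_iff_right_iff_imp.2]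
      intro hp
      have b1 := Nat.pos_of_mem_primeFactors hp
      rw [mem_range, lt_NN b1.ne']
      have : log p ≤ log k :=
        log_le_log (by exact_mod_cast b1) (by exact_mod_cast Nat.le_of_mem_primeFactors hp)
      linarith
    rw [a1, sum_filter, sum_filter, sum_filter, mul_sum, mul_sum, ← sum_add_distrib]
    refine sum_le_sum fun n _ => ?_
    have b1 : 0 ≤ l * if n.Prime ∧ k * n ≡ b [MOD W] ∧ ¬ n ∣ k then
        ψ (log (k * n : ℕ) / l) / n else 0 := by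
      have := hψ.nonneg (log (k * n : ℕ) / l)
      positivity
    have b2 : 0 ≤ 5 / 4 * exp (-(4 / 5 * l)) * if n ∈ k.primeFactors then log n else 0 := by
      have := log_natCast_nonneg n
      positivity
    by_cases c1 : (s0 - τ) * l ≤ log n ∧ log n < (s1 - τ) * l
    swap
    · rw [if_neg c1]; exact add_nonneg b1 b2
    by_cases c2 : n.Prime ∧ n ≡ a [MOD W]
    swap
    · rw [if_pos c1, if_neg c2, zero_mul]; exact add_nonneg b1 b2
    have hn : (0 : ℝ) < n := by exact_mod_cast c2.1.pos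
    have c3 : 4 / 5 * l ≤ log n := (mul_le_mul_of_nonneg_right hu hl.le).trans c1.1
    have c4 : 0 < log n := by linarith
    have c5 : log n / n * (ψ (τ + log n / l) / (log n / l)) = l * (ψ (τ + log n / l) / n) := by
      field_simp
    rw [if_pos c1, if_pos c2, c5]
    by_cases c6 : n ∣ k
    · refine le_add_of_nonneg_of_le b1 ?_
      rw [if_pos (Nat.mem_primeFactors.2 ⟨c2.1, c6, hk⟩)]
      have d1 : ψ (τ + log n / l) / n ≤ exp (-(4 / 5 * l)) := by
        rw [exp_neg, ← one_div]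
        exact div_le_div₀ zero_le_one (hψ.le_one _) (exp_pos _) ((le_log_iff_exp_le hn).1 c3)
      calc _ ≤ l * exp (-(4 / 5 * l)) := mul_le_mul_of_nonneg_left d1 hl.le
        _ = 5 / 4 * exp (-(4 / 5 * l)) * (4 / 5 * l) := by ring
        _ ≤ _ := mul_le_mul_of_nonneg_left c3 (by positivity)
    · refine le_add_of_le_of_nonneg (le_of_eq ?_) b2
      rw [if_pos ⟨c2.1, (c2.2.mul_left k).trans ha, c6⟩, Nat.cast_mul,
        log_mul (by exact_mod_cast hk) hn.ne', add_div]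
  have h5 : 5 / 4 * exp (-(4 / 5 * l)) * ∑ p ∈ k.primeFactors, log p ≤
      5 / 4 * (ρ * ε / 8) * (3 * l) :=
    mul_le_mul (by linarith) ((Sieve.sum_log_primeFactors_le hk).trans hkl)
      (sum_nonneg fun p _ => log_natCast_nonneg p) (by positivity)
  have h6 := mul_le_mul_of_nonneg_left (inner_int hψ hτ3) (mul_pos hρ0 hl).le
  have h7 := (abs_le.1 h3).1
  have h8 : 0 < ρ * ε * l := by positivity
  rw [div_eq_mul_one_div _ (Nat.totient W : ℝ), ← hρ]
  refine le_of_mul_le_mul_left ?_ hl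
  linarith

end Pool.Agent.Lib.Tup
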