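import Pool.Agent.Lib.Tup.CoordB

namespace Pool.Agent.Lib.Tup
open Finset Real Filter

theorem fin_small {f : ℝ → ℝ} (hf : Continuous f) {ε : ℝ} (hε : 0 < ε) :
    ∃ e : ℝ, 0 < e ∧ |f e - f 0| ≤ ε := by
  obtain ⟨δ, hδ, h⟩ := Metric.continuous_iff.1 hf 0 ε hε
  refine ⟨δ / 2, by positivity, ?_⟩
  have := h (δ / 2) (by rw [Real.dist_eq, sub_zero, abs_of_pos (by positivity)]; linarith)
  rw [Real.dist_eq] at this
  exact this.le

theorem fin_int_nonneg {ψ : ℝ → ℝ} {s0 s1 : ℝ} (hψ : Bump ψ s0 s1) : 0 ≤ ∫ s in s0..s1, ψ s :=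
  intervalIntegral.integral_nonneg hψ.le fun s _ => hψ.nonneg s

/-- Upper bound for the total mass. -/
theorem total_le {κ : Type*} [Fintype κ] [DecidableEq κ] (c : κ → ℤ) (hc : Function.Injective c)
    {ψ : ℝ → ℝ} {s0 s1 : ℝ} (hψ : Bump ψ s0 s1) {n : ℕ} {h : ℝ} (hh : 0 < h)
    (F : (κ → Fin n) → ℝ) (hF : ∀ a, F a ≠ 0 → ∑ i, ((a i : ℝ) + 1) * h ≤ 5 / 3)
    {ε : ℝ} (hε : 0 < ε) :
    ∃ D1 : ℕ, ∀ D ≥ D1, ∀ᶠ l : ℝ in atTop, ∀ b : ℕ,
      ∑ m ∈ cls l (primorial D) b, wg ψ l m * (∑ a, F a * ∏ i, XC D l h (a i) (m + c i)) ^ 2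
        ≤ scale D l (Fintype.card κ) *
          ((∫ s in s0..s1, ψ s) * h ^ Fintype.card κ * ∑ a, F a ^ 2 + ε) := by
  set k := Fintype.card κ with hk
  set I := ∫ s in s0..s1, ψ s with hI
  have hI0 : 0 ≤ I := fin_int_nonneg hψ
  set K := ∑ a, |F a| with hK
  obtain ⟨e, he0, he⟩ := fin_small
    (f := fun e => (I + e) * (h + e) ^ k * ∑ a, F a ^ 2 + K * K * e) (by fun_prop) hε
  obtain ⟨D1, H1⟩ := prod_main c hc hψ he0
  obtain ⟨D2, H2⟩ := ipW_approx he0
  refine ⟨max D1 D2, fun D hD => ?_⟩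
  filter_upwards [H1 D (le_of_max_le_left hD), H2 D (le_of_max_le_right hD), TT_approx hψ he0,
    TT_le hψ, eventually_gt_atTop 0] with l h1 h2 h3 h4 hl b
  set L := cW D * l with hL
  have hL0 : 0 < L := mul_pos (cW_pos D) hl
  have hW := ma_W_pos D
  have hsc0 : 0 ≤ scale D l k := Co.scale_nonneg D hl.le k
  let Y : (κ → Fin n) → ℕ → ℝ := fun a m => ∏ i, XC D l h (a i) (m + c i)
  let B : (κ → Fin n) → (κ → Fin n) → ℝ := fun a a' =>
    ∑ m ∈ cls l (primorial D) b, wg ψ l m * (Y a m * Y a' m)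
      - TT ψ l / (primorial D : ℝ) * (if a = a' then Co.Nb D l h a else 0)
  have hB : ∀ a a', F a ≠ 0 → F a' ≠ 0 → |B a a'| ≤ e * scale D l k := by
    intro a a' ha ha'
    have := h1 b (fun i => a i * h) (fun i => (a i + 1) * h) (fun i => a' i * h)
      (fun i => (a' i + 1) * h) (fun i => by positivity) (fun i => by positivity)
      (by rw [sum_add_distrib]; linarith [hF a ha, hF a' ha'])
    rw [Co.prod_ipW_cells hh hl] at this
    simp only [B, Y, XC, ← prod_mul_distrib]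
    exact this
  have h5 := (le_abs_self _).trans (Co.abs_bil_le F F B hB)
  have h6 : ∑ a, ∑ a', F a * F a' * B a a'
      = ∑ m ∈ cls l (primorial D) b, wg ψ l m * (∑ a, F a * Y a m) ^ 2
        - TT ψ l / (primorial D : ℝ) * ∑ a, F a ^ 2 * Co.Nb D l h a := by
    simp only [sq]
    rw [Co.sum_mul_expand Y F F, mul_sum, ← sum_sub_distrib]
    refine sum_congr rfl fun a _ => ?_
    simp only [B, mul_sub, sum_sub_distrib, mul_ite, mul_zero, sum_ite_eq, mem_univ, if_true]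
    ring
  have h7 : ∑ a, F a ^ 2 * Co.Nb D l h a ≤ (L * (h + e)) ^ k * ∑ a, F a ^ 2 := by
    rw [mul_sum]
    refine sum_le_sum fun a _ => ?_
    by_cases ha : F a = 0
    · simp [ha]
    rw [mul_comm]
    refine mul_le_mul_of_nonneg_right ?_ (sq_nonneg _)
    rw [hk, ← card_univ, ← prod_const]
    refine prod_le_prod (fun i _ => Co.NC_nonneg D l h _) fun i _ => ?_
    have h8 := single_le_sum (f := fun i => ((a i : ℝ) + 1) * h) (fun i _ => by positivity)
      (mem_univ i)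
    have h9 := (abs_le.1 (h2 (a i * h) ((a i + 1) * h) (by positivity) (by nlinarith)
      (by linarith [hF a ha]))).2
    unfold NC
    nlinarith
  have h8 : TT ψ l ≤ l * (I + e) := by linarith [(abs_le.1 h3).2]
  have h9 : TT ψ l / (primorial D : ℝ) * ∑ a, F a ^ 2 * Co.Nb D l h a
      ≤ scale D l k * ((I + e) * (h + e) ^ k * ∑ a, F a ^ 2) := by
    refine (mul_le_mul (div_le_div_of_nonneg_right h8 hW.le) h7
      (sum_nonneg fun a _ => mul_nonneg (sq_nonneg _)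
        (prod_nonneg fun i _ => Co.NC_nonneg D l h _)) (by positivity)).trans (le_of_eq ?_)
    rw [scale, mul_pow]; ring
  have h10 := (abs_le.1 he).2
  simp only [add_zero, mul_zero] at h10
  rw [h6, ← hK] at h5
  have h11 := mul_le_mul_of_nonneg_left h10 hsc0
  change ∑ m ∈ cls l (primorial D) b, wg ψ l m * (∑ a, F a * Y a m) ^ 2 ≤ _
  nlinarith

/-- The pigeonhole step. -/
theorem final_step {κ : Type*} [Fintype κ] [DecidableEq κ] (H : κ → ℕ)
    (hH : Function.Injective H) (hadm : ∀ p : ℕ, p.Prime → ∃ r : ℕ, ∀ i, ¬ p ∣ r + H i)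
    {ψ : ℝ → ℝ} {s0 s1 : ℝ} (hψ : Bump ψ s0 s1) (h0 : 39 / 10 ≤ s0) (h1 : s1 ≤ 41 / 10)
    {n : ℕ} {h : ℝ} (hh : 0 < h) (F : (κ → Fin n) → ℝ)
    (hF : ∀ a, F a ≠ 0 → ∑ i, ((a i : ℝ) + 1) * h ≤ 5 / 3)
    (G : ℕ → ℝ) (hG0 : ∀ m, 0 ≤ G m) (hG1 : ∀ m, G m ≤ 1) {ρ : ℝ} (hρ : 0 ≤ ρ) (Λ : κ → ℝ)
    (hΛ : ∀ i, ∀ ε : ℝ, 0 < ε → ∃ D1 : ℕ, ∀ D ≥ D1, ∀ᶠ l : ℝ in atTop, ∀ b : ℕ,
      Nat.Coprime b (primorial D) →
      scale D l (Fintype.card κ) * (Λ i - ε) ≤ ∑ m ∈ cls l (primorial D) b, wg ψ l m *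
        (G m * (∑ a, F a * ∏ j, XC D l h (a j) (m + ((H j : ℤ) - H i))) ^ 2))
    (hlt : ρ * ((∫ s in s0..s1, ψ s) * h ^ Fintype.card κ * ∑ a, F a ^ 2) < ∑ i, Λ i) :
    {m : ℕ | ρ < ∑ i, G (m + H i)}.Infinite := by
  set k := Fintype.card κ with hk
  set T := (∫ s in s0..s1, ψ s) * h ^ k * ∑ a, F a ^ 2 with hT
  set T' := (∫ s in (19 / 5 : ℝ)..(21 / 5), big s) * h ^ k * ∑ a, F a ^ 2 with hT'
  obtain ⟨e, he0, he⟩ := fin_small (f := fun e => ρ * e + k * (e + e * (T' + 1))) (by fun_prop)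
    (ε := (∑ i, Λ i - ρ * T) / 2) (by linarith)
  have he1 := (abs_le.1 he).2
  simp only [mul_zero, zero_mul, add_zero, sub_zero] at he1
  have hc : Function.Injective fun i => (H i : ℤ) := fun i j e => hH (Int.natCast_inj.1 e)
  obtain ⟨D1, H1⟩ := total_le _ hc hψ hh F hF he0
  obtain ⟨D2, H2⟩ := total_le _ hc bump_big hh F hF one_pos
  choose D3 H3 using fun i => hΛ i e he0
  set D := max (max D1 D2) (univ.sup D3) with hD
  obtain ⟨b, hb⟩ := exists_class H hadm D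
  refine Set.infinite_of_forall_exists_gt fun N => ?_
  obtain ⟨l, a1, a2, a3, a4, a5, a6, hl, hN⟩ := ((H1 D (by omega)).and ((H2 D (by omega)).and
    ((eventually_all.2 fun i => H3 i D ((le_sup (mem_univ i)).trans (le_max_right _ _))).and
    ((eventually_all.2 fun i => wg_shift hψ h0 h1 (H i) he0).and
    ((eventually_all.2 fun i => sum_cls_shift hψ (H i)).and ((one_le_scale D k).and
    ((eventually_gt_atTop 0).and (eventually_gt_atTop (log (N + 1)))))))))).exists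
  by_contra hno
  push Not at hno
  let S : ℕ → ℝ := fun m => (∑ a, F a * ∏ j, XC D l h (a j) (m + (H j : ℤ))) ^ 2
  have hS : ∀ m, 0 ≤ S m := fun m => sq_nonneg _
  have b1 : ∀ i, scale D l k * (Λ i - (e + e * (T' + 1)))
      ≤ ∑ m ∈ cls l (primorial D) b, wg ψ l m * S m * G (m + H i) := by
    intro i
    have c1 := a3 i (b + H i) (hb i)
    rw [a5 i] at c1
    have c2 : ∑ m ∈ cls l (primorial D) b, wg ψ l (m + H i) * (G (m + H i) *
        (∑ a, F a * ∏ j, XC D l h (a j) ((m + H i : ℕ) + ((H j : ℤ) - H i))) ^ 2)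
        ≤ ∑ m ∈ cls l (primorial D) b,
          (wg ψ l m * S m * G (m + H i) + e * (wg big l m * S m)) := by
      refine sum_le_sum fun m _ => ?_
      have e1 : ∀ j, ((m + H i : ℕ) : ℤ) + ((H j : ℤ) - H i) = m + (H j : ℤ) := fun j => by
        push_cast; ring
      simp only [e1]
      change wg ψ l (m + H i) * (G (m + H i) * S m) ≤ _
      have c3 := (abs_le.1 (a4 i m)).2
      have c4 : 0 ≤ e * wg big l m := mul_nonneg he0.le (wg_nonneg bump_big l m)
      have c5 := mul_nonneg (hG0 (m + H i)) (hS m)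
      have c6 := mul_le_mul_of_nonneg_right (hG1 (m + H i)) (hS m)
      nlinarith [mul_le_mul_of_nonneg_right c3 c5, mul_le_mul_of_nonneg_left c6 c4]
    rw [sum_add_distrib, ← mul_sum] at c2
    have c7 := mul_le_mul_of_nonneg_left (a2 b) he0.le
    change e * ∑ m ∈ cls l (primorial D) b, wg big l m * S m ≤ _ at c7
    nlinarith
  have b2 := sum_le_sum fun i (_ : i ∈ univ) => b1 i
  rw [← mul_sum, sum_sub_distrib, sum_const, card_univ, ← hk, nsmul_eq_mul, sum_comm] at b2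
  have b3 : ∑ m ∈ cls l (primorial D) b, ∑ i, wg ψ l m * S m * G (m + H i)
      ≤ ρ * ∑ m ∈ cls l (primorial D) b, wg ψ l m * S m := by
    rw [mul_sum]
    refine sum_le_sum fun m _ => ?_
    rw [← mul_sum, mul_comm ρ]
    by_cases hm : ρ < ∑ i, G (m + H i)
    · have c1 : m ≤ N := hno m hm
      have c2 : log m ≤ log (N + 1) := by
        rcases Nat.eq_zero_or_pos m with rfl | h
        · simpa using log_nonneg (by linarith [(Nat.cast_nonneg N : (0 : ℝ) ≤ N)])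
        · exact log_le_log (by exact_mod_cast h) (by exact_mod_cast c1.trans (Nat.le_succ N))
      rw [wg_zero_lo hψ hl (by nlinarith)]
      simp
    · exact mul_le_mul_of_nonneg_left (not_lt.1 hm) (mul_nonneg (wg_nonneg hψ l m) (hS m))
  have b4 := mul_le_mul_of_nonneg_left (a1 b) hρ
  change ρ * ∑ m ∈ cls l (primorial D) b, wg ψ l m * S m ≤ _ at b4
  have b5 : scale D l k * (∑ i, Λ i - k * (e + e * (T' + 1))) ≤ scale D l k * (ρ * (T + e)) := by
    linarith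
  have b6 := le_of_mul_le_mul_left b5 (by linarith)
  linarith

end Pool.Agent.Lib.Tup
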