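import Pool.Agent.Lib.Tup.Coord
import Pool.Agent.Lib.Tup.Final
import Pool.Agent.Lib.Tup.Inner

namespace Pool.Agent.Lib.Tup
open Finset Real Filter

theorem may_XC_prime {D : ℕ} {l h : ℝ} {p : ℕ} (hp : p.Prime) (hl : 2 * l ≤ log p) (a : ℕ) :
    XC D l h a p = NC D l h a := by
  unfold XC NC XW X ipW
  refine sum_congr rfl fun A hA => ?_
  have h1 : chiP A p = wt A := by
    refine prod_congr rfl fun q hq => ?_
    have hq' := mem_PP.1 (mem_powerset.1 hA hq)
    rw [chi, if_neg]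
    intro hd
    have := (Nat.prime_dvd_prime_iff_eq hq'.1 hp).1 (Int.natCast_dvd_natCast.1 hd)
    subst this
    linarith [hq'.2.2]
  rw [h1]
  by_cases h2 : a * h * l ≤ sz A ∧ sz A < (a + 1) * h * l <;> simp only [win, h2] <;> simp

/-- Tent function of half width `d` centred at `4 + 2 d`. -/
noncomputable def tent (d s : ℝ) : ℝ := max 0 (d - |s - (4 + 2 * d)|)

theorem bump_tent {d : ℝ} (hd : 0 < d) (hd1 : d ≤ 1 / 30) :
    Bump (tent d) (4 + d) (4 + 3 * d) where
  lo := by linarith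
  le := by linarith
  hi := by linarith
  nonneg s := le_max_left _ _
  le_one s := max_le zero_le_one (by linarith [abs_nonneg (s - (4 + 2 * d))])
  lip s t := by
    unfold tent
    rw [max_comm 0, max_comm 0]
    refine (abs_max_sub_max_le_abs _ _ _).trans ?_
    have := abs_abs_sub_abs_le_abs_sub (t - (4 + 2 * d)) (s - (4 + 2 * d))
    rw [show d - |s - (4 + 2 * d)| - (d - |t - (4 + 2 * d)|)
      = |t - (4 + 2 * d)| - |s - (4 + 2 * d)| by ring]
    rw [show t - (4 + 2 * d) - (s - (4 + 2 * d)) = -(s - t) by ring, abs_neg] at this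
    exact this
  supp s hs := by
    have h : 0 < d - |s - (4 + 2 * d)| := by
      by_contra h
      exact hs (max_eq_left (not_lt.1 h))
    have := abs_lt.1 (show |s - (4 + 2 * d)| < d by linarith)
    constructor <;> linarith [this.1, this.2]

theorem int_tent_pos {d : ℝ} (hd : 0 < d) : 0 < ∫ s in (4 + d)..(4 + 3 * d), tent d s := by
  refine intervalIntegral.intervalIntegral_pos_of_pos_on
    (Continuous.intervalIntegrable (by unfold tent; fun_prop) _ _) (fun s hs => ?_) (by linarith)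
  refine lt_max_of_lt_right (sub_pos.2 (abs_lt.2 ⟨?_, ?_⟩)) <;> linarith [hs.1, hs.2]

open Classical in
/-- Lower bound for the prime coordinate. -/
theorem coord_prime {ι : Type*} [Fintype ι] [DecidableEq ι] (c : ι → ℤ) (hc0 : ∀ i, c i ≠ 0)
    (hc : Function.Injective c) {ψ : ℝ → ℝ} {s0 s1 : ℝ} (hψ : Bump ψ s0 s1) (h4 : 4 < s0)
    (h41 : s1 ≤ 41 / 10) {n : ℕ} {h : ℝ} (hh : 0 < h) (F : Fin n → (ι → Fin n) → ℝ)
    (good : (ι → Fin n) → Prop)
    (hF : ∀ a b, F a b ≠ 0 → ((a : ℝ) + 1) * h + ∑ i, ((b i : ℝ) + 1) * h ≤ 5 / 3 ∧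
      ∑ i, ((b i : ℝ) + 1) * h ≤ 3 / 2)
    (hlev : ∀ a b a' b', F a b ≠ 0 → good b → F a' b' ≠ 0 →
      ∑ i, (((b i : ℝ) + 1) * h + ((b' i : ℝ) + 1) * h) ≤ 2)
    {ε : ℝ} (hε : 0 < ε) :
    ∃ D1 : ℕ, ∀ D ≥ D1, ∀ᶠ l : ℝ in atTop, ∀ b0 : ℕ, Nat.Coprime b0 (primorial D) →
      scale D l (Fintype.card ι + 1) * ((∫ s in s0..s1, ψ s) / s1 * h ^ (Fintype.card ι + 2) *
          ∑ b ∈ univ.filter good, (∑ a, F a b) ^ 2 - ε)
        ≤ ∑ m ∈ cls l (primorial D) b0, wg ψ l m * ((if m.Prime then 1 else 0) *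
          (∑ a, ∑ b, F a b * (XC D l h a m * ∏ i, XC D l h (b i) (m + c i))) ^ 2) := by
  set k := Fintype.card ι with hk
  set J := (∫ s in s0..s1, ψ s) / s1 with hJ
  let g : ℕ → ℝ := fun r => if r ≤ 1 then 1 else 0
  have hg0 : ∀ r, 0 ≤ g r := fun r => by simp only [g]; split_ifs <;> norm_num
  obtain ⟨η0, hη0, H1⟩ := coord c hc0 hc hψ h4 h41 hh F good hF hlev g hg0
    (fun r => by simp only [g]; split_ifs <;> norm_num) (by simp [g]) (by simp [g])
    (ε := ε / 2) (by positivity)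
  set η := min η0 1 with hη
  have hη1 : 0 < η := lt_min hη0 one_pos
  obtain ⟨D1, H1⟩ := H1 η hη1 (min_le_left _ _)
  let Φ : ℝ × (Fin n → ℝ) → ℝ := fun z =>
    z.1 * ∑ b ∈ univ.filter good, (∏ i, z.2 (b i)) * (∑ a, F a b * z.2 a) ^ 2
  have hΦ : Continuous Φ := by fun_prop
  obtain ⟨δ, hδ, hΦ'⟩ := Metric.continuous_iff.1 hΦ (J, fun _ => h) (ε / 2) (by positivity)
  obtain ⟨D2, H2⟩ := ipW_approx (ε := δ / 2) (by positivity)
  refine ⟨max D1 D2, fun D hD => ?_⟩
  have hW := primorial_pos D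
  filter_upwards [H1 D (le_of_max_le_left hD), H2 D (le_of_max_le_right hD),
    inner_ge hψ hW (ε := δ / 2) (by positivity), eventually_gt_atTop 0]
    with l h1 h2 h3 hl b0 hb
  have h5 := h1 b0 hb
  have h6 := h3 1 b0 one_ne_zero (Nat.coprime_one_left _) hb (by simp; linarith)
  simp only [Nat.cast_one, log_one, zero_div, sub_zero, one_mul] at h6
  rw [← hJ] at h6
  set L := cW D * l with hL
  have hL0 : 0 < L := mul_pos (cW_pos D) hl
  have hφ : (0 : ℝ) < Nat.totient (primorial D) := by exact_mod_cast Nat.totient_pos.2 hW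
  have hW' := ma_W_pos D
  have hsc : scale D l (k + 1) = L ^ (k + 2) / Nat.totient (primorial D) := by
    rw [scale, ← hL, pow_succ L (k + 1)]
    nth_rewrite 3 [hL]
    rw [cW]; field_simp
  have hsc0 : 0 ≤ scale D l (k + 1) := Co.scale_nonneg D hl.le _
  let u : Fin n → ℝ := fun a => if ((a : ℝ) + 1) * h ≤ 2 then NC D l h a / L else h
  have hu : ∀ a, |u a - h| ≤ δ / 2 := fun a => by
    simp only [u]
    split_ifs with ha
    · have := h2 (a * h) ((a + 1) * h) (by positivity) (by nlinarith) ha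
      rw [show NC D l h a / L - h = (NC D l h a - L * ((a + 1) * h - a * h)) / L by
        field_simp; ring, abs_div, abs_of_pos hL0, div_le_iff₀ hL0]
      exact this
    · simp; positivity
  have h7 := hΦ' (J - δ / 2, u) (by
    rw [Prod.dist_eq, max_lt_iff, dist_pi_lt_iff hδ]
    refine ⟨?_, fun a => ?_⟩
    · rw [Real.dist_eq, show J - δ / 2 - J = -(δ / 2) by ring, abs_neg, abs_of_pos (by positivity)]
      linarith
    · rw [Real.dist_eq]; linarith [hu a])
  rw [Real.dist_eq] at h7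
  have h8 : Φ (J, fun _ => h) = J * h ^ (k + 2) * ∑ b ∈ univ.filter good, (∑ a, F a b) ^ 2 := by
    simp only [Φ, prod_const, card_univ, ← hk, ← sum_mul, mul_pow, mul_sum]
    exact sum_congr rfl fun b _ => by ring
  have hpos : ∀ (b : ι → Fin n), 0 ≤ ∑ i, ((b i : ℝ) + 1) * h := fun b =>
    sum_nonneg fun i _ => by positivity
  have h9 : ∀ b ∈ univ.filter good, (J - δ / 2) / Nat.totient (primorial D) *
      (L ^ (k + 2) * ((∏ i, u (b i)) * (∑ a, F a b * u a) ^ 2))
      ≤ (∏ i, NC D l h (b i)) * ∑ m ∈ (cls l (primorial D) b0).filter (RS η l),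
          wg ψ l m * g m.primeFactors.card * (∑ a, F a b * XC D l h a m) ^ 2 := by
    intro b _
    have hN0 : 0 ≤ ∏ i, NC D l h (b i) := prod_nonneg fun i _ => Co.NC_nonneg D l h _
    have e1 : L ^ (k + 2) * ((∏ i, u (b i)) * (∑ a, F a b * u a) ^ 2)
        = (∏ i, NC D l h (b i)) * (∑ a, F a b * NC D l h a) ^ 2 := by
      by_cases hb0 : ∀ a, F a b = 0
      · simp [hb0]
      push Not at hb0
      obtain ⟨a0, ha0⟩ := hb0
      have e2 : L ^ k * ∏ i, u (b i) = ∏ i, NC D l h (b i) := by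
        rw [hk, ← card_univ, ← prod_const, ← prod_mul_distrib]
        refine prod_congr rfl fun i _ => ?_
        have := single_le_sum (f := fun i => ((b i : ℝ) + 1) * h) (fun i _ => by positivity)
          (mem_univ i)
        simp only [u]
        rw [if_pos (by linarith [(hF _ _ ha0).2])]
        field_simp
      have e3 : L * ∑ a, F a b * u a = ∑ a, F a b * NC D l h a := by
        rw [mul_sum]
        refine sum_congr rfl fun a _ => ?_
        by_cases ha : F a b = 0
        · simp [ha]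
        simp only [u]
        rw [if_pos (by linarith [(hF _ _ ha).1, hpos b])]
        field_simp
      rw [← e2, ← e3]; ring
    rw [e1, mul_left_comm]
    refine mul_le_mul_of_nonneg_left ?_ hN0
    refine (mul_le_mul_of_nonneg_right h6 (sq_nonneg _)).trans ?_
    rw [sum_mul, sum_filter, sum_filter, cls, sum_filter]
    refine sum_le_sum fun p _ => ?_
    by_cases hp : p.Prime ∧ p ≡ b0 [MOD primorial D] ∧ ¬ p ∣ 1
    swap
    · rw [if_neg hp]
      split_ifs
      · exact mul_nonneg (mul_nonneg (wg_nonneg hψ l p) (hg0 _)) (sq_nonneg _)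
      · exact le_rfl
      · exact le_rfl
    rw [if_pos hp, if_pos hp.2.1]
    change wg ψ l p * _ ≤ _
    by_cases hs : log p < s0 * l
    · rw [wg_zero_lo hψ hl hs]; simp
    have hs' : 2 * l ≤ log p := by nlinarith
    rw [if_pos ⟨hp.1.squarefree, fun q hq hd => by
      rw [(Nat.prime_dvd_prime_iff_eq hq hp.1).1 hd]
      have : η ≤ 1 := min_le_right _ _
      nlinarith⟩]
    simp only [may_XC_prime hp.1 hs', hp.1.primeFactors, card_singleton, g, le_refl, if_true,
      mul_one]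
  have h10 := sum_le_sum h9
  rw [← mul_sum, ← mul_sum] at h10
  have h11 : scale D l (k + 1) * Φ (J - δ / 2, u) = (J - δ / 2) / Nat.totient (primorial D) *
      (L ^ (k + 2) * ∑ b ∈ univ.filter good, (∏ i, u (b i)) * (∑ a, F a b * u a) ^ 2) := by
    rw [hsc]; simp only [Φ]; ring
  have h12 := mul_le_mul_of_nonneg_left (abs_lt.1 h7).1.le hsc0
  rw [h8] at h12
  refine le_trans ?_ (h5.trans ?_)
  · nlinarith
  rw [sum_filter]
  refine sum_le_sum fun m _ => ?_
  have hw := wg_nonneg hψ l m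
  split_ifs with e1 e2 e2
  · rw [mul_assoc]
    refine mul_le_mul_of_nonneg_left (mul_le_mul_of_nonneg_right ?_ (sq_nonneg _)) hw
    simp only [g]; split_ifs <;> norm_num
  · by_cases e3 : m.primeFactors.card ≤ 1
    · have hm : m = 1 := by
        have e4 := Nat.prod_primeFactors_of_squarefree e1.1
        rcases card_le_one_iff_subset_singleton.1 e3 with ⟨q, hq⟩
        rcases subset_singleton_iff.1 hq with e5 | e5
        · rw [e5] at e4; simpa using e4.symm
        · have e6 : q.Prime := Nat.prime_of_mem_primeFactors (n := m) (by simp [e5])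
          rw [e5, prod_singleton] at e4
          exact absurd (e4 ▸ e6) e2
      rw [wg_zero_lo hψ hl (by rw [hm]; simp; nlinarith)]
      simp
    · simp [g, e3]
  · positivity
  · simp

open Classical in
/-- Maynard's theorem at level of distribution `1/2` for a step function `F` on cells of width
`h`, with the epsilon trick of Polymath 8b. -/
theorem maynard_eps {κ : Type*} [Fintype κ] [DecidableEq κ] (H : κ → ℕ)
    (hH : Function.Injective H) (hadm : ∀ p : ℕ, p.Prime → ∃ r : ℕ, ∀ i, ¬ p ∣ r + H i)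
    {n : ℕ} {h : ℝ} (hh : 0 < h) (F : (κ → Fin n) → ℝ) {e : ℝ} (he : e ≤ 1 / 2)
    (hF : ∀ a, F a ≠ 0 → ∑ i, ((a i : ℝ) + 1) * h ≤ 5 / 3)
    (hF' : ∀ a, F a ≠ 0 → ∀ i, ∑ j ∈ univ.erase i, ((a j : ℝ) + 1) * h ≤ 1 + e)
    {ρ : ℝ} (hρ : 0 ≤ ρ)
    (hM : 4 * ρ * ∑ a, F a ^ 2 < h * ∑ i, ∑ b ∈ univ.filter
      (fun b : {j // j ≠ i} → Fin n => ∑ j, ((b j : ℝ) + 1) * h ≤ 1 - e),
      (∑ a : Fin n, F ((Equiv.piSplitAt i (fun _ => Fin n)).symm (a, b))) ^ 2) :
    {m : ℕ | ρ < ((univ.filter (fun i => (m + H i).Prime)).card : ℝ)}.Infinite := by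
  set Q : κ → ℝ := fun i => ∑ b ∈ univ.filter
      (fun b : {j // j ≠ i} → Fin n => ∑ j, ((b j : ℝ) + 1) * h ≤ 1 - e),
      (∑ a : Fin n, F ((Equiv.piSplitAt i (fun _ => Fin n)).symm (a, b))) ^ 2 with hQ
  set A := ρ * ∑ a, F a ^ 2 with hA
  have hA0 : 0 ≤ A := mul_nonneg hρ (sum_nonneg fun _ _ => sq_nonneg _)
  set d := min (1 / 30) ((h * ∑ i, Q i - 4 * A) / (6 * (A + 1))) with hd
  have hd0 : 0 < d := lt_min (by norm_num) (div_pos (by rw [hA]; linarith) (by positivity))
  have hd1 : d ≤ 1 / 30 := min_le_left _ _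
  have hd2 : (4 + 3 * d) * A < h * ∑ i, Q i := by
    have := min_le_right (1 / 30) ((h * ∑ i, Q i - 4 * A) / (6 * (A + 1)))
    rw [← hd, le_div_iff₀ (by positivity)] at this
    nlinarith
  have hψ := bump_tent hd0 hd1
  set I := ∫ s in (4 + d)..(4 + 3 * d), tent d s with hI
  have hI0 : 0 < I := int_tent_pos hd0
  set k := Fintype.card κ with hk
  have := final_step H hH hadm hψ (by linarith) (by linarith) hh F hF
    (fun m => if m.Prime then 1 else 0) (fun m => by split_ifs <;> norm_num)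
    (fun m => by split_ifs <;> norm_num) hρ (fun i => I / (4 + 3 * d) * h ^ (k + 1) * Q i)
    (fun i ε hε => ?_) ?_
  · simpa only [sum_boole] using this
  · let E := (Equiv.piSplitAt i (fun _ => Fin n)).symm
    have hE1 : ∀ a b, E (a, b) i = a := fun a b => by simp [E]
    have hE2 : ∀ a b (j : {j // j ≠ i}), E (a, b) j = b j := fun a b j => by simp [E, j.2]
    have hsub : ∀ f : κ → ℝ, ∑ j ∈ univ.erase i, f j = ∑ j : {j // j ≠ i}, f j := fun f =>
      sum_subtype _ (by simp) f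
    have hcard : Fintype.card {j // j ≠ i} + 1 = k := by
      rw [Fintype.card_subtype_compl, Fintype.card_subtype_eq, hk]
      exact Nat.sub_add_cancel (Fintype.card_pos_iff.2 ⟨i⟩)
    have hlev : ∀ a b, F (E (a, b)) ≠ 0 → ∑ j, ((b j : ℝ) + 1) * h ≤ 1 + e := fun a b ha => by
      have := hF' _ ha i
      rw [hsub] at this
      simpa only [hE2] using this
    obtain ⟨D1, H1⟩ := coord_prime (fun j : {j // j ≠ i} => (H j : ℤ) - H i)
      (fun j e => j.2 (hH (Int.natCast_inj.1 (sub_eq_zero.1 e))))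
      (fun j j' e => Subtype.ext (hH (Int.natCast_inj.1 (sub_left_injective e))))
      hψ (by linarith) (by linarith) hh (fun a b => F (E (a, b)))
      (fun b => ∑ j, ((b j : ℝ) + 1) * h ≤ 1 - e)
      (fun a b ha => ⟨by
        have := hF _ ha
        rw [← add_sum_erase _ _ (mem_univ i), hsub] at this
        simpa only [hE1, hE2] using this, by linarith [hlev a b ha]⟩)
      (fun a b a' b' _ hg ha => by rw [sum_add_distrib]; linarith [hlev a' b' ha]) hε
    refine ⟨D1, fun D hD => ?_⟩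
    filter_upwards [H1 D hD] with l hl b hb
    have h1 := hl b hb
    rw [show Fintype.card {j // j ≠ i} + 2 = k + 1 by omega, hcard] at h1
    refine le_trans (le_of_eq (by congr)) (h1.trans (le_of_eq (sum_congr rfl fun m _ => ?_)))
    rw [← E.sum_comp, Fintype.sum_prod_type]
    congr 3
    refine sum_congr rfl fun a _ => sum_congr rfl fun b _ => ?_
    have hsub' : ∀ f : κ → ℝ, ∏ j ∈ univ.erase i, f j = ∏ j : {j // j ≠ i}, f j := fun f =>
      prod_subtype _ (by simp) f
    rw [← mul_prod_erase _ _ (mem_univ i), hsub']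
    simp only [hE1, hE2, sub_self, add_zero]
  · rw [← mul_sum]
    have h1 : 0 < I / (4 + 3 * d) * h ^ k := by positivity
    have h2 := mul_lt_mul_of_pos_left hd2 h1
    calc ρ * (I * h ^ k * ∑ a, F a ^ 2) = I / (4 + 3 * d) * h ^ k * ((4 + 3 * d) * A) := by
          rw [hA]; field_simp
      _ < _ := h2
      _ = _ := by ring

open Classical in
/-- Maynard's theorem at level of distribution `1/2` for a step function `F` on cells of width
`h`, in the enlarged support of Polymath 8b. -/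
theorem maynard {κ : Type*} [Fintype κ] [DecidableEq κ] (H : κ → ℕ)
    (hH : Function.Injective H) (hadm : ∀ p : ℕ, p.Prime → ∃ r : ℕ, ∀ i, ¬ p ∣ r + H i)
    {n : ℕ} {h : ℝ} (hh : 0 < h) (F : (κ → Fin n) → ℝ)
    (hF : ∀ a, F a ≠ 0 → ∑ i, ((a i : ℝ) + 1) * h ≤ 5 / 3)
    (hF' : ∀ a, F a ≠ 0 → ∀ i, ∑ j ∈ univ.erase i, ((a j : ℝ) + 1) * h ≤ 1)
    {ρ : ℝ} (hρ : 0 ≤ ρ)
    (hM : 4 * ρ * ∑ a, F a ^ 2 < h * ∑ i, ∑ b : {j // j ≠ i} → Fin n,
      (∑ a : Fin n, F ((Equiv.piSplitAt i (fun _ => Fin n)).symm (a, b))) ^ 2) :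
    {m : ℕ | ρ < ((univ.filter (fun i => (m + H i).Prime)).card : ℝ)}.Infinite := by
  refine maynard_eps H hH hadm hh F (e := 0) (by norm_num) hF (by simpa using hF') hρ ?_
  refine hM.trans_le (le_of_eq (congrArg _ (sum_congr rfl fun i _ => ?_)))
  refine (sum_filter_of_ne fun b _ hb => ?_).symm
  obtain ⟨a, -, ha⟩ := exists_ne_zero_of_sum_ne_zero (ne_zero_pow two_ne_zero hb)
  have := hF' _ ha i
  rw [sum_subtype (p := fun j => j ≠ i) _ (by simp)] at this
  refine le_trans (le_of_eq (sum_congr rfl fun j _ => ?_)) (this.trans (by norm_num))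
  simp [j.2]

end Pool.Agent.Lib.Tup
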