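import Pool.Agent.Lib.Tup.Win

namespace Pool.Agent.Lib.Tup
open Finset Real Filter

lemma xap_sum_union (t : Finset ℕ) (s : Finset ℕ) (h : Disjoint s t) (f : Finset ℕ → ℝ) :
    ∑ A ∈ (s ∪ t).powerset, f A = ∑ S ∈ s.powerset, ∑ C ∈ t.powerset, f (S ∪ C) := by
  induction s using Finset.induction_on generalizing f with
  | empty => simp
  | insert a s ha ih =>
    rw [disjoint_insert_left] at h
    rw [insert_union, sum_powerset_insert (by simp [ha, h.1]), sum_powerset_insert ha,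
      ih h.2, ih h.2]
    simp only [insert_union]

lemma xap_win_nonneg (x y s : ℝ) : 0 ≤ win x y s := by unfold win; split_ifs <;> norm_num

lemma xap_win_le_one (x y s : ℝ) : win x y s ≤ 1 := by unfold win; split_ifs <;> norm_num

lemma xap_win_add (x y s t : ℝ) : win x y (s + t) = win (x - s) (y - s) t := by
  unfold win
  congr 1
  rw [sub_le_iff_le_add', lt_sub_iff_add_lt']

lemma xap_two_le {D : ℕ} {l : ℝ} : ∀ q ∈ PP D l, 2 ≤ q := fun _ hq => (mem_PP.1 hq).1.two_le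

lemma xap_psi {ε : ℝ} (hε : 0 < ε) :
    ∃ D1 : ℕ, ∀ D ≥ D1, ∀ᶠ l : ℝ in atTop, ∀ a b : ℝ, a ≤ b → b ≤ 2 * l →
      |∑ C ∈ (PP D l).powerset, win a b (sz C) * wt C - cW D * (max b 0 - max a 0)| ≤
        ε * (cW D * l) := by
  refine ⟨⌈8 / ε⌉₊ + 2, fun D hD => ?_⟩
  have hD2 : 2 ≤ D := le_trans (Nat.le_add_left _ _) hD
  have hD0 : (2 : ℝ) ≤ D := by exact_mod_cast hD2
  have hD8 : 8 / ε ≤ D := (Nat.le_ceil _).trans (by exact_mod_cast le_trans (Nat.le_add_right _ _) hD)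
  have hDe : 1 / (D : ℝ) ≤ ε / 8 := by
    rw [div_le_iff₀ hε] at hD8
    rw [div_le_div_iff₀ (by linarith) (by norm_num)]
    linarith
  have hD1 : 1 / (D : ℝ) ≤ 1 / 2 := one_div_le_one_div_of_le (by norm_num) hD0
  have hDp : 0 ≤ 1 / (D : ℝ) := by positivity
  obtain ⟨C, hC, h1⟩ := win_le hD2
  obtain ⟨C', hC', h2⟩ := win_ge hD2
  have hc := cW_pos D
  filter_upwards [eventually_ge_atTop (0 : ℝ),
    eventually_ge_atTop ((2 * C + C') / (ε / 2 * cW D))] with l hl0 hl a b hab hb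
  rw [div_le_iff₀ (by positivity)] at hl
  have h3 := h1 (PP D l) a b (fun q hq => ⟨(mem_PP.1 hq).1, (mem_PP.1 hq).2.1⟩) hab
  have h4 := h2 l a b hab hb
  set R := max b 0 - max a 0 with hR
  have hR0 : 0 ≤ R := sub_nonneg.2 (max_le_max hab le_rfl)
  have hR2 : R ≤ 2 * l := by
    have := le_max_right a 0
    have := max_le hb (by linarith : (0 : ℝ) ≤ 2 * l)
    linarith
  have h5 : 1 / (D : ℝ) * (cW D * R) ≤ ε / 8 * (cW D * (2 * l)) :=
    mul_le_mul hDe (mul_le_mul_of_nonneg_left hR2 hc.le) (by positivity) (by positivity)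
  have h6 : 1 / (D : ℝ) * C ≤ 1 / 2 * C := mul_le_mul_of_nonneg_right hD1 hC
  have e : (2 : ℝ) / D = 2 * (1 / D) := by ring
  rw [e] at h3
  rw [abs_le]
  constructor <;> nlinarith [mul_nonneg hc.le hl0, mul_nonneg hε.le (mul_nonneg hc.le hl0)]

lemma xap_drop {s t : Finset ℕ} (h : Disjoint s t) (h2 : ∀ q ∈ s ∪ t, 2 ≤ q) (a b : ℝ) :
    |∑ C ∈ t.powerset, win a b (sz C) * wt C - ∑ C ∈ (s ∪ t).powerset, win a b (sz C) * wt C| ≤
      Eul (s ∪ t) * (Eul s - 1) := by
  have hsub : t.powerset ⊆ (s ∪ t).powerset := powerset_mono.2 subset_union_right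
  have hw : ∀ C ∈ (s ∪ t).powerset \ t.powerset, 0 ≤ wt C := fun C hC =>
    wt_nonneg fun q hq => h2 q (mem_powerset.1 (mem_sdiff.1 hC).1 hq)
  have h3 : ∑ C ∈ (s ∪ t).powerset \ t.powerset, wt C = Eul (s ∪ t) - Eul t := by
    rw [← sum_wt_eq, ← sum_wt_eq, ← sum_sdiff hsub]; ring
  have h4 : Eul (s ∪ t) = Eul s * Eul t := prod_union h
  have h5 : 1 ≤ Eul s := one_le_Eul fun q hq => h2 q (mem_union_left _ hq)
  have h6 : 1 ≤ Eul t := one_le_Eul fun q hq => h2 q (mem_union_right _ hq)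
  have h7 : ∑ C ∈ (s ∪ t).powerset \ t.powerset, win a b (sz C) * wt C ≤ Eul (s ∪ t) - Eul t := by
    rw [← h3]
    exact sum_le_sum fun C hC => mul_le_of_le_one_left (hw C hC) (xap_win_le_one _ _ _)
  have h8 : 0 ≤ ∑ C ∈ (s ∪ t).powerset \ t.powerset, win a b (sz C) * wt C :=
    sum_nonneg fun C hC => mul_nonneg (xap_win_nonneg _ _ _) (hw C hC)
  rw [← sum_sdiff hsub, abs_sub_comm, add_sub_cancel_right, abs_of_nonneg h8]
  refine h7.trans ?_
  rw [h4]
  nlinarith [mul_nonneg (sub_nonneg.2 h5) (sub_nonneg.2 h5), mul_nonneg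
    (mul_nonneg (sub_nonneg.2 h5) (sub_nonneg.2 h5)) (by linarith : 0 ≤ Eul t)]

lemma xap_split {s t : Finset ℕ} (h : Disjoint s t) {m : ℤ} (hs : ∀ q ∈ s, (q : ℤ) ∣ m)
    (ht : ∀ q ∈ t, ¬ (q : ℤ) ∣ m) (a b : ℝ) :
    X (s ∪ t) (fun A => win a b (sz A)) m = ∑ S ∈ s.powerset, (-1) ^ S.card *
      ∑ C ∈ t.powerset, win (a - sz S) (b - sz S) (sz C) * wt C := by
  rw [X, xap_sum_union t s h]
  refine sum_congr rfl fun S hS => ?_
  rw [mul_sum]
  refine sum_congr rfl fun C hC => ?_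
  rw [mem_powerset] at hS hC
  have hd : Disjoint S C := disjoint_of_subset_left hS (disjoint_of_subset_right hC h)
  have e1 : sz (S ∪ C) = sz S + sz C := sum_union hd
  have e2 : chiP (S ∪ C) m = (-1) ^ S.card * wt C := by
    rw [chiP, prod_union hd, wt, ← prod_const]
    congr 1
    · exact prod_congr rfl fun q hq => if_pos (hs q (hS hq))
    · exact prod_congr rfl fun q hq => if_neg (ht q (hC hq))
  rw [e1, e2, xap_win_add]; ring

lemma xap_small {η : ℝ} (hη : 0 < η) (K : ℕ) {δ : ℝ} (hδ : 0 < δ) :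
    ∀ᶠ l : ℝ in atTop, (1 + 1 / (exp (η * l) - 1)) ^ K - 1 ≤ δ := by
  have h1 : Tendsto (fun l : ℝ => exp (η * l) - 1) atTop atTop :=
    tendsto_atTop_add_const_right _ (-1) (tendsto_exp_atTop.comp (tendsto_id.const_mul_atTop hη))
  have h2 := (((h1.const_div_atTop 1).const_add 1).pow K).sub_const 1
  simp only [add_zero, one_pow, sub_self] at h2
  exact h2.eventually (ge_mem_nhds hδ)

/-- Shape of the window sums on rough squarefree numbers. -/
theorem Xapprox {η ε : ℝ} (hη : 0 < η) (hε : 0 < ε) :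
    ∃ D1 : ℕ, ∀ D ≥ D1, ∀ᶠ l : ℝ in atTop, ∀ (m : ℕ) (x y : ℝ), RS η l m → m < NN l →
      0 ≤ x → x ≤ y → y ≤ 2 →
      |XW D l x y m - cW D * l * Gt l x y m| ≤ ε * (cW D * l) := by
  set K : ℕ := ⌈5 / η⌉₊ with hK
  obtain ⟨D1, hD1⟩ := xap_psi (ε := ε / 2 / 2 ^ K) (by positivity)
  obtain ⟨C0, hC0, hE⟩ := Eul_le
  refine ⟨D1, fun D hD => ?_⟩
  have hc := cW_pos D
  filter_upwards [hD1 D hD, hE D, xap_small hη K (δ := ε / 2 / 2 ^ K / C0) (by positivity),
    eventually_gt_atTop (0 : ℝ), eventually_ge_atTop (D / η)] with l h1 h2 h3 hl hlD m x y hm hN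
    hx hxy hy
  have hm0 : m ≠ 0 := hm.1.ne_zero
  rw [div_le_iff₀ hη] at hlD
  set s := (PP D l).filter (fun q => q ∣ m) with hs
  set t := (PP D l).filter (fun q => ¬ q ∣ m) with ht
  have hst : Disjoint s t := disjoint_filter_filter_not _ _ _
  have hP : s ∪ t = PP D l := filter_union_filter_not_eq _ _
  have hsub : s ⊆ m.primeFactors := fun q hq => by
    rw [hs, mem_filter] at hq
    exact Nat.mem_primeFactors.2 ⟨(mem_PP.1 hq.1).1, hq.2, hm0⟩
  have hcard : s.card ≤ K := by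
    have h4 := omega_le_of_rough hη hl hm0 hm.2 ((lt_NN hm0).1 hN).le
    have h5 : (s.card : ℝ) ≤ m.primeFactors.card := by exact_mod_cast card_le_card hsub
    exact_mod_cast h5.trans (h4.trans (Nat.le_ceil _))
  have hbig : ∀ q ∈ m.primeFactors, exp (η * l) < q := fun q hq => by
    obtain ⟨h4, h5, -⟩ := Nat.mem_primeFactors.1 hq
    exact (lt_log_iff_exp_lt (by exact_mod_cast h4.pos)).1 (hm.2 q h4 h5)
  have he : 1 < exp (η * l) := one_lt_exp_iff.2 (by positivity)
  have hEs : Eul s - 1 ≤ ε / 2 / 2 ^ K / C0 := by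
    refine le_trans (sub_le_sub_right ?_ 1) h3
    have h4 : 0 ≤ 1 / (exp (η * l) - 1) := div_nonneg zero_le_one (by linarith)
    refine le_trans ?_ (pow_le_pow_right₀ (by linarith) hcard)
    rw [Eul, ← prod_const]
    refine prod_le_prod (fun q hq => ?_) fun q hq => ?_
    · have : 0 ≤ 1 / ((q : ℝ) - 1) :=
        div_nonneg zero_le_one (by linarith [hbig q (hsub hq)])
      linarith
    · have := one_div_le_one_div_of_le (by linarith : 0 < exp (η * l) - 1)
        (by linarith [hbig q (hsub hq)] : exp (η * l) - 1 ≤ (q : ℝ) - 1)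
      linarith
  have hG : Gt l x y m = ∑ S ∈ s.powerset, (-1) ^ S.card * rho x y (sz S / l) := by
    refine (sum_subset (powerset_mono.2 hsub) fun S hS hS' => ?_).symm
    rw [mem_powerset] at hS hS'
    obtain ⟨q, hq, hq'⟩ := not_subset.1 hS'
    obtain ⟨h4, h5, -⟩ := Nat.mem_primeFactors.1 (hS hq)
    have h6 : D < q := by
      have h7 := hbig q (hS hq)
      have h8 := add_one_le_exp (η * l)
      exact_mod_cast (by linarith : (D : ℝ) < q)
    have h7 : 2 * l ≤ log q := by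
      by_contra h8
      exact hq' (mem_filter.2 ⟨mem_PP.2 ⟨h4, h6, not_le.1 h8⟩, h5⟩)
    have h8 : log q ≤ sz S :=
      single_le_sum (f := fun q : ℕ => log q) (fun i _ => log_natCast_nonneg i) hq
    have h9 : 2 ≤ sz S / l := by rw [le_div_iff₀ hl]; linarith
    rw [rho, max_eq_right (by linarith), max_eq_right (by linarith)]
    simp
  have hX := xap_split hst (m := (m : ℤ))
    (fun q hq => by exact_mod_cast (mem_filter.1 hq).2)
    (fun q hq => by exact_mod_cast (mem_filter.1 hq).2) (x * l) (y * l)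
  rw [hP] at hX
  rw [XW, hX, hG, mul_sum, ← sum_sub_distrib]
  refine (abs_sum_le_sum_abs _ _).trans ((sum_le_card_nsmul _ _ (ε / 2 ^ K * (cW D * l))
    fun S _ => ?_).trans ?_)
  · rw [mul_left_comm (cW D * l), ← mul_sub, abs_mul, abs_pow, abs_neg, abs_one, one_pow, one_mul]
    have h4 := xap_drop hst (by rw [hP]; exact xap_two_le) (x * l - sz S) (y * l - sz S)
    rw [hP] at h4
    have h5 := h1 (x * l - sz S) (y * l - sz S) (by nlinarith) (by nlinarith [sz_nonneg S])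
    have e : cW D * l * rho x y (sz S / l) =
        cW D * (max (y * l - sz S) 0 - max (x * l - sz S) 0) := by
      rw [rho, mul_assoc, mul_sub, mul_max_of_nonneg _ _ hl.le, mul_max_of_nonneg _ _ hl.le,
        mul_zero]
      congr 3 <;> field_simp
    have h6 : Eul (PP D l) * (Eul s - 1) ≤ C0 * (cW D * l) * (ε / 2 / 2 ^ K / C0) :=
      mul_le_mul h2 hEs (sub_nonneg.2 (one_le_Eul fun q hq =>
        xap_two_le q (mem_filter.1 hq).1)) (by positivity)
    have e2 : C0 * (cW D * l) * (ε / 2 / 2 ^ K / C0) = ε / 2 / 2 ^ K * (cW D * l) := by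
      field_simp
    have e3 : ε / 2 ^ K * (cW D * l) = 2 * (ε / 2 / 2 ^ K * (cW D * l)) := by ring
    rw [e, e3]
    rw [e2] at h6
    exact (abs_sub_le _ _ _).trans (by linarith)
  · rw [card_powerset, nsmul_eq_mul]
    have h4 : ((2 ^ s.card : ℕ) : ℝ) ≤ 2 ^ K := by
      push_cast; exact pow_le_pow_right₀ (by norm_num) hcard
    refine (mul_le_mul_of_nonneg_right h4 (by positivity)).trans (le_of_eq ?_)
    field_simp

theorem ipW_approx {ε : ℝ} (hε : 0 < ε) :
    ∃ D1 : ℕ, ∀ D ≥ D1, ∀ᶠ l : ℝ in atTop, ∀ (x y : ℝ), 0 ≤ x → x ≤ y → y ≤ 2 →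
      |ipW D l x y x y - cW D * l * (y - x)| ≤ ε * (cW D * l) := by
  obtain ⟨D1, hD1⟩ := xap_psi hε
  refine ⟨D1, fun D hD => ?_⟩
  filter_upwards [hD1 D hD, eventually_gt_atTop (0 : ℝ)] with l h1 hl x y hx hxy hy
  have h2 := h1 (x * l) (y * l) (by nlinarith) (by nlinarith)
  rw [max_eq_left (by nlinarith), max_eq_left (by nlinarith)] at h2
  have e : ipW D l x y x y = ∑ C ∈ (PP D l).powerset, win (x * l) (y * l) (sz C) * wt C := by
    refine sum_congr rfl fun A _ => ?_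
    unfold win; split_ifs <;> simp
  rw [e, mul_assoc, mul_comm l, sub_mul]
  exact h2

theorem ipW_cells {h l : ℝ} (hh : 0 < h) (hl : 0 < l) (D : ℕ) (a a' : ℕ) :
    ipW D l (a * h) ((a + 1) * h) (a' * h) ((a' + 1) * h) = if a = a' then NC D l h a else 0 := by
  split_ifs with e
  · subst e; rfl
  · refine sum_eq_zero fun A _ => ?_
    have hp := mul_pos hh hl
    unfold win
    split_ifs with h1 h2
    · exfalso
      rcases lt_or_gt_of_ne e with h3 | h3
      · have h4 : (a : ℝ) + 1 ≤ a' := by exact_mod_cast h3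
        nlinarith [h1.2, h2.1]
      · have h4 : (a' : ℝ) + 1 ≤ a := by exact_mod_cast h3
        nlinarith [h1.1, h2.2]
    all_goals simp

theorem abs_rho_le {x y : ℝ} (hxy : x ≤ y) (t : ℝ) : |rho x y t| ≤ y - x := by
  unfold rho
  rw [abs_le]
  simp only [max_def]
  split_ifs <;> constructor <;> linarith

theorem rho_lip {x y : ℝ} (hxy : x ≤ y) (s t : ℝ) : |rho x y s - rho x y t| ≤ |s - t| := by
  unfold rho
  have h1 := le_abs_self (s - t)
  have h2 := neg_abs_le (s - t)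
  rw [abs_le]
  simp only [max_def]
  split_ifs <;> constructor <;> linarith [abs_nonneg (s - t)]

end Pool.Agent.Lib.Tup
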