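import Pool.Agent.Lib.Tup.Basic
import Pool.Agent.Lib.Sieve.Mertens

namespace Pool.Agent.Lib.Tup
open Finset Real Filter

namespace WinAux

/-- Centered indicator of coprimality. -/
noncomputable def cen (W n : ℕ) : ℝ :=
  (if Nat.Coprime n W then 1 else 0) - (Nat.totient W : ℝ) / W

theorem c_nonneg (W : ℕ) : 0 ≤ (Nat.totient W : ℝ) / W := by positivity

theorem c_le_one (W : ℕ) : (Nat.totient W : ℝ) / W ≤ 1 := by
  apply div_le_one_of_le₀ _ (Nat.cast_nonneg _)
  exact_mod_cast Nat.totient_le W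

theorem abs_cen_le (W n : ℕ) : |cen W n| ≤ 1 := by
  have h1 := c_nonneg W
  have h2 := c_le_one W
  unfold cen
  split_ifs <;> rw [abs_le] <;> constructor <;> linarith

theorem sum_cen_block {W : ℕ} (hW : 0 < W) (K : ℕ) : ∑ n ∈ Ico K (K + W), cen W n = 0 := by
  have hW' : (W : ℝ) ≠ 0 := by positivity
  unfold cen
  rw [sum_sub_distrib, sum_const, Nat.card_Ico, Nat.add_sub_cancel_left, sum_boole]
  have : (Ico K (K + W)).filter (fun n => Nat.Coprime n W)
      = (Ico K (K + W)).filter (fun n => Nat.Coprime W n) := by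
    simp only [Nat.coprime_comm]
  rw [this, Nat.filter_coprime_Ico_eq_totient, nsmul_eq_mul]
  field_simp
  ring

theorem abs_sum_cen_le {W : ℕ} (hW : 0 < W) (K : ℕ) : |∑ n ∈ range K, cen W n| ≤ W := by
  induction K using Nat.strong_induction_on with
  | _ K ih =>
    by_cases h : K ≤ W
    · calc _ ≤ ∑ n ∈ range K, |cen W n| := abs_sum_le_sum_abs _ _
        _ ≤ ∑ n ∈ range K, (1 : ℝ) := sum_le_sum fun n _ => abs_cen_le W n
        _ = K := by simp
        _ ≤ W := by exact_mod_cast h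
    · obtain ⟨J, rfl⟩ : ∃ J, K = J + W := ⟨K - W, by omega⟩
      rw [range_eq_Ico, ← sum_Ico_consecutive _ (Nat.zero_le J) (Nat.le_add_right J W),
        sum_cen_block hW, add_zero, ← range_eq_Ico]
      exact ih J (by omega)

theorem abs_sum_cen_div_le {W : ℕ} (hW : 0 < W) (M : ℕ) :
    |∑ n ∈ range (M + 1), cen W n / n| ≤ 4 * W := by
  have hB : ∀ K : ℕ, |∑ n ∈ range K, cen W n - ∑ n ∈ range 1, cen W n| ≤ 2 * W := fun K => by
    have h1 := abs_le.1 (abs_sum_cen_le hW K)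
    have h2 := abs_le.1 (abs_sum_cen_le hW 1)
    rw [abs_le]; constructor <;> linarith [h1.1, h1.2, h2.1, h2.2]
  have key : ∀ M : ℕ, |∑ n ∈ range (M + 1), cen W n / n -
      (∑ n ∈ range (M + 1), cen W n - ∑ n ∈ range 1, cen W n) / ((M : ℝ) + 1)|
      ≤ 2 * W * (1 - 1 / ((M : ℝ) + 1)) := by
    intro M
    induction M with
    | zero => simp
    | succ M ih =>
      have h1 := hB (M + 1 + 1)
      rw [sum_range_succ (fun n => cen W n / n) (M + 1)]
      rw [sum_range_succ (fun n => cen W n) (M + 1)] at h1 ⊢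
      set S := ∑ n ∈ range (M + 1), cen W n / n
      set A := ∑ n ∈ range (M + 1), cen W n
      set A1 := ∑ n ∈ range 1, cen W n
      set a := cen W (M + 1)
      have hM : (0 : ℝ) < (M : ℝ) + 1 := by positivity
      have e : S + a / ((M + 1 : ℕ) : ℝ) - (A + a - A1) / (((M + 1 : ℕ) : ℝ) + 1)
          = (S - (A - A1) / ((M : ℝ) + 1))
            + (A + a - A1) * (1 / ((M : ℝ) + 1) - 1 / ((M : ℝ) + 1 + 1)) := by
        push_cast; field_simp; ring
      have hd : 0 ≤ 1 / ((M : ℝ) + 1) - 1 / ((M : ℝ) + 1 + 1) := by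
        rw [sub_nonneg]; gcongr; linarith
      rw [e]
      calc _ ≤ |S - (A - A1) / ((M : ℝ) + 1)|
            + |(A + a - A1) * (1 / ((M : ℝ) + 1) - 1 / ((M : ℝ) + 1 + 1))| := abs_add_le _ _
        _ ≤ 2 * W * (1 - 1 / ((M : ℝ) + 1))
            + 2 * W * (1 / ((M : ℝ) + 1) - 1 / ((M : ℝ) + 1 + 1)) := by
            rw [abs_mul, abs_of_nonneg hd]; gcongr
        _ = _ := by push_cast; ring
  have h1 := key M
  have h2 := hB (M + 1)
  set S := ∑ n ∈ range (M + 1), cen W n / n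
  set T := ∑ n ∈ range (M + 1), cen W n - ∑ n ∈ range 1, cen W n
  have hM : (1 : ℝ) ≤ (M : ℝ) + 1 := by linarith [Nat.cast_nonneg (α := ℝ) M]
  have h3 : |T / ((M : ℝ) + 1)| ≤ 2 * W := by
    rw [abs_div, abs_of_pos (by linarith : (0 : ℝ) < (M : ℝ) + 1)]
    exact (div_le_self (abs_nonneg _) hM).trans h2
  have h4 : 2 * W * (1 - 1 / ((M : ℝ) + 1)) ≤ 2 * W := by
    have : (0 : ℝ) ≤ 1 / ((M : ℝ) + 1) := by positivity
    have : (0 : ℝ) ≤ W := by positivity
    nlinarith
  calc |S| = |(S - T / ((M : ℝ) + 1)) + T / ((M : ℝ) + 1)| := by congr 1; ring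
    _ ≤ _ := abs_add_le _ _
    _ ≤ 4 * W := by linarith

theorem harm_bounds (M : ℕ) : |∑ n ∈ range (M + 1), 1 / (n : ℝ) - log ((M : ℝ) + 1)| ≤ 1 := by
  have h1 := log_add_one_le_harmonic M
  have h2 := harmonic_le_one_add_log M
  have h3 : ∑ n ∈ range (M + 1), 1 / (n : ℝ) = (harmonic M : ℝ) := by
    rw [sum_range_succ', harmonic]
    push_cast
    simp
  have h4 : log (M : ℝ) ≤ log ((M : ℝ) + 1) := by
    rcases Nat.eq_zero_or_pos M with rfl | h
    · simp
    · exact log_le_log (by exact_mod_cast h) (by linarith)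
  rw [h3, abs_le]
  push_cast at h1
  constructor <;> linarith

/-- Weight `1/n` on integers coprime to `W`. -/
noncomputable def cop (W n : ℕ) : ℝ := if Nat.Coprime n W then 1 / (n : ℝ) else 0

theorem cop_nonneg (W n : ℕ) : 0 ≤ cop W n := by
  unfold cop; split_ifs <;> positivity

theorem cop_zero (W : ℕ) : cop W 0 = 0 := by simp [cop]

theorem sum_cop {W : ℕ} (hW : 0 < W) (M : ℕ) :
    |∑ n ∈ range (M + 1), cop W n - (Nat.totient W : ℝ) / W * log ((M : ℝ) + 1)| ≤ 4 * W + 1 := by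
  have e : ∑ n ∈ range (M + 1), cop W n = ∑ n ∈ range (M + 1), cen W n / n
      + (Nat.totient W : ℝ) / W * ∑ n ∈ range (M + 1), 1 / (n : ℝ) := by
    rw [mul_sum, ← sum_add_distrib]
    refine sum_congr rfl fun n _ => ?_
    unfold cop cen
    split_ifs <;> ring
  have h1 := abs_sum_cen_div_le hW M
  have h2 := harm_bounds M
  have h3 : |(Nat.totient W : ℝ) / W * (∑ n ∈ range (M + 1), 1 / (n : ℝ) - log ((M : ℝ) + 1))|
      ≤ 1 := by
    rw [abs_mul, abs_of_nonneg (c_nonneg W)]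
    exact mul_le_one₀ (c_le_one W) (abs_nonneg _) h2
  rw [e]
  calc _ = |∑ n ∈ range (M + 1), cen W n / n + (Nat.totient W : ℝ) / W *
        (∑ n ∈ range (M + 1), 1 / (n : ℝ) - log ((M : ℝ) + 1))| := by congr 1; ring
    _ ≤ _ := abs_add_le _ _
    _ ≤ _ := by linarith

theorem harm_aux {W : ℕ} (hW : 0 < W) (N : ℕ) (x : ℝ) (hx : 0 ≤ x) (hN : exp x ≤ N) :
    |∑ n ∈ (range N).filter (fun n : ℕ => log n < x), cop W n
      - (Nat.totient W : ℝ) / W * x| ≤ 4 * W + 2 := by
  have hpos : 0 < ⌈exp x⌉₊ := Nat.ceil_pos.2 (exp_pos x)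
  obtain ⟨M, hM⟩ : ∃ M, ⌈exp x⌉₊ = M + 1 := ⟨⌈exp x⌉₊ - 1, by omega⟩
  have hMN : M + 1 ≤ N := by rw [← hM]; exact Nat.ceil_le.2 hN
  have e : ∑ n ∈ (range N).filter (fun n : ℕ => log n < x), cop W n
      = ∑ n ∈ range (M + 1), cop W n := by
    rw [sum_filter, ← sum_filter_add_sum_filter_not (range N) (fun n => n < M + 1)]
    have e1 : (range N).filter (fun n => n < M + 1) = range (M + 1) := by
      ext n; simp only [mem_filter, mem_range]; omega
    have e2 : ∑ n ∈ (range N).filter (fun n => ¬ n < M + 1),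
        (if log (n : ℝ) < x then cop W n else 0) = 0 := by
      refine sum_eq_zero fun n hn => if_neg ?_
      have h1 : ⌈exp x⌉₊ ≤ n := by
        have := (mem_filter.1 hn).2; omega
      have h2 : exp x ≤ n := Nat.ceil_le.1 h1
      rw [not_lt]
      exact (le_log_iff_exp_le ((exp_pos x).trans_le h2)).2 h2
    rw [e1, e2, add_zero]
    refine sum_congr rfl fun n hn => ?_
    rcases Nat.eq_zero_or_pos n with rfl | h0
    · simp [cop_zero]
    · have h1 : n < ⌈exp x⌉₊ := by rw [hM]; exact mem_range.1 hn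
      have h2 : (n : ℝ) < exp x := Nat.lt_ceil.1 h1
      rw [if_pos ((log_lt_iff_lt_exp (by exact_mod_cast h0)).2 h2)]
  have h1 := sum_cop hW M
  have h2 : exp x ≤ (M : ℝ) + 1 := by
    have := Nat.le_ceil (exp x); rw [hM] at this; push_cast at this; exact this
  have h3 : (M : ℝ) + 1 < exp x + 1 := by
    have := Nat.ceil_lt_add_one (exp_pos x).le; rw [hM] at this; push_cast at this; exact this
  have h4 : x ≤ log ((M : ℝ) + 1) := (le_log_iff_exp_le (by positivity)).2 h2
  have h5 : log ((M : ℝ) + 1) ≤ x + 1 := by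
    rw [log_le_iff_le_exp (by positivity), exp_add]
    have h6 : 1 ≤ exp x := one_le_exp hx
    have h7 : (2 : ℝ) ≤ exp 1 := by have := add_one_le_exp (1 : ℝ); linarith
    nlinarith
  have h6 : |(Nat.totient W : ℝ) / W * (log ((M : ℝ) + 1) - x)| ≤ 1 := by
    rw [abs_mul, abs_of_nonneg (c_nonneg W)]
    refine mul_le_one₀ (c_le_one W) (abs_nonneg _) ?_
    rw [abs_le]; constructor <;> linarith
  rw [e]
  calc _ = |(∑ n ∈ range (M + 1), cop W n - (Nat.totient W : ℝ) / W * log ((M : ℝ) + 1))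
        + (Nat.totient W : ℝ) / W * (log ((M : ℝ) + 1) - x)| := by congr 1; ring
    _ ≤ _ := abs_add_le _ _
    _ ≤ _ := by linarith

theorem harm_all {W : ℕ} (hW : 0 < W) (N : ℕ) (x : ℝ) (hN : exp x ≤ N) :
    |∑ n ∈ range N, (if log (n : ℝ) < x then cop W n else 0)
      - (Nat.totient W : ℝ) / W * max x 0| ≤ 4 * W + 2 := by
  rcases le_or_gt 0 x with hx | hx
  · rw [max_eq_left hx, ← sum_filter]
    exact harm_aux hW N x hx hN
  · rw [max_eq_right hx.le, sum_eq_zero]
    · simp only [mul_zero, sub_zero, abs_zero]; positivity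
    · intro n _
      rw [if_neg]
      have := log_natCast_nonneg n
      linarith

theorem win_nonneg (x y s : ℝ) : 0 ≤ win x y s := by
  unfold win; split_ifs <;> norm_num

theorem win_shift (x y t s : ℝ) : win x y (t + s) = win (x - t) (y - t) s := by
  unfold win
  have : (x ≤ t + s ∧ t + s < y) ↔ (x - t ≤ s ∧ s < y - t) := by
    constructor <;> rintro ⟨h1, h2⟩ <;> constructor <;> linarith
  simp only [this]

theorem harm_win {W : ℕ} (hW : 0 < W) (N : ℕ) {x y : ℝ} (hxy : x ≤ y) (hN : exp y ≤ N) :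
    |∑ n ∈ range N, win x y (log n) * cop W n
      - (Nat.totient W : ℝ) / W * (max y 0 - max x 0)| ≤ 8 * W + 4 := by
  have h1 := harm_all hW N y hN
  have h2 := harm_all hW N x ((exp_le_exp.2 hxy).trans hN)
  have e : ∑ n ∈ range N, win x y (log n) * cop W n
      = ∑ n ∈ range N, (if log (n : ℝ) < y then cop W n else 0)
        - ∑ n ∈ range N, (if log (n : ℝ) < x then cop W n else 0) := by
    rw [← sum_sub_distrib]
    refine sum_congr rfl fun n _ => ?_
    unfold win
    by_cases ha : log (n : ℝ) < x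
    · rw [if_pos ha, if_pos (ha.trans_le hxy), if_neg (fun h => absurd h.1 (not_le.2 ha))]; ring
    · by_cases hb : log (n : ℝ) < y
      · rw [if_neg ha, if_pos hb, if_pos ⟨not_lt.1 ha, hb⟩]; ring
      · rw [if_neg ha, if_neg hb, if_neg (fun h => hb h.2)]; ring
  rw [e]
  rw [abs_le] at h1 h2 ⊢
  constructor <;> linarith [h1.1, h1.2, h2.1, h2.2]

theorem pos_shift_le {x y t : ℝ} (hxy : x ≤ y) (ht : 0 ≤ t) :
    max (y - t) 0 - max (x - t) 0 ≤ max y 0 - max x 0 := by
  simp only [max_def]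
  split_ifs <;> linarith

/-- Shifted window bound. -/
theorem harm_win_shift {W : ℕ} (hW : 0 < W) (N : ℕ) {x y t : ℝ} (hxy : x ≤ y) (ht : 0 ≤ t)
    (hN : exp y ≤ N) :
    ∑ n ∈ range N, win x y (t + log n) * cop W n
      ≤ (Nat.totient W : ℝ) / W * (max y 0 - max x 0) + (8 * W + 4) := by
  simp only [win_shift]
  have h1 := harm_win hW N (x := x - t) (y := y - t) (by linarith)
    ((exp_le_exp.2 (by linarith)).trans hN)
  have h2 := mul_le_mul_of_nonneg_left (pos_shift_le hxy ht) (c_nonneg W)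
  have := (abs_le.1 h1).2
  linarith

theorem sum_le_of_inj {α β : Type*} [DecidableEq β] (S : Finset α) (T : Finset β) (e : α → β)
    (f : α → ℝ) (g : β → ℝ) (hg : ∀ b ∈ T, 0 ≤ g b) (hinj : Set.InjOn e S)
    (hT : ∀ a ∈ S, e a ∈ T) (hf : ∀ a ∈ S, f a ≤ g (e a)) :
    ∑ a ∈ S, f a ≤ ∑ b ∈ T, g b := by
  calc ∑ a ∈ S, f a ≤ ∑ a ∈ S, g (e a) := sum_le_sum hf
    _ = ∑ b ∈ S.image e, g b := (sum_image hinj).symm
    _ ≤ _ := by
      refine sum_le_sum_of_subset_of_nonneg ?_ fun b hb _ => hg b hb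
      intro b hb
      obtain ⟨a, ha, rfl⟩ := mem_image.1 hb
      exact hT a ha

theorem log_prod_eq_sz {A : Finset ℕ} (hA : ∀ q ∈ A, q.Prime) :
    log ((∏ q ∈ A, q : ℕ) : ℝ) = sz A := by
  rw [Nat.cast_prod, log_prod fun q hq => by exact_mod_cast (hA q hq).ne_zero]
  rfl

theorem cop_prod {D : ℕ} {A : Finset ℕ} (hA : ∀ q ∈ A, q.Prime ∧ D < q) :
    cop (primorial D) (∏ q ∈ A, q) = ∏ q ∈ A, 1 / (q : ℝ) := by
  have h : Nat.Coprime (∏ q ∈ A, q) (primorial D) := by
    refine Nat.Coprime.prod_left fun q hq => ?_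
    rw [(hA q hq).1.coprime_iff_not_dvd, (hA q hq).1.dvd_primorial_iff]
    exact not_le.2 (hA q hq).2
  rw [cop, if_pos h, Nat.cast_prod, prod_div_distrib, prod_const_one]

end WinAux

open WinAux

/-- Harmonic sums over integers coprime to `W`. -/
theorem harm_count {W : ℕ} (hW : 0 < W) :
    ∃ C : ℝ, 0 ≤ C ∧ ∀ (N : ℕ) (x : ℝ), 0 ≤ x → exp x ≤ N →
      |∑ n ∈ (range N).filter (fun n : ℕ => log n < x),
          (if Nat.Coprime n W then 1 / (n : ℝ) else 0) - (Nat.totient W : ℝ) / W * x| ≤ C :=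
  ⟨4 * W + 2, by positivity, fun N x hx hN => harm_aux hW N x hx hN⟩

theorem win_le {D : ℕ} (hD : 2 ≤ D) :
    ∃ C : ℝ, 0 ≤ C ∧ ∀ (P : Finset ℕ) (x y : ℝ), (∀ q ∈ P, q.Prime ∧ D < q) → x ≤ y →
      ∑ A ∈ P.powerset, win x y (sz A) * wt A
        ≤ (1 + 2 / D) * (cW D * (max y 0 - max x 0) + C) := by
  have hW := primorial_pos D
  refine ⟨8 * (primorial D : ℝ) + 4, by positivity, fun P x y hP hxy => ?_⟩
  set B := cW D * (max y 0 - max x 0) + (8 * (primorial D : ℝ) + 4) with hB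
  have hB0 : 0 ≤ B := by
    have h1 : 0 ≤ max y 0 - max x 0 := sub_nonneg.2 (max_le_max hxy le_rfl)
    have h2 : 0 ≤ cW D := c_nonneg _
    positivity
  let d : ℕ → ℝ := fun q => 1 / ((q : ℝ) * ((q : ℝ) - 1))
  have h2 : ∀ q ∈ P, (2 : ℝ) ≤ q := fun q hq => by exact_mod_cast (hP q hq).1.two_le
  have hd0 : ∀ q ∈ P, 0 ≤ d q := fun q hq => by
    have := h2 q hq
    have : (0 : ℝ) < (q : ℝ) - 1 := by linarith
    positivity
  have e1 : ∀ A ∈ P.powerset, win x y (sz A) * wt A = ∑ t ∈ A.powerset,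
      (∏ q ∈ t, d q) * (win x y (sz A) * ∏ q ∈ A \ t, 1 / (q : ℝ)) := by
    intro A hA
    have : wt A = ∏ q ∈ A, (d q + 1 / (q : ℝ)) := by
      refine prod_congr rfl fun q hq => ?_
      have := h2 q (mem_powerset.1 hA hq)
      have h3 : (q : ℝ) - 1 ≠ 0 := by linarith
      have h4 : (q : ℝ) ≠ 0 := by linarith
      simp only [d]
      field_simp
      ring
    rw [this, prod_add, mul_sum]
    refine sum_congr rfl fun t _ => by ring
  rw [sum_congr rfl e1, sum_comm' (t' := P.powerset) (s' := fun t => P.powerset.filter (t ⊆ ·))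
    (by
      intro A t
      simp only [mem_powerset, mem_filter]
      exact ⟨fun h => ⟨⟨h.1, h.2⟩, h.2.trans h.1⟩, fun h => ⟨h.1.1, h.1.2⟩⟩)]
  have e2 : ∀ t ∈ P.powerset, ∑ A ∈ P.powerset.filter (t ⊆ ·),
      win x y (sz A) * ∏ q ∈ A \ t, 1 / (q : ℝ) ≤ B := by
    intro t _
    refine le_trans ?_ (harm_win_shift hW (⌈exp y⌉₊ + (∏ q ∈ P, q) + 1) hxy (sz_nonneg t) ?_)
    · refine sum_le_of_inj _ _ (fun A => ∏ q ∈ A \ t, q) _ _
        (fun n _ => mul_nonneg (win_nonneg _ _ _) (cop_nonneg _ _)) ?_ ?_ ?_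
      · intro A hA A' hA' h
        simp only [coe_filter, mem_powerset, Set.mem_ofPred_eq] at hA hA'
        have h3 : A \ t = A' \ t := by
          have a1 : ∀ p ∈ A \ t, p.Prime := fun p hp => (hP p (hA.1 (mem_sdiff.1 hp).1)).1
          have a2 : ∀ p ∈ A' \ t, p.Prime := fun p hp => (hP p (hA'.1 (mem_sdiff.1 hp).1)).1
          rw [← Nat.primeFactors_prod a1, ← Nat.primeFactors_prod a2]
          exact congrArg _ h
        rw [← sdiff_union_of_subset hA.2, h3, sdiff_union_of_subset hA'.2]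
      · intro A hA
        simp only [mem_filter, mem_powerset] at hA
        have : ∏ q ∈ A \ t, q ≤ ∏ q ∈ P, q :=
          Nat.le_of_dvd (prod_pos fun q hq => (hP q hq).1.pos)
            (prod_dvd_prod_of_subset _ _ _ (sdiff_subset.trans hA.1))
        rw [mem_range]; omega
      · intro A hA
        simp only [mem_filter, mem_powerset] at hA
        have a1 : ∀ p ∈ A \ t, p.Prime ∧ D < p := fun p hp => hP p (hA.1 (mem_sdiff.1 hp).1)
        rw [cop_prod a1, log_prod_eq_sz fun p hp => (a1 p hp).1]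
        have : sz A = sz t + sz (A \ t) := by
          unfold sz
          rw [← sum_sdiff hA.2, add_comm]
        rw [this]
    · have := Nat.le_ceil (exp y)
      push_cast
      have : (0 : ℝ) ≤ ∏ q ∈ P, (q : ℝ) := prod_nonneg fun q _ => by positivity
      linarith
  have hD' : (2 : ℝ) ≤ D := by exact_mod_cast hD
  calc ∑ t ∈ P.powerset, ∑ A ∈ P.powerset.filter (t ⊆ ·),
        (∏ q ∈ t, d q) * (win x y (sz A) * ∏ q ∈ A \ t, 1 / (q : ℝ))
      ≤ ∑ t ∈ P.powerset, (∏ q ∈ t, d q) * B := by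
        refine sum_le_sum fun t ht => ?_
        rw [← mul_sum]
        exact mul_le_mul_of_nonneg_left (e2 t ht)
          (prod_nonneg fun q hq => hd0 q (mem_powerset.1 ht hq))
    _ = (∏ q ∈ P, (1 + d q)) * B := by rw [← sum_mul, prod_one_add]
    _ ≤ (1 + 2 / D) * B := by
        refine mul_le_mul_of_nonneg_right ?_ hB0
        have h3 : ∏ q ∈ P, (1 + d q) ≤ exp (∑ q ∈ P, d q) := by
          rw [exp_sum]
          exact prod_le_prod (fun q hq => by have := hd0 q hq; positivity)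
            fun q _ => by have := add_one_le_exp (d q); linarith
        have h4 : ∑ q ∈ P, d q ≤ 1 / D :=
          Sieve.sum_inv_sq_le P (by omega) fun r hr => (hP r hr).2
        have h5 : (1 : ℝ) / D ≤ 1 / 2 := by gcongr
        have h6 : (0 : ℝ) ≤ 1 / D := by positivity
        have h7 := exp_bound_div_one_sub_of_interval h6 (by linarith)
        have h8 : 1 / (1 - (1 : ℝ) / D) ≤ 1 + 2 / D := by
          rw [div_le_iff₀ (by linarith), show (2 : ℝ) / D = 2 * (1 / D) by ring]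
          nlinarith
        exact h3.trans ((exp_le_exp.2 h4).trans (h7.trans h8))

theorem win_ge {D : ℕ} (hD : 2 ≤ D) :
    ∃ C : ℝ, 0 ≤ C ∧ ∀ (l x y : ℝ), x ≤ y → y ≤ 2 * l →
      (1 - 1 / D) * cW D * (max y 0 - max x 0) - C
        ≤ ∑ A ∈ (PP D l).powerset, win x y (sz A) * wt A := by
  have hW := primorial_pos D
  refine ⟨2 * (8 * (primorial D : ℝ) + 4), by positivity, fun l x y hxy hy => ?_⟩
  set K : ℝ := 8 * (primorial D : ℝ) + 4 with hK
  have hK0 : 0 ≤ K := by positivity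
  set R := cW D * (max y 0 - max x 0) with hR
  have hR0 : 0 ≤ R := mul_nonneg (c_nonneg _) (sub_nonneg.2 (max_le_max hxy le_rfl))
  set N := ⌈exp y⌉₊ with hNdef
  have hN : exp y ≤ N := Nat.le_ceil _
  set W := primorial D with hWdef
  let f : ℕ → ℝ := fun n => win x y (log n) * cop W n
  have hf0 : ∀ n, 0 ≤ f n := fun n => mul_nonneg (win_nonneg _ _ _) (cop_nonneg _ _)
  have hbig : ∀ n, f n ≠ 0 → n ≠ 0 ∧ log n < y ∧ ∀ p : ℕ, p.Prime → p ∣ n → D < p := by
    intro n hn
    have a1 : win x y (log n) ≠ 0 := left_ne_zero_of_mul hn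
    have a2 : cop W n ≠ 0 := right_ne_zero_of_mul hn
    refine ⟨by rintro rfl; exact a2 (cop_zero W), ?_, fun p hp hpn => ?_⟩
    · by_contra h
      exact a1 (if_neg fun h' => h h'.2)
    · by_contra h
      have a3 : Nat.Coprime n W := by
        by_contra h'
        exact a2 (if_neg h')
      have a4 : p ∣ W := hp.dvd_primorial_iff.2 (not_lt.1 h)
      exact hp.one_lt.ne' (Nat.eq_one_of_dvd_coprimes a3 hpn a4)
  let S := (range N).filter (fun p => p.Prime ∧ D < p)
  have h1 : R - K ≤ ∑ n ∈ range N, f n := by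
    have := (abs_le.1 (harm_win hW N hxy hN)).1
    simp only [hR, cW, f]
    linarith
  have h2 : ∑ n ∈ range N, f n ≤ ∑ n ∈ range N, ((if Squarefree n ∧ f n ≠ 0 then f n else 0)
      + ∑ p ∈ S, if p ^ 2 ∣ n then f n else 0) := by
    refine sum_le_sum fun n hn => ?_
    have b0 : 0 ≤ ∑ p ∈ S, if p ^ 2 ∣ n then f n else 0 :=
      sum_nonneg fun p _ => by split_ifs; exacts [hf0 n, le_rfl]
    by_cases hz : f n = 0
    · rw [if_neg (fun h => h.2 hz)]
      linarith
    by_cases hs : Squarefree n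
    · rw [if_pos ⟨hs, hz⟩]; linarith
    · rw [if_neg (fun h => hs h.1), zero_add]
      rw [Nat.squarefree_iff_prime_squarefree] at hs
      push Not at hs
      obtain ⟨p, hp, hpn⟩ := hs
      obtain ⟨n0, -, hn2⟩ := hbig n hz
      have hpd : p ∣ n := (dvd_mul_right p p).trans hpn
      have hpS : p ∈ S := mem_filter.2 ⟨mem_range.2
        ((Nat.le_of_dvd (Nat.pos_of_ne_zero n0) hpd).trans_lt (mem_range.1 hn)), hp, hn2 p hp hpd⟩
      refine le_trans ?_ (single_le_sum (f := fun p => if p ^ 2 ∣ n then f n else 0)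
        (fun p _ => by split_ifs; exacts [hf0 n, le_rfl]) hpS)
      rw [if_pos (by rwa [pow_two])]
  have hPP : ∀ q ∈ PP D l, q.Prime ∧ D < q := fun q hq =>
    ⟨(mem_PP.1 hq).1, (mem_PP.1 hq).2.1⟩
  have h3 : ∑ n ∈ range N, (if Squarefree n ∧ f n ≠ 0 then f n else 0)
      ≤ ∑ A ∈ (PP D l).powerset, win x y (sz A) * wt A := by
    rw [← sum_filter]
    refine sum_le_of_inj _ _ Nat.primeFactors _ _ (fun A hA => mul_nonneg (win_nonneg _ _ _)
      (wt_nonneg fun q hq => (hPP q (mem_powerset.1 hA hq)).1.two_le)) ?_ ?_ ?_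
    · intro n hn m hm h
      simp only [coe_filter, Set.mem_ofPred_eq] at hn hm
      rw [← Nat.prod_primeFactors_of_squarefree hn.2.1, h,
        Nat.prod_primeFactors_of_squarefree hm.2.1]
    · intro n hn
      obtain ⟨n0, hn1, hn2⟩ := hbig n (mem_filter.1 hn).2.2
      refine mem_powerset.2 fun p hp => ?_
      have hp1 := Nat.prime_of_mem_primeFactors hp
      have hp2 := Nat.dvd_of_mem_primeFactors hp
      refine mem_PP.2 ⟨hp1, hn2 p hp1 hp2, ?_⟩
      have : log (p : ℝ) ≤ log n := log_le_log (by exact_mod_cast hp1.pos)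
        (by exact_mod_cast Nat.le_of_dvd (Nat.pos_of_ne_zero n0) hp2)
      linarith
    · intro n hn
      obtain ⟨n0, hn1, hn2⟩ := hbig n (mem_filter.1 hn).2.2
      have hs := Nat.prod_primeFactors_of_squarefree (mem_filter.1 hn).2.1
      have a1 : ∀ p ∈ n.primeFactors, p.Prime ∧ D < p := fun p hp =>
        ⟨Nat.prime_of_mem_primeFactors hp,
          hn2 p (Nat.prime_of_mem_primeFactors hp) (Nat.dvd_of_mem_primeFactors hp)⟩
      have a2 := log_prod_eq_sz fun p hp => (a1 p hp).1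
      have a3 := cop_prod a1
      rw [hs] at a2 a3
      simp only [f]
      rw [a2, a3]
      refine mul_le_mul_of_nonneg_left ?_ (win_nonneg _ _ _)
      refine prod_le_prod (fun q _ => by positivity) fun q hq => ?_
      have : (2 : ℝ) ≤ q := by exact_mod_cast (a1 q hq).1.two_le
      exact one_div_le_one_div_of_le (by linarith) (by linarith)
  have h4 : ∀ p ∈ S, ∑ n ∈ range N, (if p ^ 2 ∣ n then f n else 0)
      ≤ (1 / (p : ℝ)) ^ 2 * (R + K) := by
    intro p hp
    have hp1 : p.Prime := (mem_filter.1 hp).2.1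
    have hp0 : (0 : ℝ) < p := by exact_mod_cast hp1.pos
    have hp2 : 0 < p ^ 2 := pow_pos hp1.pos 2
    have b1 := harm_win_shift hW N hxy (t := log ((p : ℝ) ^ 2))
      (log_nonneg (one_le_pow₀ (by exact_mod_cast hp1.one_le))) hN
    refine le_trans ?_ (mul_le_mul_of_nonneg_left b1 (by positivity))
    rw [← sum_filter, mul_sum]
    refine sum_le_of_inj _ _ (fun n => n / p ^ 2) _ _ (fun n _ => mul_nonneg (by positivity)
      (mul_nonneg (win_nonneg _ _ _) (cop_nonneg _ _))) ?_ ?_ ?_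
    · intro n hn m hm h
      simp only [coe_filter, Set.mem_ofPred_eq] at hn hm
      rw [← Nat.div_mul_cancel hn.2, ← Nat.div_mul_cancel hm.2]
      exact congrArg (· * p ^ 2) h
    · intro n hn
      exact mem_range.2 ((Nat.div_le_self _ _).trans_lt (mem_range.1 (mem_filter.1 hn).1))
    · intro n hn
      obtain ⟨m, rfl⟩ := (mem_filter.1 hn).2
      rw [Nat.mul_div_cancel_left m hp2]
      by_cases hz : f (p ^ 2 * m) = 0
      · rw [hz]
        exact mul_nonneg (by positivity) (mul_nonneg (win_nonneg _ _ _) (cop_nonneg _ _))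
      have m0 : m ≠ 0 := by
        rintro rfl
        exact (hbig _ hz).1 (by simp)
      have m1 : (0 : ℝ) < m := by exact_mod_cast Nat.pos_of_ne_zero m0
      have a3 : Nat.Coprime (p ^ 2 * m) W := by
        by_contra h'
        exact (right_ne_zero_of_mul hz) (if_neg h')
      have a4 : Nat.Coprime m W := Nat.Coprime.coprime_mul_left a3
      simp only [f, cop]
      rw [if_pos a3, if_pos a4]
      push_cast
      rw [log_mul (by positivity) m1.ne']
      apply le_of_eq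
      field_simp
  have h5 : ∑ p ∈ S, (1 / (p : ℝ)) ^ 2 ≤ 1 / (D : ℝ) :=
    Sieve.sum_inv_sq_le' S (by omega) fun r hr => (mem_filter.1 hr).2.2
  have h6 : ∑ n ∈ range N, ∑ p ∈ S, (if p ^ 2 ∣ n then f n else 0) ≤ 1 / D * (R + K) := by
    rw [sum_comm]
    refine (sum_le_sum h4).trans ?_
    rw [← sum_mul]
    exact mul_le_mul_of_nonneg_right h5 (by linarith)
  rw [sum_add_distrib] at h2
  have hD' : (2 : ℝ) ≤ D := by exact_mod_cast hD
  have h7 : (1 : ℝ) / D ≤ 1 := by
    rw [div_le_one (by linarith)]; linarith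
  have h8 : 1 / D * K ≤ K := by nlinarith
  have e : (1 - 1 / D) * cW D * (max y 0 - max x 0) = R - 1 / D * R := by rw [hR]; ring
  rw [e]
  nlinarith

theorem cW_mul_Eul (D : ℕ) : cW D * Eul (Nat.primesLE D) = 1 := by
  have h := Nat.totient_eq_mul_prod_factors (primorial D)
  have h' : (Nat.totient (primorial D) : ℝ)
      = primorial D * ∏ p ∈ (primorial D).primeFactors, (1 - (p : ℝ)⁻¹) := by
    have h2 := congrArg (fun z : ℚ => (z : ℝ)) h
    push_cast at h2
    exact h2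
  have hW : (primorial D : ℝ) ≠ 0 := by exact_mod_cast primorial_ne_zero D
  rw [cW, h', primeFactors_primorial, mul_div_cancel_left₀ _ hW, Eul, ← prod_mul_distrib]
  refine prod_eq_one fun q hq => ?_
  have : (2 : ℝ) ≤ q := by exact_mod_cast Nat.two_le_of_mem_primesLE hq
  have h3 : (q : ℝ) - 1 ≠ 0 := by linarith
  have h4 : (q : ℝ) ≠ 0 := by linarith
  field_simp
  ring

theorem Eul_primesLE_le {y : ℕ} (hy : 2 ≤ y) : Eul (Nat.primesLE y) ≤ exp 8 * log y := by
  have h2 : ∀ q ∈ Nat.primesLE y, (2 : ℝ) ≤ q := fun q hq => by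
    exact_mod_cast Nat.two_le_of_mem_primesLE hq
  have h1 : Eul (Nat.primesLE y) ≤ exp (∑ q ∈ Nat.primesLE y, 1 / ((q : ℝ) - 1)) := by
    rw [exp_sum, Eul]
    refine prod_le_prod (fun q hq => ?_)
      fun q _ => by have := add_one_le_exp (1 / ((q : ℝ) - 1)); linarith
    have := h2 q hq
    have : (0 : ℝ) < (q : ℝ) - 1 := by linarith
    positivity
  have h3 : ∑ q ∈ Nat.primesLE y, 1 / ((q : ℝ) - 1) = ∑ q ∈ Nat.primesLE y, 1 / (q : ℝ)
      + ∑ q ∈ Nat.primesLE y, 1 / ((q : ℝ) * ((q : ℝ) - 1)) := by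
    rw [← sum_add_distrib]
    refine sum_congr rfl fun q hq => ?_
    have := h2 q hq
    have h3 : (q : ℝ) - 1 ≠ 0 := by linarith
    have h4 : (q : ℝ) ≠ 0 := by linarith
    field_simp
    ring
  have h4 := Sieve.sum_inv_primes_le hy
  have h5 := Sieve.sum_inv_sq_le (Nat.primesLE y) (Z := 1) le_rfl
    fun r hr => Nat.one_lt_of_mem_primesLE hr
  have hl := Sieve.one_half_le_log hy
  refine h1.trans ?_
  rw [← exp_log (by linarith : 0 < log (y : ℝ)), ← exp_add, exp_le_exp, h3]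
  simp only [Nat.cast_one, div_one] at h5
  linarith

/-- The constant is absolute. -/
theorem Eul_le : ∃ C0 : ℝ, 1 ≤ C0 ∧ ∀ D : ℕ, ∀ᶠ l : ℝ in atTop, Eul (PP D l) ≤ C0 * (cW D * l) := by
  refine ⟨3 * exp 8, by have := one_le_exp (by norm_num : (0 : ℝ) ≤ 8); linarith, fun D => ?_⟩
  filter_upwards [eventually_ge_atTop (D : ℝ), eventually_ge_atTop (1 : ℝ)] with l hl1 hl2
  set y := ⌈exp (2 * l)⌉₊ with hy
  have h1 : exp (2 * l) ≤ y := Nat.le_ceil _
  have h2 : 2 * l + 1 ≤ exp (2 * l) := add_one_le_exp _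
  have hDy : D ≤ y := by exact_mod_cast (by linarith : (D : ℝ) ≤ y)
  have hy2 : 2 ≤ y := by exact_mod_cast (by linarith : (2 : ℝ) ≤ y)
  have h3 : log y ≤ 3 * l := by
    have a1 : (y : ℝ) < exp (2 * l) + 1 := Nat.ceil_lt_add_one (exp_pos _).le
    rw [log_le_iff_le_exp (by linarith [exp_pos (2 * l)]), show 3 * l = 2 * l + l by ring, exp_add]
    have a2 : l + 1 ≤ exp l := add_one_le_exp _
    nlinarith
  have hdisj : Disjoint (PP D l) (Nat.primesLE D) := by
    rw [disjoint_left]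
    intro q hq hq'
    have := (mem_PP.1 hq).2.1
    have := Nat.le_of_mem_primesLE hq'
    omega
  have hsub : PP D l ∪ Nat.primesLE D ⊆ Nat.primesLE y := by
    intro q hq
    rcases mem_union.1 hq with h | h
    · exact Nat.mem_primesLE.2 ⟨(mem_range.1 (mem_filter.1 h).1).le, (mem_PP.1 h).1⟩
    · exact Nat.mem_primesLE.2 ⟨(Nat.le_of_mem_primesLE h).trans hDy, Nat.prime_of_mem_primesLE h⟩
  have h4 : Eul (PP D l) * Eul (Nat.primesLE D) ≤ Eul (Nat.primesLE y) := by
    have a1 : Eul (PP D l) * Eul (Nat.primesLE D) = Eul (PP D l ∪ Nat.primesLE D) := by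
      unfold Eul; rw [prod_union hdisj]
    have a2 : Eul (Nat.primesLE y) = Eul (Nat.primesLE y \ (PP D l ∪ Nat.primesLE D))
        * Eul (PP D l ∪ Nat.primesLE D) := by
      unfold Eul; rw [prod_sdiff hsub]
    have a3 : 1 ≤ Eul (Nat.primesLE y \ (PP D l ∪ Nat.primesLE D)) :=
      one_le_Eul fun q hq => Nat.two_le_of_mem_primesLE (mem_sdiff.1 hq).1
    have a4 : 1 ≤ Eul (PP D l ∪ Nat.primesLE D) :=
      one_le_Eul fun q hq => Nat.two_le_of_mem_primesLE (hsub hq)
    rw [a1, a2]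
    nlinarith
  have h5 := Eul_primesLE_le hy2
  have h6 := cW_mul_Eul D
  have h7 : 0 ≤ cW D := c_nonneg _
  have h8 := exp_pos (8 : ℝ)
  calc Eul (PP D l) = cW D * (Eul (PP D l) * Eul (Nat.primesLE D)) := by
        rw [mul_left_comm, h6, mul_one]
    _ ≤ cW D * (exp 8 * (3 * l)) := by
        refine mul_le_mul_of_nonneg_left (h4.trans (h5.trans ?_)) h7
        gcongr
    _ = _ := by ring

end Pool.Agent.Lib.Tup
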