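import Pool.Agent.Lib.Tup.LT
import Pool.Agent.Lib.Tup.Win

namespace Pool.Agent.Lib.Tup
open Finset Real Filter

theorem bump_zero_lo {ψ : ℝ → ℝ} {s0 s1 : ℝ} (hψ : Bump ψ s0 s1) {s : ℝ} (hs : s < s0) :
    ψ s = 0 := by
  by_contra h
  exact absurd (hψ.supp s h).1 (not_le.2 hs)

theorem bump_zero_hi {ψ : ℝ → ℝ} {s0 s1 : ℝ} (hψ : Bump ψ s0 s1) {s : ℝ} (hs : s1 ≤ s) :
    ψ s = 0 := by
  refine le_antisymm ?_ (hψ.nonneg s)
  refine le_of_forall_pos_le_add fun δ hδ => ?_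
  have h1 : ψ (s + δ) = 0 := by
    by_contra h
    have := (hψ.supp _ h).2
    linarith
  have h2 := hψ.lip s (s + δ)
  rw [h1, sub_zero, show s - (s + δ) = -δ by ring, abs_neg, abs_of_pos hδ] at h2
  linarith [le_abs_self (ψ s)]

theorem wg_zero_lo {ψ : ℝ → ℝ} {s0 s1 : ℝ} (hψ : Bump ψ s0 s1) {l : ℝ} (hl : 0 < l) {m : ℕ}
    (hm : log m < s0 * l) : wg ψ l m = 0 := by
  unfold wg
  rw [bump_zero_lo hψ ((div_lt_iff₀ hl).2 hm), zero_div]

theorem wg_zero_hi {ψ : ℝ → ℝ} {s0 s1 : ℝ} (hψ : Bump ψ s0 s1) {l : ℝ} (hl : 0 < l) {m : ℕ}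
    (hm : s1 * l ≤ log m) : wg ψ l m = 0 := by
  unfold wg
  rw [bump_zero_hi hψ ((le_div_iff₀ hl).2 hm), zero_div]

theorem wg_zero_NN {ψ : ℝ → ℝ} {s0 s1 : ℝ} (hψ : Bump ψ s0 s1) {l : ℝ} (hl : 0 < l) {m : ℕ}
    (hm : NN l ≤ m) : wg ψ l m = 0 := by
  have h1 : exp (5 * l) ≤ m := (Nat.le_ceil _).trans (by exact_mod_cast hm)
  have h2 : 5 * l ≤ log m := by
    rw [le_log_iff_exp_le ((exp_pos _).trans_le h1)]
    exact h1
  exact wg_zero_hi hψ hl (by nlinarith [hψ.hi])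

theorem wg_nonneg {ψ : ℝ → ℝ} {s0 s1 : ℝ} (hψ : Bump ψ s0 s1) (l : ℝ) (m : ℕ) :
    0 ≤ wg ψ l m := div_nonneg (hψ.nonneg _) (Nat.cast_nonneg m)

theorem wg_diff {ψ : ℝ → ℝ} {s0 s1 : ℝ} (hψ : Bump ψ s0 s1) {l : ℝ} (hl : 1 ≤ l) {n : ℕ}
    (hn : 1 ≤ n) (h : ℕ) :
    |wg ψ l (n + h) - wg ψ l n| ≤ 2 * h / (n * (n + h)) := by
  have hn' : (1 : ℝ) ≤ n := by exact_mod_cast hn
  have hh : (0 : ℝ) ≤ h := Nat.cast_nonneg h
  have hn0 : (0 : ℝ) < n := by linarith
  have hnh : (0 : ℝ) < n + h := by linarith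
  have hl0 : 0 < l := by linarith
  have e1 : log ((n : ℝ) + h) - log n ≤ h / n := by
    rw [← log_div hnh.ne' hn0.ne']
    have := log_le_sub_one_of_pos (div_pos hnh hn0)
    have e : ((n : ℝ) + h) / n - 1 = h / n := by field_simp; ring
    linarith
  have e2 : 0 ≤ log ((n : ℝ) + h) - log n := sub_nonneg.2 (log_le_log hn0 (by linarith))
  have e3 : |ψ (log ((n : ℝ) + h) / l) - ψ (log n / l)| ≤ h / n := by
    refine (hψ.lip _ _).trans ?_
    rw [← sub_div, abs_of_nonneg (div_nonneg e2 hl0.le)]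
    exact (div_le_self e2 hl).trans e1
  unfold wg
  push_cast
  set A := ψ (log ((n : ℝ) + h) / l)
  set B := ψ (log (n : ℝ) / l)
  have hB0 : 0 ≤ B := hψ.nonneg _
  have hB1 : B ≤ 1 := hψ.le_one _
  have e4 : A / (n + h) - B / n = ((A - B) * n - B * h) / (n * (n + h)) := by
    field_simp; ring
  rw [e4, abs_div, abs_of_pos (mul_pos hn0 hnh)]
  refine div_le_div_of_nonneg_right ?_ (mul_pos hn0 hnh).le
  rw [le_div_iff₀ hn0] at e3
  have e5 : |(A - B) * n| ≤ h := by rw [abs_mul, abs_of_pos hn0]; exact e3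
  rw [abs_le] at e5 ⊢
  constructor <;> nlinarith [e5.1, e5.2]

theorem wg_tv {ψ : ℝ → ℝ} {s0 s1 : ℝ} (hψ : Bump ψ s0 s1) {l : ℝ} (hl : 1 ≤ l) (M : ℕ) :
    ∑ n ∈ range M, |wg ψ l (n + 1) - wg ψ l n| ≤ 4 * exp (-(19 / 5 * l)) := by
  set E := exp (19 / 5 * l) with hE
  have hE2 : 2 ≤ E := by
    have := add_one_le_exp (19 / 5 * l)
    linarith
  have hl0 : 0 < l := by linarith
  set g : ℕ → ℝ := fun n => 2 / max (n : ℝ) (E - 1) with hg
  have hpos : ∀ n : ℕ, 0 < max (n : ℝ) (E - 1) := fun n => lt_max_of_lt_right (by linarith)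
  have step : ∀ n : ℕ, |wg ψ l (n + 1) - wg ψ l n| ≤ g n - g (n + 1) := by
    intro n
    by_cases hn : (n : ℝ) + 1 < E
    · have hlog : ∀ m : ℕ, (m : ℝ) < E → log m < s0 * l := by
        intro m hm
        have h1 : log m < 19 / 5 * l := by
          rcases Nat.eq_zero_or_pos m with rfl | hm0
          · simp only [Nat.cast_zero, log_zero]; positivity
          · rw [log_lt_iff_lt_exp (by exact_mod_cast hm0)]; exact hm
        nlinarith [hψ.lo]
      rw [wg_zero_lo hψ hl0 (hlog (n + 1) (by push_cast; exact hn)),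
        wg_zero_lo hψ hl0 (hlog n (by linarith)), sub_self, abs_zero, sub_nonneg]
      refine div_le_div_of_nonneg_left (by norm_num) (hpos n) (max_le_max_right _ ?_)
      push_cast; linarith
    · have h1 : E - 1 ≤ n := by linarith
      have h2 : (1 : ℝ) ≤ n := by linarith
      have h3 := wg_diff hψ hl (n := n) (by exact_mod_cast h2) 1
      refine h3.trans (le_of_eq ?_)
      simp only [hg]
      rw [max_eq_left h1, max_eq_left (by push_cast; linarith)]
      push_cast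
      field_simp
      ring
  calc ∑ n ∈ range M, |wg ψ l (n + 1) - wg ψ l n| ≤ ∑ n ∈ range M, (g n - g (n + 1)) :=
        sum_le_sum fun n _ => step n
    _ = g 0 - g M := sum_range_sub' g M
    _ ≤ g 0 := sub_le_self _ (div_nonneg (by norm_num) (hpos M).le)
    _ ≤ 4 * exp (-(19 / 5 * l)) := by
        simp only [hg, Nat.cast_zero]
        rw [max_eq_right (by linarith), exp_neg, ← hE, ← div_eq_mul_inv,
          div_le_div_iff₀ (by linarith) (by linarith)]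
        linarith

theorem sum_range_blocks (f : ℕ → ℝ) (q K : ℕ) :
    ∑ m ∈ range (K * q), f m = ∑ j ∈ range K, ∑ r ∈ range q, f (j * q + r) := by
  induction K with
  | zero => simp
  | succ K ih => rw [Nat.succ_mul, sum_range_add, ih, sum_range_succ]

theorem abs_sub_le_block (f : ℕ → ℝ) (b q : ℕ) {r s : ℕ} (hr : r < q) (hs : s < q) :
    |f (b + r) - f (b + s)| ≤ ∑ i ∈ range q, |f (b + i + 1) - f (b + i)| := by
  wlog hrs : r ≤ s generalizing r s
  · rw [abs_sub_comm]; exact this hs hr (not_le.1 hrs).le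
  have h1 := dist_le_Ico_sum_dist (fun i => f (b + i)) hrs
  simp only [Real.dist_eq] at h1
  refine h1.trans ?_
  calc ∑ i ∈ Ico r s, |f (b + i) - f (b + (i + 1))|
      = ∑ i ∈ Ico r s, |f (b + i + 1) - f (b + i)| :=
        sum_congr rfl fun i _ => by rw [abs_sub_comm, add_assoc]
    _ ≤ _ := sum_le_sum_of_subset_of_nonneg
        (fun i hi => mem_range.2 ((mem_Ico.1 hi).2.trans hs)) fun _ _ _ => abs_nonneg _

theorem sum_range_ext {f : ℕ → ℝ} {M M' : ℕ} (h : M ≤ M') (hf : ∀ m, M ≤ m → f m = 0) :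
    ∑ m ∈ range M, f m = ∑ m ∈ range M', f m :=
  sum_subset (range_subset_range.2 h) fun m _ hm => hf m (not_lt.1 fun h' => hm (mem_range.2 h'))

theorem disc {ψ : ℝ → ℝ} {s0 s1 : ℝ} (hψ : Bump ψ s0 s1) :
    ∀ᶠ l : ℝ in atTop, ∀ q a : ℕ, 0 < q →
      |∑ m ∈ cls l q a, wg ψ l m - TT ψ l / q| ≤ 10 * exp (-(19 / 5 * l)) := by
  filter_upwards [eventually_ge_atTop (1 : ℝ)] with l hl
  intro q a hq
  have hl0 : 0 < l := by linarith
  have hq' : (0 : ℝ) < q := by exact_mod_cast hq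
  have hK : NN l ≤ NN l * q := Nat.le_mul_of_pos_right _ hq
  have e1 : ∑ m ∈ cls l q a, wg ψ l m = ∑ j ∈ range (NN l), wg ψ l (j * q + a % q) := by
    unfold cls
    rw [sum_filter, sum_range_ext hK fun m hm => by simp [wg_zero_NN hψ hl0 hm], sum_range_blocks]
    refine sum_congr rfl fun j _ => ?_
    rw [sum_eq_single (a % q)]
    · rw [if_pos]
      unfold Nat.ModEq
      rw [Nat.mul_add_mod_self_right, Nat.mod_mod]
    · intro r hr hne
      rw [if_neg]
      unfold Nat.ModEq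
      rw [Nat.mul_add_mod_self_right, Nat.mod_eq_of_lt (mem_range.1 hr)]
      exact hne
    · intro h
      exact absurd (mem_range.2 (Nat.mod_lt a hq)) h
  have e2 : TT ψ l = ∑ j ∈ range (NN l), ∑ r ∈ range q, wg ψ l (j * q + r) := by
    unfold TT
    rw [sum_range_ext hK fun m hm => wg_zero_NN hψ hl0 hm, sum_range_blocks]
  rw [e1, e2, sum_div, ← sum_sub_distrib]
  refine (abs_sum_le_sum_abs _ _).trans ?_
  have e3 : ∀ j ∈ range (NN l),
      |wg ψ l (j * q + a % q) - (∑ r ∈ range q, wg ψ l (j * q + r)) / q|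
        ≤ ∑ r ∈ range q, |wg ψ l (j * q + r + 1) - wg ψ l (j * q + r)| := by
    intro j _
    have e4 : wg ψ l (j * q + a % q) - (∑ r ∈ range q, wg ψ l (j * q + r)) / q
        = (∑ r ∈ range q, (wg ψ l (j * q + a % q) - wg ψ l (j * q + r))) / q := by
      rw [sum_sub_distrib, sum_const, card_range, nsmul_eq_mul]
      field_simp
    rw [e4, abs_div, abs_of_pos hq', div_le_iff₀ hq']
    refine (abs_sum_le_sum_abs _ _).trans ?_
    refine (sum_le_sum fun r hr =>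
      abs_sub_le_block (wg ψ l) (j * q) q (Nat.mod_lt a hq) (mem_range.1 hr)).trans ?_
    rw [sum_const, card_range, nsmul_eq_mul, mul_comm]
  refine (sum_le_sum e3).trans ?_
  rw [← sum_range_blocks (fun n => |wg ψ l (n + 1) - wg ψ l n|)]
  refine (wg_tv hψ hl _).trans ?_
  nlinarith [exp_pos (-(19 / 5 * l))]

theorem TT_approx {ψ : ℝ → ℝ} {s0 s1 : ℝ} (hψ : Bump ψ s0 s1) {ε : ℝ} (hε : 0 < ε) :
    ∀ᶠ l : ℝ in atTop, |TT ψ l - l * ∫ s in s0..s1, ψ s| ≤ ε * l := by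
  obtain ⟨C, -, hC⟩ := harm_count (W := 1) one_pos
  filter_upwards [lip_test 1 C hε, eventually_gt_atTop (0 : ℝ)] with l hl hl0
  have h1 := hl (NN l) (fun n => 1 / (n : ℝ)) s0 s1 1 ψ (fun n => by positivity)
    (fun x hx hx5 => by
      have := hC (NN l) x hx ((exp_le_exp.2 hx5).trans (Nat.le_ceil _))
      simpa using this)
    (by linarith [hψ.lo]) hψ.le (by linarith [hψ.hi])
    (fun s _ => by rw [abs_of_nonneg (hψ.nonneg s)]; exact hψ.le_one s)
    (fun s _ t _ => by rw [one_mul]; exact hψ.lip s t)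
  have h2 : TT ψ l = ∑ n ∈ (range (NN l)).filter
      (fun n : ℕ => s0 * l ≤ log n ∧ log n < s1 * l), 1 / (n : ℝ) * ψ (log n / l) := by
    unfold TT
    rw [sum_filter]
    refine sum_congr rfl fun n _ => ?_
    split_ifs with h
    · unfold wg; ring
    · rcases not_and_or.1 h with h | h
      · exact wg_zero_lo hψ hl0 (not_le.1 h)
      · exact wg_zero_hi hψ hl0 (not_lt.1 h)
  rw [h2]
  simpa using h1

theorem TT_le {ψ : ℝ → ℝ} {s0 s1 : ℝ} (hψ : Bump ψ s0 s1) :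
    ∀ᶠ l : ℝ in atTop, 0 ≤ TT ψ l ∧ TT ψ l ≤ l := by
  filter_upwards [TT_approx hψ (ε := 1 / 2) (by norm_num), eventually_gt_atTop (0 : ℝ)]
    with l hl hl0
  refine ⟨sum_nonneg fun m _ => wg_nonneg hψ l m, ?_⟩
  have h1 : ‖∫ s in s0..s1, ψ s‖ ≤ 1 * |s1 - s0| :=
    intervalIntegral.norm_integral_le_of_norm_le_const fun x _ => by
      rw [Real.norm_eq_abs, abs_of_nonneg (hψ.nonneg x)]; exact hψ.le_one x
  rw [Real.norm_eq_abs, one_mul, abs_of_nonneg (sub_nonneg.2 hψ.le)] at h1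
  have h2 := (abs_le.1 h1).2
  have h3 := (abs_le.1 hl).2
  nlinarith [hψ.lo, hψ.hi]

theorem wg_shift {ψ : ℝ → ℝ} {s0 s1 : ℝ} (hψ : Bump ψ s0 s1) (h0 : 39 / 10 ≤ s0)
    (h1 : s1 ≤ 41 / 10) (h : ℕ) {ε : ℝ} (hε : 0 < ε) :
    ∀ᶠ l : ℝ in atTop, ∀ n : ℕ, |wg ψ l (n + h) - wg ψ l n| ≤ ε * wg big l n := by
  filter_upwards [eventually_ge_atTop (20 : ℝ), eventually_ge_atTop (2 * (h : ℝ)),
    eventually_ge_atTop (40 * (h : ℝ) / ε)] with l hl hl2 hl3
  intro n
  have hl0 : 0 < l := by linarith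
  have hh : (0 : ℝ) ≤ h := Nat.cast_nonneg h
  have rng : ∀ m : ℕ, wg ψ l m ≠ 0 → 39 / 10 * l ≤ log m ∧ log m ≤ 41 / 10 * l := by
    intro m hm
    constructor
    · by_contra hc
      exact hm (wg_zero_lo hψ hl0 (by nlinarith [not_le.1 hc]))
    · by_contra hc
      exact hm (wg_zero_hi hψ hl0 (by nlinarith [not_le.1 hc]))
  by_cases hz : wg ψ l (n + h) = 0 ∧ wg ψ l n = 0
  · rw [hz.1, hz.2, sub_self, abs_zero]
    exact mul_nonneg hε.le (wg_nonneg bump_big l n)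
  have key : 77 / 20 * l ≤ log n ∧ log n ≤ 41 / 10 * l := by
    rcases not_and_or.1 hz with hz | hz
    · obtain ⟨a1, a2⟩ := rng _ hz
      push_cast at a1 a2
      have a3 : log ((n : ℝ) + h) ≤ n + h := log_le_self (by positivity)
      have a4 : (h : ℝ) ≤ n := by linarith
      have a5 : (0 : ℝ) < n := by linarith
      have a6 : log ((n : ℝ) + h) ≤ log (2 * n) := log_le_log (by linarith) (by linarith)
      rw [log_mul (by norm_num) a5.ne'] at a6
      have a7 : log 2 ≤ 2 - 1 := log_le_sub_one_of_pos (by norm_num)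
      have a8 : log (n : ℝ) ≤ log ((n : ℝ) + h) := log_le_log a5 (by linarith)
      constructor <;> linarith
    · obtain ⟨a1, a2⟩ := rng _ hz
      constructor <;> linarith
  have b1 : log (n : ℝ) ≤ n := log_le_self (Nat.cast_nonneg n)
  have b2 : l ≤ n := by linarith [key.1]
  have b3 : (0 : ℝ) < n := by linarith
  have b4 : 1 ≤ n := by exact_mod_cast (show (1 : ℝ) ≤ n by linarith)
  have b5 : 1 / 20 ≤ big (log n / l) := by
    have c1 : 77 / 20 ≤ log n / l := (le_div_iff₀ hl0).2 key.1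
    have c2 : log n / l ≤ 41 / 10 := (div_le_iff₀ hl0).2 key.2
    have c3 : |log n / l - 4| ≤ 3 / 20 := abs_le.2 ⟨by linarith, by linarith⟩
    exact le_max_of_le_right (by linarith)
  refine (wg_diff hψ (by linarith) b4 h).trans ?_
  unfold wg
  rw [div_le_iff₀ hε] at hl3
  rw [← mul_div_assoc, div_le_div_iff₀ (by positivity) b3]
  have b6 : 2 * (h : ℝ) ≤ ε * big (log n / l) * (n + h) := by
    have : ε * (1 / 20) * n ≤ ε * big (log n / l) * (n + h) := by gcongr; linarith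
    nlinarith
  nlinarith

/-- Shifting the summation variable. -/
theorem sum_cls_shift {ψ : ℝ → ℝ} {s0 s1 : ℝ} (hψ : Bump ψ s0 s1) (h : ℕ) :
    ∀ᶠ l : ℝ in atTop, ∀ (W b : ℕ) (f : ℕ → ℝ),
      ∑ m ∈ cls l W (b + h), wg ψ l m * f m
        = ∑ n ∈ cls l W b, wg ψ l (n + h) * f (n + h) := by
  filter_upwards [eventually_gt_atTop (h : ℝ)] with l hl
  intro W b f
  have hh : (0 : ℝ) ≤ h := Nat.cast_nonneg h
  have hl0 : 0 < l := by linarith
  unfold cls
  rw [sum_filter, sum_filter,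
    sum_range_ext (Nat.le_add_left (NN l) h) fun m hm => by simp [wg_zero_NN hψ hl0 hm],
    sum_range_add, sum_eq_zero, zero_add]
  · refine sum_congr rfl fun n _ => ?_
    rw [add_comm h n]
    refine if_congr ⟨fun h1 => Nat.ModEq.add_right_cancel' h h1, fun h1 => h1.add_right h⟩ rfl rfl
  · intro m hm
    have h1 : (m : ℝ) ≤ h := by exact_mod_cast (mem_range.1 hm).le
    have h2 : log (m : ℝ) ≤ m := log_le_self (Nat.cast_nonneg m)
    rw [wg_zero_lo hψ hl0 (by nlinarith [hψ.lo]), zero_mul, ite_self]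

end Pool.Agent.Lib.Tup
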