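import Pool.Agent.Lib.Tup.CoordB

namespace Pool.Agent.Lib.Tup
open Finset Real Filter

open Classical in
/-- Lower bound in one coordinate (complement trick and epsilon trick). -/
theorem coord {ι : Type*} [Fintype ι] [DecidableEq ι] (c : ι → ℤ) (hc0 : ∀ i, c i ≠ 0)
    (hc : Function.Injective c) {ψ : ℝ → ℝ} {s0 s1 : ℝ} (hψ : Bump ψ s0 s1) (h4 : 4 < s0)
    (h41 : s1 ≤ 41 / 10) {n : ℕ} {h : ℝ} (hh : 0 < h) (F : Fin n → (ι → Fin n) → ℝ)
    (good : (ι → Fin n) → Prop)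
    (hF : ∀ a b, F a b ≠ 0 → ((a : ℝ) + 1) * h + ∑ i, ((b i : ℝ) + 1) * h ≤ 5 / 3 ∧
      ∑ i, ((b i : ℝ) + 1) * h ≤ 3 / 2)
    (hlev : ∀ a b a' b', F a b ≠ 0 → good b → F a' b' ≠ 0 →
      ∑ i, (((b i : ℝ) + 1) * h + ((b' i : ℝ) + 1) * h) ≤ 2)
    (g : ℕ → ℝ) (hg0 : ∀ r, 0 ≤ g r) (hg1 : ∀ r, g r ≤ 1) (hgz : g 0 = 1) (hgo : g 1 = 1)
    {ε : ℝ} (hε : 0 < ε) :
    ∃ η0 : ℝ, 0 < η0 ∧ ∀ η : ℝ, 0 < η → η ≤ η0 → ∃ D1 : ℕ, ∀ D ≥ D1, ∀ᶠ l : ℝ in atTop, ∀ b0 : ℕ,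
      Nat.Coprime b0 (primorial D) →
      ∑ b ∈ univ.filter good, (∏ i, NC D l h (b i)) *
          ∑ m ∈ (cls l (primorial D) b0).filter (RS η l),
            wg ψ l m * g m.primeFactors.card * (∑ a, F a b * XC D l h a m) ^ 2
        - ε * scale D l (Fintype.card ι + 1)
      ≤ ∑ m ∈ (cls l (primorial D) b0).filter (RS η l), wg ψ l m * g m.primeFactors.card *
          (∑ a, ∑ b, F a b * (XC D l h a m * ∏ i, XC D l h (b i) (m + c i))) ^ 2 := by
  set k := Fintype.card ι with hk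
  let F' : Fin n × (ι → Fin n) → ℝ := fun j => F j.1 j.2
  set K := (∑ j, |F' j|) ^ 2 + 1 with hK
  have hK0 : 0 < K := by positivity
  obtain ⟨C, hC, D1, H1⟩ := Co.exc_cells (n := n) c hc0 hc hψ hh
  set t := ε / (3 * K * (3 ^ (k + 1) + 1)) with ht
  have ht0 : 0 < t := by positivity
  set e := min 1 (ε / (18 * K)) with he
  have he0 : 0 < e := lt_min one_pos (by positivity)
  refine ⟨min (1 / 10) (ε / (3 * K * (1 + 1 / t) * (C + 1))), lt_min (by norm_num) (by positivity),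
    fun η hη hη0 => ?_⟩
  have hη1 : η ≤ 1 / 10 := hη0.trans (min_le_left _ _)
  have hη2 : η ≤ ε / (3 * K * (1 + 1 / t) * (C + 1)) := hη0.trans (min_le_right _ _)
  obtain ⟨D2, H2⟩ := Co.pair_main (n := n) c hc0 hc hψ hh he0
  obtain ⟨D3, H3⟩ := Co.one_main (n := n) hψ hh (ε := e / 3 ^ k) (by positivity)
  obtain ⟨D4, H4⟩ := Co.key_cells (n := n) c hc0 hc hψ h4 h41 hh (fun r => 1 - g r)
    (fun r => abs_le.2 ⟨by linarith [hg1 r], by linarith [hg0 r]⟩) (by simp [hgz]) (by simp [hgo])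
    hη hη1 he0
  obtain ⟨D5, H5⟩ := Co.NC_le hh
  refine ⟨max (max D1 D2) (max D3 (max D4 D5)), fun D hD => ?_⟩
  simp only [ge_iff_le, max_le_iff] at hD
  filter_upwards [H1 η hη hη1 D hD.1.1, H2 D hD.1.2, H3 D hD.2.1, H4 D hD.2.2.1, H5 D hD.2.2.2,
    TT_le hψ, eventually_gt_atTop 0] with l h1 h2 h3 h4' h5 h6 hl b0 hb
  set sc := scale D l (k + 1) with hsc
  have hsc0 : 0 ≤ sc := Co.scale_nonneg D hl.le _
  have hL : 0 ≤ cW D * l := mul_nonneg (cW_pos D).le hl.le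
  have hW : (0 : ℝ) < primorial D := by exact_mod_cast primorial_pos D
  have hpos : ∀ (b : ι → Fin n), 0 ≤ ∑ i, ((b i : ℝ) + 1) * h := fun b =>
    sum_nonneg fun i _ => by positivity
  have ha : ∀ j, F' j ≠ 0 → ((j.1 : ℝ) + 1) * h ≤ 5 / 3 := fun j hj => by
    linarith [(hF _ _ hj).1, hpos j.2]
  have hNb0 : ∀ b : ι → Fin n, 0 ≤ Co.Nb D l h b := fun b =>
    prod_nonneg fun i _ => Co.NC_nonneg D l h _
  have hNb : ∀ j, F' j ≠ 0 → Co.Nb D l h j.2 ≤ 3 ^ k * (cW D * l) ^ k := fun j hj => by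
    rw [← mul_pow, hk, ← card_univ, ← prod_const]
    refine prod_le_prod (fun i _ => Co.NC_nonneg D l h _) fun i _ => h5 _ ?_
    have := single_le_sum (f := fun i => ((j.2 i : ℝ) + 1) * h) (fun i _ => by positivity)
      (mem_univ i)
    linarith [(hF _ _ hj).2]
  have main := Co.core (cls l (primorial D) b0) (RS η l) (wg ψ l)
    (fun m => g m.primeFactors.card) (wg_nonneg hψ l) (fun m => hg0 _)
    (fun (a : Fin n) m => XC D l h a m) (fun b m => Co.Zc D l h c b m)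
    (fun a : Fin n => NC D l h a) (Co.Nb D l h) (fun a => Co.NC_nonneg D l h a) hNb0 F' good
    (τ := TT ψ l / (primorial D : ℝ)) (e := e * sc) (e2 := C * η * sc) (B := 3 ^ (k + 1) * sc)
    (t := t) (div_nonneg h6.1 hW.le) (by positivity) (by positivity) (by positivity) ht0
    (fun j j' hj hj' => h2 b0 j j' (hF _ _ hj).1 (hF _ _ hj').1)
    (fun j j' hj hj' => by
      refine (mul_le_mul (hNb j hj) (h3 b0 j.1 j'.1 (ha j hj) (ha j' hj')) (abs_nonneg _)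
        (by positivity)).trans (le_of_eq ?_)
      rw [hsc, Co.scale_add]; field_simp)
    (fun j j' hj hg hj' => h4' b0 j j' hb (hF _ _ hj).1 (hF _ _ hj').1 (hF _ _ hj).2
      (hF _ _ hj').2 (hlev _ _ _ _ hj hg hj'))
    (fun j hj => h1 b0 j hb (hF _ _ hj).1)
    (fun j hj => by
      have h7 := h5 j.1 (by linarith [ha j hj])
      refine (mul_le_mul (div_le_div_of_nonneg_right h6.2 hW.le)
        (mul_le_mul h7 (hNb j hj) (hNb0 _) (by positivity))
        (mul_nonneg (Co.NC_nonneg D l h _) (hNb0 _)) (by positivity)).trans (le_of_eq ?_)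
      rw [hsc, scale]; ring)
  simp only [Fintype.sum_prod_type] at main
  refine le_trans (sub_le_sub_left ?_ _) main
  rw [← Fintype.sum_prod_type (f := fun j => |F' j|)]
  have e1 : K * (6 * e) ≤ ε / 3 := by
    have := min_le_right 1 (ε / (18 * K))
    rw [← he, le_div_iff₀ (by positivity)] at this
    linarith
  have e2 : K * ((1 + 1 / t) * (C * η)) ≤ ε / 3 := by
    rw [le_div_iff₀ (by positivity)] at hη2
    have : 0 ≤ K * (1 + 1 / t) * η := by positivity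
    nlinarith
  have e3 : K * (t * (3 ^ (k + 1) + e)) ≤ ε / 3 := by
    have h8 : e ≤ 1 := min_le_left _ _
    have h9 : K * (t * (3 ^ (k + 1) + 1)) = ε / 3 := by rw [ht]; field_simp
    have : 0 ≤ K * t := by positivity
    nlinarith
  calc _ = (∑ j, |F' j|) ^ 2 * (6 * e + (1 + 1 / t) * (C * η) + t * (3 ^ (k + 1) + e)) * sc := by
        ring
    _ ≤ K * (6 * e + (1 + 1 / t) * (C * η) + t * (3 ^ (k + 1) + e)) * sc := by
        gcongr; linarith
    _ ≤ ε * sc := by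
        refine mul_le_mul_of_nonneg_right ?_ hsc0
        linarith

end Pool.Agent.Lib.Tup
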