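import Pool.Agent.Lib.Tup.Defs

namespace Pool.Agent.Lib.Tup
open Finset Real Filter

namespace ALS

/-- Trigonometric polynomial. -/
noncomputable def tp (N : ℕ) (b : ℕ → ℂ) (t : ℝ) : ℂ :=
  ∑ j ∈ range N, b j * Complex.exp (2 * π * Complex.I * (j * t))

theorem continuous_tp (N : ℕ) (b : ℕ → ℂ) : Continuous (tp N b) := by
  unfold tp
  fun_prop

theorem hasDerivAt_tp (N : ℕ) (b : ℕ → ℂ) (t : ℝ) :
    HasDerivAt (tp N b) (tp N (fun j => b j * (2 * π * Complex.I * j)) t) t := by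
  unfold tp
  refine HasDerivAt.fun_sum fun j _ => ?_
  have h1 : HasDerivAt (fun s : ℝ => (2 * π * Complex.I * (j * (s : ℂ)) : ℂ))
      (2 * π * Complex.I * j) t := by
    have h := ((Complex.ofRealCLM.hasDerivAt (x := t)).const_mul (j : ℂ)).const_mul
      (2 * π * Complex.I)
    simpa using h
  have h2 := (h1.cexp).const_mul (b j)
  exact h2.congr_deriv (by ring)

theorem tp_fract (N : ℕ) (b : ℕ → ℂ) (t : ℝ) : tp N b (Int.fract t) = tp N b t := by
  unfold tp
  refine sum_congr rfl fun j _ => ?_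
  congr 1
  rw [Complex.exp_eq_exp_iff_exists_int]
  refine ⟨-(j * ⌊t⌋), ?_⟩
  rw [Int.fract]
  push_cast
  ring

theorem integral_exp_int (m : ℤ) :
    ∫ t in (0 : ℝ)..2, Complex.exp (2 * π * Complex.I * m * t) = if m = 0 then 2 else 0 := by
  split_ifs with h
  · subst h
    simp
  · have hc : (2 * π * Complex.I * m : ℂ) ≠ 0 :=
      mul_ne_zero Complex.two_pi_I_ne_zero (by exact_mod_cast h)
    rw [integral_exp_mul_complex hc]
    have h1 : Complex.exp (2 * π * Complex.I * m * ((2 : ℝ) : ℂ)) = 1 := by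
      rw [Complex.exp_eq_one_iff]
      refine ⟨2 * m, ?_⟩
      push_cast
      ring
    rw [h1]
    simp

theorem parseval (N : ℕ) (b : ℕ → ℂ) :
    ∫ t in (0 : ℝ)..2, ‖tp N b t‖ ^ 2 = 2 * ∑ j ∈ range N, ‖b j‖ ^ 2 := by
  have key : ∀ t : ℝ, ((‖tp N b t‖ ^ 2 : ℝ) : ℂ) = ∑ j ∈ range N, ∑ k ∈ range N,
      b j * (starRingEnd ℂ) (b k) *
        Complex.exp (2 * π * Complex.I * (((j : ℤ) - (k : ℤ) : ℤ) : ℂ) * t) := by
    intro t
    rw [Complex.ofReal_pow, ← Complex.mul_conj', tp, map_sum, sum_mul_sum]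
    refine sum_congr rfl fun j _ => sum_congr rfl fun k _ => ?_
    rw [map_mul, ← Complex.exp_conj, mul_mul_mul_comm, ← Complex.exp_add]
    congr 2
    simp only [map_mul, Complex.conj_ofReal, Complex.conj_I, map_natCast, map_ofNat]
    push_cast
    ring
  apply Complex.ofReal_injective
  rw [← intervalIntegral.integral_ofReal]
  simp only [key]
  rw [intervalIntegral.integral_finsetSum fun j _ => Continuous.intervalIntegrable
    (by fun_prop) _ _]
  push_cast
  rw [mul_sum]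
  refine sum_congr rfl fun j hj => ?_
  rw [intervalIntegral.integral_finsetSum fun k _ => Continuous.intervalIntegrable
    (by fun_prop) _ _]
  have h2 : ∀ k ∈ range N, ∫ t in (0 : ℝ)..2, b j * (starRingEnd ℂ) (b k) *
      Complex.exp (2 * π * Complex.I * ((j : ℂ) - (k : ℂ)) * t)
      = if j = k then 2 * (‖b j‖ : ℂ) ^ 2 else 0 := by
    intro k _
    have h3 := integral_exp_int ((j : ℤ) - (k : ℤ))
    push_cast at h3
    rw [intervalIntegral.integral_const_mul, h3]
    by_cases h : j = k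
    · subst h
      simp [Complex.mul_conj', mul_comm]
    · have : (j : ℤ) - (k : ℤ) ≠ 0 := by omega
      simp [h, this]
  rw [sum_congr rfl h2, sum_ite_eq, if_pos hj]

theorem sobolev {g g' h : ℝ → ℝ} (hg : ∀ t, HasDerivAt g (g' t) t) (hg' : Continuous g')
    (hh : Continuous h) {δ : ℝ} (hδ : 0 < δ) (hb : ∀ t, g t / δ + |g' t| ≤ h t) (y : ℝ) :
    g y ≤ ∫ t in y..(y + δ), h t := by
  have hgc : Continuous g := continuous_iff_continuousAt.mpr fun t => (hg t).continuousAt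
  have hd : ∀ t, HasDerivAt (fun s => (s - (y + δ)) / δ * g s)
      (g t / δ + (t - (y + δ)) / δ * g' t) t := by
    intro t
    have h1 := (((hasDerivAt_id t).sub_const (y + δ)).div_const δ).mul (hg t)
    refine h1.congr_deriv ?_
    simp only [id]
    ring
  have hc : Continuous fun t => g t / δ + (t - (y + δ)) / δ * g' t := by fun_prop
  have h1 := intervalIntegral.integral_eq_sub_of_hasDerivAt (a := y) (b := y + δ)
    (fun t _ => hd t) (hc.intervalIntegrable _ _)
  have h2 : g y = ∫ t in y..(y + δ), (g t / δ + (t - (y + δ)) / δ * g' t) := by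
    rw [h1]
    field_simp
    ring
  rw [h2]
  refine intervalIntegral.integral_mono_on (by linarith) (hc.intervalIntegrable _ _)
    (hh.intervalIntegrable _ _) fun t ht => le_trans ?_ (hb t)
  have h3 : |(t - (y + δ)) / δ| ≤ 1 := by
    rw [abs_div, abs_of_pos hδ, div_le_one hδ, abs_le]
    constructor <;> linarith [ht.1, ht.2]
  have h4 : (t - (y + δ)) / δ * g' t ≤ |g' t| :=
    calc _ ≤ |(t - (y + δ)) / δ * g' t| := le_abs_self _
      _ = |(t - (y + δ)) / δ| * |g' t| := abs_mul _ _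
      _ ≤ 1 * |g' t| := mul_le_mul_of_nonneg_right h3 (abs_nonneg _)
      _ = |g' t| := one_mul _
  linarith

theorem sum_integral_le {κ : Type*} (U : Finset κ) (y : κ → ℝ) {δ : ℝ} (hδ : 0 < δ) (hδ1 : δ ≤ 1)
    (hy : ∀ u ∈ U, 0 ≤ y u ∧ y u ≤ 1)
    (hsep : ∀ u ∈ U, ∀ u' ∈ U, u ≠ u' → δ ≤ |y u - y u'|) {h : ℝ → ℝ} (hh : Continuous h)
    (h0 : ∀ t, 0 ≤ h t) :
    ∑ u ∈ U, ∫ t in (y u)..(y u + δ), h t ≤ ∫ t in (0 : ℝ)..2, h t := by
  have e1 : ∀ u ∈ U, ∫ t in (y u)..(y u + δ), h t = ∫ t in Set.Ioc (y u) (y u + δ), h t :=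
    fun u _ => intervalIntegral.integral_of_le (by linarith)
  rw [sum_congr rfl e1, intervalIntegral.integral_of_le (by norm_num),
    ← MeasureTheory.integral_biUnion_finset U (fun u _ => measurableSet_Ioc) ?_
      (fun u _ => hh.integrableOn_Ioc)]
  · refine MeasureTheory.setIntegral_mono_set hh.integrableOn_Ioc
      (Eventually.of_forall h0) (LE.le.eventuallyLE ?_)
    intro t ht
    simp only [Set.mem_iUnion] at ht
    obtain ⟨u, hu, ht⟩ := ht
    exact ⟨by linarith [(hy u hu).1, ht.1], by linarith [(hy u hu).2, ht.2]⟩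
  · intro u hu u' hu' hne
    rw [Function.onFun, Set.disjoint_left]
    intro t ht ht'
    have := hsep u hu u' hu' hne
    rw [le_abs] at this
    rcases this with h | h <;> linarith [ht.1, ht.2, ht'.1, ht'.2]

end ALS

open ALS in
/-- Additive large sieve (Gallagher). -/
theorem als {κ : Type*} (U : Finset κ) (x : κ → ℝ) {δ : ℝ} (hδ : 0 < δ) (hδ1 : δ ≤ 1)
    (hsep : ∀ u ∈ U, ∀ u' ∈ U, u ≠ u' → ∀ k : ℤ, δ ≤ |x u - x u' - k|) (N : ℕ) (b : ℕ → ℂ) :
    ∑ u ∈ U, ‖∑ j ∈ range N, b j * Complex.exp (2 * π * Complex.I * (j * x u))‖ ^ 2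
      ≤ 30 * (N + 1 / δ) * ∑ j ∈ range N, ‖b j‖ ^ 2 := by
  rcases Nat.eq_zero_or_pos N with rfl | hN
  · simp
  have hNr : (0 : ℝ) < N := by exact_mod_cast hN
  obtain ⟨L, hL⟩ : ∃ L : ℝ, L = 2 * π * N := ⟨_, rfl⟩
  have hL0 : 0 < L := by rw [hL]; positivity
  let b' : ℕ → ℂ := fun j => b j * (2 * π * Complex.I * j)
  let h : ℝ → ℝ := fun t => (1 / δ + L) * ‖tp N b t‖ ^ 2 + (1 / L) * ‖tp N b' t‖ ^ 2
  have hc := continuous_tp N b
  have hc' := continuous_tp N b'
  have hh : Continuous h := by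
    simp only [h]
    fun_prop
  have h0 : ∀ t, 0 ≤ h t := fun t => by
    simp only [h]
    positivity
  have hpt : ∀ y, ‖tp N b y‖ ^ 2 ≤ ∫ t in y..(y + δ), h t := by
    refine sobolev (g := fun t => ‖tp N b t‖ ^ 2)
      (g' := fun t => 2 * inner ℝ (tp N b t) (tp N b' t))
      (fun t => (hasDerivAt_tp N b t).norm_sq) (continuous_const.mul (hc.inner hc')) hh hδ ?_
    intro t
    have h1 := abs_real_inner_le_norm (tp N b t) (tp N b' t)
    have h2 : 2 * (‖tp N b t‖ * ‖tp N b' t‖)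
        ≤ L * ‖tp N b t‖ ^ 2 + (1 / L) * ‖tp N b' t‖ ^ 2 := by
      have h3 : 0 ≤ (1 / L) * (L * ‖tp N b t‖ - ‖tp N b' t‖) ^ 2 := by positivity
      have h4 : (1 / L) * (L * ‖tp N b t‖ - ‖tp N b' t‖) ^ 2
          = L * ‖tp N b t‖ ^ 2 + (1 / L) * ‖tp N b' t‖ ^ 2 - 2 * (‖tp N b t‖ * ‖tp N b' t‖) := by
        field_simp
        ring
      linarith
    simp only [h]
    rw [abs_mul, abs_two, div_eq_mul_one_div]
    nlinarith
  have hS : 0 ≤ ∑ j ∈ range N, ‖b j‖ ^ 2 := sum_nonneg fun j _ => sq_nonneg _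
  have hb' : ∑ j ∈ range N, ‖b' j‖ ^ 2 ≤ L ^ 2 * ∑ j ∈ range N, ‖b j‖ ^ 2 := by
    rw [mul_sum]
    refine sum_le_sum fun j hj => ?_
    have hj' : (j : ℝ) ≤ N := by exact_mod_cast (mem_range.mp hj).le
    have h1 : ‖b' j‖ = 2 * π * j * ‖b j‖ := by
      simp only [b', norm_mul, Complex.norm_I, Complex.norm_real, Complex.norm_natCast,
        Complex.norm_ofNat, Real.norm_of_nonneg pi_pos.le]
      ring
    rw [h1, mul_pow]
    refine mul_le_mul_of_nonneg_right ?_ (sq_nonneg _)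
    rw [hL]
    gcongr
  have hint : ∫ t in (0 : ℝ)..2, h t = (1 / δ + L) * (2 * ∑ j ∈ range N, ‖b j‖ ^ 2)
      + (1 / L) * (2 * ∑ j ∈ range N, ‖b' j‖ ^ 2) := by
    simp only [h]
    rw [intervalIntegral.integral_add (Continuous.intervalIntegrable (by fun_prop) _ _)
      (Continuous.intervalIntegrable (by fun_prop) _ _), intervalIntegral.integral_const_mul,
      intervalIntegral.integral_const_mul, parseval, parseval]
  calc ∑ u ∈ U, ‖∑ j ∈ range N, b j * Complex.exp (2 * π * Complex.I * (j * x u))‖ ^ 2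
      = ∑ u ∈ U, ‖tp N b (Int.fract (x u))‖ ^ 2 :=
        sum_congr rfl fun u _ => by rw [tp_fract, tp]
    _ ≤ ∑ u ∈ U, ∫ t in (Int.fract (x u))..(Int.fract (x u) + δ), h t :=
        sum_le_sum fun u _ => hpt _
    _ ≤ ∫ t in (0 : ℝ)..2, h t := by
        refine sum_integral_le U (fun u => Int.fract (x u)) hδ hδ1
          (fun u _ => ⟨Int.fract_nonneg _, (Int.fract_lt_one _).le⟩) ?_ hh h0
        intro u hu u' hu' hne
        have := hsep u hu u' hu' hne (⌊x u⌋ - ⌊x u'⌋)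
        convert this using 2
        simp only [Int.fract]
        push_cast
        ring
    _ ≤ 30 * (N + 1 / δ) * ∑ j ∈ range N, ‖b j‖ ^ 2 := by
        rw [hint]
        have h1 : (1 / L) * (2 * ∑ j ∈ range N, ‖b' j‖ ^ 2)
            ≤ L * (2 * ∑ j ∈ range N, ‖b j‖ ^ 2) := by
          rw [one_div, inv_mul_le_iff₀ hL0]
          nlinarith
        have h2 : L ≤ 7 * N := by
          rw [hL]
          nlinarith [pi_lt_d2]
        have h3 : 0 < 1 / δ := by positivity
        nlinarith [mul_nonneg hS h3.le, mul_nonneg hS hNr.le,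
          mul_le_mul_of_nonneg_right h2 hS]

end Pool.Agent.Lib.Tup
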