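import Pool.Agent.Lib.Tup.BilB

namespace Pool.Agent.Lib.Tup
open Finset Real Filter

open Classical in
/-- Small conductors: no logarithmic loss. -/
theorem bil_small {η : ℝ} (hη : 0 < η) (hη1 : η ≤ 1) :
    ∃ C : ℝ, 0 ≤ C ∧ ∀ D ≥ 2, ∀ᶠ l : ℝ in atTop, ∀ (b : ℕ) (α β : ℕ → ℝ),
      Nat.Coprime b (primorial D) →
      (∀ p, α p ≠ 0 → Rough η l p ∧ η * l ≤ log p) → (∀ p, |α p| ≤ 1 / p) →
      (∀ k, β k ≠ 0 → Rough η l k ∧ η * l ≤ log k) → (∀ k, |β k| ≤ 1 / k) →
      ∑ χ ∈ univ.filter (fun χ : CF (PP D l) => (cond χ : ℝ) ≤ exp (η * l / 8)),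
        ‖∑ p ∈ range (NN l), ∑ k ∈ range (NN l),
          if p * k ≡ b [MOD primorial D] then ((α p * β k : ℝ) : ℂ) * Ch χ (p * k : ℕ) else 0‖
        ≤ C / (Nat.totient (primorial D) : ℝ) := by
  refine ⟨81 * (90 * 32 / η) ^ 2, by positivity, fun D hD => ?_⟩
  obtain ⟨C0, hC0, hwin⟩ := win_ge hD
  have hc := cW_pos D
  have hW : 0 < primorial D := primorial_pos D
  have hW' : (0 : ℝ) < primorial D := by exact_mod_cast hW
  have hφ : (0 : ℝ) < Nat.totient (primorial D) := by exact_mod_cast Nat.totient_pos.2 hW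
  have ev1 : ∀ᶠ l : ℝ in atTop, 2 * (primorial D : ℝ) ≤ exp (η * l / 2) := by
    have : Tendsto (fun l : ℝ => exp (η * l / 2)) atTop atTop :=
      tendsto_exp_atTop.comp ((tendsto_id.const_mul_atTop hη).atTop_div_const (by norm_num))
    exact this.eventually_ge_atTop _
  filter_upwards [ev1, eventually_ge_atTop 1, eventually_ge_atTop (32 * C0 / (cW D * η))]
    with l h1 h2 h3 b α β hb hα hα' hβ hβ'
  have hl : 0 < l := by linarith
  have hηl : 0 < η * l := by positivity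
  set Λ : ℝ := cW D * η * l / 32 with hΛ
  have hΛ0 : 0 < Λ := by positivity
  have hΛ' : Λ ≤ ∑ A ∈ (PP D l).powerset, win 0 (η * l / 8) (sz A) * wt A := by
    refine le_trans ?_ (hwin l 0 (η * l / 8) (by positivity) (by nlinarith))
    rw [max_self, max_eq_left (by positivity), sub_zero]
    rw [div_le_iff₀ (by positivity)] at h3
    have hD' : (2 : ℝ) ≤ D := by exact_mod_cast hD
    have h4 : 1 / (D : ℝ) ≤ 1 / 2 := one_div_le_one_div_of_le (by norm_num) hD'
    have h5 : 1 / 2 * (cW D * (η * l / 8)) ≤ (1 - 1 / (D : ℝ)) * (cW D * (η * l / 8)) :=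
      mul_le_mul_of_nonneg_right (by linarith) (by positivity)
    nlinarith
  have key : ∀ γ : ℕ → ℝ, (∀ p, γ p ≠ 0 → Rough η l p ∧ η * l ≤ log p) → (∀ p, |γ p| ≤ 1 / p) →
      ∀ i a, ∑ χ ∈ univ.filter (fun χ : CF (PP D l) => (cond χ : ℝ) ≤ exp (η * l / 8)),
        ‖BilA.blk (primorial D) (BilA.tr (NN l) γ) i a χ‖ ^ 2
          ≤ (90 / ((primorial D : ℝ) * Λ)) ^ 2 := by
    intro γ hγ hγ' i a
    by_cases hi : 2 * (2 : ℝ) ^ i < exp (η * l)
    · rw [sum_eq_zero fun χ _ => by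
        rw [BilA.blk_zero _ (fun p hp => (hγ p (BilA.tr_ne hp)).2) hi]; simp]
      positivity
    · push Not at hi
      refine BilA.blk_small _ (BilA.PP_prime D l) hW (BilA.PP_ndvd D l) (by positivity)
        (by linarith) hΛ0 hΛ' (fun p hp => (hγ p (BilA.tr_ne hp)).1) (BilA.abs_tr hγ') ?_ a
      have e1 : exp (η * l) = exp (η * l / 2) * exp (4 * (η * l / 8)) := by
        rw [← exp_add]; congr 1; ring
      have := exp_pos (4 * (η * l / 8))
      nlinarith
  have z0 : ∀ γ : ℕ → ℝ, (∀ p, |γ p| ≤ 1 / p) → γ 0 = 0 := fun γ h => by simpa using h 0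
  refine (BilA.core hW hb α β (z0 α hα') (z0 β hβ') (BilA.NN_le hl.le) _ (by positivity)
    (by positivity) (key α hα hα') (key β hβ hβ')).trans ?_
  have hI : (⌈8 * l⌉₊ : ℝ) ≤ 9 * l := by
    have := Nat.ceil_lt_add_one (show 0 ≤ 8 * l by positivity)
    linarith
  have e2 : (primorial D : ℝ) * Λ = Nat.totient (primorial D) * (η * l / 32) := by
    rw [hΛ]; unfold cW; field_simp
  rw [e2]
  calc _ ≤ (9 * l) ^ 2 * (Nat.totient (primorial D) : ℝ) *
        (90 / (Nat.totient (primorial D) * (η * l / 32)) *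
          (90 / (Nat.totient (primorial D) * (η * l / 32)))) := by gcongr
    _ = _ := by field_simp; ring

open Classical in
/-- Large conductors: a power saving. -/
theorem bil_large {η δ ε : ℝ} (hη : 0 < η) (hδ : 0 < δ) (hε : 0 < ε) :
    ∃ θ : ℝ, 0 < θ ∧ ∀ D : ℕ, ∀ᶠ l : ℝ in atTop, ∀ (b : ℕ) (α β : ℕ → ℝ) (x y : ℝ),
      Nat.Coprime b (primorial D) → η ≤ x → η ≤ y → 4 + δ ≤ x + y →
      (∀ p, α p ≠ 0 → x * l ≤ log p) → (∀ p, |α p| ≤ 1 / p) →
      (∀ k, β k ≠ 0 → y * l ≤ log k) → (∀ k, |β k| ≤ 1 / k) →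
      ∑ χ ∈ univ.filter (fun χ : CF (PP D l) =>
          exp (η * l / 8) < (cond χ : ℝ) ∧ (cond χ : ℝ) ≤ exp (2 * l)),
        (cond χ : ℝ) ^ (θ - 1) * ‖∑ p ∈ range (NN l), ∑ k ∈ range (NN l),
          if p * k ≡ b [MOD primorial D] then ((α p * β k : ℝ) : ℂ) * Ch χ (p * k : ℕ) else 0‖
        ≤ ε := by
  obtain ⟨κ, hκ, hκ1, hκ2, hκ3⟩ : ∃ κ : ℝ, 0 < κ ∧ κ ≤ η / 8 ∧ κ ≤ δ / 8 ∧ κ ≤ 1 :=
    ⟨min (min (η / 8) (δ / 8)) 1, by positivity, (min_le_left _ _).trans (min_le_left _ _),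
      (min_le_left _ _).trans (min_le_right _ _), min_le_right _ _⟩
  refine ⟨κ / 4, by positivity, fun D => ?_⟩
  have hW : 0 < primorial D := primorial_pos D
  have hW' : (0 : ℝ) < primorial D := by exact_mod_cast hW
  have ev1 : ∀ᶠ l : ℝ in atTop, 729 * 1960 * (primorial D : ℝ) * (2 / κ) ^ 3 *
      ((κ / 2 * l) ^ 3 * exp (-(κ / 2 * l))) ≤ ε := by
    have h1 := (tendsto_pow_mul_exp_neg_atTop_nhds_zero 3).comp
      (tendsto_id.const_mul_atTop (show 0 < κ / 2 by positivity))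
    have h2 := h1.const_mul (729 * 1960 * (primorial D : ℝ) * (2 / κ) ^ 3)
    rw [mul_zero] at h2
    exact h2.eventually (eventually_le_nhds hε)
  filter_upwards [ev1, eventually_ge_atTop 1] with l h1 h2 b α β x y hb hx hy hxy hα hα' hβ hβ'
  have hl : 0 < l := by linarith
  set I := ⌈8 * l⌉₊ with hIdef
  have hI : (I : ℝ) ≤ 9 * l := by
    have := Nat.ceil_lt_add_one (show 0 ≤ 8 * l by positivity)
    linarith
  set S := univ.filter (fun χ : CF (PP D l) =>
    exp (η * l / 8) < (cond χ : ℝ) ∧ (cond χ : ℝ) ≤ exp (2 * l)) with hS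
  set T : CF (PP D l) → ℝ := fun χ => ‖∑ p ∈ range (NN l), ∑ k ∈ range (NN l),
    if p * k ≡ b [MOD primorial D] then ((α p * β k : ℝ) : ℂ) * Ch χ (p * k : ℕ) else 0‖ with hT
  have hcond : ∀ χ ∈ S, (2 : ℝ) ^ (Nat.log 2 (cond χ)) ≤ cond χ ∧
      (cond χ : ℝ) ≤ 2 * 2 ^ (Nat.log 2 (cond χ)) := by
    intro χ hχ
    have h3 : cond χ ≠ 0 := by
      intro h0
      have := (mem_filter.1 hχ).2.1
      rw [h0] at this
      have := exp_pos (η * l / 8)
      simp at *
      linarith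
    refine ⟨by exact_mod_cast Nat.pow_log_le_self 2 h3, ?_⟩
    have := (Nat.lt_pow_succ_log_self (b := 2) (by norm_num) (cond χ)).le
    rw [pow_succ'] at this
    exact_mod_cast this
  have hmap : ∀ χ ∈ S, Nat.log 2 (cond χ) ∈ range I := by
    intro χ hχ
    refine mem_range.2 (Nat.lt_ceil.2 ?_)
    have h3 := (hcond χ hχ).1.trans (mem_filter.1 hχ).2.2
    have h4 := log_le_log (by positivity) h3
    rw [log_pow, log_exp] at h4
    have := log_two_gt_d9
    have h5 : (0 : ℝ) ≤ Nat.log 2 (cond χ) := Nat.cast_nonneg _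
    nlinarith
  have z0 : ∀ γ : ℕ → ℝ, (∀ p, |γ p| ≤ 1 / p) → γ 0 = 0 := fun γ h => by simpa using h 0
  have fib : ∀ t ∈ range I, ∑ χ ∈ S.filter (fun χ => Nat.log 2 (cond χ) = t),
      (cond χ : ℝ) ^ (κ / 4 - 1) * T χ ≤
        81 * l ^ 2 * (primorial D : ℝ) * 1960 * exp (-(κ / 2 * l)) := by
    intro t _
    rcases (S.filter (fun χ => Nat.log 2 (cond χ) = t)).eq_empty_or_nonempty with h0 | ⟨χ0, h0⟩
    · rw [h0, sum_empty]; positivity
    set Z : ℝ := 2 ^ t with hZ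
    have hZ1 : 1 ≤ Z := one_le_pow₀ (by norm_num)
    have hZ0 : 0 < Z := by linarith
    have hχ0 := mem_filter.1 h0
    have hZa : exp (η * l / 8) ≤ 2 * Z := by
      have := (hcond χ0 hχ0.1).2
      rw [hχ0.2] at this
      exact (mem_filter.1 hχ0.1).2.1.le.trans this
    have hZb : Z ≤ exp (2 * l) := by
      have := (hcond χ0 hχ0.1).1
      rw [hχ0.2] at this
      exact this.trans (mem_filter.1 hχ0.1).2.2
    have hcore := BilA.core hW hb α β (z0 α hα') (z0 β hβ') (BilA.NN_le hl.le)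
      (univ.filter (fun χ : CF (PP D l) => (cond χ : ℝ) ≤ 2 * Z))
      (e := 14 * (1 + 2 * Z * exp (-(x * l / 2)))) (e' := 14 * (1 + 2 * Z * exp (-(y * l / 2))))
      (by positivity) (by positivity)
      (BilA.blk_large _ (BilA.PP_prime D l) hW (BilA.PP_ndvd D l) (BilA.abs_tr hα') (by linarith)
        (fun p hp => by have := hα p (BilA.tr_ne hp); linarith))
      (BilA.blk_large _ (BilA.PP_prime D l) hW (BilA.PP_ndvd D l) (BilA.abs_tr hβ') (by linarith)
        (fun p hp => by have := hβ p (BilA.tr_ne hp); linarith))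
    have hφ : (Nat.totient (primorial D) : ℝ) ≤ primorial D := by
      exact_mod_cast Nat.totient_le _
    set u := exp (-(x * l / 2)) with hu
    set v := exp (-(y * l / 2)) with hv
    set E := exp (-(κ * l)) with hE
    have hu0 : 0 < u := exp_pos _
    have hv0 : 0 < v := exp_pos _
    have hE0 : 0 < E := exp_pos _
    have hu1 : u ≤ E := exp_le_exp.2 (by nlinarith)
    have hv1 : v ≤ E := exp_le_exp.2 (by nlinarith)
    have hz1 : 1 / Z ≤ 2 * E := by
      rw [div_le_iff₀ hZ0]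
      have h3 : 1 ≤ E * exp (η * l / 8) := by
        rw [hE, ← exp_add]; exact one_le_exp (by nlinarith)
      nlinarith
    have hz2 : Z * (u * v) ≤ E := by
      calc Z * (u * v) ≤ exp (2 * l) * (u * v) := by gcongr
        _ ≤ E := by
          rw [hu, hv, ← exp_add, ← exp_add]; exact exp_le_exp.2 (by nlinarith)
    have hz3 : Z ^ (κ / 4) ≤ exp (κ / 2 * l) := by
      calc Z ^ (κ / 4) ≤ exp (2 * l) ^ (κ / 4) := rpow_le_rpow hZ0.le hZb (by positivity)
        _ = _ := by rw [← exp_mul]; congr 1; ring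
    have hz4 : exp (κ / 2 * l) * E = exp (-(κ / 2 * l)) := by
      rw [hE, ← exp_add]; congr 1; ring
    calc _ ≤ ∑ χ ∈ S.filter (fun χ => Nat.log 2 (cond χ) = t), Z ^ (κ / 4 - 1) * T χ := by
          refine sum_le_sum fun χ hχ => mul_le_mul_of_nonneg_right ?_ (norm_nonneg _)
          have hχ' := mem_filter.1 hχ
          have := (hcond χ hχ'.1).1
          rw [hχ'.2] at this
          exact rpow_le_rpow_of_nonpos hZ0 this (by linarith)
      _ ≤ Z ^ (κ / 4 - 1) * ∑ χ ∈ univ.filter (fun χ : CF (PP D l) => (cond χ : ℝ) ≤ 2 * Z),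
            T χ := by
          rw [← mul_sum]
          refine mul_le_mul_of_nonneg_left (sum_le_sum_of_subset_of_nonneg ?_
            fun _ _ _ => norm_nonneg _) (by positivity)
          intro χ hχ
          have hχ' := mem_filter.1 hχ
          have := (hcond χ hχ'.1).2
          rw [hχ'.2] at this
          exact mem_filter.2 ⟨mem_univ _, this⟩
      _ ≤ Z ^ (κ / 4 - 1) * ((9 * l) ^ 2 * (primorial D : ℝ) *
            (14 * (1 + 2 * Z * u) * (14 * (1 + 2 * Z * v)))) := by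
          refine mul_le_mul_of_nonneg_left (hcore.trans ?_) (by positivity)
          gcongr
      _ = 81 * l ^ 2 * (primorial D : ℝ) * 196 *
            (Z ^ (κ / 4) * (1 / Z + 2 * u + 2 * v + 4 * (Z * (u * v)))) := by
          rw [rpow_sub_one hZ0.ne']; field_simp; ring
      _ ≤ 81 * l ^ 2 * (primorial D : ℝ) * 196 * (exp (κ / 2 * l) * (10 * E)) := by
          gcongr; linarith
      _ = _ := by rw [← hz4]; ring
  calc _ = ∑ t ∈ range I, ∑ χ ∈ S.filter (fun χ => Nat.log 2 (cond χ) = t),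
        (cond χ : ℝ) ^ (κ / 4 - 1) * T χ := (sum_fiberwise_of_maps_to hmap _).symm
    _ ≤ ∑ t ∈ range I, 81 * l ^ 2 * (primorial D : ℝ) * 1960 * exp (-(κ / 2 * l)) :=
        sum_le_sum fib
    _ ≤ (9 * l) * (81 * l ^ 2 * (primorial D : ℝ) * 1960 * exp (-(κ / 2 * l))) := by
        rw [sum_const, card_range, nsmul_eq_mul]; gcongr
    _ = _ := by field_simp; ring
    _ ≤ ε := h1

end Pool.Agent.Lib.Tup
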