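import Pool.Agent.Lib.Tup.Basic

namespace Pool.Agent.Lib.Tup
open Finset Real Filter

theorem ma_decay (K : ℝ) (n : ℕ) {a ε : ℝ} (ha : 0 < a) (hε : 0 < ε) :
    ∀ᶠ l : ℝ in atTop, K * l ^ n * exp (-(a * l)) ≤ ε := by
  have h := (tendsto_rpow_mul_exp_neg_mul_atTop_nhds_zero (n : ℝ) a ha).const_mul K
  rw [mul_zero] at h
  filter_upwards [h.eventually (ge_mem_nhds hε)] with l hl
  rw [rpow_natCast, neg_mul] at hl
  rw [mul_assoc]; exact hl

theorem ma_harm {l : ℝ} (hl : 0 ≤ l) : ∑ m ∈ range (NN l), 1 / (m : ℝ) ≤ 1 + 5 * l := by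
  have hpos : 0 < NN l := Nat.ceil_pos.mpr (exp_pos _)
  obtain ⟨n, hn⟩ : ∃ n, NN l = n + 1 := ⟨NN l - 1, by omega⟩
  have hlog : log n ≤ 5 * l := by
    rcases Nat.eq_zero_or_pos n with h0 | h0
    · rw [h0]; simp; linarith
    · exact ((lt_NN h0.ne').mp (by omega)).le
  have h := harmonic_le_one_add_log n
  rw [hn, sum_range_succ']
  have e : ((harmonic n : ℚ) : ℝ) = ∑ i ∈ range n, 1 / ((i + 1 : ℕ) : ℝ) := by
    simp [harmonic]
  rw [e] at h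
  simp only [Nat.cast_zero, div_zero, add_zero]
  linarith

theorem ma_shift {κ : Type*} [Fintype κ] (c : κ → ℤ) :
    ∀ᶠ l : ℝ in atTop, ∀ m : ℕ, l ≤ log m → log m ≤ 10 * l → ∀ i,
      (m : ℤ) + c i ≠ 0 ∧ log (((m : ℤ) + c i).natAbs : ℝ) ≤ 11 * l := by
  filter_upwards [eventually_ge_atTop (1 : ℝ), eventually_ge_atTop (∑ i, |(c i : ℝ)|)]
    with l hl1 hl2 m h1 h2 i
  have hm : (0 : ℝ) < m := by
    rcases Nat.eq_zero_or_pos m with h0 | h0
    · rw [h0] at h1; simp at h1; linarith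
    · exact_mod_cast h0
  have hci : |(c i : ℝ)| ≤ l :=
    (single_le_sum (f := fun i => |(c i : ℝ)|) (fun _ _ => abs_nonneg _) (mem_univ i)).trans hl2
  have hlm : log m ≤ m - 1 := log_le_sub_one_of_pos hm
  have hc := abs_le.mp hci
  have hpos : (0 : ℝ) < (m : ℝ) + c i := by linarith
  have hposZ : (0 : ℤ) < (m : ℤ) + c i := by exact_mod_cast hpos
  refine ⟨hposZ.ne', ?_⟩
  have e : ((((m : ℤ) + c i).natAbs : ℕ) : ℝ) = (m : ℝ) + c i := by
    rw [Nat.cast_natAbs, abs_of_pos hposZ]; push_cast; ring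
  rw [e]
  have h2m : log ((m : ℝ) + c i) ≤ log (2 * m) := log_le_log hpos (by linarith)
  rw [log_mul (by norm_num) hm.ne'] at h2m
  have : log 2 ≤ 1 := by
    have := log_le_sub_one_of_pos (show (0 : ℝ) < 2 by norm_num); linarith
  linarith

theorem ma_omega {K a : ℝ} (hK : 0 ≤ K) (ha : 0 < a) :
    ∃ C : ℝ, 0 ≤ C ∧ ∀ (l : ℝ) (n : ℕ), n ≠ 0 → log n ≤ 11 * l →
      K ^ n.primeFactors.card ≤ C * exp (a * l) := by
  obtain ⟨C, hC, h⟩ := pow_omega_le hK (show 0 < a / 11 by positivity)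
  refine ⟨C, hC, fun l n hn hl => (h n hn).trans ?_⟩
  have hn' : (0 : ℝ) < n := by exact_mod_cast Nat.pos_of_ne_zero hn
  rw [rpow_def_of_pos hn']
  refine mul_le_mul_of_nonneg_left (exp_le_exp.mpr ?_) hC
  nlinarith

theorem ma_PP_two {D : ℕ} {l : ℝ} : ∀ q ∈ PP D l, 2 ≤ q :=
  fun _ hq => (mem_PP.mp hq).1.two_le

theorem ma_abs_win_le (x y s : ℝ) : |win x y s| ≤ 1 := by
  unfold win; split_ifs <;> simp

theorem ma_win_nonneg (x y s : ℝ) : 0 ≤ win x y s := by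
  unfold win; split_ifs <;> simp

theorem ma_not_dvd {q D : ℕ} {z : ℤ} (hz : z ≠ 0) (hD : z.natAbs ≤ D) (hq : D < q) :
    ¬ (q : ℤ) ∣ z := by
  intro h
  have := Nat.le_of_dvd (Int.natAbs_pos.mpr hz) (Int.natCast_dvd.mp h)
  omega

theorem ma_W_pos (D : ℕ) : (0 : ℝ) < (primorial D : ℝ) := by
  exact_mod_cast primorial_pos D

end Pool.Agent.Lib.Tup
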