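import Pool.Agent.Lib.Tup.Expand
import Pool.Agent.Lib.Tup.Bil
import Pool.Agent.Lib.Tup.MajA

namespace Pool.Agent.Lib.Tup
open Finset Real Filter

open Classical in
theorem bp_small_co {P : Finset ℕ} {D : ℕ} {K : ℝ} (hK : 1 ≤ K) (hKD : K ≤ D)
    (hP : ∀ q ∈ P, D < q) {χ : CF P} (hχ : χ ≠ 1) :
    (∏ q : P, if χ q = 1 then 1 else K / ((q : ℕ) : ℝ)) ≤ K / D := by
  obtain ⟨q0, hq0⟩ : ∃ q0, χ q0 ≠ 1 := by
    by_contra h
    push Not at h
    exact hχ (funext h)
  have hD : (0 : ℝ) < D := by linarith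
  have hq : ∀ q : P, (D : ℝ) ≤ ((q : ℕ) : ℝ) := fun q => by exact_mod_cast (hP q q.2).le
  rw [← mul_prod_erase univ _ (mem_univ q0), if_neg hq0]
  have h1 : (∏ q ∈ univ.erase q0, if χ q = 1 then 1 else K / ((q : ℕ) : ℝ)) ≤ 1 := by
    refine prod_le_one (fun q _ => ?_) (fun q _ => ?_)
    · split_ifs <;> positivity
    · split_ifs
      · exact le_rfl
      · rw [div_le_one (hD.trans_le (hq q))]; exact hKD.trans (hq q)
  calc _ ≤ K / ((q0 : ℕ) : ℝ) * 1 := by gcongr
    _ ≤ K / D := by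
      rw [mul_one]; exact div_le_div_of_nonneg_left (by linarith) hD (hq q0)

open Classical in
theorem bp_large_co {P : Finset ℕ} {K t : ℝ} (hK : 0 ≤ K)
    (hP : ∀ q ∈ P, 0 < q ∧ K ≤ (q : ℝ) ^ t) (χ : CF P) :
    (∏ q : P, if χ q = 1 then 1 else K / ((q : ℕ) : ℝ)) ≤ (cond χ : ℝ) ^ (t - 1) := by
  unfold cond
  rw [Nat.cast_prod, ← Real.finset_prod_rpow _ _ (fun _ _ => Nat.cast_nonneg _)]
  refine prod_le_prod (fun q _ => ?_) (fun q _ => ?_)
  · split_ifs <;> positivity
  · split_ifs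
    · simp
    · obtain ⟨h0, h1⟩ := hP q q.2
      have h0' : (0 : ℝ) < ((q : ℕ) : ℝ) := by exact_mod_cast h0
      rw [rpow_sub_one h0'.ne']
      gcongr

theorem bp_prod_err {P : Finset ℕ} (hP : ∀ q ∈ P, q.Prime) {K η l : ℝ} (hK : 0 ≤ K) (hη : 0 < η)
    (hl : 0 < l) {m : ℕ} (hm : m ≠ 0) (hr : Rough η l m) (hlog : log m ≤ 10 * l)
    (hsm : 10 / η * K * exp (-(η * l)) ≤ 1) :
    ∏ q ∈ P.filter (fun q => q ∣ m), (1 + K / (q : ℝ)) - 1
      ≤ 2 * (10 / η * K * exp (-(η * l))) := by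
  have hcard : ((P.filter (fun q => q ∣ m)).card : ℝ) ≤ 10 / η := by
    refine le_trans ?_ (omega_le_of_rough hη hl hm hr hlog)
    exact_mod_cast card_le_card fun q hq =>
      Nat.mem_primeFactors.mpr ⟨hP q (mem_filter.mp hq).1, (mem_filter.mp hq).2, hm⟩
  have h1 : ∏ q ∈ P.filter (fun q => q ∣ m), (1 + K / (q : ℝ))
      ≤ exp (10 / η * K * exp (-(η * l))) := by
    calc _ ≤ ∏ _q ∈ P.filter (fun q => q ∣ m), exp (K * exp (-(η * l))) := by
          refine prod_le_prod (fun q _ => by positivity) fun q hq => ?_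
          have hq' := hP q (mem_filter.mp hq).1
          have h2 := hr q hq' (mem_filter.mp hq).2
          have hq0 : (0 : ℝ) < q := by exact_mod_cast hq'.pos
          have h3 : exp (η * l) ≤ q := ((lt_log_iff_exp_lt hq0).mp h2).le
          have h4 : K / (q : ℝ) ≤ K * exp (-(η * l)) := by
            rw [exp_neg, ← div_eq_mul_inv]; gcongr
          linarith [add_one_le_exp (K * exp (-(η * l)))]
      _ = exp (((P.filter (fun q => q ∣ m)).card : ℝ) * (K * exp (-(η * l)))) := by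
          rw [prod_const, exp_nat_mul]
      _ ≤ _ := by
          apply exp_le_exp.mpr
          rw [mul_assoc]
          gcongr
  have h0 : 0 ≤ 10 / η * K * exp (-(η * l)) := by positivity
  have h2 := Real.abs_exp_sub_one_le (x := 10 / η * K * exp (-(η * l))) (by rwa [abs_of_nonneg h0])
  rw [abs_of_nonneg h0] at h2
  linarith [le_abs_self (exp (10 / η * K * exp (-(η * l))) - 1)]

theorem bp_rough_mul {η l : ℝ} {p k : ℕ} (hp : Rough η l p) (hk : Rough η l k) :
    Rough η l (p * k) := fun q hq hd =>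
  ((Nat.Prime.dvd_mul hq).mp hd).elim (hp q hq) (hk q hq)

/-- Bilinear forms with rough supports see the other coordinates as independent. -/
theorem bp {ι : Type*} [Fintype ι] [DecidableEq ι] (c : ι → ℤ) (hc0 : ∀ i, c i ≠ 0)
    (hc : Function.Injective c) {η δ ε : ℝ} (hη : 0 < η) (hη1 : η ≤ 1) (hδ : 0 < δ) (hε : 0 < ε) :
    ∃ D1 : ℕ, ∀ D ≥ D1, ∀ᶠ l : ℝ in atTop, ∀ (b : ℕ) (v : ι → Finset ℕ → ℝ) (M lam : ι → ℝ)
      (α β : ℕ → ℝ) (x y : ℝ), Nat.Coprime b (primorial D) →
      (∀ i, Nrm (v i) (M i) (lam i)) → ∑ i, lam i ≤ 2 * l →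
      η ≤ x → η ≤ y → 4 + δ ≤ x + y →
      (∀ p, α p ≠ 0 → Rough η l p ∧ x * l ≤ log p) → (∀ p, |α p| ≤ 1 / p) →
      (∀ k, β k ≠ 0 → Rough η l k ∧ y * l ≤ log k) → (∀ k, |β k| ≤ 1 / k) →
      |∑ p ∈ range (NN l), ∑ k ∈ range (NN l),
          if p * k ≡ b [MOD primorial D] then
            α p * β k * (∏ i, X (PP D l) (v i) ((p * k : ℕ) + c i) - ∏ i, v i ∅) else 0|
        ≤ ε * (∏ i, M i) / (Nat.totient (primorial D) : ℝ) := by
  classical
  obtain ⟨K, hK, hexp⟩ := char_expand ι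
  obtain ⟨C, hC, hsmall⟩ := bil_small hη hη1
  obtain ⟨θ, hθ, hlarge⟩ := bil_large hη hδ one_pos
  obtain ⟨C0, hC0, hE⟩ := Eul_le
  set n := Fintype.card ι with hn
  have ha : 0 < η / (2 * (n + 1)) := by positivity
  obtain ⟨C4, hC4, hω⟩ := ma_omega (show (0 : ℝ) ≤ 4 by norm_num) ha
  have hK0 : 0 < K := by linarith
  refine ⟨max (max (∑ i, ∑ j, (c i - c j).natAbs) (∑ i, (c i).natAbs))
    (max 2 ⌈max (max K (3 * K ^ 2 * C / ε)) (K ^ (2 / θ))⌉₊), fun D hD => ?_⟩
  have hD1 : ∑ i, ∑ j, (c i - c j).natAbs ≤ D := le_of_max_le_left (le_of_max_le_left hD)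
  have hD2 : ∑ i, (c i).natAbs ≤ D := le_of_max_le_right (le_of_max_le_left hD)
  have hD3 : 2 ≤ D := le_of_max_le_left (le_of_max_le_right hD)
  have hD4 : max (max K (3 * K ^ 2 * C / ε)) (K ^ (2 / θ)) ≤ D :=
    Nat.ceil_le.mp (le_of_max_le_right (le_of_max_le_right hD))
  have hKD : K ≤ D := le_of_max_le_left (le_of_max_le_left hD4)
  have hCD : 3 * K ^ 2 * C / ε ≤ D := le_of_max_le_right (le_of_max_le_left hD4)
  have hθD : K ^ (2 / θ) ≤ D := le_of_max_le_right hD4
  have hDpos : (0 : ℝ) < D := by linarith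
  set φ : ℝ := (Nat.totient (primorial D) : ℝ) with hφ
  have hφ0 : 0 < φ := by
    rw [hφ]; exact_mod_cast Nat.totient_pos.mpr (primorial_pos D)
  have hε3 : 0 < ε / 3 / φ := by positivity
  filter_upwards [hsmall D hD3, hlarge D, hE D, ma_shift c, eventually_ge_atTop (1 : ℝ),
    ma_decay K 0 (show 0 < θ / 2 * (η / 8) by positivity) hε3,
    ma_decay (10 / η * K) 0 hη one_pos,
    ma_decay (36 * (C4 ^ n * C0 ^ (3 * n)) * (2 * (10 / η * K))) (3 * n + 2) (half_pos hη) hε3]
    with l hs hL hEl hsh hl1 hd1 hd2 hd3 b v M lam α β x y hb hv hlam hx hy hxy hα hα' hβ hβ'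
  have hl0 : 0 < l := by linarith
  rw [pow_zero, mul_one] at hd1 hd2
  have hP : ∀ q ∈ PP D l, q.Prime ∧ D < q ∧ (∀ i, ¬ (q : ℤ) ∣ c i) ∧
      ∀ i j, i ≠ j → ¬ (q : ℤ) ∣ c i - c j := by
    intro q hq
    obtain ⟨h1, h2, _⟩ := mem_PP.mp hq
    refine ⟨h1, h2, fun i => ma_not_dvd (hc0 i) (le_trans ?_ hD2) h2, ?_⟩
    · exact single_le_sum (f := fun i => (c i).natAbs) (fun _ _ => Nat.zero_le _) (mem_univ i)
    intro i j hij
    refine ma_not_dvd (sub_ne_zero.mpr fun h => hij (hc h)) (le_trans ?_ hD1) h2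
    calc (c i - c j).natAbs ≤ ∑ j, (c i - c j).natAbs :=
          single_le_sum (f := fun j => (c i - c j).natAbs) (fun _ _ => Nat.zero_le _) (mem_univ j)
      _ ≤ _ := single_le_sum (f := fun i => ∑ j, (c i - c j).natAbs)
          (fun _ _ => Nat.zero_le _) (mem_univ i)
  obtain ⟨co, hco0, hco1, hco2, herr⟩ := hexp (PP D l) D c v M lam hKD hP hv
  have hM : 0 ≤ ∏ i, M i := prod_nonneg fun i _ => by
    have := (hv i ∅).1
    rw [card_empty, pow_zero, one_mul] at this
    exact (abs_nonneg _).trans this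
  set Mp := ∏ i, M i with hMp
  set f : ℕ → ℝ := fun m => ∏ i, X (PP D l) (v i) (m + c i) - ∏ i, v i ∅ with hf
  set S : CF (PP D l) → ℂ := fun χ => ∑ p ∈ range (NN l), ∑ k ∈ range (NN l),
    if p * k ≡ b [MOD primorial D] then ((α p * β k : ℝ) : ℂ) * Ch χ (p * k : ℕ) else 0 with hS
  set Er : ℂ := ∑ p ∈ range (NN l), ∑ k ∈ range (NN l),
    if p * k ≡ b [MOD primorial D] then
      ((α p * β k : ℝ) : ℂ) * (((f (p * k) : ℝ) : ℂ) - ∑ χ, co χ * Ch χ (p * k : ℕ)) else 0 with hEr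
  have hsplit : (((∑ p ∈ range (NN l), ∑ k ∈ range (NN l),
      if p * k ≡ b [MOD primorial D] then α p * β k * f (p * k) else 0 : ℝ)) : ℂ)
      = ∑ χ, co χ * S χ + Er := by
    have e1 : ∑ χ, co χ * S χ = ∑ p ∈ range (NN l), ∑ k ∈ range (NN l),
        if p * k ≡ b [MOD primorial D] then
          ((α p * β k : ℝ) : ℂ) * ∑ χ, co χ * Ch χ (p * k : ℕ) else 0 := by
      simp only [hS, mul_sum]
      rw [sum_comm]
      refine sum_congr rfl fun p _ => ?_
      rw [sum_comm]
      refine sum_congr rfl fun k _ => ?_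
      split_ifs
      · exact sum_congr rfl fun χ _ => by ring
      · simp
    rw [e1, hEr, ← sum_add_distrib, Complex.ofReal_sum]
    refine sum_congr rfl fun p _ => ?_
    rw [← sum_add_distrib, Complex.ofReal_sum]
    refine sum_congr rfl fun k _ => ?_
    split_ifs
    · push_cast; ring
    · simp
  have hs' := hs b α β hb (fun p hp => ⟨(hα p hp).1, le_trans (by gcongr) (hα p hp).2⟩) hα'
    (fun k hk => ⟨(hβ k hk).1, le_trans (by gcongr) (hβ k hk).2⟩) hβ'
  have hL' := hL b α β x y hb hx hy hxy (fun p hp => (hα p hp).2) hα' (fun k hk => (hβ k hk).2) hβ'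
  -- small conductors
  have hA : ∑ χ ∈ univ.filter (fun χ : CF (PP D l) => (cond χ : ℝ) ≤ exp (η * l / 8)),
      ‖co χ * S χ‖ ≤ ε / 3 / φ * Mp := by
    have hco : ∀ χ, ‖co χ‖ ≤ Mp * (K ^ 2 / D) := by
      intro χ
      by_cases h1 : χ = 1
      · rw [h1]
        refine hco1.trans ?_
        gcongr
        nlinarith
      · refine (hco2 χ h1).trans ?_
        have := bp_small_co hK hKD (fun q hq => (hP q hq).2.1) h1
        calc _ ≤ Mp * K * (K / D) := by gcongr
          _ = _ := by ring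
    calc _ ≤ ∑ χ ∈ univ.filter (fun χ : CF (PP D l) => (cond χ : ℝ) ≤ exp (η * l / 8)),
          Mp * (K ^ 2 / D) * ‖S χ‖ := by
          refine sum_le_sum fun χ _ => ?_
          rw [norm_mul]; gcongr; exact hco χ
      _ ≤ Mp * (K ^ 2 / D) * (C / φ) := by
          rw [← mul_sum]; gcongr
      _ = (3 * K ^ 2 * C / ε / D) * (ε / 3 / φ * Mp) := by field_simp
      _ ≤ 1 * (ε / 3 / φ * Mp) := by
          gcongr
          rw [div_le_one hDpos]; exact hCD
      _ = _ := one_mul _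
  -- large conductors
  have hB : ∑ χ ∈ univ.filter (fun χ : CF (PP D l) => ¬ (cond χ : ℝ) ≤ exp (η * l / 8)),
      ‖co χ * S χ‖ ≤ ε / 3 / φ * Mp := by
    have hq : ∀ q ∈ PP D l, 0 < q ∧ K ≤ (q : ℝ) ^ (θ / 2) := by
      intro q hq
      obtain ⟨h1, h2, _⟩ := hP q hq
      refine ⟨h1.pos, ?_⟩
      have h3 : K ^ (2 / θ) ≤ (q : ℝ) := hθD.trans (by exact_mod_cast h2.le)
      calc K = (K ^ (2 / θ)) ^ (θ / 2) := by
            rw [← rpow_mul hK0.le]
            have : 2 / θ * (θ / 2) = 1 := by field_simp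
            rw [this, rpow_one]
        _ ≤ _ := rpow_le_rpow (by positivity) h3 (by positivity)
    have hone : (1 : ℝ) ≤ exp (η * l / 8) := one_le_exp (by positivity)
    calc _ = ∑ χ ∈ univ.filter (fun χ : CF (PP D l) =>
          exp (η * l / 8) < (cond χ : ℝ) ∧ (cond χ : ℝ) ≤ exp (2 * l)), ‖co χ * S χ‖ := by
          symm
          refine sum_subset (fun χ hχ => ?_) (fun χ hχ hχ' => ?_)
          · exact mem_filter.mpr ⟨mem_univ _, not_le.mpr (mem_filter.mp hχ).2.1⟩
          · have h1 := not_le.mp (mem_filter.mp hχ).2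
            by_contra hne
            have hco : co χ ≠ 0 := fun h0 => hne (by rw [h0, zero_mul, norm_zero])
            rcases hco0 χ hco with h2 | h2
            · refine hχ' (mem_filter.mpr ⟨mem_univ _, h1, ?_⟩)
              have hpos : (0 : ℝ) < cond χ := (exp_pos _).trans h1
              exact (log_le_iff_le_exp hpos).mp (h2.trans hlam)
            · rw [h2, cond_one] at h1
              simp only [Nat.cast_one] at h1
              linarith
      _ ≤ ∑ χ ∈ univ.filter (fun χ : CF (PP D l) =>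
          exp (η * l / 8) < (cond χ : ℝ) ∧ (cond χ : ℝ) ≤ exp (2 * l)),
          Mp * (K * exp (-(θ / 2 * (η / 8) * l))) * ((cond χ : ℝ) ^ (θ - 1) * ‖S χ‖) := by
          refine sum_le_sum fun χ hχ => ?_
          have h1 := (mem_filter.mp hχ).2.1
          have hne : χ ≠ 1 := by
            rintro rfl
            rw [cond_one] at h1
            simp only [Nat.cast_one] at h1
            linarith
          have hpos : (0 : ℝ) < cond χ := (exp_pos _).trans h1
          have h2 := bp_large_co hK0.le hq χ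
          have h3 : (cond χ : ℝ) ^ (θ / 2 - 1) ≤
              exp (-(θ / 2 * (η / 8) * l)) * (cond χ : ℝ) ^ (θ - 1) := by
            have e : θ / 2 - 1 = -(θ / 2) + (θ - 1) := by ring
            rw [e, rpow_add hpos]
            gcongr
            rw [rpow_def_of_pos hpos]
            apply exp_le_exp.mpr
            have := ((lt_log_iff_exp_lt hpos).mpr h1).le
            nlinarith
          rw [norm_mul, ← mul_assoc]
          refine mul_le_mul_of_nonneg_right ((hco2 χ hne).trans ?_) (norm_nonneg _)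
          calc _ ≤ Mp * K * (exp (-(θ / 2 * (η / 8) * l)) * (cond χ : ℝ) ^ (θ - 1)) := by
                gcongr; exact h2.trans h3
            _ = _ := by ring
      _ ≤ Mp * (K * exp (-(θ / 2 * (η / 8) * l))) * 1 := by
          rw [← mul_sum]; gcongr
      _ ≤ Mp * (ε / 3 / φ) * 1 := by gcongr
      _ = _ := by ring
  -- pointwise error
  set G := Mp * (C4 * exp (η / (2 * (n + 1)) * l)) ^ n * (C0 * l) ^ (3 * n) *
    (2 * (10 / η * K * exp (-(η * l)))) with hG
  have hG0 : 0 ≤ G := by positivity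
  have hC' : ‖Er‖ ≤ ε / 3 / φ * Mp := by
    have hterm : ∀ p ∈ range (NN l), ∀ k ∈ range (NN l),
        ‖if p * k ≡ b [MOD primorial D] then ((α p * β k : ℝ) : ℂ) *
          (((f (p * k) : ℝ) : ℂ) - ∑ χ, co χ * Ch χ (p * k : ℕ)) else 0‖
          ≤ G * (1 / (p : ℝ) * (1 / (k : ℝ))) := by
      intro p hp k hk
      split_ifs
      swap
      · rw [norm_zero]; positivity
      by_cases hα0 : α p = 0
      · rw [hα0]; simp only [zero_mul, Complex.ofReal_zero, norm_zero]; positivity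
      by_cases hβ0 : β k = 0
      · rw [hβ0]; simp only [mul_zero, zero_mul, Complex.ofReal_zero, norm_zero]; positivity
      obtain ⟨hpr, hpl⟩ := hα p hα0
      obtain ⟨hkr, hkl⟩ := hβ k hβ0
      have hp0 : p ≠ 0 := by
        rintro rfl
        simp only [Nat.cast_zero, log_zero] at hpl
        nlinarith
      have hk0 : k ≠ 0 := by
        rintro rfl
        simp only [Nat.cast_zero, log_zero] at hkl
        nlinarith
      have hlogm : log ((p * k : ℕ) : ℝ) = log p + log k := by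
        rw [Nat.cast_mul, log_mul (by exact_mod_cast hp0) (by exact_mod_cast hk0)]
      have hlo : l ≤ log ((p * k : ℕ) : ℝ) := by rw [hlogm]; nlinarith
      have hhi : log ((p * k : ℕ) : ℝ) ≤ 10 * l := by
        have h1 := (lt_NN hp0).mp (mem_range.mp hp)
        have h2 := (lt_NN hk0).mp (mem_range.mp hk)
        rw [hlogm]; linarith
      have hsh' := hsh (p * k) hlo hhi
      have h1 := herr (p * k) fun i => (hsh' i).1
      have h2 := bp_prod_err (fun q hq => (hP q hq).1) hK0.le hη hl0 (mul_ne_zero hp0 hk0)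
        (bp_rough_mul hpr hkr) hhi hd2
      have h3 : ∏ i, (4 : ℝ) ^ (((p * k : ℕ) : ℤ) + c i).natAbs.primeFactors.card
          ≤ (C4 * exp (η / (2 * (n + 1)) * l)) ^ n := by
        calc _ ≤ ∏ _i : ι, C4 * exp (η / (2 * (n + 1)) * l) :=
              prod_le_prod (fun _ _ => by positivity) fun i _ =>
                hω l _ (Int.natAbs_ne_zero.mpr (hsh' i).1) (hsh' i).2
          _ = _ := by rw [prod_const, card_univ]
      have hE0 : 0 ≤ Eul (PP D l) := zero_le_one.trans (one_le_Eul ma_PP_two)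
      have h4 : Eul (PP D l) ≤ C0 * l := hEl.trans
        (mul_le_mul_of_nonneg_left (mul_le_of_le_one_left hl0.le (cW_le_one D)) (by linarith))
      have h5 : ‖((f (p * k) : ℝ) : ℂ) - ∑ χ, co χ * Ch χ (p * k : ℕ)‖ ≤ G := by
        refine h1.trans ?_
        calc _ ≤ Mp * (∏ i, (4 : ℝ) ^ (((p * k : ℕ) : ℤ) + c i).natAbs.primeFactors.card) *
              Eul (PP D l) ^ (3 * n) * (2 * (10 / η * K * exp (-(η * l)))) := by gcongr
          _ ≤ G := by rw [hG]; gcongr
      rw [norm_mul, Complex.norm_real, Real.norm_eq_abs, abs_mul, mul_comm]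
      exact mul_le_mul h5 (mul_le_mul (hα' p) (hβ' k) (abs_nonneg _) (by positivity))
        (by positivity) hG0
    have hh := ma_harm hl0.le
    have hh0 : 0 ≤ ∑ m ∈ range (NN l), 1 / (m : ℝ) := sum_nonneg fun _ _ => by positivity
    have e2 : exp (η / (2 * (n + 1)) * l) ^ n * exp (-(η * l)) ≤ exp (-(η / 2 * l)) := by
      rw [← exp_nat_mul, ← exp_add]
      apply exp_le_exp.mpr
      have hk1 : (0 : ℝ) < n + 1 := by positivity
      have : (n : ℝ) * (η / (2 * (n + 1)) * l) ≤ η / 2 * l := by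
        have e : (n : ℝ) * (η / (2 * (n + 1)) * l) = η / 2 * l * (n / (n + 1)) := by
          field_simp
        rw [e]
        refine mul_le_of_le_one_right (by positivity) ?_
        rw [div_le_one hk1]; linarith
      linarith
    calc ‖Er‖ ≤ ∑ p ∈ range (NN l), ∑ k ∈ range (NN l), G * (1 / (p : ℝ) * (1 / (k : ℝ))) := by
          refine (norm_sum_le _ _).trans (sum_le_sum fun p hp => ?_)
          exact (norm_sum_le _ _).trans (sum_le_sum fun k hk => hterm p hp k hk)
      _ = G * ((∑ m ∈ range (NN l), 1 / (m : ℝ)) * ∑ m ∈ range (NN l), 1 / (m : ℝ)) := by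
          rw [sum_mul_sum, mul_sum]
          exact sum_congr rfl fun p _ => by rw [mul_sum]
      _ ≤ G * ((6 * l) * (6 * l)) := by gcongr <;> linarith
      _ = 36 * (C4 ^ n * C0 ^ (3 * n)) * (2 * (10 / η * K)) * l ^ (3 * n + 2) *
          (exp (η / (2 * (n + 1)) * l) ^ n * exp (-(η * l))) * Mp := by
          rw [hG, mul_pow, mul_pow, pow_add]; ring
      _ ≤ 36 * (C4 ^ n * C0 ^ (3 * n)) * (2 * (10 / η * K)) * l ^ (3 * n + 2) *
          exp (-(η / 2 * l)) * Mp := by gcongr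
      _ ≤ _ := by gcongr
  change |∑ p ∈ range (NN l), ∑ k ∈ range (NN l),
      if p * k ≡ b [MOD primorial D] then α p * β k * f (p * k) else 0| ≤ _
  rw [← Real.norm_eq_abs, ← Complex.norm_real, hsplit]
  refine (norm_add_le _ _).trans ?_
  have h6 : ‖∑ χ, co χ * S χ‖ ≤ ε / 3 / φ * Mp + ε / 3 / φ * Mp := by
    refine (norm_sum_le _ _).trans ?_
    rw [← sum_filter_add_sum_filter_not univ
      (fun χ : CF (PP D l) => (cond χ : ℝ) ≤ exp (η * l / 8))]
    exact add_le_add hA hB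
  calc _ ≤ ε / 3 / φ * Mp + ε / 3 / φ * Mp + ε / 3 / φ * Mp := add_le_add h6 hC'
    _ = _ := by ring

end Pool.Agent.Lib.Tup
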