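import Pool.Agent.Lib.Tup.Defs

namespace Pool.Agent.Lib.Tup
open Finset Real Filter

theorem sum_powerset_ite {R : Type*} [CommSemiring R] (P : Finset ℕ) (f g : ℕ → R) :
    ∑ B ∈ P.powerset, ∏ q ∈ P, (if q ∈ B then f q else g q) = ∏ q ∈ P, (f q + g q) := by
  rw [Finset.prod_add]
  refine Finset.sum_congr rfl fun B hB => ?_
  have hB' : B ⊆ P := mem_powerset.1 hB
  rw [Finset.prod_ite]
  congr 1
  · refine Finset.prod_congr ?_ fun _ _ => rfl
    ext q
    simp only [mem_filter]
    exact ⟨fun h => h.2, fun h => ⟨hB' h, h⟩⟩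
  · refine Finset.prod_congr ?_ fun _ _ => rfl
    ext q
    simp only [mem_filter, Finset.mem_sdiff]

theorem sum_pi_powerset {R : Type*} [CommSemiring R] {ι : Type*} [Fintype ι] [DecidableEq ι]
    (P : Finset ℕ) (f : ℕ → Finset ι → R) :
    ∑ B ∈ Fintype.piFinset (fun _ : ι => P.powerset),
      ∏ q ∈ P, f q (univ.filter (fun i => q ∈ B i)) = ∏ q ∈ P, ∑ b : Finset ι, f q b := by
  classical
  rw [← Finset.prod_coe_sort P (fun q => ∑ b : Finset ι, f q b), Finset.prod_univ_sum]
  refine Finset.sum_bij'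
    (fun B _ => fun q : P => univ.filter (fun i => (q : ℕ) ∈ B i))
    (fun g _ => fun i => P.filter (fun q => ∃ h : q ∈ P, i ∈ g ⟨q, h⟩)) ?_ ?_ ?_ ?_ ?_
  · intro B _
    simp
  · intro g _
    simp [Fintype.mem_piFinset]
  · intro B hB
    funext i
    have hi : B i ⊆ P := mem_powerset.1 (Fintype.mem_piFinset.1 hB i)
    ext q
    simp only [mem_filter, mem_univ, true_and, exists_prop]
    exact ⟨fun h => h.2.2, fun h => ⟨hi h, hi h, h⟩⟩
  · intro g _
    funext q
    ext i
    simp only [mem_filter, mem_univ, true_and]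
    exact ⟨fun h => h.2.2, fun h => ⟨q.2, q.2, h⟩⟩
  · intro B _
    rw [← Finset.prod_coe_sort P]

theorem bas_prod_prod_swap {M : Type*} [CommMonoid M] {ι : Type*} [Fintype ι] [DecidableEq ι]
    (P : Finset ℕ) (B : ι → Finset ℕ) (hB : ∀ i, B i ⊆ P) (f : ι → ℕ → M) :
    ∏ i, ∏ q ∈ B i, f i q = ∏ q ∈ P, ∏ i ∈ univ.filter (fun i => q ∈ B i), f i q := by
  refine Finset.prod_comm' ?_
  intro i q
  simp only [mem_univ, true_and, mem_filter]
  exact ⟨fun h => ⟨h, hB i h⟩, fun h => h.1⟩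

theorem prod_X_expand {ι : Type*} [Fintype ι] [DecidableEq ι] (P : Finset ℕ)
    (v : ι → Finset ℕ → ℝ) (m : ι → ℤ) :
    ∏ i, X P (v i) (m i) = ∑ B ∈ Fintype.piFinset (fun _ : ι => P.powerset),
      (∏ i, v i (B i)) * ∏ q ∈ P, ∏ i ∈ univ.filter (fun i => q ∈ B i), chi q (m i) := by
  unfold X
  rw [Finset.prod_univ_sum]
  refine Finset.sum_congr rfl fun B hB => ?_
  rw [Finset.prod_mul_distrib]
  congr 1
  unfold chiP
  exact bas_prod_prod_swap P B (fun i => mem_powerset.1 (Fintype.mem_piFinset.1 hB i))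
    (fun i q => chi q (m i))

theorem prod_pow_card {ι : Type*} [Fintype ι] [DecidableEq ι] (P : Finset ℕ) (K : ℝ)
    (B : ι → Finset ℕ) (hB : ∀ i, B i ⊆ P) :
    ∏ i, K ^ (B i).card = ∏ q ∈ P, K ^ (univ.filter (fun i => q ∈ B i)).card := by
  have := bas_prod_prod_swap P B hB (fun _ _ => K)
  simpa only [Finset.prod_const] using this

theorem norm_prod_sub_prod_le {K : Type*} [NormedField K] {α : Type*} (s : Finset α)
    (u v : α → K) :
    ‖∏ a ∈ s, u a - ∏ a ∈ s, v a‖ ≤ ∏ a ∈ s, (‖v a‖ + ‖u a - v a‖) - ∏ a ∈ s, ‖v a‖ := by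
  classical
  induction s using Finset.induction_on with
  | empty => simp
  | insert a s ha ih =>
    simp only [Finset.prod_insert ha]
    set U := ∏ b ∈ s, u b
    set V := ∏ b ∈ s, v b with hV
    set T := ∏ b ∈ s, (‖v b‖ + ‖u b - v b‖)
    set N := ∏ b ∈ s, ‖v b‖ with hN
    have hVN : ‖V‖ = N := by rw [hV, hN, norm_prod]
    have h1 : u a * U - v a * V = u a * (U - V) + (u a - v a) * V := by ring
    have h2 : ‖u a‖ ≤ ‖v a‖ + ‖u a - v a‖ := by
      have := norm_add_le (v a) (u a - v a)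
      simpa using this
    have h3 : 0 ≤ ‖U - V‖ := norm_nonneg _
    have h4 : 0 ≤ ‖v a‖ + ‖u a - v a‖ := by positivity
    calc ‖u a * U - v a * V‖ ≤ ‖u a * (U - V)‖ + ‖(u a - v a) * V‖ := by
          rw [h1]; exact norm_add_le _ _
      _ = ‖u a‖ * ‖U - V‖ + ‖u a - v a‖ * N := by rw [norm_mul, norm_mul, hVN]
      _ ≤ (‖v a‖ + ‖u a - v a‖) * (T - N) + ‖u a - v a‖ * N := by
          gcongr
      _ = _ := by ring

theorem abs_chi_le {q : ℕ} (hq : 2 ≤ q) (m : ℤ) : |chi q m| ≤ 1 := by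
  have h : (2 : ℝ) ≤ q := by exact_mod_cast hq
  unfold chi
  split_ifs
  · simp
  · rw [abs_of_nonneg (by apply div_nonneg <;> linarith), div_le_one (by linarith)]
    linarith

theorem bas_inv_pred_nonneg {q : ℕ} (hq : 2 ≤ q) : 0 ≤ 1 / ((q : ℝ) - 1) := by
  have h : (2 : ℝ) ≤ q := by exact_mod_cast hq
  apply div_nonneg <;> linarith

theorem wt_nonneg {A : Finset ℕ} (hA : ∀ q ∈ A, 2 ≤ q) : 0 ≤ wt A :=
  Finset.prod_nonneg fun q hq => bas_inv_pred_nonneg (hA q hq)

theorem sz_nonneg (A : Finset ℕ) : 0 ≤ sz A :=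
  Finset.sum_nonneg fun q _ => Real.log_natCast_nonneg q

theorem sum_wt_eq (P : Finset ℕ) : ∑ A ∈ P.powerset, wt A = Eul P := by
  unfold Eul wt
  rw [Finset.prod_one_add]

theorem one_le_Eul {P : Finset ℕ} (hP : ∀ q ∈ P, 2 ≤ q) : 1 ≤ Eul P := by
  unfold Eul
  calc (1 : ℝ) = ∏ _q ∈ P, (1 : ℝ) := by simp
    _ ≤ _ := Finset.prod_le_prod (fun _ _ => zero_le_one) fun q hq => by
      have := bas_inv_pred_nonneg (hP q hq)
      linarith

theorem bas_sz_mono {A B : Finset ℕ} (h : A ⊆ B) : sz A ≤ sz B :=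
  Finset.sum_le_sum_of_subset_of_nonneg h fun q _ _ => Real.log_natCast_nonneg q

theorem bas_sz_union_le (A B : Finset ℕ) : sz (A ∪ B) ≤ sz A + sz B := by
  unfold sz
  rw [← Finset.sum_union_inter]
  have : 0 ≤ ∑ q ∈ A ∩ B, log (q : ℝ) := sz_nonneg _
  linarith

theorem bas_sz_inter_add (A B : Finset ℕ) : sz (A ∩ B) + sz (A \ B) = sz A := by
  unfold sz
  exact Finset.sum_inter_add_sum_sdiff A B _

/-- Constant coefficient of the local linearisation. -/
noncomputable def bas_linA (q : ℕ) (x y : Prop) [Decidable x] [Decidable y] : ℝ :=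
  if x then (if y then 1 / ((q : ℝ) - 1) else 0) else (if y then 0 else 1)

/-- Linear coefficient of the local linearisation. -/
noncomputable def bas_linB (q : ℕ) (x y : Prop) [Decidable x] [Decidable y] : ℝ :=
  if x then (if y then (2 - (q : ℝ)) / ((q : ℝ) - 1) else 1) else (if y then 1 else 0)

/-- Coefficient of `chiP B` in `chiP A * chiP A'`. -/
noncomputable def bas_linK (P A A' B : Finset ℕ) : ℝ :=
  ∏ q ∈ P, if q ∈ B then bas_linB q (q ∈ A) (q ∈ A') else bas_linA q (q ∈ A) (q ∈ A')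

theorem bas_chiP_eq {P A : Finset ℕ} (hA : A ⊆ P) (m : ℤ) :
    chiP A m = ∏ q ∈ P, if q ∈ A then chi q m else 1 := by
  unfold chiP
  rw [Finset.prod_ite_mem, Finset.inter_eq_right.2 hA]

theorem bas_chi_sq {q : ℕ} (hq : 2 ≤ q) (m : ℤ) :
    chi q m * chi q m = (2 - (q : ℝ)) / ((q : ℝ) - 1) * chi q m + 1 / ((q : ℝ) - 1) := by
  have h : (2 : ℝ) ≤ q := by exact_mod_cast hq
  have h1 : (q : ℝ) - 1 ≠ 0 := by linarith
  unfold chi
  split_ifs
  · field_simp
    ring
  · field_simp
    ring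

theorem bas_chiP_mul {P A A' : Finset ℕ} (hP : ∀ q ∈ P, 2 ≤ q) (hA : A ⊆ P) (hA' : A' ⊆ P) (m : ℤ) :
    chiP A m * chiP A' m = ∑ B ∈ P.powerset, bas_linK P A A' B * chiP B m := by
  have h1 : ∀ B ∈ P.powerset, bas_linK P A A' B * chiP B m =
      ∏ q ∈ P, if q ∈ B then bas_linB q (q ∈ A) (q ∈ A') * chi q m else bas_linA q (q ∈ A) (q ∈ A') := by
    intro B hB
    rw [bas_chiP_eq (mem_powerset.1 hB), bas_linK, ← Finset.prod_mul_distrib]
    refine Finset.prod_congr rfl fun q _ => ?_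
    split_ifs <;> simp
  rw [Finset.sum_congr rfl h1, sum_powerset_ite, bas_chiP_eq hA, bas_chiP_eq hA', ← Finset.prod_mul_distrib]
  refine Finset.prod_congr rfl fun q hq => ?_
  unfold bas_linA bas_linB
  split_ifs
  · exact bas_chi_sq (hP q hq) m
  all_goals simp

theorem bas_linK_empty {P A A' : Finset ℕ} (hA : A ⊆ P) (hA' : A' ⊆ P) :
    bas_linK P A A' ∅ = if A' = A then wt A else 0 := by
  unfold bas_linK
  simp only [Finset.notMem_empty, if_false]
  split_ifs with h
  · subst h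
    unfold wt
    rw [← Finset.inter_eq_right.2 hA, ← Finset.prod_ite_mem, Finset.inter_eq_right.2 hA]
    refine Finset.prod_congr rfl fun q _ => ?_
    unfold bas_linA
    split_ifs <;> rfl
  · have : ∃ q, ¬ (q ∈ A' ↔ q ∈ A) := by
      by_contra hc
      push Not at hc
      exact h (Finset.ext hc)
    obtain ⟨q, hq⟩ := this
    by_cases h1 : q ∈ A
    · have h2 : q ∉ A' := fun h2 => hq ⟨fun _ => h1, fun _ => h2⟩
      refine Finset.prod_eq_zero (hA h1) ?_
      simp [bas_linA, h1, h2]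
    · have h2 : q ∈ A' := by
        by_contra h2
        exact hq ⟨fun h => absurd h h2, fun h => absurd h h1⟩
      refine Finset.prod_eq_zero (hA' h2) ?_
      simp [bas_linA, h1, h2]

theorem bas_linK_supp {P A A' B : Finset ℕ} (hB : B ⊆ P) (h : bas_linK P A A' B ≠ 0) : B ⊆ A ∪ A' := by
  intro q hq
  by_contra hc
  rw [Finset.mem_union, not_or] at hc
  apply h
  refine Finset.prod_eq_zero (hB hq) ?_
  simp [bas_linB, hq, hc.1, hc.2]

theorem bas_sum_abs_linK {P A B : Finset ℕ} (hP : ∀ q ∈ P, 2 ≤ q) (hA : A ⊆ P) :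
    ∑ A' ∈ P.powerset, |bas_linK P A A' B| ≤ 2 ^ (A ∩ B).card * wt (A \ B) := by
  have h1 : ∀ A' ∈ P.powerset, |bas_linK P A A' B| = ∏ q ∈ P, if q ∈ A' then
      |if q ∈ B then bas_linB q (q ∈ A) True else bas_linA q (q ∈ A) True| else
      |if q ∈ B then bas_linB q (q ∈ A) False else bas_linA q (q ∈ A) False| := by
    intro A' _
    rw [bas_linK, Finset.abs_prod]
    refine Finset.prod_congr rfl fun q _ => ?_
    by_cases h : q ∈ A' <;> simp [bas_linA, bas_linB, h]
  rw [Finset.sum_congr rfl h1, sum_powerset_ite]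
  have h2 : (2 : ℝ) ^ (A ∩ B).card * wt (A \ B) =
      ∏ q ∈ P, ((if q ∈ A ∩ B then (2 : ℝ) else 1) *
        (if q ∈ A \ B then 1 / ((q : ℝ) - 1) else 1)) := by
    rw [Finset.prod_mul_distrib, Finset.prod_ite_mem, Finset.prod_ite_mem,
      Finset.inter_eq_right.2 (Finset.inter_subset_left.trans hA),
      Finset.inter_eq_right.2 (Finset.sdiff_subset.trans hA), Finset.prod_const, wt]
  rw [h2]
  refine Finset.prod_le_prod (fun q _ => by positivity) fun q hq => ?_
  have h : (2 : ℝ) ≤ q := by exact_mod_cast hP q hq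
  have h3 := bas_inv_pred_nonneg (hP q hq)
  by_cases ha : q ∈ A <;> by_cases hb : q ∈ B
  · simp only [bas_linA, bas_linB, ha, hb, if_true, if_false, Finset.mem_inter, and_self, Finset.mem_sdiff,
      not_true, and_false, mul_one, abs_one]
    have : |(2 - (q : ℝ)) / ((q : ℝ) - 1)| ≤ 1 := by
      rw [abs_div, div_le_one (abs_pos.2 (by linarith)), abs_of_nonpos (by linarith),
        abs_of_nonneg (by linarith)]
      linarith
    linarith
  · simp only [bas_linA, bas_linB, ha, hb, if_true, if_false, Finset.mem_inter, and_false, Finset.mem_sdiff,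
      not_false_iff, and_self, one_mul, abs_zero, add_zero]
    rw [abs_of_nonneg h3]
  · simp [bas_linB, ha, hb]
  · simp [bas_linA, ha, hb]

theorem linearize {P : Finset ℕ} (hP : ∀ q ∈ P, 2 ≤ q) (φ φ' : ℝ → ℝ) {M a a' : ℝ}
    (h1 : ∀ s, |φ' s| ≤ 1)
    (hM : ∀ t, 0 ≤ t → ∑ C ∈ P.powerset, |φ (t + sz C)| * wt C ≤ M)
    (ha : ∀ s, 0 ≤ s → φ s ≠ 0 → s ≤ a) (ha' : ∀ s, 0 ≤ s → φ' s ≠ 0 → s ≤ a') :
    ∃ v : Finset ℕ → ℝ, Nrm v M (a + a') ∧
      v ∅ = ∑ A ∈ P.powerset, φ (sz A) * φ' (sz A) * wt A ∧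
      ∀ m : ℤ, X P (fun A => φ (sz A)) m * X P (fun A => φ' (sz A)) m = X P v m := by
  have hwt : ∀ C ∈ P.powerset, 0 ≤ wt C := fun C hC =>
    wt_nonneg fun q hq => hP q (mem_powerset.1 hC hq)
  have hM0 : 0 ≤ M := le_trans (Finset.sum_nonneg fun C hC =>
    mul_nonneg (abs_nonneg _) (hwt C hC)) (hM 0 le_rfl)
  refine ⟨fun B => if B ⊆ P then ∑ A ∈ P.powerset, ∑ A' ∈ P.powerset,
    φ (sz A) * φ' (sz A') * bas_linK P A A' B else 0, ?_, ?_, ?_⟩
  · intro B
    by_cases hB : B ⊆ P
    · simp only [hB, if_true]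
      constructor
      · let G : Finset ℕ × Finset ℕ → ℝ := fun x =>
          2 ^ x.1.card * (|φ (sz x.1 + sz x.2)| * wt x.2)
        calc |∑ A ∈ P.powerset, ∑ A' ∈ P.powerset, φ (sz A) * φ' (sz A') * bas_linK P A A' B|
            ≤ ∑ A ∈ P.powerset, |∑ A' ∈ P.powerset, φ (sz A) * φ' (sz A') * bas_linK P A A' B| :=
              Finset.abs_sum_le_sum_abs _ _
          _ ≤ ∑ A ∈ P.powerset, G (A ∩ B, A \ B) := by
              refine Finset.sum_le_sum fun A hA => ?_
              calc |∑ A' ∈ P.powerset, φ (sz A) * φ' (sz A') * bas_linK P A A' B|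
                  ≤ ∑ A' ∈ P.powerset, |φ (sz A) * φ' (sz A') * bas_linK P A A' B| :=
                    Finset.abs_sum_le_sum_abs _ _
                _ ≤ ∑ A' ∈ P.powerset, |φ (sz A)| * |bas_linK P A A' B| := by
                    refine Finset.sum_le_sum fun A' _ => ?_
                    rw [abs_mul, abs_mul]
                    refine mul_le_mul_of_nonneg_right ?_ (abs_nonneg _)
                    exact mul_le_of_le_one_right (abs_nonneg _) (h1 _)
                _ = |φ (sz A)| * ∑ A' ∈ P.powerset, |bas_linK P A A' B| := by rw [Finset.mul_sum]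
                _ ≤ |φ (sz A)| * (2 ^ (A ∩ B).card * wt (A \ B)) :=
                    mul_le_mul_of_nonneg_left (bas_sum_abs_linK hP (mem_powerset.1 hA)) (abs_nonneg _)
                _ = G (A ∩ B, A \ B) := by
                    simp only [G, bas_sz_inter_add]
                    ring
          _ = ∑ x ∈ P.powerset.image (fun A => (A ∩ B, A \ B)), G x := by
              rw [Finset.sum_image]
              intro A _ A' _ h
              simp only [Prod.mk.injEq] at h
              rw [← Finset.sdiff_union_inter A B, ← Finset.sdiff_union_inter A' B, h.1, h.2]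
          _ ≤ ∑ x ∈ B.powerset ×ˢ P.powerset, G x := by
              refine Finset.sum_le_sum_of_subset_of_nonneg ?_ ?_
              · intro x hx
                obtain ⟨A, hA, rfl⟩ := Finset.mem_image.1 hx
                simp only [Finset.mem_product, mem_powerset]
                exact ⟨Finset.inter_subset_right, Finset.sdiff_subset.trans (mem_powerset.1 hA)⟩
              · intro x hx _
                have := hwt x.2 (Finset.mem_product.1 hx).2
                simp only [G]
                positivity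
          _ = ∑ B0 ∈ B.powerset, 2 ^ B0.card *
                ∑ C ∈ P.powerset, |φ (sz B0 + sz C)| * wt C := by
              rw [Finset.sum_product]
              refine Finset.sum_congr rfl fun B0 _ => ?_
              rw [Finset.mul_sum]
          _ ≤ ∑ B0 ∈ B.powerset, 2 ^ B0.card * M := by
              refine Finset.sum_le_sum fun B0 _ => ?_
              exact mul_le_mul_of_nonneg_left (hM _ (sz_nonneg _)) (by positivity)
          _ = 3 ^ B.card * M := by
              rw [← Finset.sum_mul]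
              congr 1
              have := Finset.prod_one_add (f := fun _ : ℕ => (2 : ℝ)) B
              simp only [Finset.prod_const] at this
              rw [← this]
              norm_num
      · intro hv
        obtain ⟨A, _, hA⟩ := Finset.exists_ne_zero_of_sum_ne_zero hv
        obtain ⟨A', _, hA'⟩ := Finset.exists_ne_zero_of_sum_ne_zero hA
        have h2 := mul_ne_zero_iff.1 hA'
        have h3 := mul_ne_zero_iff.1 h2.1
        have h4 := bas_sz_mono (bas_linK_supp hB h2.2)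
        have h5 := bas_sz_union_le A A'
        have h6 := ha _ (sz_nonneg _) h3.1
        have h7 := ha' _ (sz_nonneg _) h3.2
        linarith
    · simp only [hB, if_false, abs_zero, ne_eq, not_true, false_imp_iff, and_true]
      positivity
  · simp only [Finset.empty_subset, if_true]
    refine Finset.sum_congr rfl fun A hA => ?_
    rw [Finset.sum_eq_single A]
    · rw [bas_linK_empty (mem_powerset.1 hA) (mem_powerset.1 hA), if_pos rfl]
    · intro A' hA' hne
      rw [bas_linK_empty (mem_powerset.1 hA) (mem_powerset.1 hA'), if_neg hne, mul_zero]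
    · intro h
      exact absurd hA h
  · intro m
    unfold X
    rw [Finset.sum_mul_sum]
    have h2 : ∀ B ∈ P.powerset, (if B ⊆ P then ∑ A ∈ P.powerset, ∑ A' ∈ P.powerset,
        φ (sz A) * φ' (sz A') * bas_linK P A A' B else 0) * chiP B m =
        ∑ A ∈ P.powerset, ∑ A' ∈ P.powerset,
          φ (sz A) * φ' (sz A') * (bas_linK P A A' B * chiP B m) := by
      intro B hB
      rw [if_pos (mem_powerset.1 hB), Finset.sum_mul]
      refine Finset.sum_congr rfl fun A _ => ?_
      rw [Finset.sum_mul]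
      refine Finset.sum_congr rfl fun A' _ => ?_
      ring
    rw [Finset.sum_congr rfl h2, Finset.sum_comm (s := P.powerset) (t := P.powerset)
      (f := fun B A => ∑ A' ∈ P.powerset, φ (sz A) * φ' (sz A') * (bas_linK P A A' B * chiP B m))]
    refine Finset.sum_congr rfl fun A hA => ?_
    rw [Finset.sum_comm]
    refine Finset.sum_congr rfl fun A' hA' => ?_
    rw [← Finset.mul_sum, ← bas_chiP_mul hP (mem_powerset.1 hA) (mem_powerset.1 hA')]
    ring

theorem rankin {K s : ℝ} (hK : 0 ≤ K) (hs : 1 < s) :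
    ∃ C : ℝ, 0 ≤ C ∧ ∀ (P : Finset ℕ) (lam : ℝ), (∀ q ∈ P, 2 ≤ q) →
      ∑ B ∈ P.powerset.filter (fun B => sz B ≤ lam), K ^ B.card ≤ C * exp (s * lam) := by
  have hsum : Summable (fun n : ℕ => K * ((n : ℝ) ^ s)⁻¹) :=
    (Real.summable_nat_rpow_inv.2 hs).mul_left K
  refine ⟨exp (∑' n : ℕ, K * ((n : ℝ) ^ s)⁻¹), (exp_pos _).le, fun P lam hP => ?_⟩
  have hnn : ∀ n : ℕ, 0 ≤ K * ((n : ℝ) ^ s)⁻¹ := fun n => by positivity
  calc ∑ B ∈ P.powerset.filter (fun B => sz B ≤ lam), K ^ B.card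
      ≤ ∑ B ∈ P.powerset.filter (fun B => sz B ≤ lam),
          (∏ q ∈ B, K * ((q : ℝ) ^ s)⁻¹) * exp (s * lam) := by
        refine Finset.sum_le_sum fun B hB => ?_
        obtain ⟨hB1, hB2⟩ := Finset.mem_filter.1 hB
        have h1 : ∏ q ∈ B, ((q : ℝ) ^ s)⁻¹ = exp (-(s * sz B)) := by
          unfold sz
          rw [Finset.mul_sum, ← Finset.sum_neg_distrib, Real.exp_sum]
          refine Finset.prod_congr rfl fun q hq => ?_
          have : (0 : ℝ) < q := by
            have := hP q (mem_powerset.1 hB1 hq)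
            exact_mod_cast (by omega : 0 < q)
          rw [Real.exp_neg, Real.rpow_def_of_pos this, mul_comm]
        rw [Finset.prod_mul_distrib, Finset.prod_const, h1, mul_assoc, ← Real.exp_add]
        refine le_mul_of_one_le_right (by positivity) (Real.one_le_exp ?_)
        nlinarith
    _ ≤ ∑ B ∈ P.powerset, (∏ q ∈ B, K * ((q : ℝ) ^ s)⁻¹) * exp (s * lam) := by
        refine Finset.sum_le_sum_of_subset_of_nonneg (Finset.filter_subset _ _) fun B _ _ => ?_
        exact mul_nonneg (Finset.prod_nonneg fun q _ => hnn q) (exp_pos _).le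
    _ = (∏ q ∈ P, (1 + K * ((q : ℝ) ^ s)⁻¹)) * exp (s * lam) := by
        rw [← Finset.sum_mul, Finset.prod_one_add]
    _ ≤ _ := by
        refine mul_le_mul_of_nonneg_right ?_ (exp_pos _).le
        refine (Real.prod_one_add_le_exp_sum P hnn).trans (exp_le_exp.2 ?_)
        exact hsum.sum_le_tsum P fun n _ => hnn n

theorem abs_X_le {P : Finset ℕ} (hP : ∀ q ∈ P, q.Prime) {u : Finset ℕ → ℝ}
    (hu : ∀ A, |u A| ≤ 1) {m : ℤ} (hm : m ≠ 0) :
    |X P u m| ≤ 2 ^ m.natAbs.primeFactors.card * Eul P := by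
  have hP2 : ∀ q ∈ P, 2 ≤ q := fun q hq => (hP q hq).two_le
  calc |X P u m| ≤ ∑ A ∈ P.powerset, |u A * chiP A m| := Finset.abs_sum_le_sum_abs _ _
    _ ≤ ∑ A ∈ P.powerset, ∏ q ∈ A, |chi q m| := by
        refine Finset.sum_le_sum fun A _ => ?_
        rw [abs_mul, chiP, Finset.abs_prod]
        exact mul_le_of_le_one_left (Finset.prod_nonneg fun _ _ => abs_nonneg _) (hu A)
    _ = ∏ q ∈ P, (1 + |chi q m|) := (Finset.prod_one_add P).symm
    _ ≤ ∏ q ∈ P, ((if q ∈ m.natAbs.primeFactors then (2 : ℝ) else 1) *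
          (1 + 1 / ((q : ℝ) - 1))) := by
        refine Finset.prod_le_prod (fun q _ => by positivity) fun q hq => ?_
        have h3 := bas_inv_pred_nonneg (hP2 q hq)
        split_ifs with h
        · have := abs_chi_le (hP2 q hq) m
          linarith
        · have h4 : ¬ (q : ℤ) ∣ m := by
            intro h4
            apply h
            exact Nat.mem_primeFactors.2 ⟨hP q hq, Int.natCast_dvd.1 h4, Int.natAbs_ne_zero.2 hm⟩
          rw [chi, if_neg h4, abs_of_nonneg h3, one_mul]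
    _ = 2 ^ (P ∩ m.natAbs.primeFactors).card * Eul P := by
        rw [Finset.prod_mul_distrib, Finset.prod_ite_mem, Finset.prod_const, Eul]
    _ ≤ _ := by
        refine mul_le_mul_of_nonneg_right ?_ (zero_le_one.trans (one_le_Eul hP2))
        exact pow_le_pow_right₀ one_le_two (Finset.card_le_card Finset.inter_subset_right)

theorem bas_prod_primeFactors_le {n : ℕ} (hn : n ≠ 0) : ∏ p ∈ n.primeFactors, (p : ℝ) ≤ n := by
  have := Nat.le_of_dvd (Nat.pos_of_ne_zero hn) (Nat.prod_primeFactors_dvd n)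
  rw [← Nat.cast_prod]
  exact Nat.cast_le.2 this

theorem pow_omega_le {K ε : ℝ} (hK : 0 ≤ K) (hε : 0 < ε) :
    ∃ C : ℝ, 0 ≤ C ∧ ∀ n : ℕ, n ≠ 0 → K ^ n.primeFactors.card ≤ C * (n : ℝ) ^ ε := by
  have ht : Tendsto (fun n : ℕ => (n : ℝ) ^ ε) atTop atTop :=
    (tendsto_rpow_atTop hε).comp tendsto_natCast_atTop_atTop
  obtain ⟨N, hN⟩ := eventually_atTop.1 (ht.eventually_ge_atTop K)
  have hmax : (1 : ℝ) ≤ max K 1 := le_max_right _ _
  refine ⟨(max K 1) ^ N, by positivity, fun n hn => ?_⟩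
  calc K ^ n.primeFactors.card = ∏ _p ∈ n.primeFactors, K := by rw [Finset.prod_const]
    _ ≤ ∏ p ∈ n.primeFactors, ((if p ∈ range N then max K 1 else 1) * (p : ℝ) ^ ε) := by
        refine Finset.prod_le_prod (fun _ _ => hK) fun p hp => ?_
        split_ifs with h
        · have h1 : (1 : ℝ) ≤ p := by exact_mod_cast (Nat.prime_of_mem_primeFactors hp).one_le
          have h2 : (1 : ℝ) ≤ (p : ℝ) ^ ε := Real.one_le_rpow h1 hε.le
          calc K ≤ max K 1 := le_max_left _ _
            _ ≤ _ := le_mul_of_one_le_right (by positivity) h2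
        · rw [one_mul]
          exact hN p (by simpa using h)
    _ = (max K 1) ^ (n.primeFactors ∩ range N).card * (∏ p ∈ n.primeFactors, (p : ℝ)) ^ ε := by
        rw [Finset.prod_mul_distrib, Finset.prod_ite_mem, Finset.prod_const,
          Real.finsetProd_rpow _ _ (fun _ _ => Nat.cast_nonneg _)]
    _ ≤ _ := by
        refine mul_le_mul ?_ ?_ (by positivity) (by positivity)
        · refine pow_le_pow_right₀ hmax ?_
          simpa using Finset.card_le_card
            (Finset.inter_subset_right : n.primeFactors ∩ range N ⊆ range N)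
        · exact Real.rpow_le_rpow (by positivity) (bas_prod_primeFactors_le hn) hε.le

theorem bas_sz_primeFactors_le {m : ℕ} (hm : m ≠ 0) : sz m.primeFactors ≤ log m := by
  have hpos : ∀ p ∈ m.primeFactors, (0 : ℝ) < p := fun p hp => by
    exact_mod_cast (Nat.prime_of_mem_primeFactors hp).pos
  unfold sz
  rw [← Real.log_prod (fun p hp => (hpos p hp).ne')]
  exact Real.log_le_log (Finset.prod_pos hpos) (bas_prod_primeFactors_le hm)

theorem omega_le_of_rough {η l A : ℝ} (hη : 0 < η) (hl : 0 < l) {m : ℕ} (hm : m ≠ 0)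
    (hr : Rough η l m) (hA : log m ≤ A * l) : (m.primeFactors.card : ℝ) ≤ A / η := by
  have h1 : (m.primeFactors.card : ℝ) * (η * l) ≤ sz m.primeFactors := by
    unfold sz
    rw [← nsmul_eq_mul, ← Finset.sum_const]
    refine Finset.sum_le_sum fun p hp => ?_
    exact (hr p (Nat.prime_of_mem_primeFactors hp) (Nat.dvd_of_mem_primeFactors hp)).le
  have h2 := bas_sz_primeFactors_le hm
  rw [le_div_iff₀ hη]
  have h3 : ((m.primeFactors.card : ℝ) * η) * l ≤ A * l := by linarith
  exact le_of_mul_le_mul_right h3 hl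

/-- Each `m` is `p * k` with `p` prime in exactly `ω(m)` ways. -/
theorem sum_omega_mul (N : ℕ) (H : ℕ → ℝ) :
    ∑ m ∈ range N, (m.primeFactors.card : ℝ) * H m =
      ∑ p ∈ (range N).filter Nat.Prime, ∑ k ∈ range N,
        if p * k < N ∧ k ≠ 0 then H (p * k) else 0 := by
  have h1 : ∀ m ∈ range N, (m.primeFactors.card : ℝ) * H m =
      ∑ p ∈ (range N).filter Nat.Prime, if p ∣ m ∧ m ≠ 0 then H m else 0 := by
    intro m hm
    rw [← Finset.sum_filter, Finset.sum_const, nsmul_eq_mul]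
    congr 3
    ext p
    simp only [Nat.mem_primeFactors, mem_filter, mem_range]
    constructor
    · rintro ⟨h1, h2, h3⟩
      exact ⟨⟨lt_of_le_of_lt (Nat.le_of_dvd (Nat.pos_of_ne_zero h3) h2) (mem_range.1 hm), h1⟩,
        h2, h3⟩
    · rintro ⟨⟨_, h1⟩, h2, h3⟩
      exact ⟨h1, h2, h3⟩
  rw [Finset.sum_congr rfl h1, Finset.sum_comm]
  refine Finset.sum_congr rfl fun p hp => ?_
  have hpp : p.Prime := (mem_filter.1 hp).2
  rw [← Finset.sum_filter, ← Finset.sum_filter]
  symm
  refine Finset.sum_bij (fun k _ => p * k) ?_ ?_ ?_ ?_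
  · intro k hk
    simp only [mem_filter, mem_range] at hk ⊢
    exact ⟨hk.2.1, dvd_mul_right _ _, mul_ne_zero hpp.ne_zero hk.2.2⟩
  · intro k _ k' _ h
    exact Nat.eq_of_mul_eq_mul_left hpp.pos h
  · intro m hm
    simp only [mem_filter, mem_range] at hm
    obtain ⟨h1, ⟨k, rfl⟩, h3⟩ := hm
    refine ⟨k, ?_, rfl⟩
    simp only [mem_filter, mem_range]
    exact ⟨lt_of_le_of_lt (Nat.le_mul_of_pos_left k hpp.pos) h1, h1, right_ne_zero_of_mul h3⟩
  · intro k _
    rfl

theorem bas_lt_ceil_exp {t : ℝ} {m : ℕ} (hm : m ≠ 0) : m < ⌈exp t⌉₊ ↔ log m < t := by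
  have : (0 : ℝ) < m := by exact_mod_cast Nat.pos_of_ne_zero hm
  rw [Nat.lt_ceil, Real.log_lt_iff_lt_exp this]

theorem mem_PP {D : ℕ} {l : ℝ} {q : ℕ} : q ∈ PP D l ↔ q.Prime ∧ D < q ∧ log q < 2 * l := by
  unfold PP
  rw [mem_filter, mem_range]
  constructor
  · rintro ⟨h1, h2, h3⟩
    exact ⟨h2, h3, (bas_lt_ceil_exp h2.ne_zero).1 h1⟩
  · rintro ⟨h1, h2, h3⟩
    exact ⟨(bas_lt_ceil_exp h1.ne_zero).2 h3, h1, h2⟩

theorem lt_NN {l : ℝ} {m : ℕ} (hm : m ≠ 0) : m < NN l ↔ log m < 5 * l :=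
  bas_lt_ceil_exp hm

theorem not_dvd_primorial {D q : ℕ} (hq : q.Prime) (hD : D < q) : ¬ q ∣ primorial D := by
  rw [hq.dvd_primorial_iff]
  omega

theorem cW_pos (D : ℕ) : 0 < cW D := by
  unfold cW
  have h1 := primorial_pos D
  have h2 := Nat.totient_pos.2 h1
  positivity

theorem cW_le_one (D : ℕ) : cW D ≤ 1 := by
  unfold cW
  have h1 : (0 : ℝ) < primorial D := by exact_mod_cast primorial_pos D
  rw [div_le_one h1]
  exact_mod_cast Nat.totient_le _

theorem bump_big : Bump big (19 / 5) (21 / 5) := by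
  refine ⟨le_rfl, by norm_num, le_rfl, fun s => le_max_left _ _, fun s => ?_, fun s t => ?_,
    fun s hs => ?_⟩
  · unfold big
    have := abs_nonneg (s - 4)
    exact max_le zero_le_one (by linarith)
  · unfold big
    rw [max_comm 0, max_comm 0]
    refine (abs_max_sub_max_le_abs _ _ _).trans ?_
    have h := abs_abs_sub_abs_le_abs_sub (t - 4) (s - 4)
    have e1 : 1 / 5 - |s - 4| - (1 / 5 - |t - 4|) = |t - 4| - |s - 4| := by ring
    have e2 : t - 4 - (s - 4) = t - s := by ring
    rw [e1, abs_sub_comm s t, ← e2]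
    exact h
  · unfold big at hs
    have h : 0 < 1 / 5 - |s - 4| := by
      by_contra hc
      exact hs (max_eq_left (not_lt.1 hc))
    have h2 : |s - 4| < 1 / 5 := by linarith
    rw [abs_lt] at h2
    constructor <;> linarith [h2.1, h2.2]

/-- An admissible tuple has a class modulo `primorial D` on which all shifts are units. -/
theorem exists_class {κ : Type*} (h : κ → ℕ)
    (hadm : ∀ p : ℕ, p.Prime → ∃ r : ℕ, ∀ i, ¬ p ∣ r + h i) (D : ℕ) :
    ∃ b : ℕ, ∀ i, Nat.Coprime (b + h i) (primorial D) := by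
  choose! r hr using hadm
  obtain ⟨b, hb⟩ := Nat.chineseRemainderOfFinset r id ((range (D + 1)).filter Nat.Prime)
    (fun p hp => (mem_filter.1 hp).2.ne_zero)
    (fun p hp q hq hne => (Nat.coprime_primes (mem_filter.1 hp).2 (mem_filter.1 hq).2).2 hne)
  refine ⟨b, fun i => ?_⟩
  unfold primorial
  refine Nat.Coprime.prod_right fun p hp => ?_
  have hpp : p.Prime := (mem_filter.1 hp).2
  rw [Nat.coprime_comm, hpp.coprime_iff_not_dvd]
  intro hd
  apply hr p hpp i
  have h1 : b + h i ≡ r p + h i [MOD p] := (hb p hp).add_right _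
  exact (Nat.modEq_zero_iff_dvd.1 (h1.symm.trans (Nat.modEq_zero_iff_dvd.2 hd)))

end Pool.Agent.Lib.Tup
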