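import Pool.Agent.Lib.Tup.MLS
import Pool.Agent.Lib.Tup.Win

namespace Pool.Agent.Lib.Tup.BilA
open Finset Real Filter

theorem sum_dyadic {R : Type*} [AddCommMonoid R] (f : ℕ → R) (h0 : f 0 = 0) (I : ℕ) :
    ∑ m ∈ range (2 ^ I), f m = ∑ i ∈ range I, ∑ m ∈ Ico (2 ^ i) (2 ^ i + 2 ^ i), f m := by
  induction I with
  | zero => simp [h0]
  | succ I ih =>
    rw [sum_range_succ, ← ih, range_eq_Ico, range_eq_Ico,
      sum_Ico_consecutive _ (Nat.zero_le _) (Nat.le_add_right _ _)]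
    congr 2; ring

/-- Dyadic block in a residue class. -/
noncomputable def blk {P : Finset ℕ} (W : ℕ) (α : ℕ → ℝ) (i a : ℕ) (χ : CF P) : ℂ :=
  ∑ m ∈ (Ico (2 ^ i) (2 ^ i + 2 ^ i)).filter (fun m => m ≡ a [MOD W]), ((α m : ℝ) : ℂ) * Ch χ m

theorem sum_classes {W : ℕ} (hW : 0 < W) (s : Finset ℕ) (f : ℕ → ℂ) :
    ∑ m ∈ s, f m = ∑ a ∈ range W, ∑ m ∈ s.filter (fun m => m ≡ a [MOD W]), f m := by
  rw [← sum_fiberwise_of_maps_to (s := s) (t := range W) (g := fun m => m % W)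
    (fun m _ => mem_range.2 (Nat.mod_lt _ hW))]
  refine sum_congr rfl fun a ha => sum_congr ?_ fun _ _ => rfl
  refine filter_congr fun m _ => ?_
  unfold Nat.ModEq
  rw [Nat.mod_eq_of_lt (mem_range.1 ha)]

theorem block_split {P : Finset ℕ} {W : ℕ} (hW : 0 < W) (b : ℕ) (α β : ℕ → ℝ) (i j : ℕ)
    (χ : CF P) :
    (∑ p ∈ Ico (2 ^ i) (2 ^ i + 2 ^ i), ∑ k ∈ Ico (2 ^ j) (2 ^ j + 2 ^ j),
      if p * k ≡ b [MOD W] then ((α p * β k : ℝ) : ℂ) * Ch χ (p * k : ℕ) else 0) =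
    ∑ x ∈ (range W ×ˢ range W).filter (fun x : ℕ × ℕ => x.1 * x.2 ≡ b [MOD W]),
      blk W α i x.1 χ * blk W β j x.2 χ := by
  rw [sum_filter, sum_product, sum_classes hW]
  refine sum_congr rfl fun a _ => ?_
  have h1 : ∀ p ∈ (Ico (2 ^ i) (2 ^ i + 2 ^ i)).filter (fun m => m ≡ a [MOD W]),
      (∑ k ∈ Ico (2 ^ j) (2 ^ j + 2 ^ j),
        if p * k ≡ b [MOD W] then ((α p * β k : ℝ) : ℂ) * Ch χ (p * k : ℕ) else 0) =
      ∑ a' ∈ range W, if a * a' ≡ b [MOD W] then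
        (((α p : ℝ) : ℂ) * Ch χ p) * blk W β j a' χ else 0 := by
    intro p hp
    rw [sum_classes hW]
    refine sum_congr rfl fun a' _ => ?_
    have h2 : ∀ k ∈ (Ico (2 ^ j) (2 ^ j + 2 ^ j)).filter (fun m => m ≡ a' [MOD W]),
        (p * k ≡ b [MOD W] ↔ a * a' ≡ b [MOD W]) := by
      intro k hk
      have := (mem_filter.1 hp).2.mul (mem_filter.1 hk).2
      exact ⟨fun h => this.symm.trans h, fun h => this.trans h⟩
    split_ifs with h
    · unfold blk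
      rw [mul_sum]
      refine sum_congr rfl fun k hk => ?_
      rw [if_pos ((h2 k hk).2 h)]
      push_cast
      rw [Ch_mul]; ring
    · exact sum_eq_zero fun k hk => if_neg fun h' => h ((h2 k hk).1 h')
  rw [sum_congr rfl h1, sum_comm]
  refine sum_congr rfl fun a' _ => ?_
  split_ifs with h
  · rw [← sum_mul]; rfl
  · simp

theorem card_pairs {W b : ℕ} (hb : Nat.Coprime b W) :
    ((range W ×ˢ range W).filter (fun x : ℕ × ℕ => x.1 * x.2 ≡ b [MOD W])).card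
      ≤ Nat.totient W := by
  rw [Nat.totient_eq_card_coprime]
  have hc : ∀ x : ℕ × ℕ, x.1 * x.2 ≡ b [MOD W] → Nat.Coprime W x.1 := by
    intro x hx
    have h1 : Nat.Coprime (x.1 * x.2) W := by
      unfold Nat.Coprime
      rw [hx.gcd_eq]; exact hb
    exact (Nat.Coprime.coprime_mul_right h1).symm
  refine card_le_card_of_injOn (fun x => x.1) ?_ ?_
  · intro x hx
    have hx' := mem_filter.1 (mem_coe.1 hx)
    exact mem_coe.2 (mem_filter.2 ⟨(mem_product.1 hx'.1).1, hc x hx'.2⟩)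
  · intro x hx y hy hxy
    have hx' := mem_filter.1 (mem_coe.1 hx)
    have hy' := mem_filter.1 (mem_coe.1 hy)
    have e1 : x.1 = y.1 := hxy
    have h2 : x.1 * x.2 ≡ x.1 * y.2 [MOD W] := by
      have := hy'.2
      rw [← e1] at this
      exact hx'.2.trans this.symm
    have h3 : x.2 ≡ y.2 [MOD W] := Nat.ModEq.cancel_left_of_coprime (hc x hx'.2) h2
    exact Prod.ext e1 (Nat.ModEq.eq_of_lt_of_lt h3 (mem_range.1 (mem_product.1 hx'.1).2)
      (mem_range.1 (mem_product.1 hy'.1).2))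

/-- Truncation of a sequence. -/
def tr (N : ℕ) (α : ℕ → ℝ) (m : ℕ) : ℝ := if m < N then α m else 0

theorem tr_ne {N : ℕ} {α : ℕ → ℝ} {m : ℕ} (h : tr N α m ≠ 0) : α m ≠ 0 := by
  unfold tr at h
  split_ifs at h
  · exact h
  · exact absurd rfl h

theorem abs_tr {N : ℕ} {α : ℕ → ℝ} (h : ∀ p, |α p| ≤ 1 / p) (m : ℕ) : |tr N α m| ≤ 1 / m := by
  unfold tr
  split_ifs
  · exact h m
  · simp

theorem core {P : Finset ℕ} {W : ℕ} (hW : 0 < W) {b : ℕ} (hb : Nat.Coprime b W) (α β : ℕ → ℝ)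
    (hα : α 0 = 0) (hβ : β 0 = 0) {N I : ℕ} (hN : N ≤ 2 ^ I) (S : Finset (CF P)) {e e' : ℝ}
    (he : 0 ≤ e) (he' : 0 ≤ e')
    (h1 : ∀ i a, ∑ χ ∈ S, ‖blk W (tr N α) i a χ‖ ^ 2 ≤ e ^ 2)
    (h2 : ∀ i a, ∑ χ ∈ S, ‖blk W (tr N β) i a χ‖ ^ 2 ≤ e' ^ 2) :
    ∑ χ ∈ S, ‖∑ p ∈ range N, ∑ k ∈ range N,
      if p * k ≡ b [MOD W] then ((α p * β k : ℝ) : ℂ) * Ch χ (p * k : ℕ) else 0‖
      ≤ (I : ℝ) ^ 2 * (Nat.totient W : ℝ) * (e * e') := by
  set Pr := (range W ×ˢ range W).filter (fun x : ℕ × ℕ => x.1 * x.2 ≡ b [MOD W]) with hPr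
  have hsub : range N ⊆ range (2 ^ I) := range_subset_range.2 hN
  have e1 : ∀ χ : CF P, (∑ p ∈ range N, ∑ k ∈ range N,
      if p * k ≡ b [MOD W] then ((α p * β k : ℝ) : ℂ) * Ch χ (p * k : ℕ) else 0) =
      ∑ i ∈ range I, ∑ j ∈ range I, ∑ x ∈ Pr,
        blk W (tr N α) i x.1 χ * blk W (tr N β) j x.2 χ := by
    intro χ
    have e2 : (∑ p ∈ range N, ∑ k ∈ range N,
        if p * k ≡ b [MOD W] then ((α p * β k : ℝ) : ℂ) * Ch χ (p * k : ℕ) else 0) =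
        ∑ p ∈ range (2 ^ I), ∑ k ∈ range (2 ^ I),
        if p * k ≡ b [MOD W] then ((tr N α p * tr N β k : ℝ) : ℂ) * Ch χ (p * k : ℕ) else 0 := by
      rw [← sum_subset hsub]
      · refine sum_congr rfl fun p hp => ?_
        rw [← sum_subset hsub]
        · refine sum_congr rfl fun k hk => ?_
          simp only [tr, mem_range.1 hp, mem_range.1 hk, if_true]
        · intro k _ hk
          have : ¬ k < N := fun h => hk (mem_range.2 h)
          simp [tr, this]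
      · intro p _ hp
        have : ¬ p < N := fun h => hp (mem_range.2 h)
        simp [tr, this]
    rw [e2, sum_dyadic _ (by simp [tr, hα])]
    refine sum_congr rfl fun i _ => ?_
    rw [sum_congr rfl (fun p _ => sum_dyadic _ (by simp [tr, hβ]) I), sum_comm]
    exact sum_congr rfl fun j _ => block_split hW b _ _ i j χ
  calc _ ≤ ∑ χ ∈ S, ∑ i ∈ range I, ∑ j ∈ range I, ∑ x ∈ Pr,
        ‖blk W (tr N α) i x.1 χ‖ * ‖blk W (tr N β) j x.2 χ‖ := by
        refine sum_le_sum fun χ _ => ?_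
        rw [e1]
        refine (norm_sum_le _ _).trans (sum_le_sum fun i _ => ?_)
        refine (norm_sum_le _ _).trans (sum_le_sum fun j _ => ?_)
        exact (norm_sum_le _ _).trans (sum_le_sum fun x _ => (norm_mul _ _).le)
    _ = ∑ i ∈ range I, ∑ j ∈ range I, ∑ x ∈ Pr, ∑ χ ∈ S,
        ‖blk W (tr N α) i x.1 χ‖ * ‖blk W (tr N β) j x.2 χ‖ := by
        rw [sum_comm]
        refine sum_congr rfl fun i _ => ?_
        rw [sum_comm]
        refine sum_congr rfl fun j _ => ?_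
        rw [sum_comm]
    _ ≤ ∑ i ∈ range I, ∑ j ∈ range I, ∑ x ∈ Pr, e * e' := by
        refine sum_le_sum fun i _ => sum_le_sum fun j _ => sum_le_sum fun x _ => ?_
        refine (Real.sum_mul_le_sqrt_mul_sqrt _ _ _).trans ?_
        exact mul_le_mul (Real.sqrt_le_iff.2 ⟨he, h1 _ _⟩) (Real.sqrt_le_iff.2 ⟨he', h2 _ _⟩)
          (Real.sqrt_nonneg _) he
    _ ≤ _ := by
        simp only [sum_const, card_range, nsmul_eq_mul]
        have : (Pr.card : ℝ) ≤ Nat.totient W := by exact_mod_cast card_pairs hb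
        have h3 : 0 ≤ e * e' := mul_nonneg he he'
        calc (I : ℝ) * (I * (Pr.card * (e * e'))) = (I : ℝ) ^ 2 * Pr.card * (e * e') := by ring
          _ ≤ _ := by gcongr

theorem NN_le {l : ℝ} (hl : 0 ≤ l) : NN l ≤ 2 ^ ⌈8 * l⌉₊ := by
  unfold NN
  refine Nat.ceil_le.2 ?_
  push_cast
  have h1 : exp (5 * l) ≤ exp (⌈8 * l⌉₊ * log 2) := by
    refine exp_le_exp.2 ?_
    have := Nat.le_ceil (8 * l)
    have h2 := log_two_gt_d9
    nlinarith
  rwa [exp_nat_mul, exp_log (by norm_num)] at h1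

/-- A block below the support is empty. -/
theorem blk_zero {P : Finset ℕ} (W : ℕ) {α : ℕ → ℝ} {z : ℝ} (h : ∀ p, α p ≠ 0 → z ≤ log p)
    {i : ℕ} (hi : 2 * (2 : ℝ) ^ i < exp z) (a : ℕ) (χ : CF P) : blk W α i a χ = 0 := by
  refine sum_eq_zero fun m hm => ?_
  have hm' := mem_Ico.1 (mem_filter.1 hm).1
  by_cases h0 : α m = 0
  · simp [h0]
  · exfalso
    have hpos : (0 : ℝ) < m := by
      have : 0 < m := lt_of_lt_of_le (by positivity) hm'.1
      exact_mod_cast this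
    have h1 : exp z ≤ m := by
      have := exp_le_exp.2 (h m h0)
      rwa [exp_log hpos] at this
    have h2 : (m : ℝ) < 2 ^ i + 2 ^ i := by exact_mod_cast hm'.2
    linarith

theorem PP_prime (D : ℕ) (l : ℝ) : ∀ q ∈ PP D l, q.Prime := fun _ hq => (mem_PP.1 hq).1

theorem PP_ndvd (D : ℕ) (l : ℝ) : ∀ q ∈ PP D l, ¬ q ∣ primorial D := fun _ hq =>
  not_dvd_primorial (mem_PP.1 hq).1 (mem_PP.1 hq).2.1

theorem sq_le_blk {α : ℕ → ℝ} (hα : ∀ p, |α p| ≤ 1 / p) {i m : ℕ} (hm : 2 ^ i ≤ m) :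
    ‖((α m : ℝ) : ℂ)‖ ^ 2 ≤ 1 / ((2 : ℝ) ^ i) ^ 2 := by
  rw [Complex.norm_real, Real.norm_eq_abs]
  have h1 : ((2 : ℝ) ^ i) ≤ m := by exact_mod_cast hm
  have h2 : |α m| ≤ 1 / (2 : ℝ) ^ i :=
    (hα m).trans (one_div_le_one_div_of_le (by positivity) h1)
  calc |α m| ^ 2 ≤ (1 / (2 : ℝ) ^ i) ^ 2 := by gcongr
    _ = _ := by rw [div_pow, one_pow]

end Pool.Agent.Lib.Tup.BilA
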