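import Pool.Agent.Lib.Tup.BilA

namespace Pool.Agent.Lib.Tup.BilA
open Finset Real Filter

open Classical in
theorem blk_small (P : Finset ℕ) (hP : ∀ q ∈ P, q.Prime) {W : ℕ} (hW : 0 < W)
    (hPW : ∀ q ∈ P, ¬ q ∣ W) {η l y Λ : ℝ} (hy : 0 ≤ y) (hyl : y ≤ η * l) (hΛ : 0 < Λ)
    (hΛ' : Λ ≤ ∑ A ∈ P.powerset, win 0 y (sz A) * wt A) {α : ℕ → ℝ}
    (h1 : ∀ p, α p ≠ 0 → Rough η l p) (h2 : ∀ p, |α p| ≤ 1 / p) {i : ℕ}
    (hi : W * exp (4 * y) ≤ (2 : ℝ) ^ i) (a : ℕ) :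
    ∑ χ ∈ univ.filter (fun χ : CF P => (cond χ : ℝ) ≤ exp y), ‖blk W α i a χ‖ ^ 2
      ≤ (90 / (W * Λ)) ^ 2 := by
  have hW' : (0 : ℝ) < W := by exact_mod_cast hW
  set H : ℝ := (2 : ℝ) ^ i with hH
  have hH0 : 0 < H := by positivity
  have hQ : 1 ≤ exp y := one_le_exp hy
  have hfac : H / W + 1 + (exp y * exp y) ^ 2 ≤ 3 * (H / W) := by
    have e1 : (exp y * exp y) ^ 2 = exp (4 * y) := by
      rw [← exp_add, ← exp_nat_mul]; congr 1; push_cast; ring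
    have e2 : exp (4 * y) ≤ H / W := by rw [le_div_iff₀ hW']; linarith
    have e3 : 1 ≤ exp (4 * y) := one_le_exp (by linarith)
    rw [e1]; linarith
  set B := (Ico (2 ^ i) (2 ^ i + 2 ^ i)).filter (fun m => m ≡ a [MOD W]) with hB
  set R : ℝ := ((B.filter (fun m => Rough η l m)).card : ℝ) with hR
  have hR0 : 0 ≤ R := Nat.cast_nonneg _
  have hsieve : ∀ m, Rough η l m → ∀ q ∈ P, log q < y → ¬ q ∣ m := by
    intro m hm q hq hlt hd
    have := hm q (hP q hq) hd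
    linarith
  have gen : ∀ c : ℕ → ℂ, (∀ m, c m ≠ 0 → Rough η l m) →
      Λ * ∑ χ ∈ univ.filter (fun χ : CF P => (cond χ : ℝ) ≤ exp y), ‖∑ m ∈ B, c m * Ch χ m‖ ^ 2
        ≤ 90 * (H / W) * ∑ m ∈ B, ‖c m‖ ^ 2 := by
    intro c hc
    have h := mls P hP hW hPW c (2 ^ i) (2 ^ i) a hQ hy (fun m hm => hsieve m (hc m hm))
    have hs1 : 0 ≤ ∑ χ ∈ univ.filter (fun χ : CF P => (cond χ : ℝ) ≤ exp y),
        ‖∑ m ∈ B, c m * Ch χ m‖ ^ 2 := sum_nonneg fun _ _ => by positivity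
    have hs2 : 0 ≤ ∑ m ∈ B, ‖c m‖ ^ 2 := sum_nonneg fun _ _ => by positivity
    push_cast at h
    calc _ ≤ _ := mul_le_mul_of_nonneg_right hΛ' hs1
      _ ≤ _ := h
      _ ≤ 30 * (3 * (H / W)) * ∑ m ∈ B, ‖c m‖ ^ 2 := by gcongr
      _ = _ := by ring
  have hcount : R ≤ 90 * (H / W) / Λ := by
    have h := gen (fun m => if Rough η l m then 1 else 0) (fun m hm => by
      by_contra hr; exact hm (if_neg hr))
    have e1 : ∑ m ∈ B, ‖(if Rough η l m then 1 else 0 : ℂ)‖ ^ 2 = R := by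
      rw [hR, card_filter]
      push_cast
      refine sum_congr rfl fun m _ => ?_
      split_ifs <;> simp
    have e2 : R ^ 2 ≤ ∑ χ ∈ univ.filter (fun χ : CF P => (cond χ : ℝ) ≤ exp y),
        ‖∑ m ∈ B, (if Rough η l m then 1 else 0 : ℂ) * Ch χ m‖ ^ 2 := by
      have hm : (1 : CF P) ∈ univ.filter (fun χ : CF P => (cond χ : ℝ) ≤ exp y) := by
        refine mem_filter.2 ⟨mem_univ _, ?_⟩
        rw [cond_one]; simpa using hy
      refine le_trans (le_of_eq ?_) (single_le_sum (f := fun χ : CF P =>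
        ‖∑ m ∈ B, (if Rough η l m then 1 else 0 : ℂ) * Ch χ m‖ ^ 2) (fun _ _ => by positivity) hm)
      have e3 : ∑ m ∈ B, (if Rough η l m then 1 else 0 : ℂ) * Ch (1 : CF P) m = (R : ℂ) := by
        rw [hR, card_filter]
        push_cast
        refine sum_congr rfl fun m _ => ?_
        rw [Ch_one, mul_one]
        split_ifs <;> simp
      rw [e3, Complex.norm_real, Real.norm_eq_abs, sq_abs]
    rw [e1] at h
    rw [le_div_iff₀ hΛ]
    rcases hR0.eq_or_lt with h0 | h0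
    · rw [← h0, zero_mul]; positivity
    · have : (R * Λ) * R ≤ (90 * (H / W)) * R := by nlinarith
      exact le_of_mul_le_mul_right this h0
  have h := gen (fun m => ((α m : ℝ) : ℂ)) (fun m hm => h1 m (by simpa using hm))
  have e4 : ∑ m ∈ B, ‖((α m : ℝ) : ℂ)‖ ^ 2 ≤ R * (1 / H ^ 2) := by
    rw [hR, card_filter]
    push_cast
    rw [sum_mul]
    refine sum_le_sum fun m hm => ?_
    split_ifs with hr
    · rw [one_mul]; exact sq_le_blk h2 (mem_Ico.1 (mem_filter.1 hm).1).1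
    · have : α m = 0 := by by_contra h0; exact hr (h1 m h0)
      simp [this]
  have e5 : Λ * ∑ χ ∈ univ.filter (fun χ : CF P => (cond χ : ℝ) ≤ exp y), ‖blk W α i a χ‖ ^ 2
      ≤ Λ * (90 / (W * Λ)) ^ 2 := by
    calc _ ≤ _ := h
      _ ≤ 90 * (H / W) * ((90 * (H / W) / Λ) * (1 / H ^ 2)) := by
        refine mul_le_mul_of_nonneg_left (e4.trans ?_) (by positivity)
        gcongr
      _ = _ := by field_simp
  exact le_of_mul_le_mul_left e5 hΛ

open Classical in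
theorem blk_large (P : Finset ℕ) (hP : ∀ q ∈ P, q.Prime) {W : ℕ} (hW : 0 < W)
    (hPW : ∀ q ∈ P, ¬ q ∣ W) {α : ℕ → ℝ} (h2 : ∀ p, |α p| ≤ 1 / p) {Q z : ℝ} (hQ : 1 ≤ Q)
    (h1 : ∀ p, α p ≠ 0 → 2 * z ≤ log p) (i a : ℕ) :
    ∑ χ ∈ univ.filter (fun χ : CF P => (cond χ : ℝ) ≤ Q), ‖blk W α i a χ‖ ^ 2
      ≤ (14 * (1 + Q * exp (-z))) ^ 2 := by
  by_cases hi : 2 * (2 : ℝ) ^ i < exp (2 * z)
  · rw [sum_eq_zero fun χ _ => by rw [blk_zero W h1 hi]; simp]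
    positivity
  push Not at hi
  have hW' : (1 : ℝ) ≤ W := by exact_mod_cast hW
  set H : ℝ := (2 : ℝ) ^ i with hH
  have hH1 : 1 ≤ H := one_le_pow₀ (by norm_num)
  have hH0 : 0 < H := by positivity
  have h := mls P hP hW hPW (fun m => ((α m : ℝ) : ℂ)) (2 ^ i) (2 ^ i) a hQ
    (y := 1 / 2) (by norm_num) (fun m _ q hq hlt => by
      exfalso
      have h3 : (2 : ℝ) ≤ q := by exact_mod_cast (hP q hq).two_le
      have h4 := log_le_log (by norm_num) h3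
      have := log_two_gt_d9
      linarith)
  push_cast at h
  have hΛ : 1 ≤ ∑ A ∈ P.powerset, win 0 (1 / 2) (sz A) * wt A := by
    refine le_trans (le_of_eq ?_) (single_le_sum (f := fun A => win 0 (1 / 2) (sz A) * wt A)
      (fun A hA => mul_nonneg (by unfold win; split_ifs <;> norm_num)
        (wt_nonneg fun q hq => (hP q (mem_powerset.1 hA hq)).two_le)) (empty_mem_powerset P))
    simp [win, sz, wt]
  have e4 : ∑ m ∈ (Ico (2 ^ i) (2 ^ i + 2 ^ i)).filter (fun m => m ≡ a [MOD W]),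
      ‖((α m : ℝ) : ℂ)‖ ^ 2 ≤ 1 / H := by
    calc _ ≤ ∑ m ∈ Ico (2 ^ i) (2 ^ i + 2 ^ i), ‖((α m : ℝ) : ℂ)‖ ^ 2 :=
          sum_le_sum_of_subset_of_nonneg (filter_subset _ _) fun _ _ _ => by positivity
      _ ≤ ∑ m ∈ Ico (2 ^ i) (2 ^ i + 2 ^ i), 1 / H ^ 2 :=
          sum_le_sum fun m hm => sq_le_blk h2 (mem_Ico.1 hm).1
      _ = 1 / H := by
          rw [sum_const, Nat.card_Ico, Nat.add_sub_cancel_left, nsmul_eq_mul]
          push_cast
          rw [← hH]; field_simp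
  have hs1 : 0 ≤ ∑ χ ∈ univ.filter (fun χ : CF P => (cond χ : ℝ) ≤ Q), ‖blk W α i a χ‖ ^ 2 :=
    sum_nonneg fun _ _ => by positivity
  have e5 : (Q * exp (1 / 2)) ^ 2 ≤ 3 * Q ^ 2 := by
    have : exp (1 / 2) ^ 2 = exp 1 := by rw [← exp_nat_mul]; norm_num
    rw [mul_pow, this]
    have := exp_one_lt_d9
    nlinarith [sq_nonneg Q]
  have e6 : H / W ≤ H := div_le_self hH0.le hW'
  have e7 : 1 / H ≤ 2 * exp (-z) ^ 2 := by
    have : exp (-z) ^ 2 * exp (2 * z) = 1 := by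
      rw [← exp_nat_mul, ← exp_add]; simp
    rw [div_le_iff₀ hH0]
    nlinarith [sq_nonneg (exp (-z))]
  have hu : 0 ≤ Q * exp (-z) := by positivity
  calc _ ≤ _ := le_mul_of_one_le_left hs1 hΛ
    _ ≤ _ := h
    _ ≤ 30 * (H + H + 3 * Q ^ 2) * (1 / H) := by gcongr
    _ = 60 + 90 * Q ^ 2 * (1 / H) := by field_simp; ring
    _ ≤ 60 + 90 * Q ^ 2 * (2 * exp (-z) ^ 2) := by gcongr
    _ = 60 + 180 * (Q * exp (-z)) ^ 2 := by ring
    _ ≤ _ := by nlinarith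

end Pool.Agent.Lib.Tup.BilA
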