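import Pool.Agent.Lib.Tup.Maj
import Pool.Agent.Lib.Sieve.Mertens

namespace Pool.Agent.Lib.Tup
open Finset Real Filter

theorem exc_X_erase {P : Finset ℕ} {p : ℕ} (hp : p ∈ P) (φ : ℝ → ℝ) (m : ℤ) :
    X P (fun A => φ (sz A)) m
      = X (P.erase p) (fun A => φ (sz A) + chi p m * φ (sz A + log p)) m := by
  have hP : P = insert p (P.erase p) := (insert_erase hp).symm
  have hn : p ∉ P.erase p := notMem_erase p P
  unfold X
  conv_lhs => rw [hP]
  rw [sum_powerset_insert hn, ← sum_add_distrib]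
  refine sum_congr rfl fun A hA => ?_
  have hpA : p ∉ A := fun h => hn (mem_powerset.1 hA h)
  have h1 : sz (insert p A) = sz A + log p := by
    unfold sz
    rw [sum_insert hpA, add_comm]
  have h2 : chiP (insert p A) m = chi p m * chiP A m := by
    unfold chiP
    rw [prod_insert hpA]
  simp only [h1, h2]
  ring

theorem exc_win_nonneg (x y s : ℝ) : 0 ≤ win x y s := by
  unfold win
  split_ifs <;> norm_num

theorem exc_win_le_one (x y s : ℝ) : win x y s ≤ 1 := by
  unfold win
  split_ifs <;> norm_num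

theorem exc_win_lt {x y s : ℝ} (h : win x y s ≠ 0) : s < y := by
  unfold win at h
  split_ifs at h with h1
  · exact h1.2
  · exact absurd rfl h

theorem exc_win_diff {x y L : ℝ} (hL : 0 ≤ L) (t s : ℝ) :
    |win x y (t + s) - win x y (t + s + L)|
      ≤ win (x - L - t) (x - t) s + win (y - L - t) (y - t) s := by
  have h1 := exc_win_nonneg (x - L - t) (x - t) s
  have h2 := exc_win_nonneg (y - L - t) (y - t) s
  by_cases ha : x ≤ t + s ∧ t + s < y
  · by_cases hb : x ≤ t + s + L ∧ t + s + L < y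
    · have : win x y (t + s) - win x y (t + s + L) = 0 := by
        unfold win
        rw [if_pos ha, if_pos hb, sub_self]
      rw [this, abs_zero]
      linarith
    · have e1 : win x y (t + s) - win x y (t + s + L) = 1 := by
        unfold win
        rw [if_pos ha, if_neg hb, sub_zero]
      have hy : y ≤ t + s + L := by
        by_contra hc
        exact hb ⟨by linarith [ha.1], not_le.1 hc⟩
      have e2 : win (y - L - t) (y - t) s = 1 := by
        unfold win
        rw [if_pos ⟨by linarith, by linarith [ha.2]⟩]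
      rw [e1, e2, abs_one]
      linarith
  · by_cases hb : x ≤ t + s + L ∧ t + s + L < y
    · have e1 : win x y (t + s) - win x y (t + s + L) = -1 := by
        unfold win
        rw [if_neg ha, if_pos hb, zero_sub]
      have hx : t + s < x := by
        by_contra hc
        exact ha ⟨not_lt.1 hc, by linarith [hb.2]⟩
      have e2 : win (x - L - t) (x - t) s = 1 := by
        unfold win
        rw [if_pos ⟨by linarith [hb.1], by linarith⟩]
      rw [e1, e2, abs_neg, abs_one]
      linarith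
    · have : win x y (t + s) - win x y (t + s + L) = 0 := by
        unfold win
        rw [if_neg ha, if_neg hb, sub_self]
      rw [this, abs_zero]
      linarith

theorem exc_max_sub_le {a L : ℝ} (hL : 0 ≤ L) (t : ℝ) :
    max (a - t) 0 - max (a - L - t) 0 ≤ L := by
  have h1 := le_max_left (a - L - t) 0
  have h2 := le_max_right (a - L - t) 0
  have : max (a - t) 0 ≤ max (a - L - t) 0 + L := max_le (by linarith) (by linarith)
  linarith

theorem exc_lin0 {D : ℕ} (hD : 2 ≤ D) {CD : ℝ} (hCD0 : 0 ≤ CD)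
    (hCD : ∀ (P : Finset ℕ) (x y : ℝ), (∀ q ∈ P, q.Prime ∧ D < q) → x ≤ y →
      ∑ A ∈ P.powerset, win x y (sz A) * wt A
        ≤ (1 + 2 / D) * (cW D * (max y 0 - max x 0) + CD))
    {P : Finset ℕ} (hP : ∀ q ∈ P, q.Prime ∧ D < q) (x y : ℝ) {L : ℝ} (hL : 0 ≤ L) :
    ∃ v : Finset ℕ → ℝ, Nrm v (4 * (cW D * L + CD)) (y + y) ∧
      ∀ m : ℤ, X P (fun A => win x y (sz A) - win x y (sz A + L)) m ^ 2 = X P v m := by
  have hP2 : ∀ q ∈ P, 2 ≤ q := fun q hq => (hP q hq).1.two_le
  have hc := cW_pos D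
  have hsupp : ∀ s : ℝ, 0 ≤ s → win x y s - win x y (s + L) ≠ 0 → s ≤ y := by
    intro s _ hs
    by_cases h1 : win x y s = 0
    · have h2 : win x y (s + L) ≠ 0 := by
        intro h2
        apply hs
        rw [h1, h2, sub_self]
      have := exc_win_lt h2
      linarith
    · exact (exc_win_lt h1).le
  have hone : ∀ a t : ℝ, ∑ C ∈ P.powerset, win (a - L - t) (a - t) (sz C) * wt C
      ≤ 2 * (cW D * L + CD) := by
    intro a t
    refine (hCD P _ _ hP (by linarith)).trans ?_
    have hD' : (2 : ℝ) ≤ D := by exact_mod_cast hD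
    have h1 : (1 : ℝ) + 2 / D ≤ 2 := by
      have : (2 : ℝ) / D ≤ 1 := by
        rw [div_le_one (by linarith)]
        exact hD'
      linarith
    have h2 := exc_max_sub_le (a := a) hL t
    have h3 : 0 ≤ max (a - t) 0 - max (a - L - t) 0 := by
      have : max (a - L - t) 0 ≤ max (a - t) 0 := max_le_max (by linarith) le_rfl
      linarith
    have h4 : cW D * (max (a - t) 0 - max (a - L - t) 0) + CD ≤ cW D * L + CD := by
      have := mul_le_mul_of_nonneg_left h2 hc.le
      linarith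
    have h5 : 0 ≤ cW D * (max (a - t) 0 - max (a - L - t) 0) + CD := by positivity
    exact mul_le_mul h1 h4 h5 (by norm_num)
  obtain ⟨v, hv, -, hX⟩ := linearize hP2 (fun s => win x y s - win x y (s + L))
    (fun s => win x y s - win x y (s + L)) (M := 4 * (cW D * L + CD)) (a := y) (a' := y)
    (by
      intro s
      have h1 := exc_win_nonneg x y s
      have h2 := exc_win_le_one x y s
      have h3 := exc_win_nonneg x y (s + L)
      have h4 := exc_win_le_one x y (s + L)
      rw [abs_le]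
      constructor <;> linarith)
    (by
      intro t _
      calc ∑ C ∈ P.powerset, |win x y (t + sz C) - win x y (t + sz C + L)| * wt C
          ≤ ∑ C ∈ P.powerset, (win (x - L - t) (x - t) (sz C) * wt C
              + win (y - L - t) (y - t) (sz C) * wt C) := by
            refine sum_le_sum fun C hC => ?_
            have hw : 0 ≤ wt C := wt_nonneg fun q hq => hP2 q (mem_powerset.1 hC hq)
            rw [← add_mul]
            exact mul_le_mul_of_nonneg_right (exc_win_diff hL t (sz C)) hw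
        _ ≤ 2 * (cW D * L + CD) + 2 * (cW D * L + CD) := by
            rw [sum_add_distrib]
            exact add_le_add (hone x t) (hone y t)
        _ = 4 * (cW D * L + CD) := by ring)
    hsupp hsupp
  exact ⟨v, hv, fun m => by rw [sq]; exact hX m⟩

theorem exc_lin1 {P : Finset ℕ} (hP : ∀ q ∈ P, 2 ≤ q) (x y : ℝ) {L β E : ℝ} (hL : 0 ≤ L)
    (hβ0 : 0 ≤ β) (hβ : β ≤ 1) (hE : Eul P ≤ E) :
    ∃ v : Finset ℕ → ℝ, Nrm v (4 * E) (y + y) ∧
      ∀ m : ℤ, X P (fun A => win x y (sz A) + β * win x y (sz A + L)) m ^ 2 = X P v m := by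
  have hb : ∀ s : ℝ, 0 ≤ win x y s + β * win x y (s + L) ∧
      win x y s + β * win x y (s + L) ≤ 2 := by
    intro s
    have h1 := exc_win_nonneg x y s
    have h2 := exc_win_le_one x y s
    have h3 := exc_win_nonneg x y (s + L)
    have h4 := exc_win_le_one x y (s + L)
    have h5 : β * win x y (s + L) ≤ 1 := mul_le_one₀ hβ h3 h4
    have h6 : 0 ≤ β * win x y (s + L) := mul_nonneg hβ0 h3
    constructor <;> linarith
  have hsupp : ∀ s : ℝ, win x y s + β * win x y (s + L) ≠ 0 → s ≤ y := by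
    intro s hs
    by_cases h1 : win x y s = 0
    · have h2 : win x y (s + L) ≠ 0 := by
        intro h2
        apply hs
        rw [h1, h2, mul_zero, add_zero]
      have := exc_win_lt h2
      linarith
    · exact (exc_win_lt h1).le
  obtain ⟨v, hv, -, hX⟩ := linearize hP (fun s => 2 * (win x y s + β * win x y (s + L)))
    (fun s => (win x y s + β * win x y (s + L)) / 2) (M := 4 * E) (a := y) (a' := y)
    (by
      intro s
      have := hb s
      rw [abs_le]
      constructor <;> linarith [this.1, this.2])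
    (by
      intro t _
      calc ∑ C ∈ P.powerset, |2 * (win x y (t + sz C) + β * win x y (t + sz C + L))| * wt C
          ≤ ∑ C ∈ P.powerset, 4 * wt C := by
            refine sum_le_sum fun C hC => ?_
            have hw : 0 ≤ wt C := wt_nonneg fun q hq => hP q (mem_powerset.1 hC hq)
            refine mul_le_mul_of_nonneg_right ?_ hw
            have := hb (t + sz C)
            rw [abs_le]
            constructor <;> linarith [this.1, this.2]
        _ = 4 * Eul P := by rw [← mul_sum, sum_wt_eq]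
        _ ≤ 4 * E := by linarith)
    (fun s _ hs => hsupp s fun h => hs (by rw [h, mul_zero]))
    (fun s _ hs => hsupp s fun h => hs (by rw [h, zero_div]))
  refine ⟨v, hv, fun m => ?_⟩
  rw [← hX m]
  have e1 : X P (fun A => 2 * (win x y (sz A) + β * win x y (sz A + L))) m
      = 2 * X P (fun A => win x y (sz A) + β * win x y (sz A + L)) m := by
    unfold X
    rw [mul_sum]
    exact sum_congr rfl fun A _ => by ring
  have e2 : X P (fun A => (win x y (sz A) + β * win x y (sz A + L)) / 2) m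
      = X P (fun A => win x y (sz A) + β * win x y (sz A + L)) m / 2 := by
    unfold X
    rw [sum_div]
    exact sum_congr rfl fun A _ => by ring
  rw [e1, e2]
  ring

theorem exc_Eul_erase {P : Finset ℕ} (hP : ∀ q ∈ P, 2 ≤ q) (p : ℕ) : Eul (P.erase p) ≤ Eul P := by
  unfold Eul
  have hq : ∀ q ∈ P, (0 : ℝ) ≤ 1 / ((q : ℝ) - 1) := by
    intro q hq
    have : (2 : ℝ) ≤ q := by exact_mod_cast hP q hq
    apply div_nonneg zero_le_one
    linarith
  refine prod_le_prod_of_subset_of_one_le (erase_subset p P) ?_ ?_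
  · intro q h
    have := hq q (mem_of_mem_erase h)
    linarith
  · intro q h _
    have := hq q h
    linarith

theorem exc_Nrm_empty {v : Finset ℕ → ℝ} {M lam : ℝ} (h : Nrm v M lam) : |v ∅| ≤ M := by
  have := (h ∅).1
  simpa using this

theorem exc_crt {W p : ℕ} (hco : Nat.Coprime W p) (b : ℕ) :
    ∃ b' : ℕ, ∀ m : ℕ, (m ≡ b [MOD W] ∧ p ∣ m) ↔ m ≡ b' [MOD W * p] := by
  obtain ⟨b', h1, h2⟩ := Nat.chineseRemainder hco b 0
  refine ⟨b', fun m => ?_⟩
  rw [← Nat.modEq_and_modEq_iff_modEq_mul hco]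
  constructor
  · rintro ⟨ha, hb⟩
    exact ⟨ha.trans h1.symm, (Nat.modEq_zero_iff_dvd.2 hb).trans h2.symm⟩
  · rintro ⟨ha, hb⟩
    exact ⟨ha.trans h1, Nat.modEq_zero_iff_dvd.1 (hb.trans h2)⟩

theorem exc_prime {ι : Type*} [Fintype ι] [DecidableEq ι] (c : ι → ℤ)
    {D1 : ℕ} {C : ℝ} (hC : 0 ≤ C)
    (hlvl : ∀ (P : Finset ℕ) (W b N : ℕ) (c : Option ι → ℤ) (w : ℕ → ℝ) (T V : ℝ)
      (v : Option ι → Finset ℕ → ℝ) (M lam : Option ι → ℝ), 0 < W →
      (∀ q ∈ P, q.Prime ∧ D1 < q ∧ ¬ q ∣ W ∧ ∀ i j, i ≠ j → ¬ (q : ℤ) ∣ c i - c j) →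
      (∀ q a : ℕ, 0 < q → |∑ m ∈ (range N).filter (fun m => m ≡ a [MOD q]), w m - T / q| ≤ V) →
      (∀ i, Nrm (v i) (M i) (lam i)) →
      |∑ m ∈ (range N).filter (fun m => m ≡ b [MOD W]), w m * ∏ i, X P (v i) (m + c i)
          - T / W * ∏ i, v i ∅|
        ≤ (∏ i, M i) * (1 * |T| / W + C * V * exp (11 / 10 * ∑ i, lam i)))
    {D : ℕ} (hD : 2 ≤ D) (hD1 : D1 ≤ D)
    (hsep : ∀ q : ℕ, D < q → ∀ i j : Option ι, i ≠ j →
      ¬ (q : ℤ) ∣ i.elim 0 c - j.elim 0 c)
    {CD : ℝ} (hCD0 : 0 ≤ CD)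
    (hCD : ∀ (P : Finset ℕ) (x y : ℝ), (∀ q ∈ P, q.Prime ∧ D < q) → x ≤ y →
      ∑ A ∈ P.powerset, win x y (sz A) * wt A
        ≤ (1 + 2 / D) * (cW D * (max y 0 - max x 0) + CD))
    {l : ℝ} (hl : 0 ≤ l) (w : ℕ → ℝ) {T V E : ℝ} (hT0 : 0 ≤ T) (hT : T ≤ l) (hV : 0 ≤ V)
    (hdisc : ∀ q a : ℕ, 0 < q → |∑ m ∈ cls l q a, w m - T / q| ≤ V)
    (hE : Eul (PP D l) ≤ E)
    (b : ℕ) (x0 y0 : ℝ) (x y : ι → ℝ) (hy : y0 + ∑ i, y i ≤ 5 / 3)
    {p : ℕ} (hp : p ∈ PP D l) :
    ∑ m ∈ (cls l (primorial D) b).filter (fun m => p ∣ m),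
        w m * (XW D l x0 y0 m ^ 2 * ∏ i, XW D l (x i) (y i) (m + c i) ^ 2)
      ≤ 4 * (cW D * log p + CD) * (4 * E) ^ Fintype.card ι *
          (2 * l / (primorial D * p) + C * V * exp (11 / 3 * l)) := by
  classical
  have hPP : ∀ q ∈ PP D l, q.Prime ∧ D < q := fun q hq =>
    ⟨(mem_PP.1 hq).1, (mem_PP.1 hq).2.1⟩
  have hPP2 : ∀ q ∈ PP D l, 2 ≤ q := fun q hq => (hPP q hq).1.two_le
  obtain ⟨hpp, hDp⟩ := hPP p hp
  set P' := (PP D l).erase p with hP'
  have hP'1 : ∀ q ∈ P', q.Prime ∧ D < q := fun q hq => hPP q (mem_of_mem_erase hq)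
  have hP'2 : ∀ q ∈ P', 2 ≤ q := fun q hq => (hP'1 q hq).1.two_le
  have hL : 0 ≤ log p := log_natCast_nonneg p
  have hp2 : (2 : ℝ) ≤ p := by exact_mod_cast hpp.two_le
  have hβ0 : (0 : ℝ) ≤ 1 / ((p : ℝ) - 1) := div_nonneg zero_le_one (by linarith)
  have hβ1 : 1 / ((p : ℝ) - 1) ≤ 1 := by
    rw [div_le_one (by linarith)]
    linarith
  have hE' : Eul P' ≤ E := (exc_Eul_erase hPP2 p).trans hE
  have hE0 : 0 ≤ E := le_trans (zero_le_one.trans (one_le_Eul hPP2)) hE
  obtain ⟨v0, hv0, hX0⟩ := exc_lin0 hD hCD0 hCD hP'1 (x0 * l) (y0 * l) hL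
  have hvi := fun i : ι => exc_lin1 hP'2 (x i * l) (y i * l) hL hβ0 hβ1 hE'
  choose vi hvi hXi using hvi
  have hco : Nat.Coprime (primorial D) p :=
    ((Nat.Prime.coprime_iff_not_dvd hpp).2 (not_dvd_primorial hpp hDp)).symm
  obtain ⟨b', hb'⟩ := exc_crt hco b
  have hW : 0 < primorial D := primorial_pos D
  have hWp : 0 < primorial D * p := Nat.mul_pos hW hpp.pos
  have hset : (cls l (primorial D) b).filter (fun m => p ∣ m)
      = (range (NN l)).filter (fun m => m ≡ b' [MOD primorial D * p]) := by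
    unfold cls
    rw [filter_filter]
    exact filter_congr fun m _ => hb' m
  have key := hlvl P' (primorial D * p) b' (NN l) (fun o => o.elim 0 c) w T V
    (fun o => o.elim v0 vi) (fun o => o.elim (4 * (cW D * log p + CD)) (fun _ => 4 * E))
    (fun o => o.elim (y0 * l + y0 * l) (fun i => y i * l + y i * l)) hWp
    (by
      intro q hq
      obtain ⟨hq1, hq2⟩ := hP'1 q hq
      refine ⟨hq1, by omega, ?_, hsep q hq2⟩
      intro hdv
      rcases (Nat.Prime.dvd_mul hq1).1 hdv with h | h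
      · exact not_dvd_primorial hq1 hq2 h
      · exact (ne_of_mem_erase hq) ((Nat.prime_dvd_prime_iff_eq hq1 hpp).1 h))
    hdisc
    (by
      intro o
      cases o with
      | none => exact hv0
      | some i => exact hvi i)
  have hsum : ∑ m ∈ (cls l (primorial D) b).filter (fun m => p ∣ m),
        w m * (XW D l x0 y0 m ^ 2 * ∏ i, XW D l (x i) (y i) (m + c i) ^ 2)
      = ∑ m ∈ (range (NN l)).filter (fun m => m ≡ b' [MOD primorial D * p]),
        w m * ∏ o : Option ι, X P' (o.elim v0 vi) (m + o.elim 0 c) := by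
    rw [← hset]
    refine sum_congr rfl fun m hm => ?_
    have hpm : p ∣ m := (mem_filter.1 hm).2
    have hpm' : (p : ℤ) ∣ (m : ℤ) := Int.natCast_dvd_natCast.2 hpm
    rw [Fintype.prod_option]
    congr 2
    · simp only [Option.elim, add_zero]
      rw [← hX0]
      unfold XW
      rw [exc_X_erase hp (win (x0 * l) (y0 * l))]
      have : chi p m = -1 := by
        unfold chi
        rw [if_pos hpm']
      simp only [this, neg_one_mul, ← sub_eq_add_neg]
      rfl
    · refine prod_congr rfl fun i _ => ?_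
      simp only [Option.elim]
      rw [← hXi]
      unfold XW
      rw [exc_X_erase hp (win (x i * l) (y i * l))]
      have hnd : ¬ (p : ℤ) ∣ (m : ℤ) + c i := by
        intro h
        have h2 : (p : ℤ) ∣ c i := (dvd_add_right hpm').1 h
        apply hsep p hDp (some i) none (by simp)
        simpa using h2
      have : chi p (m + c i) = 1 / ((p : ℝ) - 1) := by
        unfold chi
        rw [if_neg hnd]
      simp only [this]
      rfl
  rw [hsum]
  have hc := cW_pos D
  have hM0 : 0 ≤ 4 * (cW D * log p + CD) := by positivity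
  have hMprod : ∏ o : Option ι, o.elim (4 * (cW D * log p + CD)) (fun _ => 4 * E)
      = 4 * (cW D * log p + CD) * (4 * E) ^ Fintype.card ι := by
    rw [Fintype.prod_option]
    simp only [Option.elim, prod_const, card_univ]
  have hMnn : 0 ≤ 4 * (cW D * log p + CD) * (4 * E) ^ Fintype.card ι := by positivity
  have hv : |∏ o : Option ι, (o.elim v0 vi) ∅|
      ≤ 4 * (cW D * log p + CD) * (4 * E) ^ Fintype.card ι := by
    rw [← hMprod, abs_prod]
    refine prod_le_prod (fun _ _ => abs_nonneg _) fun o _ => ?_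
    cases o with
    | none => exact exc_Nrm_empty hv0
    | some i => exact exc_Nrm_empty (hvi i)
  have hlam : 11 / 10 * ∑ o : Option ι, o.elim (y0 * l + y0 * l) (fun i => y i * l + y i * l)
      ≤ 11 / 3 * l := by
    rw [Fintype.sum_option]
    simp only [Option.elim]
    have e : ∑ i, (y i * l + y i * l) = 2 * l * ∑ i, y i := by
      rw [mul_sum]
      exact sum_congr rfl fun i _ => by ring
    rw [e]
    have := mul_le_mul_of_nonneg_left hy hl
    nlinarith
  rw [hMprod] at key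
  have hWp' : (0 : ℝ) < ((primorial D * p : ℕ) : ℝ) := by exact_mod_cast hWp
  have h1 := (abs_le.1 key).2
  have h2 : T / ((primorial D * p : ℕ) : ℝ) * ∏ o : Option ι, (o.elim v0 vi) ∅
      ≤ T / ((primorial D * p : ℕ) : ℝ) * (4 * (cW D * log p + CD) * (4 * E) ^ Fintype.card ι) :=
    mul_le_mul_of_nonneg_left ((le_abs_self _).trans hv) (by positivity)
  have h3 : T / ((primorial D * p : ℕ) : ℝ) ≤ l / ((primorial D * p : ℕ) : ℝ) :=
    div_le_div_of_nonneg_right hT hWp'.le
  have h4 : C * V * exp (11 / 10 *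
        ∑ o : Option ι, o.elim (y0 * l + y0 * l) (fun i => y i * l + y i * l))
      ≤ C * V * exp (11 / 3 * l) :=
    mul_le_mul_of_nonneg_left (exp_le_exp.2 hlam) (by positivity)
  rw [abs_of_nonneg hT0, one_mul] at h1
  have h5 : 4 * (cW D * log p + CD) * (4 * E) ^ Fintype.card ι *
        (T / ((primorial D * p : ℕ) : ℝ) + T / ((primorial D * p : ℕ) : ℝ) + C * V * exp (11 / 10 *
        ∑ o : Option ι, o.elim (y0 * l + y0 * l) (fun i => y i * l + y i * l)))
      ≤ 4 * (cW D * log p + CD) * (4 * E) ^ Fintype.card ι *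
          (2 * l / (primorial D * p) + C * V * exp (11 / 3 * l)) := by
    refine mul_le_mul_of_nonneg_left ?_ hMnn
    have e : 2 * l / ((primorial D : ℝ) * p)
        = l / ((primorial D * p : ℕ) : ℝ) + l / ((primorial D * p : ℕ) : ℝ) := by
      push_cast
      ring
    rw [e]
    linarith
  nlinarith

theorem exc_ev {a : ℝ} (ha : 0 < a) (B : ℝ) : ∀ᶠ l : ℝ in atTop, B ≤ a * l :=
  (tendsto_id.const_mul_atTop ha).eventually_ge_atTop B

theorem exc_ev_log {a B : ℝ} (ha : 0 < a) (hB : 0 ≤ B) :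
    ∀ᶠ l : ℝ in atTop, B * (log l + 7) ≤ a * l := by
  have h1 := Real.isLittleO_log_id_atTop.bound (c := a / (2 * (B + 1))) (by positivity)
  filter_upwards [h1, exc_ev (half_pos ha) (7 * B), eventually_ge_atTop (0 : ℝ)] with l h2 h3 h4
  simp only [id, norm_eq_abs, abs_of_nonneg h4] at h2
  have h5 : log l ≤ a / (2 * (B + 1)) * l := (le_abs_self _).trans h2
  have h6 : B * log l ≤ B * (a / (2 * (B + 1)) * l) := mul_le_mul_of_nonneg_left h5 hB
  have h7 : B * (a / (2 * (B + 1)) * l) ≤ (B + 1) * (a / (2 * (B + 1)) * l) :=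
    mul_le_mul_of_nonneg_right (by linarith) (by positivity)
  have h8 : (B + 1) * (a / (2 * (B + 1)) * l) = a / 2 * l := by
    field_simp
  linarith

theorem exc_small_primes {S : Finset ℕ} {z : ℝ} (hz : 1 ≤ z)
    (hS : ∀ p ∈ S, p.Prime ∧ log p ≤ z) :
    ∑ p ∈ S, log p / p ≤ z + 2 ∧ ∑ p ∈ S, 1 / (p : ℝ) ≤ log z + 7 ∧ (S.card : ℝ) ≤ exp z := by
  set N := ⌊exp z⌋₊ with hN
  have he : (2 : ℝ) ≤ exp z := by
    have := add_one_le_exp z
    linarith
  have hN2 : 2 ≤ N := Nat.le_floor (by exact_mod_cast he)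
  have hNle : (N : ℝ) ≤ exp z := Nat.floor_le (exp_pos z).le
  have hN0 : (0 : ℝ) < N := by
    have : 0 < N := by omega
    exact_mod_cast this
  have hlogN : log N ≤ z := by
    rw [log_le_iff_le_exp hN0]
    exact hNle
  have hle : ∀ p ∈ S, p ≤ N := by
    intro p hp
    obtain ⟨h1, h2⟩ := hS p hp
    have hp0 : (0 : ℝ) < p := by exact_mod_cast h1.pos
    exact Nat.le_floor ((log_le_iff_le_exp hp0).1 h2)
  have hsub : S ⊆ Nat.primesLE N := by
    intro p hp
    exact Nat.mem_primesLE.2 ⟨hle p hp, (hS p hp).1⟩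
  refine ⟨?_, ?_, ?_⟩
  · have h1 := Sieve.sum_log_div_le (N := N) (by omega)
    have h2 : ∑ p ∈ S, log p / p ≤ ∑ p ∈ Nat.primesLE N, log p / p :=
      sum_le_sum_of_subset_of_nonneg hsub fun p _ _ =>
        div_nonneg (log_natCast_nonneg p) (Nat.cast_nonneg p)
    have h3 : log 4 ≤ 2 := by
      have e : (4 : ℝ) = 2 ^ 2 := by norm_num
      rw [e, log_pow]
      have := log_two_lt_d9
      push_cast
      linarith
    linarith
  · have h1 := Sieve.sum_inv_primes_le hN2
    have h2 : ∑ p ∈ S, 1 / (p : ℝ) ≤ ∑ p ∈ Nat.primesLE N, 1 / (p : ℝ) :=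
      sum_le_sum_of_subset_of_nonneg hsub fun p _ _ => by positivity
    have h3 := Sieve.one_half_le_log hN2
    have h4 : log (log N) ≤ log z := log_le_log (by linarith) hlogN
    linarith
  · have h1 : S ⊆ Icc 1 N := fun p hp => mem_Icc.2 ⟨(hS p hp).1.pos, hle p hp⟩
    have h2 := card_le_card h1
    rw [Nat.card_Icc] at h2
    have h3 : (S.card : ℝ) ≤ N := by
      have : S.card ≤ N := by omega
      exact_mod_cast this
    linarith

theorem exc_union {s : Finset ℕ} {S : Finset ℕ} {f : ℕ → ℝ} (hf : ∀ m, 0 ≤ f m)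
    {Q : ℕ → Prop} [DecidablePred Q] (hQ : ∀ m, Q m → ∃ p ∈ S, p ∣ m) :
    ∑ m ∈ s.filter Q, f m ≤ ∑ p ∈ S, ∑ m ∈ s.filter (fun m => p ∣ m), f m := by
  simp only [sum_filter]
  rw [sum_comm]
  refine sum_le_sum fun m _ => ?_
  have hnn : ∀ p ∈ S, 0 ≤ (if p ∣ m then f m else 0) := by
    intro p _
    split_ifs
    · exact hf m
    · exact le_rfl
  split_ifs with h
  · obtain ⟨p, hp, hpm⟩ := hQ m h
    have := single_le_sum hnn hp
    rwa [if_pos hpm] at this
  · exact sum_nonneg hnn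

theorem exc_sep {κ : Type*} [Fintype κ] (c : κ → ℤ) (hc : Function.Injective c) :
    ∃ D2 : ℕ, ∀ q : ℕ, D2 < q → ∀ i j, i ≠ j → ¬ (q : ℤ) ∣ c i - c j := by
  classical
  refine ⟨∑ i, ∑ j, (c i - c j).natAbs, fun q hq i j hij hd => ?_⟩
  have hne : c i - c j ≠ 0 := sub_ne_zero.2 fun h => hij (hc h)
  have h1 : q ∣ (c i - c j).natAbs := Int.natCast_dvd.1 hd
  have h2 : q ≤ (c i - c j).natAbs := Nat.le_of_dvd (Int.natAbs_pos.2 hne) h1
  have h3 : (c i - c j).natAbs ≤ ∑ j, (c i - c j).natAbs :=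
    single_le_sum (f := fun j => (c i - c j).natAbs) (fun _ _ => Nat.zero_le _) (mem_univ j)
  have h4 : ∑ j, (c i - c j).natAbs ≤ ∑ i, ∑ j, (c i - c j).natAbs :=
    single_le_sum (f := fun i => ∑ j, (c i - c j).natAbs) (fun _ _ => Nat.zero_le _) (mem_univ i)
  omega

open Classical in
/-- Numbers with a small prime factor carry little weight. -/
theorem exc {ι : Type*} [Fintype ι] [DecidableEq ι] (c : ι → ℤ) (hc0 : ∀ i, c i ≠ 0)
    (hc : Function.Injective c) {ψ : ℝ → ℝ} {s0 s1 : ℝ} (hψ : Bump ψ s0 s1) :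
    ∃ C : ℝ, 0 ≤ C ∧ ∃ D1 : ℕ, ∀ η : ℝ, 0 < η → η ≤ 1 / 10 → ∀ D ≥ D1, ∀ᶠ l : ℝ in atTop,
      ∀ (b : ℕ) (x0 y0 : ℝ) (x y : ι → ℝ), x0 ≤ y0 → 0 ≤ y0 → (∀ i, 0 ≤ y i) →
      y0 + ∑ i, y i ≤ 5 / 3 →
      ∑ m ∈ (cls l (primorial D) b).filter
          (fun m => ∃ p ∈ PP D l, log p ≤ η * l ∧ p ∣ m),
        wg ψ l m * (XW D l x0 y0 m ^ 2 * ∏ i, XW D l (x i) (y i) (m + c i) ^ 2)
        ≤ C * η * scale D l (Fintype.card ι + 1) := by
  obtain ⟨D1, C, hC, hlvl⟩ := lvl1 (Option ι) (ε := 1) one_pos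
  obtain ⟨C0, hC0, hEul⟩ := Eul_le
  have hinj : Function.Injective (fun o : Option ι => o.elim 0 c) := by
    intro i j hij
    cases i with
    | none =>
      cases j with
      | none => rfl
      | some j => exact absurd hij.symm (hc0 j)
    | some i =>
      cases j with
      | none => exact absurd hij (hc0 i)
      | some j => exact congrArg some (hc hij)
  obtain ⟨D2, hD2⟩ := exc_sep _ hinj
  refine ⟨25 * (4 * C0) ^ Fintype.card ι, by positivity, max 2 (max D1 D2), ?_⟩
  intro η hη hη1 D hD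
  have hDa : 2 ≤ D := le_trans (le_max_left _ _) hD
  have hDb : D1 ≤ D := le_trans ((le_max_left _ _).trans (le_max_right _ _)) hD
  have hDc : D2 ≤ D := le_trans ((le_max_right _ _).trans (le_max_right _ _)) hD
  obtain ⟨CD, hCD0, hCD⟩ := win_le hDa
  have hc := cW_pos D
  have hW : (0 : ℝ) < primorial D := by exact_mod_cast primorial_pos D
  have ha : 0 < cW D * η := mul_pos hc hη
  filter_upwards [disc hψ, TT_le hψ, hEul D, exc_ev hη 2, exc_ev_log ha hCD0, exc_ev ha CD,
    eventually_ge_atTop (80 * C * primorial D), eventually_ge_atTop (1 : ℝ)]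
    with l hdisc hTT hE h2 hlog hCDl hl80 hl1
  intro b x0 y0 x y _ _ _ hy
  have hl : 0 ≤ l := by linarith
  set S := (PP D l).filter (fun p : ℕ => log p ≤ η * l) with hS
  have hSp : ∀ p ∈ S, p.Prime ∧ log p ≤ η * l := fun p hp =>
    ⟨(mem_PP.1 (mem_filter.1 hp).1).1, (mem_filter.1 hp).2⟩
  obtain ⟨hs1, hs2, hs3⟩ := exc_small_primes (by linarith) hSp
  set k := Fintype.card ι with hk
  set E := C0 * (cW D * l) with hEdef
  set V := 10 * exp (-(19 / 5 * l)) with hV
  set R := C * V * exp (11 / 3 * l) with hR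
  have hV0 : 0 ≤ V := by positivity
  have hR0 : 0 ≤ R := by positivity
  have hE0 : 0 ≤ E := by positivity
  refine (exc_union (S := S) (fun m => mul_nonneg (wg_nonneg hψ l m)
    (mul_nonneg (sq_nonneg _) (prod_nonneg fun i _ => sq_nonneg _))) ?_).trans ?_
  · rintro m ⟨p, hp, h1, h3⟩
    exact ⟨p, mem_filter.2 ⟨hp, h1⟩, h3⟩
  have step : ∀ p ∈ S, ∑ m ∈ (cls l (primorial D) b).filter (fun m => p ∣ m),
        wg ψ l m * (XW D l x0 y0 m ^ 2 * ∏ i, XW D l (x i) (y i) (m + c i) ^ 2)
      ≤ (4 * E) ^ k * (8 * l / primorial D * (cW D * (log p / p) + CD * (1 / p))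
          + 8 * (cW D * η * l) * R) := by
    intro p hp
    have h1 := exc_prime c hC hlvl hDa hDb (fun q hq => hD2 q (by omega)) hCD0 hCD hl (wg ψ l)
      hTT.1 hTT.2 hV0 hdisc hE b x0 y0 x y hy (mem_filter.1 hp).1
    refine h1.trans ?_
    have hp0 : (0 : ℝ) < p := by exact_mod_cast (hSp p hp).1.pos
    have h3 : cW D * log p + CD ≤ 2 * (cW D * η * l) := by
      have := mul_le_mul_of_nonneg_left (hSp p hp).2 hc.le
      linarith
    have h4 : 4 * (cW D * log p + CD) * R ≤ 8 * (cW D * η * l) * R :=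
      mul_le_mul_of_nonneg_right (by linarith) hR0
    have e : 4 * (cW D * log p + CD) * (4 * E) ^ k * (2 * l / (primorial D * p) + R)
        = (4 * E) ^ k * (8 * l / primorial D * (cW D * (log p / p) + CD * (1 / p))
          + 4 * (cW D * log p + CD) * R) := by
      field_simp
      ring
    rw [e]
    exact mul_le_mul_of_nonneg_left (by linarith) (by positivity)
  refine (sum_le_sum step).trans ?_
  rw [← mul_sum, sum_add_distrib, ← mul_sum, sum_add_distrib, ← mul_sum, ← mul_sum, sum_const,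
    nsmul_eq_mul]
  have hlz : log (η * l) ≤ log l := log_le_log (by linarith) (by nlinarith)
  have m1 : cW D * ∑ p ∈ S, log p / p ≤ 2 * (cW D * η * l) := by
    have : ∑ p ∈ S, log p / p ≤ 2 * (η * l) := by linarith
    have := mul_le_mul_of_nonneg_left this hc.le
    linarith
  have m2 : CD * ∑ p ∈ S, 1 / (p : ℝ) ≤ cW D * η * l := by
    have : ∑ p ∈ S, 1 / (p : ℝ) ≤ log l + 7 := by linarith
    have := mul_le_mul_of_nonneg_left this hCD0
    linarith
  have m3 : 8 * l / primorial D * (cW D * ∑ p ∈ S, log p / p + CD * ∑ p ∈ S, 1 / (p : ℝ))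
      ≤ 8 * l / primorial D * (3 * (cW D * η * l)) :=
    mul_le_mul_of_nonneg_left (by linarith) (by positivity)
  have m4 : (S.card : ℝ) * R ≤ 10 * C := by
    have e1 : exp (η * l) * R = 10 * C * exp (η * l + -(19 / 5 * l) + 11 / 3 * l) := by
      rw [exp_add, exp_add, hR, hV]
      ring
    have e2 : exp (η * l + -(19 / 5 * l) + 11 / 3 * l) ≤ 1 := by
      rw [exp_le_one_iff]
      nlinarith
    have e3 : (S.card : ℝ) * R ≤ exp (η * l) * R := mul_le_mul_of_nonneg_right hs3 hR0
    have e4 : 10 * C * exp (η * l + -(19 / 5 * l) + 11 / 3 * l) ≤ 10 * C * 1 :=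
      mul_le_mul_of_nonneg_left e2 (by positivity)
    linarith
  have m5 : 80 * C ≤ l / primorial D := by
    rw [le_div_iff₀ hW]
    exact hl80
  have hal : 0 ≤ cW D * η * l := by positivity
  have m6 : (S.card : ℝ) * (8 * (cW D * η * l) * R) ≤ l / primorial D * (cW D * η * l) := by
    have e1 : (S.card : ℝ) * (8 * (cW D * η * l) * R) = 8 * (S.card * R) * (cW D * η * l) := by
      ring
    rw [e1]
    exact mul_le_mul_of_nonneg_right (by linarith) hal
  have m7 : 8 * l / primorial D * (cW D * ∑ p ∈ S, log p / p + CD * ∑ p ∈ S, 1 / (p : ℝ))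
      + (S.card : ℝ) * (8 * (cW D * η * l) * R) ≤ 25 * (l / primorial D * (cW D * η * l)) := by
    have e1 : 8 * l / primorial D * (3 * (cW D * η * l))
        = 24 * (l / primorial D * (cW D * η * l)) := by ring
    linarith
  refine (mul_le_mul_of_nonneg_left m7 (by positivity)).trans (le_of_eq ?_)
  unfold scale
  rw [hEdef, ← mul_assoc 4 C0, mul_pow (4 * C0), pow_succ]
  ring

end Pool.Agent.Lib.Tup
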