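import Pool.Agent.Lib.Tup.Key
import Pool.Agent.Lib.Tup.Exc

namespace Pool.Agent.Lib.Tup.Co
open Finset Real Filter

variable {ι : Type*} [Fintype ι] [DecidableEq ι] {n : ℕ}

noncomputable def Zc (D : ℕ) (l h : ℝ) (c : ι → ℤ) (b : ι → Fin n) (m : ℕ) : ℝ :=
  ∏ i, XC D l h (b i) (m + c i)

noncomputable def Yc (D : ℕ) (l h : ℝ) (c : ι → ℤ) (j : Fin n × (ι → Fin n)) (m : ℕ) : ℝ :=
  XC D l h j.1 m * Zc D l h c j.2 m

noncomputable def Nb (D : ℕ) (l h : ℝ) (b : ι → Fin n) : ℝ := ∏ i, NC D l h (b i)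

noncomputable def tot (h : ℝ) (j : Fin n × (ι → Fin n)) : ℝ :=
  ((j.1 : ℝ) + 1) * h + ∑ i, ((j.2 i : ℝ) + 1) * h

theorem abs_bil_le {J : Type*} [Fintype J] (a a' : J → ℝ) (B : J → J → ℝ) {e : ℝ}
    (hB : ∀ j j', a j ≠ 0 → a' j' ≠ 0 → |B j j'| ≤ e) :
    |∑ j, ∑ j', a j * a' j' * B j j'| ≤ (∑ j, |a j|) * (∑ j, |a' j|) * e := by
  rw [sum_mul_sum, sum_mul]
  refine (abs_sum_le_sum_abs _ _).trans (sum_le_sum fun j _ => ?_)
  rw [sum_mul]
  refine (abs_sum_le_sum_abs _ _).trans (sum_le_sum fun j' _ => ?_)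
  by_cases h1 : a j = 0
  · simp [h1]
  by_cases h2 : a' j' = 0
  · simp [h2]
  rw [abs_mul, abs_mul]
  exact mul_le_mul_of_nonneg_left (hB j j' h1 h2) (by positivity)

theorem scale_succ (D : ℕ) (l : ℝ) (k : ℕ) : scale D l (k + 1) = scale D l k * (cW D * l) := by
  unfold scale; ring

theorem scale_add (D : ℕ) (l : ℝ) (k r : ℕ) :
    scale D l (k + r) = scale D l r * (cW D * l) ^ k := by
  unfold scale; ring

theorem scale_nonneg (D : ℕ) {l : ℝ} (hl : 0 ≤ l) (k : ℕ) : 0 ≤ scale D l k := by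
  unfold scale; have := cW_pos D; positivity

theorem NC_nonneg (D : ℕ) (l h : ℝ) (a : ℕ) : 0 ≤ NC D l h a := by
  unfold NC ipW
  refine sum_nonneg fun A hA => mul_nonneg (mul_self_nonneg _) (wt_nonneg fun q hq => ?_)
  exact (mem_PP.1 (mem_powerset.1 hA hq)).1.two_le

theorem NC_le {h : ℝ} (hh : 0 < h) : ∃ D1 : ℕ, ∀ D ≥ D1, ∀ᶠ l : ℝ in atTop, ∀ a : ℕ,
    ((a : ℝ) + 1) * h ≤ 2 → NC D l h a ≤ 3 * (cW D * l) := by
  obtain ⟨D1, H⟩ := ipW_approx (ε := 1) one_pos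
  refine ⟨D1, fun D hD => ?_⟩
  filter_upwards [H D hD, eventually_ge_atTop 0] with l hl hl0 a ha
  have h0 : (0 : ℝ) ≤ a * h := by positivity
  have h1 := hl (a * h) ((a + 1) * h) h0 (by nlinarith) ha
  have h2 : 0 ≤ cW D * l := mul_nonneg (cW_pos D).le hl0
  have h3 := (abs_le.1 h1).2
  unfold NC
  nlinarith

theorem prod_ipW_cells {κ : Type*} [Fintype κ] [DecidableEq κ] {h l : ℝ} (hh : 0 < h) (hl : 0 < l)
    (D : ℕ) (b b' : κ → Fin n) :
    ∏ i, ipW D l (b i * h) ((b i + 1) * h) (b' i * h) ((b' i + 1) * h)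
      = if b = b' then Nb D l h b else 0 := by
  simp only [ipW_cells hh hl]
  split_ifs with hb
  · subst hb; simp [Nb]
  · obtain ⟨i, hi⟩ := Function.ne_iff.1 hb
    refine prod_eq_zero (mem_univ i) (if_neg fun e => hi (Fin.ext e))

theorem pair_main (c : ι → ℤ) (hc0 : ∀ i, c i ≠ 0) (hc : Function.Injective c)
    {ψ : ℝ → ℝ} {s0 s1 : ℝ} (hψ : Bump ψ s0 s1) {h : ℝ} (hh : 0 < h) {ε : ℝ} (hε : 0 < ε) :
    ∃ D1 : ℕ, ∀ D ≥ D1, ∀ᶠ l : ℝ in atTop, ∀ (b0 : ℕ) (j j' : Fin n × (ι → Fin n)),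
      tot h j ≤ 5 / 3 → tot h j' ≤ 5 / 3 →
      |∑ m ∈ cls l (primorial D) b0, wg ψ l m * (Yc D l h c j m * Yc D l h c j' m)
        - TT ψ l / (primorial D : ℝ) * (if j = j' then NC D l h j.1 * Nb D l h j.2 else 0)|
        ≤ ε * scale D l (Fintype.card ι + 1) := by
  have hinj : Function.Injective (fun o : Option ι => o.elim (0 : ℤ) c) := by
    rintro (_ | i) (_ | i') e
    · rfl
    · exact absurd e.symm (hc0 i')
    · exact absurd e (hc0 i)
    · exact congrArg some (hc e)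
  obtain ⟨D1, H⟩ := prod_main _ hinj hψ hε
  refine ⟨D1, fun D hD => ?_⟩
  filter_upwards [H D hD, eventually_gt_atTop 0] with l hl hl0 b0 j j' hj hj'
  let e : Fin n × (ι → Fin n) → Option ι → Fin n := fun j o => o.elim j.1 j.2
  have h1 := hl b0 (fun o => e j o * h) (fun o => (e j o + 1) * h) (fun o => e j' o * h)
    (fun o => (e j' o + 1) * h) (fun o => by positivity) (fun o => by positivity) (by
      rw [sum_add_distrib, Fintype.sum_option, Fintype.sum_option]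
      simp only [e, Option.elim]
      unfold tot at hj hj'
      linarith)
  rw [prod_ipW_cells hh hl0, Fintype.card_option] at h1
  have h2 : (if e j = e j' then Nb D l h (e j) else 0)
      = if j = j' then NC D l h j.1 * Nb D l h j.2 else 0 := by
    by_cases hjj : j = j'
    · subst hjj; simp [Nb, Fintype.prod_option, e]
    · rw [if_neg hjj, if_neg]
      intro he
      exact hjj (Prod.ext (congrFun he none) (funext fun i => congrFun he (some i)))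
  rw [h2] at h1
  convert h1 using 4 with m _
  simp only [Fintype.prod_option, e, Option.elim, Yc, Zc, XC, add_zero, prod_mul_distrib]

theorem one_main {ψ : ℝ → ℝ} {s0 s1 : ℝ} (hψ : Bump ψ s0 s1) {h : ℝ} (hh : 0 < h) {ε : ℝ}
    (hε : 0 < ε) :
    ∃ D1 : ℕ, ∀ D ≥ D1, ∀ᶠ l : ℝ in atTop, ∀ (b0 : ℕ) (a a' : Fin n),
      ((a : ℝ) + 1) * h ≤ 5 / 3 → ((a' : ℝ) + 1) * h ≤ 5 / 3 →
      |∑ m ∈ cls l (primorial D) b0, wg ψ l m * (XC D l h a m * XC D l h a' m)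
        - TT ψ l / (primorial D : ℝ) * (if a = a' then NC D l h a else 0)|
        ≤ ε * scale D l 1 := by
  obtain ⟨D1, H⟩ := pair_main (n := n) (ι := Empty) (fun i => i.elim) (fun i => i.elim)
    (fun i => i.elim) hψ hh hε
  refine ⟨D1, fun D hD => ?_⟩
  filter_upwards [H D hD] with l hl b0 a a' ha ha'
  have h1 := hl b0 (a, fun i => i.elim) (a', fun i => i.elim) (by simpa [tot] using ha)
    (by simpa [tot] using ha')
  simpa [Yc, Zc, Nb] using h1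

open Classical in
theorem key_cells (c : ι → ℤ) (hc0 : ∀ i, c i ≠ 0) (hc : Function.Injective c)
    {ψ : ℝ → ℝ} {s0 s1 : ℝ} (hψ : Bump ψ s0 s1) (h4 : 4 < s0) (h41 : s1 ≤ 41 / 10)
    {h : ℝ} (hh : 0 < h) (u : ℕ → ℝ) (hu : ∀ r, |u r| ≤ 1) (hu0 : u 0 = 0) (hu1 : u 1 = 0)
    {η ε : ℝ} (hη : 0 < η) (hη1 : η ≤ 1 / 10) (hε : 0 < ε) :
    ∃ D1 : ℕ, ∀ D ≥ D1, ∀ᶠ l : ℝ in atTop, ∀ (b0 : ℕ) (j j' : Fin n × (ι → Fin n)),
      Nat.Coprime b0 (primorial D) → tot h j ≤ 5 / 3 → tot h j' ≤ 5 / 3 →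
      ∑ i, ((j.2 i : ℝ) + 1) * h ≤ 3 / 2 → ∑ i, ((j'.2 i : ℝ) + 1) * h ≤ 3 / 2 →
      ∑ i, (((j.2 i : ℝ) + 1) * h + ((j'.2 i : ℝ) + 1) * h) ≤ 2 →
      |∑ m ∈ (cls l (primorial D) b0).filter (RS η l),
          wg ψ l m * u m.primeFactors.card * (Yc D l h c j m * Yc D l h c j' m)
        - (if j.2 = j'.2 then Nb D l h j.2 else 0) *
          ∑ m ∈ (cls l (primorial D) b0).filter (RS η l),
            wg ψ l m * u m.primeFactors.card * (XC D l h j.1 m * XC D l h j'.1 m)|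
        ≤ ε * scale D l (Fintype.card ι + 1) := by
  obtain ⟨D1, H⟩ := key c hc0 hc hψ h4 h41 u hu hu0 hu1 hη hη1 hε
  refine ⟨D1, fun D hD => ?_⟩
  filter_upwards [H D hD, eventually_gt_atTop 0] with l hl hl0 b0 j j' hb hj hj' h1 h2 h3
  have s1 : 0 ≤ ∑ i, ((j.2 i : ℝ) + 1) * h := sum_nonneg fun i _ => by positivity
  have s2 : 0 ≤ ∑ i, ((j'.2 i : ℝ) + 1) * h := sum_nonneg fun i _ => by positivity
  unfold tot at hj hj'
  have h5 := hl b0 (j.1 * h) ((j.1 + 1) * h) (j'.1 * h) ((j'.1 + 1) * h)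
    (fun i => j.2 i * h) (fun i => (j.2 i + 1) * h) (fun i => j'.2 i * h)
    (fun i => (j'.2 i + 1) * h) hb (by positivity) (by nlinarith) (by linarith)
    (by positivity) (by nlinarith) (by linarith) (fun i => by positivity) (fun i => by positivity)
    h1 h2 h3
  rw [prod_ipW_cells hh hl0] at h5
  convert h5 using 2
  rw [mul_sum, ← sum_sub_distrib]
  refine sum_congr rfl fun m _ => ?_
  simp only [Yc, Zc, XC, prod_mul_distrib]
  ring

theorem not_RS {D : ℕ} {η l : ℝ} (hη : η ≤ 1 / 10) (hl : 0 < l) {m b0 : ℕ}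
    (hb : Nat.Coprime b0 (primorial D)) (hm : m ≡ b0 [MOD primorial D]) (hn : ¬ RS η l m) :
    (∃ p ∈ PP D l, log p ≤ η * l ∧ p ∣ m) ∨ ∃ p : ℕ, p.Prime ∧ η * l < log p ∧ p * p ∣ m := by
  by_cases hr : Rough η l m
  · right
    have hs : ¬ Squarefree m := fun hs => hn ⟨hs, hr⟩
    rw [Nat.squarefree_iff_prime_squarefree] at hs
    push Not at hs
    obtain ⟨p, hp, hd⟩ := hs
    exact ⟨p, hp, hr p hp ((dvd_mul_right p p).trans hd), hd⟩
  · left
    unfold Rough at hr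
    push Not at hr
    obtain ⟨p, hp, hd, hlog⟩ := hr
    refine ⟨p, mem_PP.2 ⟨hp, ?_, by nlinarith⟩, hlog, hd⟩
    by_contra hD
    have h1 : p ∣ primorial D := (Nat.Prime.dvd_primorial_iff hp).2 (not_lt.1 hD)
    have h2 : Nat.Coprime m (primorial D) := by
      rw [Nat.Coprime, hm.gcd_eq]; exact hb
    exact hp.one_lt.ne' (Nat.eq_one_of_dvd_coprimes h2 hd h1)

open Classical in
theorem exc_cells (c : ι → ℤ) (hc0 : ∀ i, c i ≠ 0) (hc : Function.Injective c)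
    {ψ : ℝ → ℝ} {s0 s1 : ℝ} (hψ : Bump ψ s0 s1) {h : ℝ} (hh : 0 < h) :
    ∃ C : ℝ, 0 ≤ C ∧ ∃ D1 : ℕ, ∀ η : ℝ, 0 < η → η ≤ 1 / 10 → ∀ D ≥ D1, ∀ᶠ l : ℝ in atTop,
      ∀ (b0 : ℕ) (j : Fin n × (ι → Fin n)), Nat.Coprime b0 (primorial D) → tot h j ≤ 5 / 3 →
      ∑ m ∈ (cls l (primorial D) b0).filter (fun m => ¬ RS η l m), wg ψ l m * Yc D l h c j m ^ 2
        ≤ C * η * scale D l (Fintype.card ι + 1) := by
  obtain ⟨C, hC, D1, H⟩ := exc c hc0 hc hψ
  refine ⟨C + 1, by linarith, D1, fun η hη hη1 D hD => ?_⟩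
  filter_upwards [H η hη hη1 D hD, nonsq (fun o : Option ι => o.elim (0 : ℤ) c) hψ hη hη D 0,
    one_le_scale D (Fintype.card ι + 1), eventually_gt_atTop 0] with l h1 h2 h3 hl0 b0 j hb hj
  let e : Option ι → Fin n := fun o => o.elim j.1 j.2
  have h4 := h1 b0 (j.1 * h) ((j.1 + 1) * h) (fun i => j.2 i * h) (fun i => (j.2 i + 1) * h)
    (by nlinarith) (by positivity) (fun i => by positivity) hj
  have h5 := h2 (fun o => e o * h) (fun o => (e o + 1) * h) (fun o => e o * h)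
    (fun o => (e o + 1) * h)
  have hY1 : ∀ m : ℕ, XW D l (j.1 * h) ((j.1 + 1) * h) m ^ 2 *
      ∏ i, XW D l (j.2 i * h) ((j.2 i + 1) * h) (m + c i) ^ 2 = Yc D l h c j m ^ 2 := by
    intro m
    simp only [Yc, Zc, XC, mul_pow, prod_pow]
  have hY2 : ∀ m : ℕ, ∏ o : Option ι, |XW D l (e o * h) ((e o + 1) * h) (m + o.elim (0 : ℤ) c) *
      XW D l (e o * h) ((e o + 1) * h) (m + o.elim (0 : ℤ) c)| = Yc D l h c j m ^ 2 := by
    intro m
    rw [← hY1]
    simp only [abs_mul_self, Fintype.prod_option, e, Option.elim, add_zero, sq]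
  simp only [hY1] at h4
  simp only [hY2, pow_zero, one_mul] at h5
  have hnn : ∀ m, 0 ≤ wg ψ l m * Yc D l h c j m ^ 2 := fun m =>
    mul_nonneg (wg_nonneg hψ l m) (sq_nonneg _)
  calc _ ≤ ∑ m ∈ (cls l (primorial D) b0).filter (fun m => ∃ p ∈ PP D l, log p ≤ η * l ∧ p ∣ m) ∪
          (range (NN l)).filter (fun m => ∃ p : ℕ, p.Prime ∧ η * l < log p ∧ p * p ∣ m),
          wg ψ l m * Yc D l h c j m ^ 2 := by
        refine sum_le_sum_of_subset_of_nonneg (fun m hm => ?_) fun m _ _ => hnn m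
        rw [mem_filter] at hm
        have hm1 := mem_filter.1 hm.1
        rcases not_RS hη1 hl0 hb hm1.2 hm.2 with h6 | h6
        · exact mem_union_left _ (mem_filter.2 ⟨hm.1, h6⟩)
        · exact mem_union_right _ (mem_filter.2 ⟨hm1.1, h6⟩)
    _ ≤ _ := by
        rw [← union_sdiff_self_eq_union, sum_union disjoint_sdiff]
        have h7 := sum_le_sum_of_subset_of_nonneg (f := fun m => wg ψ l m * Yc D l h c j m ^ 2)
          (sdiff_subset (s := (range (NN l)).filter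
            (fun m => ∃ p : ℕ, p.Prime ∧ η * l < log p ∧ p * p ∣ m))
            (t := (cls l (primorial D) b0).filter (fun m => ∃ p ∈ PP D l, log p ≤ η * l ∧ p ∣ m)))
          fun m _ _ => hnn m
        nlinarith

end Pool.Agent.Lib.Tup.Co
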