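import Pool.Agent.Lib.Tup.CoordA

namespace Pool.Agent.Lib.Tup.Co
open Finset Real Filter

theorem sum_mul_expand {J : Type*} [Fintype J] (Y : J → ℕ → ℝ) (G G' : J → ℝ) (s : Finset ℕ)
    (ω : ℕ → ℝ) : ∑ m ∈ s, ω m * ((∑ j, G j * Y j m) * ∑ j, G' j * Y j m)
      = ∑ j, ∑ j', G j * G' j' * ∑ m ∈ s, ω m * (Y j m * Y j' m) := by
  simp only [sum_mul_sum]
  simp only [mul_sum]
  rw [sum_comm]
  refine sum_congr rfl fun j _ => ?_
  rw [sum_comm]
  refine sum_congr rfl fun j' _ => sum_congr rfl fun m _ => by ring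

open Classical in
theorem core {α β : Type*} [Fintype α] [Fintype β] [DecidableEq α] [DecidableEq β]
    (C : Finset ℕ) (R : ℕ → Prop) (w g : ℕ → ℝ) (hw : ∀ m, 0 ≤ w m) (hg0 : ∀ m, 0 ≤ g m)
    (Xa : α → ℕ → ℝ) (Z : β → ℕ → ℝ) (Na : α → ℝ) (Nb : β → ℝ) (hNa : ∀ a, 0 ≤ Na a)
    (hNb : ∀ b, 0 ≤ Nb b) (F : α × β → ℝ) (good : β → Prop) {τ e e2 B t : ℝ} (hτ : 0 ≤ τ)
    (he : 0 ≤ e) (he2 : 0 ≤ e2) (hB0 : 0 ≤ B) (ht : 0 < t)
    (hpair : ∀ j j', F j ≠ 0 → F j' ≠ 0 →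
      |∑ m ∈ C, w m * (Xa j.1 m * Z j.2 m * (Xa j'.1 m * Z j'.2 m))
        - τ * (if j = j' then Na j.1 * Nb j.2 else 0)| ≤ e)
    (hone : ∀ j j', F j ≠ 0 → F j' ≠ 0 → Nb j.2 * |∑ m ∈ C, w m * (Xa j.1 m * Xa j'.1 m)
        - τ * (if j.1 = j'.1 then Na j.1 else 0)| ≤ e)
    (hkey : ∀ j j', F j ≠ 0 → good j.2 → F j' ≠ 0 →
      |∑ m ∈ C.filter R, w m * (1 - g m) * (Xa j.1 m * Z j.2 m * (Xa j'.1 m * Z j'.2 m))
        - (if j.2 = j'.2 then Nb j.2 else 0) *
          ∑ m ∈ C.filter R, w m * (1 - g m) * (Xa j.1 m * Xa j'.1 m)| ≤ e)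
    (hexc : ∀ j, F j ≠ 0 →
      ∑ m ∈ C.filter (fun m => ¬ R m), w m * (Xa j.1 m * Z j.2 m) ^ 2 ≤ e2)
    (hB : ∀ j, F j ≠ 0 → τ * (Na j.1 * Nb j.2) ≤ B) :
    ∑ b ∈ univ.filter good, Nb b * ∑ m ∈ C.filter R, w m * g m * (∑ a, F (a, b) * Xa a m) ^ 2
        - (∑ j, |F j|) ^ 2 * (6 * e + (1 + 1 / t) * e2 + t * (B + e))
      ≤ ∑ m ∈ C.filter R, w m * g m * (∑ j, F j * (Xa j.1 m * Z j.2 m)) ^ 2 := by
  set K := ∑ j, |F j| with hK
  have hK0 : 0 ≤ K := sum_nonneg fun j _ => abs_nonneg _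
  let Y : α × β → ℕ → ℝ := fun j m => Xa j.1 m * Z j.2 m
  let F1 : α × β → ℝ := fun j => if good j.2 then F j else 0
  let F2 : α × β → ℝ := fun j => if good j.2 then 0 else F j
  let F3 : α × β → ℝ := fun j => if good j.2 then F j else 2 * F j
  have n1 : ∀ j, F1 j ≠ 0 → F j ≠ 0 ∧ good j.2 := fun j hj => by
    by_cases hg : good j.2 <;> simp_all [F1]
  have n2 : ∀ j, F2 j ≠ 0 → F j ≠ 0 := fun j hj => by
    by_cases hg : good j.2 <;> simp_all [F2]
  have n3 : ∀ j, F3 j ≠ 0 → F j ≠ 0 := fun j hj => by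
    by_cases hg : good j.2 <;> simp_all [F3]
  have k1 : ∑ j, |F1 j| ≤ K := sum_le_sum fun j _ => by
    by_cases hg : good j.2 <;> simp [F1, hg]
  have k2 : ∑ j, |F2 j| ≤ K := sum_le_sum fun j _ => by
    by_cases hg : good j.2 <;> simp [F2, hg]
  have k3 : ∑ j, |F3 j| ≤ 2 * K := by
    rw [hK, mul_sum]
    refine sum_le_sum fun j _ => ?_
    by_cases hg : good j.2
    · simp only [F3, hg, if_true]; linarith [abs_nonneg (F j)]
    · simp [F3, hg, abs_mul]
  have p1 : 0 ≤ ∑ j, |F1 j| := sum_nonneg fun j _ => abs_nonneg _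
  have p2 : 0 ≤ ∑ j, |F2 j| := sum_nonneg fun j _ => abs_nonneg _
  have p3 : 0 ≤ ∑ j, |F3 j| := sum_nonneg fun j _ => abs_nonneg _
  have b13 : ∀ {x : ℝ}, 0 ≤ x → (∑ j, |F1 j|) * (∑ j, |F3 j|) * x ≤ 2 * K ^ 2 * x := fun hx =>
    mul_le_mul_of_nonneg_right (by nlinarith [mul_le_mul k1 k3 p3 hK0]) hx
  let S : (α × β → ℝ) → ℕ → ℝ := fun G m => ∑ j, G j * Y j m
  have hS : ∀ m, S F m = S F1 m + S F2 m := fun m => by
    simp only [S, ← sum_add_distrib]
    refine sum_congr rfl fun j _ => ?_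
    by_cases hg : good j.2 <;> simp [F1, F2, hg]
  have hS3 : ∀ m, S F3 m = S F1 m + 2 * S F2 m := fun m => by
    simp only [S, mul_sum, ← sum_add_distrib]
    refine sum_congr rfl fun j _ => ?_
    by_cases hg : good j.2 <;> simp [F1, F2, F3, hg, mul_assoc]
  let M : Finset ℕ → (ℕ → ℝ) → ℝ := fun s ω =>
    ∑ b ∈ univ.filter good, Nb b * ∑ m ∈ s, ω m * (∑ a, F (a, b) * Xa a m) ^ 2
  have hM : ∀ s ω, M s ω = ∑ j, ∑ j', F1 j * F3 j' * ((if j.2 = j'.2 then Nb j.2 else 0) *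
      ∑ m ∈ s, ω m * (Xa j.1 m * Xa j'.1 m)) := by
    intro s ω
    simp only [M, sq, sum_mul_expand, sum_filter, Fintype.sum_prod_type]
    rw [sum_comm]
    refine sum_congr rfl fun b _ => ?_
    simp only [ite_mul, zero_mul, mul_ite, mul_zero, sum_ite_eq, mem_univ, if_true]
    by_cases hg : good b
    · simp only [hg, if_true, F1, F3, mul_sum]
      exact sum_congr rfl fun a _ => sum_congr rfl fun a' _ => sum_congr rfl fun m _ => by ring
    · simp [hg, F1]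
  let Dg : ℝ := ∑ j, ∑ j', F1 j * F3 j' * (τ * (if j = j' then Na j.1 * Nb j.2 else 0))
  have e1 : |∑ m ∈ C, w m * (S F1 m * S F3 m) - Dg| ≤ 2 * K ^ 2 * e := by
    simp only [S, Dg, sum_mul_expand, ← sum_sub_distrib, ← mul_sub]
    exact (abs_bil_le F1 F3 _ fun j j' h1 h3 => hpair j j' (n1 j h1).1 (n3 j' h3)).trans (b13 he)
  have e5 : |M C w - Dg| ≤ 2 * K ^ 2 * e := by
    simp only [hM, Dg, ← sum_sub_distrib, ← mul_sub]
    refine (abs_bil_le F1 F3 _ fun j j' h1 h3 => ?_).trans (b13 he)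
    have h := hone j j' (n1 j h1).1 (n3 j' h3)
    by_cases hb : j.2 = j'.2
    · rw [← abs_of_nonneg (hNb j.2), ← abs_mul] at h
      refine le_trans (le_of_eq (congrArg abs ?_)) h
      by_cases ha : j.1 = j'.1
      · rw [if_pos hb, if_pos ha, if_pos (Prod.ext ha hb)]; ring
      · rw [if_pos hb, if_neg ha, if_neg fun e => ha (congrArg Prod.fst e)]; ring
    · rw [if_neg hb, if_neg fun e => hb (congrArg Prod.snd e)]; simpa using he
  have e4 : |∑ m ∈ C.filter R, w m * (1 - g m) * (S F1 m * S F3 m)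
      - M (C.filter R) (fun m => w m * (1 - g m))| ≤ 2 * K ^ 2 * e := by
    simp only [hM, S, sum_mul_expand Y F1 F3 _ (fun m => w m * (1 - g m)), ← sum_sub_distrib,
      ← mul_sub]
    exact (abs_bil_le F1 F3 _ fun j j' h1 h3 =>
      hkey j j' (n1 j h1).1 (n1 j h1).2 (n3 j' h3)).trans (b13 he)
  have e2' : ∑ m ∈ C, w m * (S F2 m * S F2 m) ≤ K ^ 2 * (B + e) := by
    simp only [S, sum_mul_expand]
    refine (le_abs_self _).trans ((abs_bil_le (e := B + e) F2 F2 _ fun j j' h1 h2 => ?_).trans ?_)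
    · have h := abs_le.1 (hpair j j' (n2 j h1) (n2 j' h2))
      have h3 := hB j (n2 j h1)
      have h4 : 0 ≤ τ * (Na j.1 * Nb j.2) := mul_nonneg hτ (mul_nonneg (hNa _) (hNb _))
      rw [abs_le]
      split_ifs at h <;> constructor <;> simp only [Y] <;> linarith [h.1, h.2]
    · exact mul_le_mul_of_nonneg_right (by nlinarith [mul_le_mul k2 k2 p2 hK0]) (by linarith)
  have e3 : ∑ m ∈ C.filter (fun m => ¬ R m), w m * (S F1 m * S F1 m) ≤ K ^ 2 * e2 := by
    simp only [S, sum_mul_expand]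
    refine (le_abs_self _).trans ((abs_bil_le (e := e2) F1 F1 _ fun j j' h1 h2 => ?_).trans ?_)
    · have h3 := hexc j (n1 j h1).1
      have h4 := hexc j' (n1 j' h2).1
      refine (abs_sum_le_sum_abs _ _).trans ?_
      have h5 : ∑ m ∈ C.filter (fun m => ¬ R m), |w m * (Y j m * Y j' m)| ≤
          ∑ m ∈ C.filter (fun m => ¬ R m), (w m * Y j m ^ 2 + w m * Y j' m ^ 2) / 2 := by
        refine sum_le_sum fun m _ => ?_
        rw [abs_mul, abs_of_nonneg (hw m), ← mul_add, mul_div_assoc]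
        refine mul_le_mul_of_nonneg_left (abs_le.2 ⟨?_, ?_⟩) (hw m)
        · nlinarith [sq_nonneg (Y j m + Y j' m)]
        · nlinarith [sq_nonneg (Y j m - Y j' m)]
      rw [← sum_div, sum_add_distrib] at h5
      simp only [Y] at h5 ⊢
      linarith
    · exact mul_le_mul_of_nonneg_right (by nlinarith [mul_le_mul k1 k1 p1 hK0]) he2
  have e6 : ∑ m ∈ C.filter (fun m => ¬ R m), w m * (S F1 m * S F3 m)
      ≤ (1 + 1 / t) * (K ^ 2 * e2) + t * (K ^ 2 * (B + e)) := by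
    have h1 : ∑ m ∈ C.filter (fun m => ¬ R m), w m * (S F2 m * S F2 m)
        ≤ ∑ m ∈ C, w m * (S F2 m * S F2 m) :=
      sum_le_sum_of_subset_of_nonneg (filter_subset _ _) fun m _ _ =>
        mul_nonneg (hw m) (mul_self_nonneg _)
    calc _ ≤ ∑ m ∈ C.filter (fun m => ¬ R m), ((1 + 1 / t) * (w m * (S F1 m * S F1 m))
            + t * (w m * (S F2 m * S F2 m))) := by
          refine sum_le_sum fun m _ => ?_
          have h2 : S F1 m * S F3 m ≤ (1 + 1 / t) * (S F1 m * S F1 m) + t * (S F2 m * S F2 m) := by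
            rw [hS3]
            have h3 : 0 ≤ (S F1 m - t * S F2 m) ^ 2 / t := by positivity
            have h4 : (S F1 m - t * S F2 m) ^ 2 / t = 1 / t * (S F1 m * S F1 m)
                + t * (S F2 m * S F2 m) - 2 * (S F1 m * S F2 m) := by field_simp; ring
            nlinarith
          nlinarith [mul_le_mul_of_nonneg_left h2 (hw m)]
      _ ≤ _ := by
          rw [sum_add_distrib, ← mul_sum, ← mul_sum]
          exact add_le_add (mul_le_mul_of_nonneg_left e3 (by positivity))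
            (mul_le_mul_of_nonneg_left (h1.trans e2') ht.le)
  have e7 : M (C.filter R) (fun m => w m * g m) + M (C.filter R) (fun m => w m * (1 - g m))
      ≤ M C w := by
    simp only [M, ← sum_add_distrib, ← mul_add]
    refine sum_le_sum fun b _ => mul_le_mul_of_nonneg_left ?_ (hNb b)
    refine le_trans (le_of_eq (sum_congr rfl fun m _ => by ring))
      (sum_le_sum_of_subset_of_nonneg (f := fun m => w m * (∑ a, F (a, b) * Xa a m) ^ 2)
        (filter_subset R C) fun m _ _ => mul_nonneg (hw m) (sq_nonneg _))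
  have e8 : ∑ m ∈ C.filter R, w m * g m * (S F1 m * S F3 m)
      ≤ ∑ m ∈ C.filter R, w m * g m * S F m ^ 2 := by
    refine sum_le_sum fun m _ => mul_le_mul_of_nonneg_left ?_ (mul_nonneg (hw m) (hg0 m))
    rw [hS, hS3]; nlinarith [sq_nonneg (S F2 m)]
  have e9 : ∑ m ∈ C, w m * (S F1 m * S F3 m)
      = ∑ m ∈ C.filter R, w m * g m * (S F1 m * S F3 m)
        + ∑ m ∈ C.filter R, w m * (1 - g m) * (S F1 m * S F3 m)
        + ∑ m ∈ C.filter (fun m => ¬ R m), w m * (S F1 m * S F3 m) := by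
    rw [← sum_filter_add_sum_filter_not C R, ← sum_add_distrib]
    congr 1
    exact sum_congr rfl fun m _ => by ring
  have f1 := abs_le.1 e1
  have f4 := abs_le.1 e4
  have f5 := abs_le.1 e5
  change M (C.filter R) (fun m => w m * g m) - _ ≤ ∑ m ∈ C.filter R, w m * g m * S F m ^ 2
  linarith [f1.1, f4.2, f5.2]

end Pool.Agent.Lib.Tup.Co
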