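import Mathlib

/-! Definitions for the multidimensional sieve engine (no Siegel-Walfisz). -/

namespace Pool.Agent.Lib.Tup
open Finset Real

noncomputable section

/-- Local mean zero function at the prime `q`. -/
def chi (q : ℕ) (m : ℤ) : ℝ := if (q : ℤ) ∣ m then -1 else 1 / ((q : ℝ) - 1)

def chiP (A : Finset ℕ) (m : ℤ) : ℝ := ∏ q ∈ A, chi q m

def wt (A : Finset ℕ) : ℝ := ∏ q ∈ A, 1 / ((q : ℝ) - 1)

/-- Logarithmic size of a set of primes. -/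
def sz (A : Finset ℕ) : ℝ := ∑ q ∈ A, log q

/-- One dimensional sieve sum with coefficient function `u`. -/
def X (P : Finset ℕ) (u : Finset ℕ → ℝ) (m : ℤ) : ℝ := ∑ A ∈ P.powerset, u A * chiP A m

def Eul (P : Finset ℕ) : ℝ := ∏ q ∈ P, (1 + 1 / ((q : ℝ) - 1))

/-- Size and support condition on a coefficient function. -/
def Nrm (v : Finset ℕ → ℝ) (M lam : ℝ) : Prop :=
  ∀ B, |v B| ≤ 3 ^ B.card * M ∧ (v B ≠ 0 → sz B ≤ lam)

/-- Sieving primes: `D < q < exp (2 l)`. -/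
def PP (D : ℕ) (l : ℝ) : Finset ℕ := (range ⌈exp (2 * l)⌉₊).filter (fun q => q.Prime ∧ D < q)

/-- `φ(W)/W` for `W = primorial D`. -/
def cW (D : ℕ) : ℝ := (Nat.totient (primorial D) : ℝ) / (primorial D : ℝ)

/-- Summation range. -/
def NN (l : ℝ) : ℕ := ⌈exp (5 * l)⌉₊

def cls (l : ℝ) (W b : ℕ) : Finset ℕ := (range (NN l)).filter (fun m => m ≡ b [MOD W])

/-- Logarithmic weight. -/
def wg (ψ : ℝ → ℝ) (l : ℝ) (m : ℕ) : ℝ := ψ (log m / l) / m

/-- Total mass of the weight. -/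
def TT (ψ : ℝ → ℝ) (l : ℝ) : ℝ := ∑ m ∈ range (NN l), wg ψ l m

structure Bump (ψ : ℝ → ℝ) (s0 s1 : ℝ) : Prop where
  lo : 19 / 5 ≤ s0
  le : s0 ≤ s1
  hi : s1 ≤ 21 / 5
  nonneg : ∀ s, 0 ≤ ψ s
  le_one : ∀ s, ψ s ≤ 1
  lip : ∀ s t, |ψ s - ψ t| ≤ |s - t|
  supp : ∀ s, ψ s ≠ 0 → s0 ≤ s ∧ s ≤ s1

/-- A fixed wide bump. -/
def big (s : ℝ) : ℝ := max 0 (1 / 5 - |s - 4|)

/-- All prime factors exceed `exp (η l)`. -/
def Rough (η l : ℝ) (m : ℕ) : Prop := ∀ p : ℕ, p.Prime → p ∣ m → η * l < log p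

def RS (η l : ℝ) (m : ℕ) : Prop := Squarefree m ∧ Rough η l m

/-- Indicator of `[x, y)`. -/
def win (x y s : ℝ) : ℝ := if x ≤ s ∧ s < y then 1 else 0

/-- Window sieve sum, the window `[x, y)` measured in units of `l`. -/
def XW (D : ℕ) (l x y : ℝ) (m : ℤ) : ℝ :=
  X (PP D l) (fun A => win (x * l) (y * l) (sz A)) m

/-- Inner product of two windows. -/
def ipW (D : ℕ) (l x y x' y' : ℝ) : ℝ :=
  ∑ A ∈ (PP D l).powerset, win (x * l) (y * l) (sz A) * win (x' * l) (y' * l) (sz A) * wt A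

/-- Length of `[x, y) ∩ [t, ∞)`. -/
def rho (x y t : ℝ) : ℝ := max (y - t) 0 - max (x - t) 0

/-- Limit shape of `XW` on rough squarefree numbers. -/
def Gt (l x y : ℝ) (m : ℕ) : ℝ :=
  ∑ S ∈ m.primeFactors.powerset, (-1) ^ S.card * rho x y (sz S / l)

/-- The scale `(l / W) (c l)^k`. -/
def scale (D : ℕ) (l : ℝ) (k : ℕ) : ℝ := l / (primorial D : ℝ) * (cW D * l) ^ k

/-- Cell sieve sum. -/
def XC (D : ℕ) (l h : ℝ) (a : ℕ) (m : ℤ) : ℝ := XW D l (a * h) ((a + 1) * h) m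

/-- Cell norm. -/
def NC (D : ℕ) (l h : ℝ) (a : ℕ) : ℝ :=
  ipW D l (a * h) ((a + 1) * h) (a * h) ((a + 1) * h)

/-- Families of Dirichlet characters, one modulo each prime of `P`. -/
abbrev CF (P : Finset ℕ) : Type := (q : P) → DirichletCharacter ℂ (q : ℕ)

open Classical in
/-- Product character, the trivial components being replaced by the constant `1`. -/
def Ch {P : Finset ℕ} (χ : CF P) (m : ℤ) : ℂ :=
  ∏ q : P, if χ q = 1 then 1 else χ q (m : ZMod (q : ℕ))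

open Classical in
def cond {P : Finset ℕ} (χ : CF P) : ℕ := ∏ q : P, if χ q = 1 then 1 else (q : ℕ)

end

end Pool.Agent.Lib.Tup
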