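import Pool.Agent.Lib.Tup.ExpandA

namespace Pool.Agent.Lib.Tup
open Finset Real Filter

namespace Expd

variable {ι : Type*} [Fintype ι] [DecidableEq ι]

/-- The set of coordinates whose divisor set contains `q`. -/
def bb (B : ι → Finset ℕ) (q : ℕ) : Finset ι := univ.filter (fun i => q ∈ B i)

theorem sps (P : Finset ℕ) (f : P → Finset ι → ℝ) :
    ∑ B ∈ Fintype.piFinset (fun _ : ι => P.powerset), ∏ q : P, f q (bb B q)
      = ∏ q : P, ∑ b : Finset ι, f q b := by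
  have h := sum_pi_powerset P (fun q (b : Finset ι) => if h : q ∈ P then f ⟨q, h⟩ b else 0)
  simp only [← Finset.prod_coe_sort P, Finset.coe_mem, dif_pos, Subtype.coe_eta] at h
  exact h

theorem norm_V_le {P : Finset ℕ} {v : ι → Finset ℕ → ℝ} {M lam : ι → ℝ}
    (hv : ∀ i, Nrm (v i) (M i) (lam i)) {B : ι → Finset ℕ}
    (hB : B ∈ Fintype.piFinset (fun _ : ι => P.powerset)) :
    ‖((∏ i, v i (B i) : ℝ) : ℂ)‖ ≤ (∏ i, M i) * ∏ q : P, (3 : ℝ) ^ (bb B q).card := by
  have h1 := prod_pow_card P 3 B fun i => Finset.mem_powerset.1 (Fintype.mem_piFinset.1 hB i)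
  rw [← Finset.prod_coe_sort P] at h1
  rw [Complex.norm_real, Real.norm_eq_abs, Finset.abs_prod, mul_comm]
  refine (Finset.prod_le_prod (fun i _ => abs_nonneg _) fun i _ => (hv i (B i)).1).trans ?_
  rw [Finset.prod_mul_distrib, h1]
  rfl

theorem M_nonneg {v : ι → Finset ℕ → ℝ} {M lam : ι → ℝ}
    (hv : ∀ i, Nrm (v i) (M i) (lam i)) : 0 ≤ ∏ i, M i :=
  Finset.prod_nonneg fun i _ => by
    have := (abs_nonneg _).trans (hv i ∅).1
    simpa using this

theorem gen_one {P : Finset ℕ} {v : ι → Finset ℕ → ℝ} {M lam : ι → ℝ}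
    (hv : ∀ i, Nrm (v i) (M i) (lam i)) (f : P → Finset ι → ℂ) :
    ‖∑ B ∈ Fintype.piFinset (fun _ : ι => P.powerset),
        ((∏ i, v i (B i) : ℝ) : ℂ) * ∏ q : P, f q (bb B q)‖
      ≤ (∏ i, M i) * ∏ q : P, ∑ b : Finset ι, 3 ^ b.card * ‖f q b‖ := by
  rw [← sps P fun q b => 3 ^ b.card * ‖f q b‖, Finset.mul_sum]
  refine (norm_sum_le _ _).trans (Finset.sum_le_sum fun B hB => ?_)
  rw [norm_mul, norm_prod, Finset.prod_mul_distrib, ← mul_assoc]
  exact mul_le_mul_of_nonneg_right (norm_V_le hv hB) (Finset.prod_nonneg fun _ _ => norm_nonneg _)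

theorem gen_two {P : Finset ℕ} {v : ι → Finset ℕ → ℝ} {M lam : ι → ℝ}
    (hv : ∀ i, Nrm (v i) (M i) (lam i)) (f g : P → Finset ι → ℂ) :
    ‖∑ B ∈ Fintype.piFinset (fun _ : ι => P.powerset),
        ((∏ i, v i (B i) : ℝ) : ℂ) * ∏ q : P, f q (bb B q)
      - ∑ B ∈ Fintype.piFinset (fun _ : ι => P.powerset),
        ((∏ i, v i (B i) : ℝ) : ℂ) * ∏ q : P, g q (bb B q)‖
      ≤ (∏ i, M i) * (∏ q : P, (∑ b : Finset ι, 3 ^ b.card * ‖g q b‖
          + ∑ b : Finset ι, 3 ^ b.card * ‖f q b - g q b‖)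
        - ∏ q : P, ∑ b : Finset ι, 3 ^ b.card * ‖g q b‖) := by
  simp only [← Finset.sum_add_distrib, ← mul_add]
  rw [← sps P fun q b => 3 ^ b.card * ‖g q b‖,
    ← sps P fun q b => 3 ^ b.card * (‖g q b‖ + ‖f q b - g q b‖), ← Finset.sum_sub_distrib,
    ← Finset.sum_sub_distrib, Finset.mul_sum]
  refine (norm_sum_le _ _).trans (Finset.sum_le_sum fun B hB => ?_)
  rw [← mul_sub, norm_mul, Finset.prod_mul_distrib, Finset.prod_mul_distrib, ← mul_sub,
    ← mul_assoc]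
  have h := norm_prod_sub_prod_le Finset.univ (fun q : P => f q (bb B q)) fun q => g q (bb B q)
  exact mul_le_mul (norm_V_le hv hB) h (norm_nonneg _)
    (mul_nonneg (M_nonneg hv) (Finset.prod_nonneg fun _ _ => by positivity))

theorem sum_delta (P : Finset ℕ) (v : ι → Finset ℕ → ℝ) :
    ∑ B ∈ Fintype.piFinset (fun _ : ι => P.powerset),
        ((∏ i, v i (B i) : ℝ) : ℂ) * ∏ q : P, (if bb B q = ∅ then (1 : ℂ) else 0)
      = ((∏ i, v i ∅ : ℝ) : ℂ) := by
  rw [Finset.sum_eq_single_of_mem (fun _ => ∅) (by simp)]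
  · simp [bb]
  · intro B hB hne
    obtain ⟨i, hi⟩ := Function.ne_iff.1 hne
    obtain ⟨q, hq⟩ := Finset.nonempty_iff_ne_empty.2 hi
    have hqP : q ∈ P := Finset.mem_powerset.1 (Fintype.mem_piFinset.1 hB i) hq
    rw [Finset.prod_eq_zero (Finset.mem_univ (⟨q, hqP⟩ : P)), mul_zero]
    exact if_neg (Finset.ne_empty_of_mem (a := i) (by simp [bb, hq]))

theorem sum_three_delta :
    ∑ b : Finset ι, (3 : ℝ) ^ b.card * ‖(if b = ∅ then (1 : ℂ) else 0)‖ = 1 := by
  rw [Finset.sum_eq_single_of_mem ∅ (Finset.mem_univ _)]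
  · simp
  · intro b _ hb
    simp [hb]

theorem sum_hat_one_sub {q : ℕ} (hq : q.Prime) {c : ι → ℤ} (hc0 : ∀ i, ¬ (q : ℤ) ∣ c i) :
    ∑ b : Finset ι, (3 : ℝ) ^ b.card * ‖hat q c b 1 - (if b = ∅ then (1 : ℂ) else 0)‖
      ≤ 4 ^ Fintype.card ι * (1 + 2 * Fintype.card ι) * (1 / ((q : ℝ) - 1)) ^ 2 := by
  rw [mul_assoc]
  refine sum_three_mul_le fun b => ?_
  have h : hat q c b 1 - (if b = ∅ then (1 : ℂ) else 0)
      = ((al q b - rr q b * b.card - (if b = ∅ then 1 else 0) : ℝ) : ℂ) := by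
    rw [hat_one hq hc0]
    split_ifs <;> simp
  rw [h, Complex.norm_real, Real.norm_eq_abs]
  exact e0_le hq.two_le b

theorem sum_hat_one {q : ℕ} (hq : q.Prime) {c : ι → ℤ} (hc0 : ∀ i, ¬ (q : ℤ) ∣ c i) :
    ∑ b : Finset ι, (3 : ℝ) ^ b.card * ‖hat q c b 1‖
      ≤ 1 + 4 ^ Fintype.card ι * (1 + 2 * Fintype.card ι) * (1 / ((q : ℝ) - 1)) ^ 2 := by
  refine le_trans ?_ (add_le_add (sum_three_delta (ι := ι)).le (sum_hat_one_sub hq hc0))
  rw [← Finset.sum_add_distrib]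
  refine Finset.sum_le_sum fun b _ => ?_
  rw [← mul_add]
  exact mul_le_mul_of_nonneg_left (norm_le_norm_add_norm_sub' _ _) (by positivity)

open Classical in
theorem log_cond_le {P : Finset ℕ} (hP : ∀ q ∈ P, q.Prime) (χ : CF P) {B : ι → Finset ℕ}
    (hB : B ∈ Fintype.piFinset (fun _ : ι => P.powerset))
    (h : ∀ q : P, χ q ≠ 1 → bb B q ≠ ∅) : log (cond χ) ≤ ∑ i, sz (B i) := by
  have h1 : ∀ i, sz (B i) = ∑ q : P, if (q : ℕ) ∈ B i then log ((q : ℕ) : ℝ) else 0 := fun i => by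
    have h2 : B i ⊆ P := Finset.mem_powerset.1 (Fintype.mem_piFinset.1 hB i)
    rw [Finset.sum_coe_sort P fun q => if q ∈ B i then log (q : ℝ) else 0, ← Finset.sum_filter,
      Finset.filter_mem_eq_inter, Finset.inter_eq_right.2 h2, sz]
  have h3 : log (cond χ) = ∑ q : P, if χ q = 1 then 0 else log ((q : ℕ) : ℝ) := by
    rw [cond, Nat.cast_prod, Real.log_prod]
    · refine Finset.sum_congr rfl fun q _ => ?_
      split_ifs <;> simp
    · intro q _
      split_ifs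
      · simp
      · exact_mod_cast (hP q q.2).ne_zero
  rw [h3, Finset.sum_congr rfl fun i _ => h1 i, Finset.sum_comm]
  refine Finset.sum_le_sum fun q _ => ?_
  have h4 : ∀ i ∈ (Finset.univ : Finset ι),
      0 ≤ if (q : ℕ) ∈ B i then log ((q : ℕ) : ℝ) else 0 := fun i _ => by
    split_ifs
    · exact Real.log_natCast_nonneg _
    · exact le_rfl
  split_ifs with hq
  · exact Finset.sum_nonneg h4
  · obtain ⟨i, hi⟩ := Finset.nonempty_iff_ne_empty.2 (h q hq)
    have h5 := Finset.single_le_sum h4 (Finset.mem_univ i)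
    rwa [if_pos (Finset.mem_filter.1 hi).2] at h5

end Expd

open Expd

open Classical in
/-- Character expansion of a product of sieve sums in the other coordinates. The constants
`K` and `C` only depend on the index type. -/
theorem char_expand (ι : Type*) [Fintype ι] [DecidableEq ι] :
    ∃ K : ℝ, 1 ≤ K ∧ ∀ (P : Finset ℕ) (D : ℕ) (c : ι → ℤ) (v : ι → Finset ℕ → ℝ) (M lam : ι → ℝ),
      K ≤ D →
      (∀ q ∈ P, q.Prime ∧ D < q ∧ (∀ i, ¬ (q : ℤ) ∣ c i) ∧ ∀ i j, i ≠ j → ¬ (q : ℤ) ∣ c i - c j) →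
      (∀ i, Nrm (v i) (M i) (lam i)) →
      ∃ co : CF P → ℂ,
        (∀ χ, co χ ≠ 0 → log (cond χ) ≤ ∑ i, lam i ∨ χ = 1) ∧
        ‖co 1‖ ≤ (∏ i, M i) * (K / D) ∧
        (∀ χ, χ ≠ 1 → ‖co χ‖ ≤ (∏ i, M i) * K *
          ∏ q : P, if χ q = 1 then 1 else K / ((q : ℕ) : ℝ)) ∧
        ∀ m : ℕ, (∀ i, (m : ℤ) + c i ≠ 0) →
          ‖((∏ i, X P (v i) (m + c i) - ∏ i, v i ∅ : ℝ) : ℂ) - ∑ χ, co χ * Ch χ m‖
            ≤ (∏ i, M i) * (∏ i, 4 ^ ((m : ℤ) + c i).natAbs.primeFactors.card) *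
              Eul P ^ (3 * Fintype.card ι) *
              (∏ q ∈ P.filter (fun q => q ∣ m), (1 + K / (q : ℝ)) - 1) := by
  obtain ⟨A, hA⟩ : ∃ A : ℝ, A = 4 ^ Fintype.card ι * (1 + 2 * Fintype.card ι) := ⟨_, rfl⟩
  have hk : (0 : ℝ) ≤ Fintype.card ι := Nat.cast_nonneg _
  have h4k : (1 : ℝ) ≤ 4 ^ Fintype.card ι := one_le_pow₀ (by norm_num)
  have hA1 : 1 ≤ A := by
    rw [hA]
    nlinarith
  have hAk : ∀ q : ℕ, (4 : ℝ) ^ Fintype.card ι * (4 * Fintype.card ι / q) ≤ 4 * A / q := fun q => by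
    rw [← mul_div_assoc]
    refine div_le_div_of_nonneg_right ?_ (Nat.cast_nonneg _)
    rw [hA]
    nlinarith
  refine ⟨4 * A, by linarith, fun P D c v M lam hD hP hv => ?_⟩
  have hM := M_nonneg hv
  have hD0 : (0 : ℝ) < D := by linarith
  have hsq : ∏ q : P, (1 + A * (1 / (((q : ℕ) : ℝ) - 1)) ^ 2) ≤ 1 + 4 * A / D := by
    rw [Finset.prod_coe_sort P fun q => 1 + A * (1 / ((q : ℝ) - 1)) ^ 2]
    exact prod_sq_le hA1 hD fun q hq => (hP q hq).2.1
  refine ⟨fun χ => ∑ B ∈ Fintype.piFinset (fun _ : ι => P.powerset),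
      ((∏ i, v i (B i) : ℝ) : ℂ) * ∏ q : P, hat q c (bb B q) (χ q)
      - if χ = 1 then ((∏ i, v i ∅ : ℝ) : ℂ) else 0, fun χ hχ => ?_, ?_, fun χ hχ => ?_,
      fun m hm => ?_⟩
  · by_cases h1 : χ = 1
    · exact Or.inr h1
    left
    simp only [if_neg h1, sub_zero] at hχ
    obtain ⟨B, hB, hne⟩ := Finset.exists_ne_zero_of_sum_ne_zero hχ
    obtain ⟨h2, h3⟩ := mul_ne_zero_iff.1 hne
    refine (log_cond_le (fun q hq => (hP q hq).1) χ hB fun q hq h0 => ?_).trans
      (Finset.sum_le_sum fun i _ => (hv i (B i)).2 ?_)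
    · refine Finset.prod_ne_zero_iff.1 h3 q (Finset.mem_univ _) ?_
      rw [h0, hat_empty c hq]
    · exact Finset.prod_ne_zero_iff.1 (Complex.ofReal_ne_zero.1 h2) i (Finset.mem_univ _)
  · simp only [if_true, Pi.one_apply]
    rw [← sum_delta P v]
    refine (gen_two hv (fun q b => hat q c b 1) fun q b => if b = ∅ then 1 else 0).trans
      (mul_le_mul_of_nonneg_left ?_ hM)
    simp only [sum_three_delta, Finset.prod_const_one]
    refine le_trans (sub_le_sub_right (le_trans (Finset.prod_le_prod (fun q _ => by positivity)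
      fun q _ => ?_) hsq) 1) (by linarith)
    rw [hA]
    linarith [sum_hat_one_sub (hP q q.2).1 (hP q q.2).2.2.1]
  · simp only [if_neg hχ, sub_zero]
    refine (gen_one hv fun q b => hat q c b (χ q)).trans ?_
    rw [mul_assoc]
    refine mul_le_mul_of_nonneg_left ?_ hM
    have h1 : ∀ q : P, ∑ b : Finset ι, (3 : ℝ) ^ b.card * ‖hat q c b (χ q)‖ ≤
        (1 + A * (1 / (((q : ℕ) : ℝ) - 1)) ^ 2) *
          if χ q = 1 then 1 else 4 * A / ((q : ℕ) : ℝ) := fun q => by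
      split_ifs with h
      · rw [h, mul_one, hA]
        exact sum_hat_one (hP q q.2).1 (hP q q.2).2.2.1
      · have h2 := (sum_three_mul_le fun b => (norm_hat_le (hP q q.2).1.two_le c b h).trans
          (rr_card_le (hP q q.2).1.two_le b)).trans (hAk q)
        refine h2.trans (le_mul_of_one_le_left (by positivity) ?_)
        have : 0 ≤ A * (1 / (((q : ℕ) : ℝ) - 1)) ^ 2 := by positivity
        linarith
    refine (Finset.prod_le_prod (fun q _ => by positivity) fun q _ => h1 q).trans ?_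
    rw [Finset.prod_mul_distrib]
    refine mul_le_mul_of_nonneg_right (hsq.trans ?_) (Finset.prod_nonneg fun q _ => ?_)
    · have : 4 * A / D ≤ 1 := (div_le_one hD0).2 hD
      linarith
    · split_ifs <;> positivity
  · have h1 : ((∏ i, X P (v i) (m + c i) : ℝ) : ℂ) =
        ∑ B ∈ Fintype.piFinset (fun _ : ι => P.powerset),
          ((∏ i, v i (B i) : ℝ) : ℂ) * ∏ q : P, (ph q c m (bb B q) : ℂ) := by
      rw [prod_X_expand, Complex.ofReal_sum]
      refine Finset.sum_congr rfl fun B _ => ?_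
      rw [Complex.ofReal_mul, ← Finset.prod_coe_sort P, Complex.ofReal_prod _ fun q : P => _]
      rfl
    have h2 : ∀ B : ι → Finset ℕ, ∑ χ : CF P, (∏ q : P, hat q c (bb B q) (χ q)) * Ch χ m
        = ∏ q : P, (pt q c m (bb B q) : ℂ) := fun B => by
      rw [← Finset.prod_congr rfl fun (q : P) _ =>
        sum_hat (hP q q.2).1 (hP q q.2).2.2.1 (hP q q.2).2.2.2 m (bb B q), Finset.prod_univ_sum,
        Fintype.piFinset_univ]
      refine Finset.sum_congr rfl fun χ _ => ?_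
      rw [Finset.prod_mul_distrib, Ch]
    have h3 : ∑ χ : CF P, (if χ = 1 then ((∏ i, v i ∅ : ℝ) : ℂ) else 0) * Ch χ m
        = ((∏ i, v i ∅ : ℝ) : ℂ) := by
      rw [Finset.sum_eq_single_of_mem 1 (Finset.mem_univ _), if_pos rfl, Ch_one, mul_one]
      intro χ _ hχ
      rw [if_neg hχ, zero_mul]
    simp only [sub_mul, Finset.sum_sub_distrib, Finset.sum_mul, mul_assoc]
    rw [h3, Finset.sum_comm]
    simp only [← Finset.mul_sum, h2]
    rw [Complex.ofReal_sub, sub_sub_sub_cancel_right, h1, norm_sub_rev]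
    refine (gen_two hv (fun q b => (pt q c m b : ℂ)) fun q b => (ph q c m b : ℂ)).trans
      (mul_le_mul_of_nonneg_left ?_ hM)
    simp only [← Complex.ofReal_sub, Complex.norm_real, Real.norm_eq_abs, sum_three_ph]
    have ht : ∀ q : P, (1 : ℝ) ≤ ∏ i, (1 + 3 * |chi q (m + c i)|) := fun q =>
      Finset.one_le_prod fun i _ => le_add_of_nonneg_right (by positivity)
    have hd : ∀ q : P, ∏ i, (1 + 3 * |chi q (m + c i)|)
        + ∑ b : Finset ι, 3 ^ b.card * |pt q c m b - ph q c m b|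
        ≤ (∏ i, (1 + 3 * |chi q (m + c i)|)) *
          if (q : ℕ) ∣ m then 1 + 4 * A / ((q : ℕ) : ℝ) else 1 := fun q => by
      have h5 := sum_three_mul_le fun b =>
        abs_pt_sub_ph (hP q q.2).1.two_le (hP q q.2).2.2.1 (m : ℤ) b
      split_ifs with h
      · rw [if_pos (Int.natCast_dvd_natCast.2 h)] at h5
        have h6 : 0 ≤ 4 * A / ((q : ℕ) : ℝ) := by positivity
        nlinarith [h5.trans (hAk q), ht q]
      · rw [if_neg fun h' => h (Int.natCast_dvd_natCast.1 h'), mul_zero] at h5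
        linarith
    have hF : ∏ q : P, (if (q : ℕ) ∣ m then 1 + 4 * A / ((q : ℕ) : ℝ) else 1)
        = ∏ q ∈ P.filter (fun q => q ∣ m), (1 + 4 * A / (q : ℝ)) := by
      rw [Finset.prod_coe_sort P fun q => if q ∣ m then 1 + 4 * A / (q : ℝ) else 1,
        Finset.prod_filter]
    have hF1 : (1 : ℝ) ≤ ∏ q ∈ P.filter (fun q => q ∣ m), (1 + 4 * A / (q : ℝ)) :=
      Finset.one_le_prod fun q _ => le_add_of_nonneg_right (by positivity)
    have hT : ∏ q : P, ∏ i, (1 + 3 * |chi q (m + c i)|)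
        ≤ (∏ i, 4 ^ ((m : ℤ) + c i).natAbs.primeFactors.card) * Eul P ^ (3 * Fintype.card ι) := by
      rw [Finset.prod_comm, pow_mul, ← Finset.card_univ, ← Finset.prod_const,
        ← Finset.prod_mul_distrib]
      refine Finset.prod_le_prod (fun i _ => Finset.prod_nonneg fun q _ => by positivity)
        fun i _ => ?_
      rw [Finset.prod_coe_sort P fun q => 1 + 3 * |chi q (m + c i)|]
      exact prod_chi_le (fun q hq => (hP q hq).1) (hm i)
    have h7 := Finset.prod_le_prod (s := Finset.univ) (fun q _ => by positivity) fun q _ => hd q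
    rw [Finset.prod_mul_distrib, hF] at h7
    rw [← mul_assoc]
    calc _ ≤ (∏ q : P, ∏ i, (1 + 3 * |chi q (m + c i)|)) *
          (∏ q ∈ P.filter (fun q => q ∣ m), (1 + 4 * A / (q : ℝ)) - 1) := by
          rw [mul_sub, mul_one]
          exact sub_le_sub_right h7 _
      _ ≤ _ := mul_le_mul_of_nonneg_right hT (by linarith)

end Pool.Agent.Lib.Tup
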