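import Pool.Agent.Lib.Tup.MLS

/-! Local computations for the character expansion. -/

namespace Pool.Agent.Lib.Tup
open Finset Real Filter

namespace Expd

variable {ι : Type*} [Fintype ι] [DecidableEq ι]

/-- The local product of the mean zero functions. -/
noncomputable def ph (q : ℕ) (c : ι → ℤ) (m : ℤ) (b : Finset ι) : ℝ := ∏ i ∈ b, chi q (m + c i)

noncomputable def al (q : ℕ) (b : Finset ι) : ℝ := (1 / ((q : ℝ) - 1)) ^ b.card

noncomputable def rr (q : ℕ) (b : Finset ι) : ℝ := al q b * q / ((q : ℝ) - 1)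

open Classical in
/-- Multiplicative Fourier coefficient of `ph`. -/
noncomputable def hat (q : ℕ) (c : ι → ℤ) (b : Finset ι) (χ : DirichletCharacter ℂ q) : ℂ :=
  (if χ = 1 then (al q b : ℂ) else 0) - (rr q b : ℂ) * ∑ i ∈ b, χ (((-c i : ℤ) : ZMod q)⁻¹)

/-- Value of the character expansion. -/
noncomputable def pt (q : ℕ) (c : ι → ℤ) (m : ℤ) (b : Finset ι) : ℝ :=
  if (q : ℤ) ∣ m then al q b - rr q b * b.card else ph q c m b

theorem one_le_sub {q : ℕ} (hq : 2 ≤ q) : (1 : ℝ) ≤ (q : ℝ) - 1 := by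
  have : (2 : ℝ) ≤ q := by exact_mod_cast hq
  linarith

theorem ph_eq {q : ℕ} (hq : 2 ≤ q) {c : ι → ℤ} (hc : ∀ i j, i ≠ j → ¬ (q : ℤ) ∣ c i - c j)
    (m : ℤ) (b : Finset ι) :
    ph q c m b = al q b - al q b * q * ∑ i ∈ b, (if (q : ℤ) ∣ m + c i then 1 else 0) := by
  have h1 := one_le_sub hq
  by_cases h : ∃ i ∈ b, (q : ℤ) ∣ m + c i
  · obtain ⟨i0, hi0, hd⟩ := h
    have hne : ∀ j, j ≠ i0 → ¬ (q : ℤ) ∣ m + c j := fun j hj hd' =>
      hc j i0 hj (by simpa using hd'.sub hd)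
    have hs : ∑ i ∈ b, (if (q : ℤ) ∣ m + c i then (1 : ℝ) else 0) = 1 := by
      rw [Finset.sum_eq_single_of_mem i0 hi0 (fun j _ hj => if_neg (hne j hj)), if_pos hd]
    have hp : ∏ i ∈ b.erase i0, chi q (m + c i) = (1 / ((q : ℝ) - 1)) ^ (b.erase i0).card := by
      rw [← Finset.prod_const]
      refine Finset.prod_congr rfl fun j hj => ?_
      rw [chi, if_neg (hne j (Finset.ne_of_mem_erase hj))]
    rw [hs, ph, ← Finset.mul_prod_erase b _ hi0, hp, al, ← Finset.card_erase_add_one hi0, chi,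
      if_pos hd, pow_succ]
    have : (q : ℝ) - 1 ≠ 0 := by linarith
    field_simp
    ring
  · push Not at h
    have hs : ∑ i ∈ b, (if (q : ℤ) ∣ m + c i then (1 : ℝ) else 0) = 0 :=
      Finset.sum_eq_zero fun j hj => if_neg (h j hj)
    rw [hs, mul_zero, sub_zero, ph, al, ← Finset.prod_const]
    refine Finset.prod_congr rfl fun j hj => ?_
    rw [chi, if_neg (h j hj)]

theorem isUnit_cast {q : ℕ} (hq : q.Prime) {a : ℤ} (ha : ¬ (q : ℤ) ∣ a) :
    IsUnit ((a : ℤ) : ZMod q) := by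
  have := Fact.mk hq
  exact isUnit_iff_ne_zero.2 fun h => ha ((ZMod.intCast_zmod_eq_zero_iff_dvd a q).1 h)

theorem hat_one {q : ℕ} (hq : q.Prime) {c : ι → ℤ} (hc0 : ∀ i, ¬ (q : ℤ) ∣ c i) (b : Finset ι) :
    hat q c b 1 = ((al q b - rr q b * b.card : ℝ) : ℂ) := by
  have := Fact.mk hq
  have : ∀ i ∈ b, (1 : DirichletCharacter ℂ q) (((-c i : ℤ) : ZMod q)⁻¹) = 1 := fun i _ =>
    MulChar.one_apply (isUnit_cast hq (a := -c i) (by simpa using hc0 i)).inv
  rw [hat, if_pos rfl, Finset.sum_congr rfl this]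
  simp

open Classical in
theorem sum_hat {q : ℕ} (hq : q.Prime) {c : ι → ℤ} (hc0 : ∀ i, ¬ (q : ℤ) ∣ c i)
    (hc : ∀ i j, i ≠ j → ¬ (q : ℤ) ∣ c i - c j) (m : ℤ) (b : Finset ι) :
    ∑ χ : DirichletCharacter ℂ q, hat q c b χ * (if χ = 1 then 1 else χ (m : ZMod q))
      = (pt q c m b : ℂ) := by
  have := Fact.mk hq
  by_cases hm : (q : ℤ) ∣ m
  · have h0 : ((m : ℤ) : ZMod q) = 0 := (ZMod.intCast_zmod_eq_zero_iff_dvd m q).2 hm
    rw [Finset.sum_eq_single_of_mem 1 (Finset.mem_univ _), if_pos rfl, mul_one, hat_one hq hc0,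
      pt, if_pos hm]
    intro χ _ hχ
    rw [if_neg hχ, h0, MulChar.map_zero, mul_zero]
  · have hu := isUnit_cast hq hm
    have h1 : ∀ (χ : DirichletCharacter ℂ q) [Decidable (χ = 1)],
        (if χ = 1 then 1 else χ (m : ZMod q)) = χ (m : ZMod q) := fun χ _ => by
      split_ifs with h
      · rw [h, MulChar.one_apply hu]
      · rfl
    have h2 : ∀ i ∈ b, ∑ χ : DirichletCharacter ℂ q, χ (((-c i : ℤ) : ZMod q)⁻¹) * χ (m : ZMod q)
        = ((q : ℂ) - 1) * (((if (q : ℤ) ∣ m + c i then 1 else 0 : ℝ)) : ℂ) := fun i _ => by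
      rw [DirichletCharacter.sum_char_inv_mul_char_eq ℂ
        (isUnit_cast hq (a := -c i) (by simpa using hc0 i))]
      have h3 : (((-c i : ℤ) : ZMod q) = (m : ZMod q)) ↔ (q : ℤ) ∣ m + c i := by
        rw [ZMod.intCast_eq_intCast_iff_dvd_sub, sub_neg_eq_add]
      by_cases h : (q : ℤ) ∣ m + c i
      · rw [if_pos (h3.2 h), if_pos h, Nat.totient_prime hq, Nat.cast_sub hq.one_le]
        simp
      · rw [if_neg (fun h' => h (h3.1 h')), if_neg h]
        simp
    have h4 : ∀ [∀ χ : DirichletCharacter ℂ q, Decidable (χ = 1)], ∑ χ : DirichletCharacter ℂ q,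
        (if χ = 1 then (al q b : ℂ) else 0) * χ (m : ZMod q) = al q b := by
      intro _
      rw [Finset.sum_eq_single_of_mem 1 (Finset.mem_univ _), if_pos rfl, MulChar.one_apply hu,
        mul_one]
      intro χ _ hχ
      rw [if_neg hχ, zero_mul]
    simp only [h1, hat, sub_mul, Finset.sum_sub_distrib, mul_assoc, ← Finset.mul_sum,
      Finset.sum_mul]
    rw [@h4 fun χ => Classical.propDecidable _, Finset.sum_comm, Finset.sum_congr rfl h2, ← Finset.mul_sum, pt, if_neg hm,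
      ph_eq hq.two_le hc, rr]
    have h5 : (q : ℂ) - 1 ≠ 0 := by
      have := one_le_sub hq.two_le
      have h6 : (q : ℝ) - 1 ≠ 0 := by linarith
      exact_mod_cast h6
    push_cast
    field_simp

theorem al_nonneg {q : ℕ} (hq : 2 ≤ q) (b : Finset ι) : 0 ≤ al q b := by
  have := one_le_sub hq
  unfold al
  positivity

theorem rr_nonneg {q : ℕ} (hq : 2 ≤ q) (b : Finset ι) : 0 ≤ rr q b := by
  have := one_le_sub hq
  have := al_nonneg hq b
  unfold rr
  positivity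

theorem al_le {q : ℕ} (hq : 2 ≤ q) {b : Finset ι} {n : ℕ} (hn : n ≤ b.card) :
    al q b ≤ (1 / ((q : ℝ) - 1)) ^ n := by
  have := one_le_sub hq
  exact pow_le_pow_of_le_one (by positivity) ((div_le_one (by linarith)).2 this) hn

theorem rr_le {q : ℕ} (hq : 2 ≤ q) (b : Finset ι) : rr q b ≤ 2 * al q b := by
  have h1 := one_le_sub hq
  have h2 := al_nonneg hq b
  rw [rr, div_le_iff₀ (by linarith)]
  nlinarith

theorem rr_card_le {q : ℕ} (hq : 2 ≤ q) (b : Finset ι) :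
    rr q b * b.card ≤ 4 * Fintype.card ι / q := by
  have h1 := one_le_sub hq
  have hq0 : (0 : ℝ) < q := by linarith
  rcases Nat.eq_zero_or_pos b.card with h | h
  · rw [h]
    simp only [Nat.cast_zero, mul_zero]
    positivity
  · have h2 := al_le hq (b := b) (n := 1) h
    have h3 := rr_le hq b
    have h4 : (b.card : ℝ) ≤ Fintype.card ι := by exact_mod_cast Finset.card_le_univ b
    have h5 : 1 / ((q : ℝ) - 1) ≤ 2 / q := by
      rw [div_le_div_iff₀ (by linarith) hq0]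
      linarith
    have h6 : rr q b ≤ 4 / q := by
      rw [pow_one] at h2
      have : (4 : ℝ) / q = 2 * (2 / q) := by ring
      linarith
    calc rr q b * b.card ≤ 4 / q * Fintype.card ι :=
          mul_le_mul h6 h4 (Nat.cast_nonneg _) (by positivity)
      _ = 4 * Fintype.card ι / q := by ring

theorem e0_le {q : ℕ} (hq : 2 ≤ q) (b : Finset ι) :
    |al q b - rr q b * b.card - (if b = ∅ then 1 else 0)|
      ≤ (1 + 2 * Fintype.card ι) * (1 / ((q : ℝ) - 1)) ^ 2 := by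
  have h1 := one_le_sub hq
  have hk : (0 : ℝ) ≤ Fintype.card ι := Nat.cast_nonneg _
  have hs : (0 : ℝ) ≤ (1 / ((q : ℝ) - 1)) ^ 2 := by positivity
  split_ifs with hb
  · subst hb
    simp only [al, Finset.card_empty, pow_zero, Nat.cast_zero, mul_zero, sub_zero, sub_self,
      abs_zero]
    positivity
  · have h2 : 1 ≤ b.card := Finset.card_pos.2 (Finset.nonempty_iff_ne_empty.2 hb)
    rcases h2.eq_or_lt with h | h
    · have h3 : al q b - rr q b * b.card - 0 = -(1 / ((q : ℝ) - 1)) ^ 2 := by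
        rw [rr, al, ← h]
        have : (q : ℝ) - 1 ≠ 0 := by linarith
        field_simp
        ring
      rw [h3, abs_neg, abs_of_nonneg hs]
      nlinarith
    · have h3 := al_le hq (b := b) (n := 2) h
      have h4 := rr_le hq b
      have h5 := al_nonneg hq b
      have h6 := rr_nonneg hq b
      have h7 : (b.card : ℝ) ≤ Fintype.card ι := by exact_mod_cast Finset.card_le_univ b
      have h8 : rr q b * b.card ≤ 2 * (1 / ((q : ℝ) - 1)) ^ 2 * Fintype.card ι :=
        mul_le_mul (by linarith) h7 (Nat.cast_nonneg _) (by positivity)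
      have h9 : 0 ≤ rr q b * b.card := mul_nonneg h6 (Nat.cast_nonneg _)
      rw [sub_zero, abs_le]
      constructor <;> nlinarith

theorem norm_hat_le {q : ℕ} (hq : 2 ≤ q) (c : ι → ℤ) (b : Finset ι)
    {χ : DirichletCharacter ℂ q} (hχ : χ ≠ 1) : ‖hat q c b χ‖ ≤ rr q b * b.card := by
  rw [hat, if_neg hχ, zero_sub, norm_neg, norm_mul, Complex.norm_real,
    Real.norm_of_nonneg (rr_nonneg hq b)]
  refine mul_le_mul_of_nonneg_left ((norm_sum_le _ _).trans ?_) (rr_nonneg hq b)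
  simpa using Finset.sum_le_card_nsmul b _ (1 : ℝ)
    (fun i _ => DirichletCharacter.norm_le_one χ (((-c i : ℤ) : ZMod q)⁻¹))

theorem hat_empty {q : ℕ} (c : ι → ℤ) {χ : DirichletCharacter ℂ q} (hχ : χ ≠ 1) :
    hat q c (∅ : Finset ι) χ = 0 := by
  simp [hat, hχ]

theorem abs_pt_sub_ph {q : ℕ} (hq : 2 ≤ q) {c : ι → ℤ} (hc0 : ∀ i, ¬ (q : ℤ) ∣ c i) (m : ℤ)
    (b : Finset ι) :
    |pt q c m b - ph q c m b| ≤ if (q : ℤ) ∣ m then 4 * Fintype.card ι / (q : ℝ) else 0 := by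
  unfold pt
  split_ifs with hm
  · have h1 : ph q c m b = al q b := by
      rw [ph, al, ← Finset.prod_const]
      refine Finset.prod_congr rfl fun i _ => ?_
      rw [chi, if_neg fun h => hc0 i (by simpa using h.sub hm)]
    rw [h1, sub_sub_cancel_left, abs_neg,
      abs_of_nonneg (mul_nonneg (rr_nonneg hq b) (Nat.cast_nonneg _))]
    exact rr_card_le hq b
  · simp

theorem sum_three : ∑ b : Finset ι, (3 : ℝ) ^ b.card = 4 ^ Fintype.card ι := by
  have := Finset.prod_one_add (R := ℝ) (f := fun _ : ι => 3) Finset.univ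
  simp only [Finset.prod_const, Finset.powerset_univ, Finset.card_univ] at this
  rw [← this]
  norm_num

theorem sum_three_ph (q : ℕ) (c : ι → ℤ) (m : ℤ) :
    ∑ b : Finset ι, (3 : ℝ) ^ b.card * |ph q c m b| = ∏ i, (1 + 3 * |chi q (m + c i)|) := by
  rw [Finset.prod_one_add, Finset.powerset_univ]
  refine Finset.sum_congr rfl fun b _ => ?_
  rw [Finset.prod_mul_distrib, Finset.prod_const, ph, Finset.abs_prod]

theorem sum_three_mul_le {f : Finset ι → ℝ} {a : ℝ} (hf : ∀ b, f b ≤ a) :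
    ∑ b : Finset ι, (3 : ℝ) ^ b.card * f b ≤ 4 ^ Fintype.card ι * a := by
  rw [← sum_three, Finset.sum_mul]
  exact Finset.sum_le_sum fun b _ => mul_le_mul_of_nonneg_left (hf b) (by positivity)

theorem prod_chi_le {P : Finset ℕ} (hP : ∀ q ∈ P, q.Prime) {n : ℤ} (hn : n ≠ 0) :
    ∏ q ∈ P, (1 + 3 * |chi q n|) ≤ 4 ^ n.natAbs.primeFactors.card * Eul P ^ 3 := by
  classical
  have h1 : ∀ q ∈ P, 1 + 3 * |chi q n| ≤
      (if q ∈ n.natAbs.primeFactors then 4 else 1) * (1 + 1 / ((q : ℝ) - 1)) ^ 3 := fun q hq => by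
    have h2 := one_le_sub (hP q hq).two_le
    have h3 : (0 : ℝ) ≤ 1 / ((q : ℝ) - 1) := by positivity
    have h4 : 1 + 3 * (1 / ((q : ℝ) - 1)) ≤ (1 + 1 / ((q : ℝ) - 1)) ^ 3 := by
      nlinarith [mul_nonneg h3 h3, mul_nonneg h3 (mul_nonneg h3 h3)]
    by_cases hd : (q : ℤ) ∣ n
    · rw [chi, if_pos hd, if_pos (Nat.mem_primeFactors.2 ⟨hP q hq, Int.natCast_dvd.1 hd,
        Int.natAbs_ne_zero.2 hn⟩)]
      simp only [abs_neg, abs_one]
      linarith
    · rw [chi, if_neg hd, if_neg (fun h => hd (Int.natCast_dvd.2 (Nat.dvd_of_mem_primeFactors h))),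
        abs_of_nonneg h3, one_mul]
      exact h4
  refine (Finset.prod_le_prod (fun q _ => by positivity) h1).trans ?_
  rw [Finset.prod_mul_distrib, Finset.prod_pow, Finset.prod_ite, Finset.prod_const_one, mul_one,
    Finset.prod_const]
  refine mul_le_mul_of_nonneg_right (pow_le_pow_right₀ (by norm_num)
    (Finset.card_le_card fun q hq => (Finset.mem_filter.1 hq).2)) ?_
  have := one_le_Eul (P := P) fun q hq => (hP q hq).two_le
  unfold Eul at this
  positivity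

theorem sum_sq_le {P : Finset ℕ} {D : ℕ} (hD : 1 ≤ D) (hP : ∀ q ∈ P, D < q) :
    ∑ q ∈ P, (1 / ((q : ℝ) - 1)) ^ 2 ≤ (2 : ℝ) / D := by
  have h1 : ∑ q ∈ P, (1 / ((q : ℝ) - 1)) ^ 2 = ∑ n ∈ P.image (fun q : ℕ => q - 1), (((n : ℕ) : ℝ) ^ 2)⁻¹ := by
    rw [Finset.sum_image]
    · refine Finset.sum_congr rfl fun q hq => ?_
      rw [Nat.cast_sub (by have := hP q hq; omega)]
      simp
    · intro a ha b hb hab
      have := hP a ha
      have := hP b hb
      simp only at hab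
      omega
  have h2 : P.image (fun q : ℕ => q - 1) ⊆ Finset.Ioo (D - 1) (P.sup id + 1) := fun n hn => by
    obtain ⟨q, hq, rfl⟩ := Finset.mem_image.1 hn
    have := hP q hq
    have h3 : q ≤ P.sup id := Finset.le_sup (f := id) hq
    rw [Finset.mem_Ioo]
    omega
  rw [h1]
  refine (Finset.sum_le_sum_of_subset_of_nonneg h2 fun _ _ _ => by positivity).trans ?_
  refine (sum_Ioo_inv_sq_le (α := ℝ) _ _).trans (le_of_eq ?_)
  rw [Nat.cast_sub hD]
  simp

theorem prod_sq_le {P : Finset ℕ} {D : ℕ} {A : ℝ} (hA : 1 ≤ A) (hD : 4 * A ≤ D)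
    (hP : ∀ q ∈ P, D < q) :
    ∏ q ∈ P, (1 + A * (1 / ((q : ℝ) - 1)) ^ 2) ≤ 1 + 4 * A / D := by
  have hD0 : (0 : ℝ) < D := by linarith
  have hD1 : 1 ≤ D := by
    have : (1 : ℝ) ≤ D := by linarith
    exact_mod_cast this
  have h1 : ∏ q ∈ P, (1 + A * (1 / ((q : ℝ) - 1)) ^ 2)
      ≤ exp (∑ q ∈ P, A * (1 / ((q : ℝ) - 1)) ^ 2) := by
    rw [Real.exp_sum]
    refine Finset.prod_le_prod (fun q _ => by positivity) fun q _ => ?_
    linarith [Real.add_one_le_exp (A * (1 / ((q : ℝ) - 1)) ^ 2)]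
  have h2 : ∑ q ∈ P, A * (1 / ((q : ℝ) - 1)) ^ 2 ≤ 2 * A / D := by
    rw [← Finset.mul_sum]
    calc _ ≤ A * (2 / D) := mul_le_mul_of_nonneg_left (sum_sq_le hD1 hP) (by linarith)
      _ = 2 * A / D := by ring
  have h3 : (0 : ℝ) ≤ 2 * A / D := by positivity
  have h4 : 2 * A / D ≤ 1 := by
    rw [div_le_one hD0]
    linarith
  have h5 := Real.abs_exp_sub_one_le (x := 2 * A / D) (by rwa [abs_of_nonneg h3])
  rw [abs_of_nonneg h3] at h5
  have h6 := (abs_le.1 h5).2
  have h7 : 4 * A / D = 2 * (2 * A / D) := by ring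
  linarith [Real.exp_le_exp.2 h2]

end Expd

end Pool.Agent.Lib.Tup
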