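import Pool.Agent.Lib.Tup.KeyB

namespace Pool.Agent.Lib.Tup
open Finset Real Filter

namespace KeyA

theorem two_le_PP {D : ℕ} {l : ℝ} : ∀ q ∈ PP D l, 2 ≤ q := fun _ hq => (mem_PP.1 hq).1.two_le

theorem abs_win_le (x y s : ℝ) : |win x y s| ≤ 1 := by
  unfold win; split_ifs <;> simp

theorem abs_ipW_le (D : ℕ) (l x y x' y' : ℝ) : |ipW D l x y x' y'| ≤ Eul (PP D l) := by
  unfold ipW
  rw [← sum_wt_eq]
  refine (abs_sum_le_sum_abs _ _).trans (sum_le_sum fun A hA => ?_)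
  have hw : 0 ≤ wt A := wt_nonneg fun q hq => two_le_PP q (mem_powerset.1 hA hq)
  rw [abs_mul, abs_mul, abs_of_nonneg hw]
  have h1 := abs_win_le (x * l) (y * l) (sz A)
  have h2 := abs_win_le (x' * l) (y' * l) (sz A)
  calc _ ≤ 1 * 1 * wt A := by gcongr
    _ = _ := by ring

/-- The fluctuation of the other coordinates. -/
noncomputable def fl {ι : Type*} [Fintype ι] (c : ι → ℤ) (D : ℕ) (l : ℝ) (x y x' y' : ι → ℝ)
    (m : ℕ) : ℝ :=
  ∏ i, (XW D l (x i) (y i) (m + c i) * XW D l (x' i) (y' i) (m + c i))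
    - ∏ i, ipW D l (x i) (y i) (x' i) (y' i)

theorem abs_fl_le {ι : Type*} [Fintype ι] (c : ι → ℤ) (D : ℕ) (l : ℝ) (x y x' y' : ι → ℝ)
    (m : ℕ) : |fl c D l x y x' y' m| ≤
      ∏ i, |XW D l (x i) (y i) (m + c i) * XW D l (x' i) (y' i) (m + c i)| +
        Eul (PP D l) ^ Fintype.card ι := by
  unfold fl
  refine (abs_sub _ _).trans (add_le_add (le_of_eq (abs_prod _ _)) ?_)
  rw [abs_prod, ← card_univ, ← prod_const]
  exact prod_le_prod (fun i _ => abs_nonneg _) fun i _ => abs_ipW_le _ _ _ _ _ _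

theorem prod_abs_le {ι : Type*} [Fintype ι] (a b : ι → ℝ) :
    ∏ i, |a i * b i| ≤ (∏ i, a i ^ 2 + ∏ i, b i ^ 2) / 2 := by
  rw [← abs_prod, prod_mul_distrib, prod_pow, prod_pow, abs_mul, ← sq_abs (∏ i, a i),
    ← sq_abs (∏ i, b i)]
  nlinarith [sq_nonneg (|∏ i, a i| - |∏ i, b i|)]

theorem fl_eq {ι : Type*} [Fintype ι] (c : ι → ℤ) (D : ℕ) {l : ℝ} (x y x' y' : ι → ℝ) :
    ∃ v : ι → Finset ℕ → ℝ, (∀ i, Nrm (v i) (Eul (PP D l)) (y i * l + y' i * l)) ∧
      ∀ m : ℕ, fl c D l x y x' y' m = ∏ i, X (PP D l) (v i) (m + c i) - ∏ i, v i ∅ := by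
  have h : ∀ i, ∃ v : Finset ℕ → ℝ, Nrm v (Eul (PP D l)) (y i * l + y' i * l) ∧
      v ∅ = ipW D l (x i) (y i) (x' i) (y' i) ∧
      ∀ m : ℤ, XW D l (x i) (y i) m * XW D l (x' i) (y' i) m = X (PP D l) v m := by
    intro i
    refine linearize two_le_PP (win (x i * l) (y i * l)) (win (x' i * l) (y' i * l))
      (abs_win_le _ _) (fun t _ => ?_) (fun s _ hs => ?_) (fun s _ hs => ?_)
    · rw [← sum_wt_eq]
      refine sum_le_sum fun A hA => ?_
      have hw : 0 ≤ wt A := wt_nonneg fun q hq => two_le_PP q (mem_powerset.1 hA hq)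
      exact mul_le_of_le_one_left hw (abs_win_le _ _ _)
    · unfold win at hs
      split_ifs at hs with h
      · exact h.2.le
      · exact absurd rfl hs
    · unfold win at hs
      split_ifs at hs with h
      · exact h.2.le
      · exact absurd rfl hs
  choose v h1 h2 h3 using h
  refine ⟨v, h1, fun m => ?_⟩
  unfold fl
  simp only [h2, h3]

open Classical in
theorem maj {ι : Type*} [Fintype ι] [DecidableEq ι] (c : ι → ℤ) (hc0 : ∀ i, c i ≠ 0)
    (hc : Function.Injective c) {ψ : ℝ → ℝ} {s0 s1 : ℝ} (hψ : Bump ψ s0 s1)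
    {η : ℝ} (hη : 0 < η) (hη1 : η ≤ 1 / 10) :
    ∃ C : ℝ, 0 < C ∧ ∃ D1 : ℕ, ∀ D ≥ D1, ∀ᶠ l : ℝ in atTop, ∀ (b : ℕ) (x y x' y' : ι → ℝ),
      (∀ i, 0 ≤ y i) → (∀ i, 0 ≤ y' i) → ∑ i, y i ≤ 3 / 2 → ∑ i, y' i ≤ 3 / 2 →
      (cW D * l) ^ 2 * ∑ m ∈ (cls l (primorial D) b).filter (Rough η l),
          wg ψ l m * |fl c D l x y x' y' m| ≤ C * scale D l (Fintype.card ι + 1) := by
  obtain ⟨C0, hC0, hE⟩ := Eul_le
  obtain ⟨C1, hC1, D1, h1⟩ := rough_major c hc0 hc hψ hη hη1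
  obtain ⟨C2, hC2, D2, h2⟩ := rough_major (ι := Fin 0) (fun i => i.elim0) (fun i => i.elim0)
    (fun i => i.elim0) hψ hη hη1
  refine ⟨C1 + C0 ^ Fintype.card ι * C2 + 1, by positivity, max D1 D2, fun D hD => ?_⟩
  filter_upwards [hE D, h1 D (le_of_max_le_left hD), h2 D (le_of_max_le_right hD),
    eventually_gt_atTop 0] with l hE h1 h2 hl b x y x' y' hy hy' hs hs'
  have a1 := h1 b x y hy hs
  have a2 := h1 b x' y' hy' hs'
  have a3 := h2 b (fun i => i.elim0) (fun i => i.elim0) (fun i => i.elim0) (by simp; norm_num)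
  simp only [univ_eq_empty, prod_empty, mul_one, Fintype.card_eq_zero, zero_add] at a3
  have hL : 0 < cW D * l := mul_pos (cW_pos D) hl
  have hEk : Eul (PP D l) ^ Fintype.card ι ≤ (C0 * (cW D * l)) ^ Fintype.card ι :=
    pow_le_pow_left₀ (le_trans zero_le_one (one_le_Eul two_le_PP)) hE _
  have hsc : (cW D * l) ^ Fintype.card ι * scale D l 1 = scale D l (Fintype.card ι + 1) := by
    unfold scale; ring
  have hW : (0 : ℝ) < primorial D := by exact_mod_cast primorial_pos D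
  have hs0 : 0 ≤ scale D l (Fintype.card ι + 1) := by unfold scale; positivity
  have b1 : ∑ m ∈ (cls l (primorial D) b).filter (Rough η l), wg ψ l m * |fl c D l x y x' y' m| ≤
      (∑ m ∈ (cls l (primorial D) b).filter (Rough η l),
          wg ψ l m * ∏ i, XW D l (x i) (y i) (m + c i) ^ 2 +
        ∑ m ∈ (cls l (primorial D) b).filter (Rough η l),
          wg ψ l m * ∏ i, XW D l (x' i) (y' i) (m + c i) ^ 2) / 2 +
        (C0 * (cW D * l)) ^ Fintype.card ι *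
          ∑ m ∈ (cls l (primorial D) b).filter (Rough η l), wg ψ l m := by
    rw [← sum_add_distrib, sum_div, mul_sum, ← sum_add_distrib]
    refine sum_le_sum fun m _ => ?_
    have hw := wg_nonneg hψ l m
    have i1 := abs_fl_le c D l x y x' y' m
    have i2 := prod_abs_le (fun i => XW D l (x i) (y i) (m + c i))
      (fun i => XW D l (x' i) (y' i) (m + c i))
    have i3 := mul_le_mul_of_nonneg_left (i1.trans (add_le_add i2 hEk)) hw
    linarith
  have b2 := mul_le_mul_of_nonneg_left b1 (sq_nonneg (cW D * l))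
  have b3 := mul_le_mul_of_nonneg_left a3
    (show 0 ≤ (C0 * (cW D * l)) ^ Fintype.card ι by positivity)
  have b4 : (C0 * (cW D * l)) ^ Fintype.card ι * (C2 * scale D l 1) =
      C0 ^ Fintype.card ι * C2 * scale D l (Fintype.card ι + 1) := by
    rw [← hsc, mul_pow]; ring
  nlinarith

open Classical in
theorem nsq {ι : Type*} [Fintype ι] (c : ι → ℤ) {η ε : ℝ} (hη : 0 < η) (hε : 0 < ε) (D : ℕ) :
    ∀ᶠ l : ℝ in atTop, ∀ (x y x' y' : ι → ℝ),
      (cW D * l) ^ 2 * ∑ m ∈ (range (NN l)).filter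
          (fun m => ∃ p : ℕ, p.Prime ∧ η * l < log p ∧ p * p ∣ m),
        wg big l m * |fl c D l x y x' y' m| ≤ ε := by
  obtain ⟨C0, hC0, hE⟩ := Eul_le
  have hk : 0 < C0 ^ Fintype.card ι := by positivity
  filter_upwards [hE D, nonsq c bump_big hη (half_pos hε) D 2,
    nonsq (κ := Fin 0) (fun i => i.elim0) bump_big hη (div_pos (half_pos hε) hk) D
      (Fintype.card ι + 2), eventually_gt_atTop 0] with l hE h1 h2 hl x y x' y'
  have a1 := h1 x y x' y'
  have a3 := h2 (fun i => i.elim0) (fun i => i.elim0) (fun i => i.elim0) (fun i => i.elim0)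
  simp only [univ_eq_empty, prod_empty, mul_one] at a3
  have hL : 0 < cW D * l := mul_pos (cW_pos D) hl
  have hL1 : cW D * l ≤ l := mul_le_of_le_one_left hl.le (cW_le_one D)
  have hEk : Eul (PP D l) ^ Fintype.card ι ≤ (C0 * l) ^ Fintype.card ι :=
    pow_le_pow_left₀ (le_trans zero_le_one (one_le_Eul two_le_PP)) (hE.trans (by gcongr)) _
  set S := (range (NN l)).filter (fun m => ∃ p : ℕ, p.Prime ∧ η * l < log p ∧ p * p ∣ m)
  have b1 : ∑ m ∈ S, wg big l m * |fl c D l x y x' y' m| ≤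
      ∑ m ∈ S, wg big l m *
          ∏ i, |XW D l (x i) (y i) (m + c i) * XW D l (x' i) (y' i) (m + c i)| +
        (C0 * l) ^ Fintype.card ι * ∑ m ∈ S, wg big l m := by
    rw [mul_sum, ← sum_add_distrib]
    refine sum_le_sum fun m _ => ?_
    have hw := wg_big_nonneg l m
    have i1 := abs_fl_le c D l x y x' y' m
    have i3 := mul_le_mul_of_nonneg_left (i1.trans (add_le_add le_rfl hEk)) hw
    linarith
  have b0 : 0 ≤ ∑ m ∈ S, wg big l m * |fl c D l x y x' y' m| :=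
    sum_nonneg fun m _ => mul_nonneg (wg_big_nonneg l m) (abs_nonneg _)
  have b2 : (cW D * l) ^ 2 * ∑ m ∈ S, wg big l m * |fl c D l x y x' y' m| ≤
      l ^ 2 * ∑ m ∈ S, wg big l m * |fl c D l x y x' y' m| := by gcongr
  have b3 := mul_le_mul_of_nonneg_left b1 (sq_nonneg l)
  rw [le_div_iff₀ hk] at a3
  have b4 : l ^ 2 * ((C0 * l) ^ Fintype.card ι * ∑ m ∈ S, wg big l m) =
      l ^ (Fintype.card ι + 2) * (∑ m ∈ S, wg big l m) * C0 ^ Fintype.card ι := by
    rw [mul_pow]; ring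
  nlinarith

theorem prod_close {a a' g g' L K e : ℝ} (hL : 0 ≤ L) (hK : 0 ≤ K) (he : 0 ≤ e) (he1 : e ≤ 1)
    (h1 : |a - L * g| ≤ e * L) (h2 : |a' - L * g'| ≤ e * L) (hg : |g| ≤ 2 * K)
    (hg' : |g'| ≤ 2 * K) : |a * a' - L ^ 2 * (g * g')| ≤ e * (4 * K + 1) * L ^ 2 := by
  have e1 : a * a' - L ^ 2 * (g * g') =
      (a - L * g) * (a' - L * g') + ((a - L * g) * (L * g') + (L * g) * (a' - L * g')) := by ring
  have b1 : |(a - L * g) * (a' - L * g')| ≤ (e * L) * (1 * L) := by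
    rw [abs_mul]
    exact mul_le_mul h1 (h2.trans (by gcongr)) (abs_nonneg _) (by positivity)
  have b2 : |(a - L * g) * (L * g')| ≤ (e * L) * (L * (2 * K)) := by
    rw [abs_mul, abs_mul, abs_of_nonneg hL]; gcongr
  have b3 : |(L * g) * (a' - L * g')| ≤ (L * (2 * K)) * (e * L) := by
    rw [abs_mul, abs_mul, abs_of_nonneg hL]; gcongr
  rw [e1]
  have i1 := abs_add_le ((a - L * g) * (a' - L * g'))
    ((a - L * g) * (L * g') + (L * g) * (a' - L * g'))
  have i2 := abs_add_le ((a - L * g) * (L * g')) ((L * g) * (a' - L * g'))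
  nlinarith

end KeyA

open KeyA

open Classical in
/-- On rough squarefree composite numbers the other coordinates are independent. -/
theorem key {ι : Type*} [Fintype ι] [DecidableEq ι] (c : ι → ℤ) (hc0 : ∀ i, c i ≠ 0)
    (hc : Function.Injective c) {ψ : ℝ → ℝ} {s0 s1 : ℝ} (hψ : Bump ψ s0 s1) (h4 : 4 < s0)
    (h41 : s1 ≤ 41 / 10) (u : ℕ → ℝ) (hu : ∀ r, |u r| ≤ 1) (hu0 : u 0 = 0) (hu1 : u 1 = 0)
    {η ε : ℝ} (hη : 0 < η) (hη1 : η ≤ 1 / 10) (hε : 0 < ε) :
    ∃ D1 : ℕ, ∀ D ≥ D1, ∀ᶠ l : ℝ in atTop, ∀ (b : ℕ) (x0 y0 x0' y0' : ℝ) (x y x' y' : ι → ℝ),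
      Nat.Coprime b (primorial D) →
      0 ≤ x0 → x0 ≤ y0 → y0 ≤ 2 → 0 ≤ x0' → x0' ≤ y0' → y0' ≤ 2 →
      (∀ i, 0 ≤ y i) → (∀ i, 0 ≤ y' i) → ∑ i, y i ≤ 3 / 2 → ∑ i, y' i ≤ 3 / 2 →
      ∑ i, (y i + y' i) ≤ 2 →
      |∑ m ∈ (cls l (primorial D) b).filter (RS η l),
          wg ψ l m * u m.primeFactors.card * (XW D l x0 y0 m * XW D l x0' y0' m) *
            (∏ i, (XW D l (x i) (y i) (m + c i) * XW D l (x' i) (y' i) (m + c i))
              - ∏ i, ipW D l (x i) (y i) (x' i) (y' i))|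
        ≤ ε * scale D l (Fintype.card ι + 1) := by
  obtain ⟨C0, hC0, hE⟩ := Eul_le
  obtain ⟨C1, hC1, D1, h1⟩ := maj c hc0 hc hψ hη hη1
  obtain ⟨C2, hC2, D2, h2⟩ := maj c hc0 hc bump_big hη hη1
  obtain ⟨K, hK1, hK⟩ : ∃ K : ℝ, 1 ≤ K ∧ ∀ r : ℕ, (r : ℝ) ≤ 5 / η → (2 : ℝ) ^ r ≤ K :=
    ⟨2 ^ ⌊5 / η⌋₊, one_le_pow₀ one_le_two, fun r hr =>
      pow_le_pow_right₀ one_le_two (Nat.le_floor hr)⟩
  obtain ⟨e1, he1, he1', he1''⟩ : ∃ e1 : ℝ, 0 < e1 ∧ e1 ≤ 1 ∧ e1 * (4 * K + 1) * C1 ≤ ε / 4 := by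
    refine ⟨min 1 (ε / 4 / ((4 * K + 1) * C1)), by positivity, min_le_left _ _, ?_⟩
    rw [mul_assoc, ← le_div_iff₀ (by positivity)]
    exact min_le_right _ _
  set B : ℝ := 5 / η * (20 * (24 * K ^ 2)) with hB
  have hB0 : 0 < B := by positivity
  obtain ⟨κ, hκ, hκ1, hκ2⟩ : ∃ κ : ℝ, 0 < κ ∧ κ ≤ 1 / 20 ∧ κ * (B * C2) ≤ ε / 4 := by
    refine ⟨min (1 / 20) (ε / 4 / (B * C2)), by positivity, min_le_left _ _, ?_⟩
    rw [← le_div_iff₀ (by positivity)]
    exact min_le_right _ _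
  obtain ⟨J, hJ⟩ := exists_nat_ge (5 / κ)
  obtain ⟨e2, he2, he2'⟩ : ∃ e2 : ℝ, 0 < e2 ∧
      e2 * (J * (24 * K ^ 2) * C0 ^ Fintype.card ι) ≤ ε / 4 := by
    refine ⟨ε / 4 / (J * (24 * K ^ 2) * C0 ^ Fintype.card ι + 1), by positivity, ?_⟩
    rw [div_mul_eq_mul_div, div_le_iff₀ (by positivity)]
    nlinarith
  obtain ⟨D3, h3⟩ := Xapprox hη he1
  obtain ⟨D4, h5⟩ := bp c hc0 hc hη (by linarith) (sub_pos.2 h4) he2
  refine ⟨max (max D1 D2) (max D3 D4), fun D hD => ?_⟩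
  simp only [ge_iff_le, max_le_iff] at hD
  filter_upwards [hE D, h1 D hD.1.1, h2 D hD.1.2, h3 D hD.2.1, h5 D hD.2.2,
    nsq c hη (show 0 < ε / 4 / B by positivity) D, one_le_scale D (Fintype.card ι + 1),
    eventually_gt_atTop 0]
    with l hE h1 h2 h3 h5 h6 h7 hl b x0 y0 x0' y0' x y x' y' hb a1 a2 a3 a4 a5 a6 hy hy' hs hs' hss
  have hL : 0 < cW D * l := mul_pos (cW_pos D) hl
  have hKl : ∀ k : ℕ, k ≠ 0 → Rough η l k → log k ≤ 5 * l →
      (2 : ℝ) ^ k.primeFactors.card ≤ K := fun k hk hr h =>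
    hK _ (omega_le_of_rough hη hl hk hr h)
  obtain ⟨v, hv1, hv2⟩ := fl_eq c D (l := l) x y x' y'
  have hbil : ∀ j, |∑ p ∈ range (NN l), ∑ k ∈ range (NN l), if p * k ≡ b [MOD primorial D] then
      al η l κ j p * be ψ u η l x0 y0 x0' y0' κ (24 * K ^ 2) j k * fl c D l x y x' y' (p * k)
        else 0| ≤ e2 * Eul (PP D l) ^ Fintype.card ι / (Nat.totient (primorial D) : ℝ) := by
    intro j
    have := h5 b v (fun _ => Eul (PP D l)) (fun i => y i * l + y' i * l) (al η l κ j)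
      (be ψ u η l x0 y0 x0' y0' κ (24 * K ^ 2) j) (max η (j * κ)) (max η (s0 - j * κ)) hb hv1
      (by simp only [← add_mul, ← sum_mul]; gcongr) (le_max_left _ _) (le_max_left _ _)
      (by linarith [le_max_right η (j * κ), le_max_right η (s0 - j * κ)])
      (fun p hp => al_supp hp hl hκ) (abs_al_le j) (fun k hk => be_supp hψ hu1 hl hk)
      (abs_be_le hψ hu a2 (by linarith) a5 (by linarith) hl hκ hK1 hKl j)
    simp only [hv2]
    simpa only [prod_const, card_univ] using this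
  have m1 := core hψ h4 h41 hu hu0 hη a2 (by linarith) a5 (by linarith) hl hκ hκ1 hK1 hKl hJ
    (primorial D) b (fl c D l x y x' y') hbil
  have m2 := h1 b x y x' y' hy hy' hs hs'
  have m3 := h2 b x y x' y' hy hy' hs hs'
  have m4 := h6 x y x' y'
  have m5 : |∑ m ∈ (cls l (primorial D) b).filter (RS η l),
        wg ψ l m * u m.primeFactors.card * (XW D l x0 y0 m * XW D l x0' y0' m) *
          fl c D l x y x' y' m -
      (cW D * l) ^ 2 * ∑ m ∈ (cls l (primorial D) b).filter (RS η l),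
        wg ψ l m * u m.primeFactors.card * (Gt l x0 y0 m * Gt l x0' y0' m) *
          fl c D l x y x' y' m| ≤
      e1 * (4 * K + 1) * ((cW D * l) ^ 2 * ∑ m ∈ (cls l (primorial D) b).filter (Rough η l),
        wg ψ l m * |fl c D l x y x' y' m|) := by
    rw [mul_sum, ← sum_sub_distrib]
    refine (abs_sum_le_sum_abs _ _).trans ?_
    rw [mul_sum, mul_sum]
    refine le_trans (sum_le_sum (g := fun m => e1 * (4 * K + 1) * ((cW D * l) ^ 2 *
      (wg ψ l m * |fl c D l x y x' y' m|))) fun m hm => ?_)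
      (sum_le_sum_of_subset_of_nonneg (fun m hm => ?_) fun m _ _ => ?_)
    · obtain ⟨hm1, hm2⟩ := mem_filter.1 hm
      have hmN : m < NN l := mem_range.1 (mem_filter.1 hm1).1
      have hm0 : m ≠ 0 := hm2.1.ne_zero
      have hKm := hKl m hm0 hm2.2 ((lt_NN hm0).1 hmN).le
      have i1 := prod_close hL.le (by linarith : 0 ≤ K) he1.le he1' (h3 m x0 y0 hm2 hmN a1 a2 a3)
        (h3 m x0' y0' hm2 hmN a4 a5 a6)
        ((abs_Gt_le a2 (by linarith) m).trans (by linarith))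
        ((abs_Gt_le a5 (by linarith) m).trans (by linarith))
      have hw := wg_nonneg hψ l m
      have e : wg ψ l m * u m.primeFactors.card * (XW D l x0 y0 m * XW D l x0' y0' m) *
            fl c D l x y x' y' m - (cW D * l) ^ 2 * (wg ψ l m * u m.primeFactors.card *
            (Gt l x0 y0 m * Gt l x0' y0' m) * fl c D l x y x' y' m) =
          wg ψ l m * u m.primeFactors.card * (XW D l x0 y0 m * XW D l x0' y0' m -
            (cW D * l) ^ 2 * (Gt l x0 y0 m * Gt l x0' y0' m)) * fl c D l x y x' y' m := by ring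
      rw [e, abs_mul, abs_mul, abs_mul, abs_of_nonneg hw]
      have i2 := hu m.primeFactors.card
      calc _ ≤ wg ψ l m * 1 * (e1 * (4 * K + 1) * (cW D * l) ^ 2) * |fl c D l x y x' y' m| := by
            gcongr
        _ = _ := by ring
    · exact mem_filter.2 ⟨(mem_filter.1 hm).1, (mem_filter.1 hm).2.2⟩
    · have hw := wg_nonneg hψ l m
      positivity
  have hW : (0 : ℝ) < primorial D := by exact_mod_cast primorial_pos D
  have hφ : (0 : ℝ) < Nat.totient (primorial D) := by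
    exact_mod_cast Nat.totient_pos.2 (primorial_pos D)
  have m6 : (cW D * l) ^ 2 * (J * (24 * K ^ 2) *
      (e2 * Eul (PP D l) ^ Fintype.card ι / (Nat.totient (primorial D) : ℝ))) ≤
      ε / 4 * scale D l (Fintype.card ι + 1) := by
    have hEk : Eul (PP D l) ^ Fintype.card ι ≤ (C0 * (cW D * l)) ^ Fintype.card ι :=
      pow_le_pow_left₀ (le_trans zero_le_one (one_le_Eul two_le_PP)) hE _
    have e : scale D l (Fintype.card ι + 1) =
        (cW D * l) ^ 2 * (cW D * l) ^ Fintype.card ι / (Nat.totient (primorial D) : ℝ) := by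
      have e0 : l / (primorial D : ℝ) = cW D * l / (Nat.totient (primorial D) : ℝ) := by
        unfold cW
        field_simp
      unfold scale
      rw [e0]
      ring
    calc _ ≤ (cW D * l) ^ 2 * (J * (24 * K ^ 2) *
          (e2 * (C0 * (cW D * l)) ^ Fintype.card ι / (Nat.totient (primorial D) : ℝ))) := by
          gcongr
      _ = e2 * (J * (24 * K ^ 2) * C0 ^ Fintype.card ι) * scale D l (Fintype.card ι + 1) := by
          rw [e, mul_pow C0]; ring
      _ ≤ _ := by gcongr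
  set S := scale D l (Fintype.card ι + 1)
  have n1 : e1 * (4 * K + 1) * (C1 * S) ≤ ε / 4 * S := by
    rw [← mul_assoc]; gcongr
  have n2 : B * κ * (C2 * S) ≤ ε / 4 * S := by
    rw [show B * κ * (C2 * S) = κ * (B * C2) * S by ring]; gcongr
  have n3 : B * (ε / 4 / B) ≤ ε / 4 * S := by
    rw [mul_div_cancel₀ _ hB0.ne']
    exact le_mul_of_one_le_right (by positivity) h7
  have n4 := mul_le_mul_of_nonneg_left m1 (sq_nonneg (cW D * l))
  have n5 := mul_le_mul_of_nonneg_left m2 (show 0 ≤ e1 * (4 * K + 1) by positivity)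
  have n6 := mul_le_mul_of_nonneg_left m3 (show 0 ≤ B * κ by positivity)
  have n7 := mul_le_mul_of_nonneg_left m4 hB0.le
  rw [← abs_of_nonneg (sq_nonneg (cW D * l)), ← abs_mul, abs_of_nonneg (sq_nonneg (cW D * l))]
    at n4
  have n8 := abs_sub_abs_le_abs_sub (∑ m ∈ (cls l (primorial D) b).filter (RS η l),
        wg ψ l m * u m.primeFactors.card * (XW D l x0 y0 m * XW D l x0' y0' m) *
          fl c D l x y x' y' m)
    ((cW D * l) ^ 2 * ∑ m ∈ (cls l (primorial D) b).filter (RS η l),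
        wg ψ l m * u m.primeFactors.card * (Gt l x0 y0 m * Gt l x0' y0' m) *
          fl c D l x y x' y' m)
  change |∑ m ∈ (cls l (primorial D) b).filter (RS η l),
        wg ψ l m * u m.primeFactors.card * (XW D l x0 y0 m * XW D l x0' y0' m) *
          fl c D l x y x' y' m| ≤ _
  nlinarith

end Pool.Agent.Lib.Tup
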