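import Pool.Agent.Lib.Tup.Lvl1
import Pool.Agent.Lib.Tup.Disc
import Pool.Agent.Lib.Tup.Xap
import Pool.Agent.Lib.Tup.MajA

namespace Pool.Agent.Lib.Tup
open Finset Real Filter

theorem ma_lin (D : ℕ) (l x y x' y' : ℝ) :
    ∃ v : Finset ℕ → ℝ, Nrm v (Eul (PP D l)) (y * l + y' * l) ∧ v ∅ = ipW D l x y x' y' ∧
      ∀ m : ℤ, XW D l x y m * XW D l x' y' m = X (PP D l) v m := by
  refine linearize ma_PP_two (win (x * l) (y * l)) (win (x' * l) (y' * l))
    (fun s => ma_abs_win_le _ _ s) ?_ ?_ ?_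
  · intro t _
    rw [← sum_wt_eq]
    refine sum_le_sum fun C hC => ?_
    have hw : 0 ≤ wt C := wt_nonneg fun q hq => ma_PP_two q (mem_powerset.mp hC hq)
    exact mul_le_of_le_one_left hw (ma_abs_win_le _ _ _)
  · intro s _ h
    unfold win at h
    split_ifs at h with h1
    · exact h1.2.le
    · exact absurd rfl h
  · intro s _ h
    unfold win at h
    split_ifs at h with h1
    · exact h1.2.le
    · exact absurd rfl h

/-- Level one asymptotics for products of window sums. -/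
theorem prod_main {κ : Type*} [Fintype κ] [DecidableEq κ] (c : κ → ℤ) (hc : Function.Injective c)
    {ψ : ℝ → ℝ} {s0 s1 : ℝ} (hψ : Bump ψ s0 s1) {ε : ℝ} (hε : 0 < ε) :
    ∃ D1 : ℕ, ∀ D ≥ D1, ∀ᶠ l : ℝ in atTop, ∀ (b : ℕ) (x y x' y' : κ → ℝ),
      (∀ i, 0 ≤ y i) → (∀ i, 0 ≤ y' i) → ∑ i, (y i + y' i) ≤ 17 / 5 →
      |∑ m ∈ cls l (primorial D) b, wg ψ l m *
            ∏ i, (XW D l (x i) (y i) (m + c i) * XW D l (x' i) (y' i) (m + c i))
          - TT ψ l / (primorial D : ℝ) * ∏ i, ipW D l (x i) (y i) (x' i) (y' i)|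
        ≤ ε * scale D l (Fintype.card κ) := by
  obtain ⟨C0, hC0, hE⟩ := Eul_le
  set k := Fintype.card κ with hk
  have hC0k : 0 < C0 ^ k := by positivity
  have hε1 : 0 < ε / (2 * C0 ^ k) := by positivity
  obtain ⟨D0, C, hC, hl1⟩ := lvl1 κ hε1
  refine ⟨max D0 (∑ i, ∑ j, (c i - c j).natAbs), fun D hD => ?_⟩
  have hW := ma_W_pos D
  filter_upwards [hE D, disc hψ, TT_le hψ, eventually_ge_atTop (0 : ℝ),
    eventually_ge_atTop (10 * C * (primorial D : ℝ) / (ε / (2 * C0 ^ k)))]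
    with l hEl hdisc hT hl0 hlC b x y x' y' _ _ hsum
  choose v hv hv0 hvX using fun i => ma_lin D l (x i) (y i) (x' i) (y' i)
  have hP : ∀ q ∈ PP D l, q.Prime ∧ D0 < q ∧ ¬ q ∣ primorial D ∧
      ∀ i j, i ≠ j → ¬ (q : ℤ) ∣ c i - c j := by
    intro q hq
    obtain ⟨h1, h2, _⟩ := mem_PP.mp hq
    refine ⟨h1, lt_of_le_of_lt (le_of_max_le_left hD) h2, not_dvd_primorial h1 h2, ?_⟩
    intro i j hij
    refine ma_not_dvd (sub_ne_zero.mpr fun h => hij (hc h)) ?_ h2
    refine le_trans ?_ (le_of_max_le_right hD)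
    calc (c i - c j).natAbs ≤ ∑ j, (c i - c j).natAbs :=
          single_le_sum (f := fun j => (c i - c j).natAbs) (fun _ _ => Nat.zero_le _) (mem_univ j)
      _ ≤ _ := single_le_sum (f := fun i => ∑ j, (c i - c j).natAbs)
          (fun _ _ => Nat.zero_le _) (mem_univ i)
  have h := hl1 (PP D l) (primorial D) b (NN l) c (wg ψ l) (TT ψ l) (10 * exp (-(19 / 5 * l)))
    v (fun _ => Eul (PP D l)) (fun i => y i * l + y' i * l) (primorial_pos D) hP hdisc hv
  simp only [hvX, ← hv0]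
  refine h.trans ?_
  rw [prod_const, card_univ, ← hk]
  have hE0 : 0 ≤ Eul (PP D l) := zero_le_one.trans (one_le_Eul ma_PP_two)
  have hcl : 0 ≤ cW D * l := mul_nonneg (cW_pos D).le hl0
  have e1 : ∑ i, (y i * l + y' i * l) ≤ 17 / 5 * l := by
    have : ∑ i, (y i * l + y' i * l) = (∑ i, (y i + y' i)) * l := by
      rw [sum_mul]; exact sum_congr rfl fun i _ => by ring
    rw [this]; exact mul_le_mul_of_nonneg_right hsum hl0
  have e2 : exp (-(19 / 5 * l)) * exp (11 / 10 * ∑ i, (y i * l + y' i * l)) ≤ 1 := by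
    rw [← exp_add]; apply exp_le_one_iff.mpr; linarith
  have e3 : C * (10 * exp (-(19 / 5 * l))) * exp (11 / 10 * ∑ i, (y i * l + y' i * l))
      ≤ ε / (2 * C0 ^ k) * l / (primorial D : ℝ) := by
    calc _ = 10 * C * (exp (-(19 / 5 * l)) * exp (11 / 10 * ∑ i, (y i * l + y' i * l))) := by ring
      _ ≤ 10 * C * 1 := by gcongr
      _ ≤ _ := by
        rw [le_div_iff₀ hW]
        rw [div_le_iff₀ hε1] at hlC
        linarith
  have e4 : ε / (2 * C0 ^ k) * |TT ψ l| / (primorial D : ℝ)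
      ≤ ε / (2 * C0 ^ k) * l / (primorial D : ℝ) := by
    rw [abs_of_nonneg hT.1]; gcongr; exact hT.2
  calc _ ≤ (C0 * (cW D * l)) ^ k * (ε / (2 * C0 ^ k) * l / (primorial D : ℝ)
        + ε / (2 * C0 ^ k) * l / (primorial D : ℝ)) := by
        refine mul_le_mul (pow_le_pow_left₀ hE0 hEl k) (add_le_add e4 e3) ?_ (by positivity)
        positivity
    _ = _ := by
        rw [scale, mul_pow]; field_simp; ring

theorem ma_ipW_le (D : ℕ) (l x y x' y' : ℝ) :
    0 ≤ ipW D l x y x' y' ∧ ipW D l x y x' y' ≤ Eul (PP D l) := by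
  constructor
  · refine sum_nonneg fun A hA => ?_
    have hw : 0 ≤ wt A := wt_nonneg fun q hq => ma_PP_two q (mem_powerset.mp hA hq)
    exact mul_nonneg (mul_nonneg (ma_win_nonneg _ _ _) (ma_win_nonneg _ _ _)) hw
  · rw [← sum_wt_eq]
    refine sum_le_sum fun A hA => ?_
    have hw : 0 ≤ wt A := wt_nonneg fun q hq => ma_PP_two q (mem_powerset.mp hA hq)
    refine mul_le_of_le_one_left hw ?_
    exact mul_le_one₀ ((le_abs_self _).trans (ma_abs_win_le _ _ _)) (ma_win_nonneg _ _ _)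
      ((le_abs_self _).trans (ma_abs_win_le _ _ _))

theorem ma_XW_rough {D : ℕ} {η l : ℝ} {m : ℕ} (hm : Rough η l m) :
    XW D l 0 η m = ipW D l 0 η 0 η := by
  unfold XW X ipW
  refine sum_congr rfl fun A hA => ?_
  change win (0 * l) (η * l) (sz A) * chiP A m = _
  unfold win
  by_cases h : 0 * l ≤ sz A ∧ sz A < η * l
  · rw [if_pos h, one_mul, one_mul, one_mul, chiP, wt]
    refine prod_congr rfl fun q hq => ?_
    have hqP := mem_PP.mp (mem_powerset.mp hA hq)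
    have hle : log q ≤ sz A :=
      single_le_sum (f := fun q : ℕ => log q) (fun q _ => log_natCast_nonneg q) hq
    rw [chi, if_neg]
    intro hd
    have := hm q hqP.1 (Int.natCast_dvd_natCast.mp hd)
    linarith [h.2]
  · rw [if_neg h]; simp

open Classical in
/-- Sieve majorant for rough numbers. -/
theorem rough_major {ι : Type*} [Fintype ι] [DecidableEq ι] (c : ι → ℤ) (hc0 : ∀ i, c i ≠ 0)
    (hc : Function.Injective c) {ψ : ℝ → ℝ} {s0 s1 : ℝ} (hψ : Bump ψ s0 s1)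
    {η : ℝ} (hη : 0 < η) (hη1 : η ≤ 1 / 10) :
    ∃ C : ℝ, 0 ≤ C ∧ ∃ D1 : ℕ, ∀ D ≥ D1, ∀ᶠ l : ℝ in atTop, ∀ (b : ℕ) (x y : ι → ℝ),
      (∀ i, 0 ≤ y i) → ∑ i, y i ≤ 3 / 2 →
      (cW D * l) ^ 2 * ∑ m ∈ (cls l (primorial D) b).filter (Rough η l),
          wg ψ l m * ∏ i, XW D l (x i) (y i) (m + c i) ^ 2
        ≤ C * scale D l (Fintype.card ι + 1) := by
  obtain ⟨C0, hC0, hE⟩ := Eul_le
  set k := Fintype.card ι with hk
  have hc' : Function.Injective (fun o : Option ι => o.elim (0 : ℤ) c) := by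
    rintro (_ | i) (_ | j) h
    · rfl
    · exact absurd h.symm (hc0 j)
    · exact absurd h (hc0 i)
    · exact congrArg some (hc h)
  obtain ⟨D1, h1⟩ := prod_main _ hc' hψ one_pos
  obtain ⟨D2, h2⟩ := ipW_approx (show 0 < η / 2 by positivity)
  refine ⟨4 * (C0 ^ (k + 1) + 1) / η ^ 2, by positivity, max D1 D2, fun D hD => ?_⟩
  have hW := ma_W_pos D
  filter_upwards [h1 D (le_of_max_le_left hD), h2 D (le_of_max_le_right hD), hE D, TT_le hψ,
    eventually_ge_atTop (0 : ℝ)] with l hl1 hl2 hEl hT hl0 b x y hy hsum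
  have hy' : ∀ o : Option ι, 0 ≤ o.elim η y := by
    rintro (_ | i)
    · exact hη.le
    · exact hy i
  have hs : ∑ o : Option ι, (o.elim η y + o.elim η y) ≤ 17 / 5 := by
    rw [Fintype.sum_option]
    simp only [Option.elim, sum_add_distrib]
    linarith
  have h := hl1 b (fun o => o.elim 0 x) (fun o => o.elim η y) (fun o => o.elim 0 x)
    (fun o => o.elim η y) hy' hy' hs
  have hcl : 0 ≤ cW D * l := mul_nonneg (cW_pos D).le hl0
  have hip : η / 2 * (cW D * l) ≤ ipW D l 0 η 0 η := by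
    have := (abs_le.mp (hl2 0 η le_rfl hη.le (by linarith))).1
    nlinarith
  have hmain : TT ψ l / (primorial D : ℝ) * ∏ o : Option ι,
      ipW D l (o.elim 0 x) (o.elim η y) (o.elim 0 x) (o.elim η y)
      ≤ C0 ^ (k + 1) * scale D l (k + 1) := by
    have hp : ∏ o : Option ι, ipW D l (o.elim 0 x) (o.elim η y) (o.elim 0 x) (o.elim η y)
        ≤ (C0 * (cW D * l)) ^ (k + 1) := by
      calc _ ≤ ∏ _o : Option ι, C0 * (cW D * l) :=
            prod_le_prod (fun o _ => (ma_ipW_le _ _ _ _ _ _).1)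
              (fun o _ => (ma_ipW_le _ _ _ _ _ _).2.trans hEl)
        _ = _ := by rw [prod_const, card_univ, Fintype.card_option]
    calc _ ≤ l / (primorial D : ℝ) * (C0 * (cW D * l)) ^ (k + 1) := by
          refine mul_le_mul (by gcongr; exact hT.2) hp
            (prod_nonneg fun o _ => (ma_ipW_le _ _ _ _ _ _).1) (by positivity)
      _ = _ := by rw [scale, mul_pow]; ring
  rw [Fintype.card_option, ← hk, one_mul] at h
  have hup := (abs_le.mp h).2
  have hlow : (η / 2 * (cW D * l)) ^ 2 * ∑ m ∈ (cls l (primorial D) b).filter (Rough η l),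
      wg ψ l m * ∏ i, XW D l (x i) (y i) (m + c i) ^ 2
      ≤ ∑ m ∈ cls l (primorial D) b, wg ψ l m * ∏ o : Option ι,
        (XW D l (o.elim 0 x) (o.elim η y) (m + o.elim (0 : ℤ) c) *
          XW D l (o.elim 0 x) (o.elim η y) (m + o.elim (0 : ℤ) c)) := by
    rw [mul_sum]
    refine le_trans (sum_le_sum fun m hm => ?_) (sum_le_sum_of_subset_of_nonneg
      (filter_subset (Rough η l) _) fun m _ _ =>
        mul_nonneg (wg_nonneg hψ l m) (prod_nonneg fun o _ => mul_self_nonneg _))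
    rw [Fintype.prod_option]
    simp only [Option.elim, add_zero, ← sq]
    rw [ma_XW_rough (mem_filter.mp hm).2]
    have hw := wg_nonneg hψ l m
    have hpr : 0 ≤ ∏ i, XW D l (x i) (y i) (m + c i) ^ 2 := prod_nonneg fun i _ => sq_nonneg _
    have hsq : (η / 2 * (cW D * l)) ^ 2 ≤ ipW D l 0 η 0 η ^ 2 :=
      pow_le_pow_left₀ (by positivity) hip 2
    calc _ = wg ψ l m * ((η / 2 * (cW D * l)) ^ 2 * ∏ i, XW D l (x i) (y i) (m + c i) ^ 2) := by
          ring
      _ ≤ _ := by gcongr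
  have hη2 : 0 < η ^ 2 := by positivity
  rw [div_mul_eq_mul_div, le_div_iff₀ hη2]
  nlinarith

open Classical in
theorem ma_sq_sum {η l : ℝ} (hl : 0 ≤ l) :
    ∑ m ∈ (range (NN l)).filter
        (fun m => ∃ p : ℕ, p.Prime ∧ η * l < log p ∧ p * p ∣ m), 1 / (m : ℝ)
      ≤ 2 * exp (-(η * l)) * (1 + 5 * l) := by
  set Y := exp (η * l) with hY
  have hYpos : 0 < Y := exp_pos _
  set S := (range (NN l)).filter (fun m => ∃ p : ℕ, p.Prime ∧ η * l < log p ∧ p * p ∣ m)
  set T := Ioo ⌊Y⌋₊ (NN l) ×ˢ range (NN l)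
  have hsub : S.erase 0 ⊆ T.image (fun z : ℕ × ℕ => z.1 * z.1 * z.2) := by
    intro m hm
    obtain ⟨hm0, hmS⟩ := mem_erase.mp hm
    obtain ⟨hmN, p, hp, hpl, j, hj⟩ := mem_filter.mp hmS
    have hmN' := mem_range.mp hmN
    have hj0 : 0 < j := by
      rcases Nat.eq_zero_or_pos j with h | h
      · rw [h] at hj; exact absurd hj hm0
      · exact h
    have hp0 := hp.pos
    refine mem_image.mpr ⟨(p, j), mem_product.mpr ⟨mem_Ioo.mpr ⟨?_, ?_⟩, mem_range.mpr ?_⟩, hj.symm⟩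
    · apply (Nat.floor_lt hYpos.le).mpr
      rw [hY]
      exact (lt_log_iff_exp_lt (by exact_mod_cast hp0)).mp hpl
    · have : p ≤ p * p * j := by
        calc p = p * 1 * 1 := by ring
          _ ≤ p * p * j := by gcongr <;> omega
      change p < NN l
      omega
    · have : j ≤ p * p * j := Nat.le_mul_of_pos_left _ (by positivity)
      change j < NN l
      omega
  have h1 : ∑ m ∈ S, 1 / (m : ℝ) = ∑ m ∈ S.erase 0, 1 / (m : ℝ) :=
    (sum_erase S (by simp)).symm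
  have h2 : ∑ m ∈ (T.image (fun z : ℕ × ℕ => z.1 * z.1 * z.2) : Finset ℕ), 1 / ((m : ℕ) : ℝ)
      ≤ ∑ z ∈ T, 1 / ((z.1 * z.1 * z.2 : ℕ) : ℝ) :=
    sum_image_le_of_nonneg (f := fun m : ℕ => 1 / (m : ℝ)) (fun _ _ => by positivity)
  have h3 : ∑ z ∈ T, 1 / ((z.1 * z.1 * z.2 : ℕ) : ℝ)
      = (∑ p ∈ Ioo ⌊Y⌋₊ (NN l), ((p : ℝ) ^ 2)⁻¹) * ∑ j ∈ range (NN l), 1 / (j : ℝ) := by
    rw [sum_mul_sum, sum_product]
    refine sum_congr rfl fun p _ => sum_congr rfl fun j _ => ?_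
    push_cast
    rw [one_div, one_div, mul_inv, sq]
  have h4 : ∑ p ∈ Ioo ⌊Y⌋₊ (NN l), ((p : ℝ) ^ 2)⁻¹ ≤ 2 * exp (-(η * l)) := by
    refine (sum_Ioo_inv_sq_le _ _).trans ?_
    rw [exp_neg, ← hY, ← div_eq_mul_inv]
    gcongr
    exact (Nat.lt_floor_add_one Y).le
  rw [h1]
  refine (sum_le_sum_of_subset_of_nonneg hsub fun _ _ _ => by positivity).trans (h2.trans ?_)
  rw [h3]
  exact mul_le_mul h4 (ma_harm hl) (sum_nonneg fun _ _ => by positivity) (by positivity)

open Classical in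
/-- Numbers divisible by the square of a large prime are negligible. -/
theorem nonsq {κ : Type*} [Fintype κ] (c : κ → ℤ) {ψ : ℝ → ℝ} {s0 s1 : ℝ} (hψ : Bump ψ s0 s1)
    {η ε : ℝ} (hη : 0 < η) (hε : 0 < ε) (D r : ℕ) :
    ∀ᶠ l : ℝ in atTop, ∀ (x y x' y' : κ → ℝ),
      l ^ r * ∑ m ∈ (range (NN l)).filter
          (fun m => ∃ p : ℕ, p.Prime ∧ η * l < log p ∧ p * p ∣ m),
        wg ψ l m * ∏ i, |XW D l (x i) (y i) (m + c i) * XW D l (x' i) (y' i) (m + c i)| ≤ ε := by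
  obtain ⟨C0, hC0, hE⟩ := Eul_le
  set k := Fintype.card κ with hk
  have ha : 0 < η / (4 * (k + 1)) := by positivity
  obtain ⟨C, hC, hω⟩ := ma_omega (show (0 : ℝ) ≤ 2 by norm_num) ha
  filter_upwards [hE D, ma_shift c, eventually_ge_atTop (1 : ℝ),
    ma_decay (12 * (C * C0) ^ (2 * k)) (r + 2 * k + 1) (half_pos hη) hε]
    with l hEl hsh hl1 hdec x y x' y'
  have hl0 : 0 < l := by linarith
  set B := C * exp (η / (4 * (k + 1)) * l) * (C0 * l) with hB
  have hB0 : 0 ≤ B := by positivity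
  have hterm : ∀ m ∈ (range (NN l)).filter
      (fun m => ∃ p : ℕ, p.Prime ∧ η * l < log p ∧ p * p ∣ m),
      wg ψ l m * ∏ i, |XW D l (x i) (y i) (m + c i) * XW D l (x' i) (y' i) (m + c i)|
        ≤ B ^ (2 * k) * (1 / (m : ℝ)) := by
    intro m _
    by_cases h0 : ψ (log m / l) = 0
    · rw [wg, h0, zero_div, zero_mul]; positivity
    obtain ⟨hs0, hs1⟩ := hψ.supp _ h0
    have hlo : l ≤ log m := by
      have := (le_div_iff₀ hl0).mp (hψ.lo.trans hs0); linarith
    have hhi : log m ≤ 10 * l := by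
      have := (div_le_iff₀ hl0).mp (hs1.trans hψ.hi); linarith
    have hX : ∀ i (u w : ℝ), |XW D l u w (m + c i)| ≤ B := by
      intro i u w
      obtain ⟨hne, hlog⟩ := hsh m hlo hhi i
      refine (abs_X_le (fun q hq => (mem_PP.mp hq).1) (fun A => ma_abs_win_le _ _ _) hne).trans ?_
      refine mul_le_mul (hω l _ (Int.natAbs_ne_zero.mpr hne) hlog) (hEl.trans ?_)
        (zero_le_one.trans (one_le_Eul ma_PP_two)) (by positivity)
      exact mul_le_mul_of_nonneg_left (mul_le_of_le_one_left hl0.le (cW_le_one D)) (by linarith)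
    have hp : ∏ i, |XW D l (x i) (y i) (m + c i) * XW D l (x' i) (y' i) (m + c i)|
        ≤ B ^ (2 * k) := by
      calc _ ≤ ∏ _i : κ, B ^ 2 := by
            refine prod_le_prod (fun _ _ => abs_nonneg _) fun i _ => ?_
            rw [abs_mul, sq]
            exact mul_le_mul (hX i _ _) (hX i _ _) (abs_nonneg _) hB0
        _ = _ := by rw [prod_const, card_univ, ← pow_mul]
    have hw : wg ψ l m ≤ 1 / (m : ℝ) := by
      unfold wg; gcongr; exact hψ.le_one _
    rw [mul_comm]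
    exact mul_le_mul hp hw (wg_nonneg hψ l m) (by positivity)
  have hsum := (sum_le_sum hterm).trans ((mul_sum _ _ _).symm.le.trans
    (mul_le_mul_of_nonneg_left (ma_sq_sum (η := η) hl0.le) (pow_nonneg hB0 _)))
  refine le_trans (mul_le_mul_of_nonneg_left hsum (by positivity)) (le_trans ?_ hdec)
  have e1 : B ^ (2 * k) = (C * C0) ^ (2 * k) * l ^ (2 * k) *
      exp (η / (4 * (k + 1)) * l) ^ (2 * k) := by
    rw [hB, ← mul_pow, ← mul_pow]; congr 1; ring
  have e2 : exp (η / (4 * (k + 1)) * l) ^ (2 * k) * exp (-(η * l)) ≤ exp (-(η / 2 * l)) := by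
    rw [← exp_nat_mul, ← exp_add]
    apply exp_le_exp.mpr
    have hk1 : (0 : ℝ) < k + 1 := by positivity
    have : ((2 * k : ℕ) : ℝ) * (η / (4 * (k + 1)) * l) ≤ η / 2 * l := by
      have e : ((2 * k : ℕ) : ℝ) * (η / (4 * (k + 1)) * l) = η / 2 * l * (k / (k + 1)) := by
        push_cast; field_simp; ring
      rw [e]
      refine mul_le_of_le_one_right (by positivity) ?_
      rw [div_le_one hk1]; linarith
    linarith
  calc l ^ r * (B ^ (2 * k) * (2 * exp (-(η * l)) * (1 + 5 * l)))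
      = 2 * (C * C0) ^ (2 * k) * l ^ (r + 2 * k) * (1 + 5 * l) *
        (exp (η / (4 * (k + 1)) * l) ^ (2 * k) * exp (-(η * l))) := by
        rw [e1, pow_add]; ring
    _ ≤ 2 * (C * C0) ^ (2 * k) * l ^ (r + 2 * k) * (6 * l) * exp (-(η / 2 * l)) := by
        gcongr; linarith
    _ = _ := by rw [pow_succ]; ring

theorem one_le_scale (D k : ℕ) : ∀ᶠ l : ℝ in atTop, 1 ≤ scale D l k := by
  have hW := ma_W_pos D
  have hc := cW_pos D
  filter_upwards [eventually_ge_atTop (primorial D : ℝ), eventually_ge_atTop (1 / cW D)]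
    with l h1 h2
  have e1 : 1 ≤ l / (primorial D : ℝ) := (one_le_div hW).mpr h1
  have e2 : 1 ≤ cW D * l := by
    rw [div_le_iff₀ hc] at h2; linarith
  exact one_le_mul_of_one_le_of_one_le e1 (one_le_pow₀ e2)

end Pool.Agent.Lib.Tup
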