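import Pool.Agent.Lib.Tup.BP
import Pool.Agent.Lib.Tup.Maj

/-! Auxiliary lemmas for `key`: the shape function after splitting off one prime. -/

namespace Pool.Agent.Lib.Tup.KeyA
open Finset Real Filter

noncomputable section

/-- Shape of `Gt (p * k)` as a function of the size `t` of the prime `p`. -/
def Gs (l x y t : ℝ) (k : ℕ) : ℝ :=
  ∑ S ∈ k.primeFactors.powerset, (-1) ^ S.card * (rho x y (sz S / l) - rho x y (sz S / l + t))

theorem pf_mul {p k : ℕ} (hp : p.Prime) (hk : k ≠ 0) :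
    (p * k).primeFactors = insert p k.primeFactors := by
  rw [Nat.primeFactors_mul hp.ne_zero hk, hp.primeFactors]
  rfl

theorem card_pf_mul {p k : ℕ} (hp : p.Prime) (hk : k ≠ 0) (hpk : ¬ p ∣ k) :
    (p * k).primeFactors.card = k.primeFactors.card + 1 := by
  rw [pf_mul hp hk, card_insert_of_notMem]
  intro h
  exact hpk (Nat.dvd_of_mem_primeFactors h)

theorem Gt_mul {l x y : ℝ} {p k : ℕ} (hp : p.Prime) (hk : k ≠ 0) (hpk : ¬ p ∣ k) :
    Gt l x y (p * k) = Gs l x y (log p / l) k := by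
  have hn : p ∉ k.primeFactors := fun h => hpk (Nat.dvd_of_mem_primeFactors h)
  unfold Gt Gs
  rw [pf_mul hp hk, Finset.sum_powerset_insert hn, ← Finset.sum_add_distrib]
  refine Finset.sum_congr rfl fun S hS => ?_
  have hpS : p ∉ S := fun h => hn (mem_powerset.1 hS h)
  rw [card_insert_of_notMem hpS]
  have : sz (insert p S) / l = sz S / l + log p / l := by
    unfold sz
    rw [sum_insert hpS]
    ring
  rw [this]
  ring

theorem abs_Gt_le {l x y : ℝ} (hxy : x ≤ y) (h2 : y - x ≤ 2) (m : ℕ) :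
    |Gt l x y m| ≤ 2 * 2 ^ m.primeFactors.card := by
  unfold Gt
  refine (Finset.abs_sum_le_sum_abs _ _).trans ?_
  refine (Finset.sum_le_card_nsmul _ _ (2 : ℝ) fun S _ => ?_).trans ?_
  · rw [abs_mul, abs_pow, abs_neg, abs_one, one_pow, one_mul]
    exact (abs_rho_le hxy _).trans h2
  · rw [card_powerset, nsmul_eq_mul]
    push_cast
    linarith

theorem abs_Gs_le {l x y : ℝ} (hxy : x ≤ y) (h2 : y - x ≤ 2) (t : ℝ) (k : ℕ) :
    |Gs l x y t k| ≤ 4 * 2 ^ k.primeFactors.card := by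
  unfold Gs
  refine (Finset.abs_sum_le_sum_abs _ _).trans ?_
  refine (Finset.sum_le_card_nsmul _ _ (4 : ℝ) fun S _ => ?_).trans ?_
  · rw [abs_mul, abs_pow, abs_neg, abs_one, one_pow, one_mul]
    have h1 := abs_rho_le hxy (sz S / l)
    have h3 := abs_rho_le hxy (sz S / l + t)
    have := abs_sub (rho x y (sz S / l)) (rho x y (sz S / l + t))
    linarith
  · rw [card_powerset, nsmul_eq_mul]
    push_cast
    linarith

theorem Gs_lip {l x y : ℝ} (hxy : x ≤ y) (t t' : ℝ) (k : ℕ) :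
    |Gs l x y t k - Gs l x y t' k| ≤ 2 ^ k.primeFactors.card * |t - t'| := by
  unfold Gs
  rw [← Finset.sum_sub_distrib]
  refine (Finset.abs_sum_le_sum_abs _ _).trans ?_
  refine (Finset.sum_le_card_nsmul _ _ (|t - t'|) fun S _ => ?_).trans ?_
  · rw [← mul_sub, abs_mul, abs_pow, abs_neg, abs_one, one_pow, one_mul]
    have h1 := rho_lip hxy (sz S / l + t') (sz S / l + t)
    have e1 : rho x y (sz S / l) - rho x y (sz S / l + t) -
        (rho x y (sz S / l) - rho x y (sz S / l + t')) =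
        rho x y (sz S / l + t') - rho x y (sz S / l + t) := by ring
    have e2 : sz S / l + t' - (sz S / l + t) = -(t - t') := by ring
    rw [e1]
    rwa [e2, abs_neg] at h1
  · rw [card_powerset, nsmul_eq_mul]
    push_cast
    exact le_rfl

/-- The coefficient attached to the pair (size of the prime, cofactor). -/
def th (ψ : ℝ → ℝ) (u : ℕ → ℝ) (l x y x' y' t : ℝ) (k : ℕ) : ℝ :=
  ψ (t + log k / l) * (u (k.primeFactors.card + 1) / ((k.primeFactors.card : ℝ) + 1)) *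
    (Gs l x y t k * Gs l x' y' t k)

section
variable {ψ : ℝ → ℝ} {s0 s1 : ℝ} {u : ℕ → ℝ} {l x y x' y' K : ℝ} {k : ℕ}

theorem abs_u_div (hu : ∀ r, |u r| ≤ 1) (k : ℕ) :
    |u (k.primeFactors.card + 1) / ((k.primeFactors.card : ℝ) + 1)| ≤ 1 := by
  have h0 : (0 : ℝ) ≤ k.primeFactors.card := Nat.cast_nonneg _
  rw [abs_div, abs_of_pos (show (0 : ℝ) < (k.primeFactors.card : ℝ) + 1 by linarith),
    div_le_one (by linarith)]
  linarith [hu (k.primeFactors.card + 1)]

theorem abs_th_le (hψ : Bump ψ s0 s1) (hu : ∀ r, |u r| ≤ 1) (hxy : x ≤ y) (h2 : y - x ≤ 2)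
    (hxy' : x' ≤ y') (h2' : y' - x' ≤ 2) (hK : (2 : ℝ) ^ k.primeFactors.card ≤ K) (t : ℝ) :
    |th ψ u l x y x' y' t k| ≤ 24 * K ^ 2 := by
  have hK0 : 0 ≤ K := le_trans (by positivity) hK
  have h1 : |ψ (t + log k / l)| ≤ 1 := by
    rw [abs_of_nonneg (hψ.nonneg _)]; exact hψ.le_one _
  have h3 := abs_u_div hu k
  have h4 : |Gs l x y t k| ≤ 4 * K := (abs_Gs_le hxy h2 t k).trans (by linarith)
  have h5 : |Gs l x' y' t k| ≤ 4 * K := (abs_Gs_le hxy' h2' t k).trans (by linarith)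
  unfold th
  rw [abs_mul, abs_mul, abs_mul]
  calc _ ≤ 1 * 1 * ((4 * K) * (4 * K)) := by gcongr
    _ ≤ 24 * K ^ 2 := by nlinarith [sq_nonneg K]

theorem th_lip (hψ : Bump ψ s0 s1) (hu : ∀ r, |u r| ≤ 1) (hxy : x ≤ y) (h2 : y - x ≤ 2)
    (hxy' : x' ≤ y') (h2' : y' - x' ≤ 2) (hK : (2 : ℝ) ^ k.primeFactors.card ≤ K) (t t' : ℝ) :
    |th ψ u l x y x' y' t k - th ψ u l x y x' y' t' k| ≤ 24 * K ^ 2 * |t - t'| := by
  have hK0 : 0 ≤ K := le_trans (by positivity) hK
  have hd := abs_nonneg (t - t')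
  have h1 : |ψ (t' + log k / l)| ≤ 1 := by
    rw [abs_of_nonneg (hψ.nonneg _)]; exact hψ.le_one _
  have h1' : |ψ (t + log k / l) - ψ (t' + log k / l)| ≤ |t - t'| := by
    have := hψ.lip (t + log k / l) (t' + log k / l)
    rwa [show t + log k / l - (t' + log k / l) = t - t' by ring] at this
  have h3 := abs_u_div hu k
  have h4 : |Gs l x y t k| ≤ 4 * K := (abs_Gs_le hxy h2 t k).trans (by linarith)
  have h5 : |Gs l x' y' t k| ≤ 4 * K := (abs_Gs_le hxy' h2' t k).trans (by linarith)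
  have h5' : |Gs l x' y' t' k| ≤ 4 * K := (abs_Gs_le hxy' h2' t' k).trans (by linarith)
  have h6 : |Gs l x y t k - Gs l x y t' k| ≤ K * |t - t'| :=
    (Gs_lip hxy t t' k).trans (by gcongr)
  have h7 : |Gs l x' y' t k - Gs l x' y' t' k| ≤ K * |t - t'| :=
    (Gs_lip hxy' t t' k).trans (by gcongr)
  unfold th
  set a := ψ (t + log k / l)
  set a' := ψ (t' + log k / l)
  set v := u (k.primeFactors.card + 1) / ((k.primeFactors.card : ℝ) + 1)
  set g := Gs l x y t k
  set g' := Gs l x y t' k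
  set h := Gs l x' y' t k
  set h' := Gs l x' y' t' k
  have e : a * v * (g * h) - a' * v * (g' * h') =
      v * ((a - a') * (g * h) + (a' * (g * (h - h')) + a' * ((g - g') * h'))) := by ring
  rw [e, abs_mul]
  have b1 : |(a - a') * (g * h)| ≤ |t - t'| * ((4 * K) * (4 * K)) := by
    rw [abs_mul, abs_mul]; gcongr
  have b2 : |a' * (g * (h - h'))| ≤ 1 * ((4 * K) * (K * |t - t'|)) := by
    rw [abs_mul, abs_mul]; gcongr
  have b3 : |a' * ((g - g') * h')| ≤ 1 * ((K * |t - t'|) * (4 * K)) := by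
    rw [abs_mul, abs_mul]; gcongr
  have b4 : |(a - a') * (g * h) + (a' * (g * (h - h')) + a' * ((g - g') * h'))|
      ≤ 24 * K ^ 2 * |t - t'| := by
    have i1 := abs_add_le ((a - a') * (g * h)) (a' * (g * (h - h')) + a' * ((g - g') * h'))
    have i2 := abs_add_le (a' * (g * (h - h'))) (a' * ((g - g') * h'))
    nlinarith
  calc _ ≤ 1 * (24 * K ^ 2 * |t - t'|) := by gcongr
    _ = _ := one_mul _

theorem th_supp (hψ : Bump ψ s0 s1) {t : ℝ} (h : th ψ u l x y x' y' t k ≠ 0) :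
    s0 ≤ t + log k / l ∧ t + log k / l ≤ s1 ∧ u (k.primeFactors.card + 1) ≠ 0 := by
  unfold th at h
  have h1 : ψ (t + log k / l) ≠ 0 := fun h0 => h (by rw [h0]; ring)
  have h2 : u (k.primeFactors.card + 1) ≠ 0 := fun h0 => h (by rw [h0]; ring)
  exact ⟨(hψ.supp _ h1).1, (hψ.supp _ h1).2, h2⟩

end

theorem big_ge {s : ℝ} (h0 : 4 ≤ s) (h1 : s ≤ 83 / 20) : 1 ≤ 20 * big s := by
  unfold big
  rw [abs_of_nonneg (by linarith)]
  have := le_max_right (0 : ℝ) (1 / 5 - (s - 4))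
  linarith

theorem big_nonneg (s : ℝ) : 0 ≤ big s := le_max_left _ _

theorem rough_mul {η l : ℝ} {a b : ℕ} (ha : Rough η l a) (hb : Rough η l b) :
    Rough η l (a * b) := by
  intro q hq h
  rcases (Nat.Prime.dvd_mul hq).1 h with h | h
  · exact ha q hq h
  · exact hb q hq h

theorem rough_prime {η l : ℝ} {p : ℕ} (hp : p.Prime) (h : η * l < log p) : Rough η l p := by
  intro q hq hd
  rw [(Nat.prime_dvd_prime_iff_eq hq hp).1 hd]
  exact h

theorem rough_of_dvd {η l : ℝ} {a m : ℕ} (hm : Rough η l m) (h : a ∣ m) : Rough η l a :=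
  fun q hq hd => hm q hq (hd.trans h)

end

end Pool.Agent.Lib.Tup.KeyA
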