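import Pool.Agent.Lib.Tup.KeyA

/-! Reduction of the sum over rough squarefree composite numbers to bilinear forms. -/

namespace Pool.Agent.Lib.Tup.KeyA
open Finset Real Filter

noncomputable section

open Classical in
/-- Coefficients of the prime variable in the box `j`. -/
def al (η l κ : ℝ) (j p : ℕ) : ℝ :=
  if p.Prime ∧ η * l < log p ∧ ⌊log p / l / κ⌋₊ = j then 1 / (p : ℝ) else 0

open Classical in
/-- Coefficients of the cofactor in the box `j`. -/
def be (ψ : ℝ → ℝ) (u : ℕ → ℝ) (η l x y x' y' κ C : ℝ) (j k : ℕ) : ℝ :=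
  if RS η l k then th ψ u l x y x' y' (j * κ) k / (C * k) else 0

open Classical in
def HH (ψ : ℝ → ℝ) (u : ℕ → ℝ) (η l x y x' y' : ℝ) (W b : ℕ) (f : ℕ → ℝ) (m : ℕ) : ℝ :=
  if m ≡ b [MOD W] ∧ RS η l m then
    wg ψ l m * u m.primeFactors.card * (Gt l x y m * Gt l x' y' m) * f m / m.primeFactors.card
  else 0

open Classical in
def EE (η l κ C : ℝ) (W b : ℕ) (f : ℕ → ℝ) (m : ℕ) : ℝ :=
  20 * C * (κ * (if m ≡ b [MOD W] ∧ Rough η l m then wg big l m * |f m| else 0) +
    (if (∃ p : ℕ, p.Prime ∧ η * l < log p ∧ p * p ∣ m) ∧ Rough η l m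
      then wg big l m * |f m| else 0))

theorem wg_big_nonneg (l : ℝ) (m : ℕ) : 0 ≤ wg big l m :=
  div_nonneg (big_nonneg _) (Nat.cast_nonneg _)

theorem EE_nonneg {η l κ C : ℝ} (hκ : 0 ≤ κ) (hC : 0 ≤ C) (W b : ℕ) (f : ℕ → ℝ) (m : ℕ) :
    0 ≤ EE η l κ C W b f m := by
  have h := mul_nonneg (wg_big_nonneg l m) (abs_nonneg (f m))
  unfold EE
  refine mul_nonneg (by linarith) (add_nonneg (mul_nonneg hκ ?_) ?_) <;> split_ifs <;> simp [h]

section
variable {ψ : ℝ → ℝ} {s0 s1 : ℝ} {u : ℕ → ℝ} {η l x y x' y' κ K : ℝ}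

theorem al_supp {j p : ℕ} (h : al η l κ j p ≠ 0) (hl : 0 < l) (hκ : 0 < κ) :
    Rough η l p ∧ max η (j * κ) * l ≤ log p := by
  unfold al at h
  split_ifs at h with h1
  · obtain ⟨hp, h2, h3⟩ := h1
    refine ⟨rough_prime hp h2, ?_⟩
    have h4 : (j : ℝ) ≤ log p / l / κ := by
      rw [← h3]
      exact Nat.floor_le (by have := log_natCast_nonneg p; positivity)
    rw [le_div_iff₀ hκ, le_div_iff₀ hl] at h4
    rw [max_mul_of_nonneg _ _ hl.le]
    exact max_le h2.le h4
  · exact absurd rfl h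

theorem abs_al_le (j p : ℕ) : |al η l κ j p| ≤ 1 / p := by
  unfold al
  split_ifs
  · rw [abs_of_nonneg (by positivity)]
  · simp

theorem be_supp (hψ : Bump ψ s0 s1) (hu1 : u 1 = 0) {C : ℝ} {j k : ℕ} (hl : 0 < l)
    (h : be ψ u η l x y x' y' κ C j k ≠ 0) :
    Rough η l k ∧ max η (s0 - j * κ) * l ≤ log k := by
  unfold be at h
  split_ifs at h with h1
  · have h2 : th ψ u l x y x' y' (j * κ) k ≠ 0 := fun h0 => h (by rw [h0, zero_div])
    obtain ⟨h3, -, h5⟩ := th_supp hψ h2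
    refine ⟨h1.2, ?_⟩
    rw [max_mul_of_nonneg _ _ hl.le]
    refine max_le ?_ ?_
    · have hne : k.primeFactors.Nonempty := by
        rw [← card_pos]
        by_contra h6
        have : k.primeFactors.card = 0 := by omega
        rw [this] at h5
        exact h5 hu1
      obtain ⟨q, hq⟩ := hne
      have hq1 := Nat.prime_of_mem_primeFactors hq
      have hq2 := Nat.dvd_of_mem_primeFactors hq
      have hq3 : (q : ℝ) ≤ k := by exact_mod_cast Nat.le_of_mem_primeFactors hq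
      have := h1.2 q hq1 hq2
      have h7 : log q ≤ log k := log_le_log (by exact_mod_cast hq1.pos) hq3
      linarith
    · rw [← le_div_iff₀ hl]
      linarith
  · exact absurd rfl h

theorem abs_be_le (hψ : Bump ψ s0 s1) (hu : ∀ r, |u r| ≤ 1) (hxy : x ≤ y) (h2 : y - x ≤ 2)
    (hxy' : x' ≤ y') (h2' : y' - x' ≤ 2) (hl : 0 < l) (hκ : 0 < κ) (hK1 : 1 ≤ K)
    (hK : ∀ k : ℕ, k ≠ 0 → Rough η l k → log k ≤ 5 * l → (2 : ℝ) ^ k.primeFactors.card ≤ K)
    (j k : ℕ) : |be ψ u η l x y x' y' κ (24 * K ^ 2) j k| ≤ 1 / k := by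
  unfold be
  split_ifs with h1
  · by_cases h0 : th ψ u l x y x' y' (j * κ) k = 0
    · rw [h0]; simp
    · have hk : k ≠ 0 := h1.1.ne_zero
      have hk' : (0 : ℝ) < k := by exact_mod_cast Nat.pos_of_ne_zero hk
      obtain ⟨-, h4, -⟩ := th_supp hψ h0
      have h5 : log k ≤ 5 * l := by
        have h6 : log k / l ≤ 5 := by
          have : (0 : ℝ) ≤ j * κ := by positivity
          linarith [hψ.hi]
        rwa [div_le_iff₀ hl] at h6
      have h7 := abs_th_le hψ hu hxy h2 hxy' h2' (l := l) (hK k hk h1.2 h5) (j * κ)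
      have hC : (0 : ℝ) < 24 * K ^ 2 := by positivity
      rw [abs_div, abs_of_pos (mul_pos hC hk'), div_le_div_iff₀ (mul_pos hC hk') hk']
      nlinarith
  · simp

/-- The pointwise comparison for a pair (prime, cofactor). -/
theorem pointwise (hψ : Bump ψ s0 s1) (h4 : 4 < s0) (h41 : s1 ≤ 41 / 10) (hu : ∀ r, |u r| ≤ 1)
    (hxy : x ≤ y) (h2 : y - x ≤ 2) (hxy' : x' ≤ y') (h2' : y' - x' ≤ 2) (hl : 0 < l)
    (hκ : 0 < κ) (hκ1 : κ ≤ 1 / 20) (hK1 : 1 ≤ K)
    (hK : ∀ k : ℕ, k ≠ 0 → Rough η l k → log k ≤ 5 * l → (2 : ℝ) ^ k.primeFactors.card ≤ K)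
    {J : ℕ} (hJ : 5 / κ ≤ J) (W b : ℕ) (f : ℕ → ℝ) {p k : ℕ} (hp : p.Prime) (hpN : p < NN l)
    (hkN : k < NN l) :
    |(if p * k < NN l ∧ k ≠ 0 then HH ψ u η l x y x' y' W b f (p * k) else 0) -
        ∑ j ∈ range J, 24 * K ^ 2 * (if p * k ≡ b [MOD W] then
          al η l κ j p * be ψ u η l x y x' y' κ (24 * K ^ 2) j k * f (p * k) else 0)|
      ≤ if p * k < NN l ∧ k ≠ 0 then EE η l κ (24 * K ^ 2) W b f (p * k) else 0 := by
  have hC : (0 : ℝ) < 24 * K ^ 2 := by positivity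
  have hR : 0 ≤ if p * k < NN l ∧ k ≠ 0 then EE η l κ (24 * K ^ 2) W b f (p * k) else 0 := by
    split_ifs
    · exact EE_nonneg hκ.le hC.le _ _ _ _
    · exact le_rfl
  by_cases hb : p * k ≡ b [MOD W]
  swap
  · simp only [hb, if_false, mul_zero, sum_const_zero, sub_zero, HH, false_and, ite_self, abs_zero]
    exact hR
  by_cases hr : η * l < log p
  swap
  · have h1 : ¬ RS η l (p * k) := fun h => hr (h.2 p hp (Dvd.intro _ rfl))
    simp only [HH, h1, and_false, if_false, ite_self, al, hr, false_and, zero_mul, mul_zero,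
      sum_const_zero, sub_zero, abs_zero]
    exact hR
  by_cases hk : RS η l k
  swap
  · have h1 : ¬ RS η l (p * k) := fun h =>
      hk ⟨h.1.squarefree_of_dvd (Dvd.intro_left _ rfl), rough_of_dvd h.2 (Dvd.intro_left _ rfl)⟩
    simp only [HH, h1, and_false, if_false, ite_self, be, hk, zero_mul, mul_zero,
      sum_const_zero, sub_zero, abs_zero]
    exact hR
  have hk0 : k ≠ 0 := hk.1.ne_zero
  have hk' : (0 : ℝ) < k := by exact_mod_cast Nat.pos_of_ne_zero hk0
  have hp' : (0 : ℝ) < p := by exact_mod_cast hp.pos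
  have hlp : log p < 5 * l := (lt_NN hp.ne_zero).1 hpN
  have hlk : log k < 5 * l := (lt_NN hk0).1 hkN
  have hKk := hK k hk0 hk.2 hlk.le
  have hrough : Rough η l (p * k) := rough_mul (rough_prime hp hr) hk.2
  set t := log p / l with ht
  have ht0 : 0 ≤ t := div_nonneg (log_natCast_nonneg p) hl.le
  set j0 := ⌊t / κ⌋₊ with hj0
  have hj1 : (j0 : ℝ) * κ ≤ t := by
    rw [← le_div_iff₀ hκ]
    exact Nat.floor_le (by positivity)
  have hj2 : t < j0 * κ + κ := by
    have := Nat.lt_floor_add_one (t / κ)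
    rw [div_lt_iff₀ hκ] at this
    linarith
  have hj3 : j0 ∈ range J := by
    rw [mem_range]
    have h5 : t < 5 := by rw [ht, div_lt_iff₀ hl]; exact hlp
    have h6 : (j0 : ℝ) < J := by
      have h7 : (j0 : ℝ) < 5 / κ := by rw [lt_div_iff₀ hκ]; linarith
      linarith
    exact_mod_cast h6
  have hlog : log ((p * k : ℕ) : ℝ) / l = t + log k / l := by
    push_cast
    rw [log_mul hp'.ne' hk'.ne', ht]
    ring
  have hsum : ∑ j ∈ range J, 24 * K ^ 2 * (if p * k ≡ b [MOD W] then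
      al η l κ j p * be ψ u η l x y x' y' κ (24 * K ^ 2) j k * f (p * k) else 0) =
      th ψ u l x y x' y' (j0 * κ) k / ((p * k : ℕ) : ℝ) * f (p * k) := by
    rw [sum_eq_single_of_mem j0 hj3]
    · simp only [hb, if_true, al, be, hk, hp, hr, true_and, ← ht, ← hj0]
      push_cast
      field_simp
    · intro j _ hj
      have : ¬ (⌊log p / l / κ⌋₊ = j) := fun h => hj h.symm
      simp [al, this]
  rw [hsum]
  have hm' : (0 : ℝ) < ((p * k : ℕ) : ℝ) := by push_cast; positivity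
  -- if a coefficient is nonzero then the product lies in the wide window
  have hwin : ∀ t' : ℝ, t - κ ≤ t' → t' ≤ t → th ψ u l x y x' y' t' k ≠ 0 →
      p * k < NN l ∧ 1 ≤ 20 * big (log ((p * k : ℕ) : ℝ) / l) := by
    intro t' a1 a2 a3
    obtain ⟨b1, b2, -⟩ := th_supp hψ a3
    refine ⟨(lt_NN (mul_ne_zero hp.ne_zero hk0)).2 ?_, big_ge ?_ ?_⟩
    · rw [← div_lt_iff₀ hl, hlog]; linarith
    · rw [hlog]; linarith
    · rw [hlog]; linarith
  have hE := EE_nonneg (η := η) (l := l) hκ.le hC.le W b f (p * k)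
  have hf := abs_nonneg (f (p * k))
  have hw := wg_big_nonneg l (p * k)
  by_cases hpk : p ∣ k
  · have h1 : ¬ RS η l (p * k) := fun h =>
      hp.one_lt.ne' (Nat.isUnit_iff.1 (h.1 p (mul_dvd_mul_left p hpk)))
    simp only [HH, h1, and_false, if_false, ite_self, zero_sub, abs_neg]
    by_cases h0 : th ψ u l x y x' y' (j0 * κ) k = 0
    · rw [h0, zero_div, zero_mul, abs_zero]; exact hR
    obtain ⟨c1, c2⟩ := hwin _ (by linarith) hj1 h0
    rw [if_pos ⟨c1, hk0⟩]
    have c3 := abs_th_le hψ hu hxy h2 hxy' h2' (l := l) hKk (j0 * κ)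
    have c4 : (∃ q : ℕ, q.Prime ∧ η * l < log q ∧ q * q ∣ p * k) ∧ Rough η l (p * k) :=
      ⟨⟨p, hp, hr, mul_dvd_mul_left p hpk⟩, hrough⟩
    unfold EE
    rw [if_pos c4, if_pos ⟨hb, hrough⟩, abs_mul, abs_div, abs_of_pos hm']
    have c5 : |th ψ u l x y x' y' (j0 * κ) k| / ((p * k : ℕ) : ℝ)
        ≤ 20 * (24 * K ^ 2) * wg big l (p * k) := by
      unfold wg
      rw [← mul_div_assoc]
      gcongr
      nlinarith
    have c6 := mul_le_mul_of_nonneg_right c5 hf
    have c7 : 0 ≤ 20 * (24 * K ^ 2) * (κ * (wg big l (p * k) * |f (p * k)|)) := by positivity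
    nlinarith
  · have h1 : RS η l (p * k) :=
      ⟨(Nat.squarefree_mul ((Nat.Prime.coprime_iff_not_dvd hp).2 hpk)).2 ⟨hp.squarefree, hk.1⟩,
        hrough⟩
    have hH : HH ψ u η l x y x' y' W b f (p * k) =
        th ψ u l x y x' y' t k / ((p * k : ℕ) : ℝ) * f (p * k) := by
      unfold HH th wg
      rw [if_pos ⟨hb, h1⟩, Gt_mul hp hk0 hpk, Gt_mul hp hk0 hpk, card_pf_mul hp hk0 hpk, hlog]
      push_cast
      ring
    have hA : (if p * k < NN l ∧ k ≠ 0 then HH ψ u η l x y x' y' W b f (p * k) else 0) =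
        th ψ u l x y x' y' t k / ((p * k : ℕ) : ℝ) * f (p * k) := by
      split_ifs with h5
      · exact hH
      · have : th ψ u l x y x' y' t k = 0 := by
          by_contra h6
          exact h5 ⟨(hwin t (by linarith) le_rfl h6).1, hk0⟩
        rw [this, zero_div, zero_mul]
    rw [hA, ← sub_mul, ← sub_div]
    by_cases h0 : th ψ u l x y x' y' t k - th ψ u l x y x' y' (j0 * κ) k = 0
    · rw [h0, zero_div, zero_mul, abs_zero]; exact hR
    have c0 : p * k < NN l ∧ 1 ≤ 20 * big (log ((p * k : ℕ) : ℝ) / l) := by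
      by_cases h7 : th ψ u l x y x' y' t k = 0
      · refine hwin (j0 * κ) (by linarith) hj1 fun h8 => h0 ?_
        rw [h7, h8, sub_zero]
      · exact hwin t (by linarith) le_rfl h7
    obtain ⟨c1, c2⟩ := c0
    rw [if_pos ⟨c1, hk0⟩]
    have c3 := th_lip hψ hu hxy h2 hxy' h2' (l := l) hKk t (j0 * κ)
    have c4 : |t - j0 * κ| ≤ κ := by rw [abs_of_nonneg (by linarith)]; linarith
    have c8 : |th ψ u l x y x' y' t k - th ψ u l x y x' y' (j0 * κ) k| ≤ 24 * K ^ 2 * κ :=
      c3.trans (by gcongr)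
    unfold EE
    rw [if_pos (show p * k ≡ b [MOD W] ∧ Rough η l (p * k) from ⟨hb, hrough⟩), abs_mul, abs_div,
      abs_of_pos hm']
    have c5 : |th ψ u l x y x' y' t k - th ψ u l x y x' y' (j0 * κ) k| / ((p * k : ℕ) : ℝ)
        ≤ 20 * (24 * K ^ 2) * κ * wg big l (p * k) := by
      unfold wg
      rw [← mul_div_assoc]
      gcongr
      have : 0 < 24 * K ^ 2 * κ := by positivity
      nlinarith
    have c6 := mul_le_mul_of_nonneg_right c5 hf
    have c7 : 0 ≤ 20 * (24 * K ^ 2) * (wg big l (p * k) * |f (p * k)|) := by positivity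
    split_ifs <;> nlinarith

open Classical in
/-- The sum over rough squarefree numbers is a combination of bilinear forms. -/
theorem core (hψ : Bump ψ s0 s1) (h4 : 4 < s0) (h41 : s1 ≤ 41 / 10) (hu : ∀ r, |u r| ≤ 1)
    (hu0 : u 0 = 0) (hη : 0 < η)
    (hxy : x ≤ y) (h2 : y - x ≤ 2) (hxy' : x' ≤ y') (h2' : y' - x' ≤ 2) (hl : 0 < l)
    (hκ : 0 < κ) (hκ1 : κ ≤ 1 / 20) (hK1 : 1 ≤ K)
    (hK : ∀ k : ℕ, k ≠ 0 → Rough η l k → log k ≤ 5 * l → (2 : ℝ) ^ k.primeFactors.card ≤ K)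
    {J : ℕ} (hJ : 5 / κ ≤ J) (W b : ℕ) (f : ℕ → ℝ) {E : ℝ}
    (hE : ∀ j, |∑ p ∈ range (NN l), ∑ k ∈ range (NN l), if p * k ≡ b [MOD W] then
      al η l κ j p * be ψ u η l x y x' y' κ (24 * K ^ 2) j k * f (p * k) else 0| ≤ E) :
    |∑ m ∈ (cls l W b).filter (RS η l),
        wg ψ l m * u m.primeFactors.card * (Gt l x y m * Gt l x' y' m) * f m|
      ≤ J * (24 * K ^ 2) * E + 5 / η * (20 * (24 * K ^ 2)) *
        (κ * ∑ m ∈ (cls l W b).filter (Rough η l), wg big l m * |f m| +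
          ∑ m ∈ (range (NN l)).filter
            (fun m => ∃ p : ℕ, p.Prime ∧ η * l < log p ∧ p * p ∣ m), wg big l m * |f m|) := by
  have hC : (0 : ℝ) < 24 * K ^ 2 := by positivity
  set C := 24 * K ^ 2 with hCdef
  have e1 : ∑ m ∈ (cls l W b).filter (RS η l),
      wg ψ l m * u m.primeFactors.card * (Gt l x y m * Gt l x' y' m) * f m =
      ∑ m ∈ range (NN l), (m.primeFactors.card : ℝ) * HH ψ u η l x y x' y' W b f m := by
    unfold cls
    rw [filter_filter, sum_filter]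
    refine sum_congr rfl fun m _ => ?_
    unfold HH
    split_ifs with h
    · by_cases h0 : m.primeFactors.card = 0
      · rw [h0, hu0]; simp
      · have : (m.primeFactors.card : ℝ) ≠ 0 := by exact_mod_cast h0
        field_simp
    · simp
  have e2 : ∑ p ∈ (range (NN l)).filter Nat.Prime, ∑ k ∈ range (NN l), ∑ j ∈ range J,
      C * (if p * k ≡ b [MOD W] then
        al η l κ j p * be ψ u η l x y x' y' κ C j k * f (p * k) else 0) =
      ∑ j ∈ range J, C * ∑ p ∈ range (NN l), ∑ k ∈ range (NN l), if p * k ≡ b [MOD W] then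
        al η l κ j p * be ψ u η l x y x' y' κ C j k * f (p * k) else 0 := by
    simp only [mul_sum]
    rw [sum_comm (s := range J), sum_filter]
    refine sum_congr rfl fun p _ => ?_
    rw [sum_comm (s := range J)]
    split_ifs with hp
    · rfl
    · simp [al, hp]
  have e3 : |∑ j ∈ range J, C * ∑ p ∈ range (NN l), ∑ k ∈ range (NN l),
      if p * k ≡ b [MOD W] then
        al η l κ j p * be ψ u η l x y x' y' κ C j k * f (p * k) else 0| ≤ J * C * E := by
    refine (abs_sum_le_sum_abs _ _).trans ?_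
    refine (sum_le_card_nsmul _ _ (C * E) fun j _ => ?_).trans ?_
    · rw [abs_mul, abs_of_pos hC]
      exact mul_le_mul_of_nonneg_left (hE j) hC.le
    · rw [card_range, nsmul_eq_mul]
      exact le_of_eq (by ring)
  have e4 : |∑ p ∈ (range (NN l)).filter Nat.Prime, ∑ k ∈ range (NN l),
        (if p * k < NN l ∧ k ≠ 0 then HH ψ u η l x y x' y' W b f (p * k) else 0) -
      ∑ p ∈ (range (NN l)).filter Nat.Prime, ∑ k ∈ range (NN l), ∑ j ∈ range J,
        C * (if p * k ≡ b [MOD W] then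
          al η l κ j p * be ψ u η l x y x' y' κ C j k * f (p * k) else 0)|
      ≤ ∑ m ∈ range (NN l), (m.primeFactors.card : ℝ) * EE η l κ C W b f m := by
    rw [sum_omega_mul, ← sum_sub_distrib]
    refine (abs_sum_le_sum_abs _ _).trans (sum_le_sum fun p hp => ?_)
    rw [← sum_sub_distrib]
    refine (abs_sum_le_sum_abs _ _).trans (sum_le_sum fun k hk => ?_)
    exact pointwise hψ h4 h41 hu hxy h2 hxy' h2' hl hκ hκ1 hK1 hK hJ W b f (mem_filter.1 hp).2
      (mem_range.1 (mem_filter.1 hp).1) (mem_range.1 hk)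
  have e5 : ∑ m ∈ range (NN l), (m.primeFactors.card : ℝ) * EE η l κ C W b f m ≤
      5 / η * (20 * C) * (κ * ∑ m ∈ (cls l W b).filter (Rough η l), wg big l m * |f m| +
          ∑ m ∈ (range (NN l)).filter
            (fun m => ∃ p : ℕ, p.Prime ∧ η * l < log p ∧ p * p ∣ m), wg big l m * |f m|) := by
    unfold cls
    rw [filter_filter, sum_filter, sum_filter, mul_sum, ← sum_add_distrib, mul_sum]
    refine sum_le_sum fun m hm => ?_
    have hw := mul_nonneg (wg_big_nonneg l m) (abs_nonneg (f m))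
    have h5 : 0 ≤ 5 / η := by positivity
    by_cases hr : Rough η l m
    · have hω : (m.primeFactors.card : ℝ) ≤ 5 / η := by
        by_cases hm0 : m = 0
        · rw [hm0]; simpa using h5
        · exact omega_le_of_rough hη hl hm0 hr ((lt_NN hm0).1 (mem_range.1 hm)).le
      refine (mul_le_mul_of_nonneg_right hω (EE_nonneg hκ.le hC.le _ _ _ _)).trans (le_of_eq ?_)
      unfold EE
      simp only [hr, and_true]
      ring
    · have : EE η l κ C W b f m = 0 := by simp [EE, hr]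
      rw [this, mul_zero]
      refine mul_nonneg (by positivity) (add_nonneg (mul_nonneg hκ.le ?_) ?_) <;> split_ifs <;>
        simp [hw]
  rw [e1, sum_omega_mul]
  rw [e2] at e4
  have := abs_sub_abs_le_abs_sub (∑ p ∈ (range (NN l)).filter Nat.Prime, ∑ k ∈ range (NN l),
        (if p * k < NN l ∧ k ≠ 0 then HH ψ u η l x y x' y' W b f (p * k) else 0))
    (∑ j ∈ range J, C * ∑ p ∈ range (NN l), ∑ k ∈ range (NN l), if p * k ≡ b [MOD W] then
        al η l κ j p * be ψ u η l x y x' y' κ C j k * f (p * k) else 0)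
  linarith

end

end

end Pool.Agent.Lib.Tup.KeyA
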