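import Pool.Agent.Lib.Tup.Basic

namespace Pool.Agent.Lib.Tup
open Finset Real Filter

theorem lvl1_dvd_iff {q : ℕ} (hq : 0 < q) (m : ℕ) (c : ℤ) :
    (q : ℤ) ∣ (m : ℤ) + c ↔ m ≡ ((-c) % q).toNat [MOD q] := by
  have hq' : (q : ℤ) ≠ 0 := by exact_mod_cast hq.ne'
  have h0 : 0 ≤ (-c) % (q : ℤ) := Int.emod_nonneg _ hq'
  rw [← Int.natCast_modEq_iff, Int.toNat_of_nonneg h0]
  constructor
  · intro h
    have h1 : (m : ℤ) ≡ -c [ZMOD q] := by
      rw [Int.modEq_iff_dvd]
      have : -c - (m : ℤ) = -((m : ℤ) + c) := by ring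
      rw [this]
      exact (dvd_neg).2 h
    exact h1.trans (Int.mod_modEq _ _).symm
  · intro h
    have h1 : (m : ℤ) ≡ -c [ZMOD q] := h.trans (Int.mod_modEq _ _)
    rw [Int.modEq_iff_dvd] at h1
    have : -c - (m : ℤ) = -((m : ℤ) + c) := by ring
    rw [this] at h1
    exact (dvd_neg).1 h1

theorem lvl1_crt {q0 q : ℕ} (hc : Nat.Coprime q0 q) (a r : ℕ) :
    ∃ a' : ℕ, ∀ m : ℕ, m ≡ a' [MOD q0 * q] ↔ (m ≡ a [MOD q0] ∧ m ≡ r [MOD q]) := by
  obtain ⟨a', h1, h2⟩ := Nat.chineseRemainder hc a r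
  refine ⟨a', fun m => ?_⟩
  rw [← Nat.modEq_and_modEq_iff_modEq_mul hc]
  constructor
  · rintro ⟨h3, h4⟩
    exact ⟨h3.trans h1, h4.trans h2⟩
  · rintro ⟨h3, h4⟩
    exact ⟨h3.trans h1.symm, h4.trans h2.symm⟩

/-- Induction over the primes for local functions that are combinations of class indicators. -/
theorem lvl1_ap {ι : Type*} [Fintype ι] (N : ℕ) (c : ι → ℤ) (w : ℕ → ℝ) (T V : ℝ)
    (hV : ∀ q a : ℕ, 0 < q → |∑ m ∈ (range N).filter (fun m => m ≡ a [MOD q]), w m - T / q| ≤ V)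
    (al : ℕ → ℝ) (be : ℕ → ι → ℝ) (Q : Finset ℕ) (hQ : ∀ q ∈ Q, q.Prime) :
    ∀ q0 a : ℕ, 0 < q0 → (∀ q ∈ Q, ¬ q ∣ q0) →
      |∑ m ∈ (range N).filter (fun m => m ≡ a [MOD q0]),
          w m * ∏ q ∈ Q, (al q + ∑ i, if (q : ℤ) ∣ (m : ℤ) + c i then be q i else 0)
        - T / q0 * ∏ q ∈ Q, (al q + ∑ i, be q i / q)|
        ≤ V * ∏ q ∈ Q, (|al q| + ∑ i, |be q i|) := by
  induction Q using Finset.induction_on with
  | empty =>
    intro q0 a hq0 _
    simpa using hV q0 a hq0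
  | insert p Q hp ih =>
    intro q0 a hq0 hnd
    have hpp : p.Prime := hQ p (mem_insert_self _ _)
    have hQ' : ∀ q ∈ Q, q.Prime := fun q hq => hQ q (mem_insert_of_mem hq)
    have ih' := ih hQ'
    have hcop : Nat.Coprime q0 p :=
      ((Nat.Prime.coprime_iff_not_dvd hpp).2 (hnd p (mem_insert_self _ _))).symm
    have hnd1 : ∀ q ∈ Q, ¬ q ∣ q0 := fun q hq => hnd q (mem_insert_of_mem hq)
    have hnd2 : ∀ q ∈ Q, ¬ q ∣ q0 * p := by
      intro q hq h
      rcases (Nat.Prime.dvd_mul (hQ' q hq)).1 h with h | h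
      · exact hnd1 q hq h
      · have := (Nat.prime_dvd_prime_iff_eq (hQ' q hq) hpp).1 h
        exact hp (this ▸ hq)
    choose a' ha' using fun i => lvl1_crt hcop a ((-c i) % p).toNat
    set F : ℕ → ℝ := fun m =>
      ∏ q ∈ Q, (al q + ∑ i, if (q : ℤ) ∣ (m : ℤ) + c i then be q i else 0) with hF
    set E : ℝ := ∏ q ∈ Q, (al q + ∑ i, be q i / q) with hE
    set R : ℝ := ∏ q ∈ Q, (|al q| + ∑ i, |be q i|) with hR
    have h1 := ih' q0 a hq0 hnd1
    have h2 := fun i => ih' (q0 * p) (a' i) (Nat.mul_pos hq0 hpp.pos) hnd2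
    have hsum : ∑ m ∈ (range N).filter (fun m => m ≡ a [MOD q0]),
          w m * ∏ q ∈ insert p Q, (al q + ∑ i, if (q : ℤ) ∣ (m : ℤ) + c i then be q i else 0)
        = al p * ∑ m ∈ (range N).filter (fun m => m ≡ a [MOD q0]), w m * F m
          + ∑ i, be p i *
            ∑ m ∈ (range N).filter (fun m => m ≡ a' i [MOD q0 * p]), w m * F m := by
      have e1 : ∀ i, be p i *
            ∑ m ∈ (range N).filter (fun m => m ≡ a' i [MOD q0 * p]), w m * F m
          = ∑ m ∈ (range N).filter (fun m => m ≡ a [MOD q0]),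
            (if (p : ℤ) ∣ (m : ℤ) + c i then be p i else 0) * (w m * F m) := by
        intro i
        rw [mul_sum, sum_filter, sum_filter]
        refine sum_congr rfl fun m _ => ?_
        by_cases hA : m ≡ a [MOD q0]
        · by_cases hB : (p : ℤ) ∣ (m : ℤ) + c i
          · have : m ≡ a' i [MOD q0 * p] := (ha' i m).2 ⟨hA, (lvl1_dvd_iff hpp.pos m _).1 hB⟩
            simp [hA, hB, this]
          · have : ¬ m ≡ a' i [MOD q0 * p] := fun h =>
              hB ((lvl1_dvd_iff hpp.pos m _).2 ((ha' i m).1 h).2)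
            simp [hA, hB, this]
        · have : ¬ m ≡ a' i [MOD q0 * p] := fun h => hA ((ha' i m).1 h).1
          simp [hA, this]
      simp_rw [e1]
      rw [sum_comm, mul_sum, ← sum_add_distrib]
      refine sum_congr rfl fun m _ => ?_
      rw [prod_insert hp, ← sum_mul]
      simp only [hF]
      ring
    rw [hsum, prod_insert hp, prod_insert hp]
    have hq0' : (q0 : ℝ) ≠ 0 := by exact_mod_cast hq0.ne'
    have hp' : (p : ℝ) ≠ 0 := by exact_mod_cast hpp.pos.ne'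
    have e2 : al p * ∑ m ∈ (range N).filter (fun m => m ≡ a [MOD q0]), w m * F m
          + ∑ i, be p i *
            ∑ m ∈ (range N).filter (fun m => m ≡ a' i [MOD q0 * p]), w m * F m
          - T / q0 * ((al p + ∑ i, be p i / p) * E)
        = al p * (∑ m ∈ (range N).filter (fun m => m ≡ a [MOD q0]), w m * F m - T / q0 * E)
          + ∑ i, be p i *
            (∑ m ∈ (range N).filter (fun m => m ≡ a' i [MOD q0 * p]), w m * F m
              - T / ((q0 * p : ℕ) : ℝ) * E) := by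
      have e3 : ∀ i, be p i *
            (∑ m ∈ (range N).filter (fun m => m ≡ a' i [MOD q0 * p]), w m * F m
              - T / ((q0 * p : ℕ) : ℝ) * E)
          = be p i * ∑ m ∈ (range N).filter (fun m => m ≡ a' i [MOD q0 * p]), w m * F m
            - T / q0 * E * (be p i / p) := by
        intro i
        push_cast
        field_simp
      simp_rw [e3]
      rw [sum_sub_distrib, ← mul_sum]
      ring
    rw [e2]
    calc _ ≤ |al p| * (V * R) + ∑ i, |be p i| * (V * R) := by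
          refine (abs_add_le _ _).trans (add_le_add ?_ ?_)
          · rw [abs_mul]
            exact mul_le_mul_of_nonneg_left h1 (abs_nonneg _)
          · refine (abs_sum_le_sum_abs _ _).trans (sum_le_sum fun i _ => ?_)
            rw [abs_mul]
            exact mul_le_mul_of_nonneg_left (h2 i) (abs_nonneg _)
      _ = _ := by rw [← sum_mul]; ring

noncomputable def lvl1al {ι : Type*} (q : ℕ) (b : Finset ι) : ℝ := (1 / ((q : ℝ) - 1)) ^ b.card

noncomputable def lvl1be {ι : Type*} [DecidableEq ι] (q : ℕ) (b : Finset ι) (i : ι) : ℝ :=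
  if i ∈ b then -(1 / ((q : ℝ) - 1)) ^ (b.card - 1) - (1 / ((q : ℝ) - 1)) ^ b.card else 0

theorem lvl1_local {ι : Type*} [Fintype ι] [DecidableEq ι] (q : ℕ) (c : ι → ℤ)
    (hc : ∀ i j, i ≠ j → ¬ (q : ℤ) ∣ c i - c j) (b : Finset ι) (m : ℤ) :
    ∏ i ∈ b, chi q (m + c i)
      = lvl1al q b + ∑ i, if (q : ℤ) ∣ m + c i then lvl1be q b i else 0 := by
  by_cases h : ∃ i ∈ b, (q : ℤ) ∣ m + c i
  · obtain ⟨i, hi, hd⟩ := h
    have hj : ∀ j, j ≠ i → ¬ (q : ℤ) ∣ m + c j := by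
      intro j hji hdj
      apply hc j i hji
      have : c j - c i = (m + c j) - (m + c i) := by ring
      rw [this]
      exact dvd_sub hdj hd
    rw [← mul_prod_erase b _ hi, sum_eq_single i]
    · have e1 : ∏ j ∈ b.erase i, chi q (m + c j) = (1 / ((q : ℝ) - 1)) ^ (b.card - 1) := by
        rw [← card_erase_of_mem hi, ← prod_const]
        refine prod_congr rfl fun j hjm => ?_
        simp only [chi, if_neg (hj j (ne_of_mem_erase hjm))]
      rw [e1]
      simp only [chi, if_pos hd, lvl1al, lvl1be, if_pos hi]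
      ring
    · intro j _ hji
      rw [if_neg (hj j hji)]
    · intro hh
      exact absurd (mem_univ i) hh
  · push Not at h
    have e1 : ∏ j ∈ b, chi q (m + c j) = (1 / ((q : ℝ) - 1)) ^ b.card := by
      rw [← prod_const]
      refine prod_congr rfl fun j hjm => ?_
      simp only [chi, if_neg (h j hjm)]
    have e2 : ∑ i, (if (q : ℤ) ∣ m + c i then lvl1be q b i else 0) = 0 := by
      refine sum_eq_zero fun i _ => ?_
      by_cases hi : i ∈ b
      · rw [if_neg (h i hi)]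
      · simp [lvl1be, hi]
    rw [e1, e2, lvl1al, add_zero]

theorem lvl1_sum_be {ι : Type*} [Fintype ι] [DecidableEq ι] (q : ℕ) (b : Finset ι) (f : ℝ → ℝ)
    (hf : f 0 = 0) :
    ∑ i, f (lvl1be q b i) = b.card *
      f (-(1 / ((q : ℝ) - 1)) ^ (b.card - 1) - (1 / ((q : ℝ) - 1)) ^ b.card) := by
  have : ∀ i, f (lvl1be q b i) = if i ∈ b then
      f (-(1 / ((q : ℝ) - 1)) ^ (b.card - 1) - (1 / ((q : ℝ) - 1)) ^ b.card) else 0 := by
    intro i
    unfold lvl1be
    split_ifs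
    · rfl
    · exact hf
  simp_rw [this]
  rw [sum_ite_mem, univ_inter, sum_const, nsmul_eq_mul]

theorem lvl1_mean {ι : Type*} [Fintype ι] [DecidableEq ι] {q : ℕ} (hq : 2 ≤ q) (b : Finset ι) :
    lvl1al q b + ∑ i, lvl1be q b i / q
      = (1 - (b.card : ℝ)) * (1 / ((q : ℝ) - 1)) ^ b.card := by
  rw [lvl1_sum_be q b (fun x => x / q) (by simp), lvl1al]
  have hq2 : (2 : ℝ) ≤ q := by exact_mod_cast hq
  have h1 : (q : ℝ) - 1 ≠ 0 := by linarith
  have h0 : (q : ℝ) ≠ 0 := by linarith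
  rcases Nat.eq_zero_or_pos b.card with h | h
  · simp [h]
  · obtain ⟨n, hn⟩ : ∃ n, b.card = n + 1 := ⟨b.card - 1, by omega⟩
    rw [hn, Nat.add_sub_cancel, pow_succ]
    generalize (1 / ((q : ℝ) - 1)) ^ n = y
    push_cast
    field_simp
    ring

theorem lvl1_norm {ι : Type*} [Fintype ι] [DecidableEq ι] {q : ℕ} (hq : 2 ≤ q) (b : Finset ι) :
    |lvl1al q b| + ∑ i, |lvl1be q b i| ≤ 3 ^ b.card := by
  rw [lvl1_sum_be q b (fun x => |x|) (by simp), lvl1al]
  have hq2 : (2 : ℝ) ≤ q := by exact_mod_cast hq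
  have hx0 : 0 ≤ 1 / ((q : ℝ) - 1) := by
    apply div_nonneg <;> linarith
  have hx1 : 1 / ((q : ℝ) - 1) ≤ 1 := by
    rw [div_le_one (by linarith)]
    linarith
  have hp : ∀ n : ℕ, 0 ≤ (1 / ((q : ℝ) - 1)) ^ n ∧ (1 / ((q : ℝ) - 1)) ^ n ≤ 1 :=
    fun n => ⟨pow_nonneg hx0 n, pow_le_one₀ hx0 hx1⟩
  have h1 : |(1 / ((q : ℝ) - 1)) ^ b.card| ≤ 1 := by
    rw [abs_of_nonneg (hp _).1]
    exact (hp _).2
  have h2 : |-(1 / ((q : ℝ) - 1)) ^ (b.card - 1) - (1 / ((q : ℝ) - 1)) ^ b.card| ≤ 2 := by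
    rw [abs_le]
    constructor <;> linarith [(hp b.card).1, (hp b.card).2, (hp (b.card - 1)).1,
      (hp (b.card - 1)).2]
  have h3 : (1 : ℝ) + b.card * 2 ≤ 3 ^ b.card := by
    have := one_add_mul_le_pow (a := (2 : ℝ)) (by norm_num) b.card
    norm_num at this
    linarith
  have h4 : (b.card : ℝ) *
      |-(1 / ((q : ℝ) - 1)) ^ (b.card - 1) - (1 / ((q : ℝ) - 1)) ^ b.card| ≤ b.card * 2 :=
    mul_le_mul_of_nonneg_left h2 (Nat.cast_nonneg _)
  linarith

/-- The local factor of the main term. -/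
theorem lvl1_locsum {ι : Type*} [Fintype ι] [DecidableEq ι] {q : ℕ} (hq : 2 ≤ q) :
    ∑ b : Finset ι, 3 ^ b.card * |(1 - (b.card : ℝ)) * (1 / ((q : ℝ) - 1)) ^ b.card|
      ≤ 1 + (6 ^ Fintype.card ι * Fintype.card ι) * (1 / ((q : ℝ) - 1)) ^ 2 := by
  have hq2 : (2 : ℝ) ≤ q := by exact_mod_cast hq
  have hx0 : 0 ≤ 1 / ((q : ℝ) - 1) := by
    apply div_nonneg <;> linarith
  have hx1 : 1 / ((q : ℝ) - 1) ≤ 1 := by
    rw [div_le_one (by linarith)]
    linarith
  generalize 1 / ((q : ℝ) - 1) = x at hx0 hx1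
  set k := Fintype.card ι with hk
  have hb : ∀ b : Finset ι, 3 ^ b.card * |(1 - (b.card : ℝ)) * x ^ b.card|
      ≤ (if b = ∅ then 1 else 0) + 3 ^ k * k * x ^ 2 := by
    intro b
    have hbk : b.card ≤ k := card_le_univ b
    have hnn : (0 : ℝ) ≤ 3 ^ k * k * x ^ 2 := by positivity
    by_cases h0 : b = ∅
    · subst h0
      simp only [card_empty, pow_zero, Nat.cast_zero, sub_zero, mul_one, abs_one, if_true]
      linarith
    · rw [if_neg h0, zero_add]
      have hpos : 1 ≤ b.card := card_pos.2 (nonempty_iff_ne_empty.2 h0)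
      rcases Nat.eq_or_lt_of_le hpos with h1 | h1
      · rw [← h1]
        simpa using hnn
      · have h2 : 2 ≤ b.card := h1
        have h3 : (3 : ℝ) ^ b.card ≤ 3 ^ k := pow_le_pow_right₀ (by norm_num) hbk
        have h4 : x ^ b.card ≤ x ^ 2 := pow_le_pow_of_le_one hx0 hx1 h2
        have h5 : |1 - (b.card : ℝ)| ≤ k := by
          have h6 : (2 : ℝ) ≤ b.card := by exact_mod_cast h2
          have h7 : (b.card : ℝ) ≤ k := by exact_mod_cast hbk
          rw [abs_le]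
          constructor <;> linarith
        rw [abs_mul, abs_of_nonneg (pow_nonneg hx0 _), mul_assoc]
        gcongr
  refine (sum_le_sum fun b _ => hb b).trans ?_
  rw [sum_add_distrib, sum_ite_eq' univ (∅ : Finset ι) (fun _ => (1 : ℝ)), if_pos (mem_univ _),
    sum_const, card_univ, Fintype.card_finset, nsmul_eq_mul, ← hk]
  have : (6 : ℝ) ^ k = 2 ^ k * 3 ^ k := by rw [← mul_pow]; norm_num
  rw [this]
  push_cast
  apply le_of_eq
  ring

theorem lvl1_tail {D : ℕ} (hD : 1 ≤ D) (P : Finset ℕ) (hP : ∀ q ∈ P, D < q) :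
    ∑ q ∈ P, (1 / ((q : ℝ) - 1)) ^ 2 ≤ 2 / (D : ℝ) := by
  obtain ⟨n, hn⟩ : ∃ n, ∀ q ∈ P, q < n := ⟨P.sup id + 1, fun q hq =>
    Nat.lt_succ_of_le (le_sup (f := id) hq)⟩
  have h1 : ∑ q ∈ P, (1 / ((q : ℝ) - 1)) ^ 2
      = ∑ i ∈ P.image (fun q : ℕ => q - 1), (((i : ℕ) : ℝ) ^ 2)⁻¹ := by
    rw [sum_image]
    · refine sum_congr rfl fun q hq => ?_
      have := hP q hq
      rw [Nat.cast_sub (by omega)]
      simp
    · intro x hx y hy hxy
      have := hP x hx
      have := hP y hy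
      simp only at hxy
      omega
  have h2 : ∑ i ∈ P.image (fun q : ℕ => q - 1), (((i : ℕ) : ℝ) ^ 2)⁻¹
      ≤ ∑ i ∈ Ioo (D - 1) n, (((i : ℕ) : ℝ) ^ 2)⁻¹ := by
    refine sum_le_sum_of_subset_of_nonneg ?_ (fun _ _ _ => by positivity)
    intro i hi
    obtain ⟨q, hq, rfl⟩ := mem_image.1 hi
    have := hP q hq
    have := hn q hq
    rw [mem_Ioo]
    omega
  have h3 := sum_Ioo_inv_sq_le (α := ℝ) (D - 1) n
  rw [Nat.cast_sub hD] at h3
  rw [h1]
  refine h2.trans (h3.trans (le_of_eq ?_))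
  push_cast
  ring

/-- Level one estimate for a product of sieve sums. -/
theorem lvl1 (ι : Type*) [Fintype ι] [DecidableEq ι] {ε : ℝ} (hε : 0 < ε) :
    ∃ D1 : ℕ, ∃ C : ℝ, 0 ≤ C ∧ ∀ (P : Finset ℕ) (W b N : ℕ) (c : ι → ℤ) (w : ℕ → ℝ) (T V : ℝ)
      (v : ι → Finset ℕ → ℝ) (M lam : ι → ℝ), 0 < W →
      (∀ q ∈ P, q.Prime ∧ D1 < q ∧ ¬ q ∣ W ∧ ∀ i j, i ≠ j → ¬ (q : ℤ) ∣ c i - c j) →
      (∀ q a : ℕ, 0 < q → |∑ m ∈ (range N).filter (fun m => m ≡ a [MOD q]), w m - T / q| ≤ V) →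
      (∀ i, Nrm (v i) (M i) (lam i)) →
      |∑ m ∈ (range N).filter (fun m => m ≡ b [MOD W]), w m * ∏ i, X P (v i) (m + c i)
          - T / W * ∏ i, v i ∅|
        ≤ (∏ i, M i) * (ε * |T| / W + C * V * exp (11 / 10 * ∑ i, lam i)) := by
  obtain ⟨C, hC0, hC⟩ := rankin (K := 9) (s := 11 / 10) (by norm_num) (by norm_num)
  set K : ℝ := 6 ^ Fintype.card ι * Fintype.card ι with hK
  have hK0 : 0 ≤ K := by positivity
  have hlog : 0 < log (1 + ε) := log_pos (by linarith)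
  obtain ⟨D0, hD0⟩ := exists_nat_ge (2 * K / log (1 + ε))
  refine ⟨D0 + 1, C ^ Fintype.card ι, by positivity, ?_⟩
  intro P W b N c w T V v M lam hW hP hV hv
  have hV0 : 0 ≤ V := (abs_nonneg _).trans (hV 1 0 one_pos)
  have hM0 : ∀ i, 0 ≤ M i := fun i => by
    have := (hv i ∅).1
    simp only [card_empty, pow_zero, one_mul] at this
    exact (abs_nonneg _).trans this
  have hMp : 0 ≤ ∏ i, M i := prod_nonneg fun i _ => hM0 i
  have hP2 : ∀ q ∈ P, 2 ≤ q := fun q hq => (hP q hq).1.two_le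
  have hW' : (0 : ℝ) < W := by exact_mod_cast hW
  set S := Fintype.piFinset (fun _ : ι => P.powerset) with hS
  have hSsub : ∀ B ∈ S, ∀ i, B i ⊆ P := fun B hB i =>
    mem_powerset.1 (Fintype.mem_piFinset.1 hB i)
  set bq : (ι → Finset ℕ) → ℕ → Finset ι := fun B q => univ.filter (fun i => q ∈ B i) with hbq
  set e : (ι → Finset ℕ) → ℝ := fun B =>
    ∏ q ∈ P, ((1 - ((bq B q).card : ℝ)) * (1 / ((q : ℝ) - 1)) ^ (bq B q).card) with he
  set A : (ι → Finset ℕ) → ℝ := fun B => ∑ m ∈ (range N).filter (fun m => m ≡ b [MOD W]),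
    w m * ∏ q ∈ P, ∏ i ∈ bq B q, chi q (m + c i) with hA
  have hexp : ∑ m ∈ (range N).filter (fun m => m ≡ b [MOD W]), w m * ∏ i, X P (v i) (m + c i)
      = ∑ B ∈ S, (∏ i, v i (B i)) * A B := by
    simp only [hA, mul_sum]
    rw [sum_comm]
    refine sum_congr rfl fun m _ => ?_
    rw [prod_X_expand P v (fun i => (m : ℤ) + c i), mul_sum]
    refine sum_congr rfl fun B _ => ?_
    ring
  have hAe : ∀ B ∈ S, |A B - T / W * e B| ≤ V * ∏ i, 3 ^ (B i).card := by
    intro B hB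
    have h1 := lvl1_ap N c w T V hV (fun q => lvl1al q (bq B q)) (fun q i => lvl1be q (bq B q) i)
      P (fun q hq => (hP q hq).1) W b hW (fun q hq => (hP q hq).2.2.1)
    have h2 : A B = ∑ m ∈ (range N).filter (fun m => m ≡ b [MOD W]),
        w m * ∏ q ∈ P, (lvl1al q (bq B q) +
          ∑ i, if (q : ℤ) ∣ (m : ℤ) + c i then lvl1be q (bq B q) i else 0) := by
      refine sum_congr rfl fun m _ => ?_
      congr 1
      exact prod_congr rfl fun q hq => lvl1_local q c (hP q hq).2.2.2 _ _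
    have h3 : e B = ∏ q ∈ P, (lvl1al q (bq B q) + ∑ i, lvl1be q (bq B q) i / q) :=
      prod_congr rfl fun q hq => (lvl1_mean (hP2 q hq) _).symm
    rw [h2, h3]
    refine h1.trans (mul_le_mul_of_nonneg_left ?_ hV0)
    rw [prod_pow_card P 3 B (hSsub B hB)]
    exact prod_le_prod (fun q _ => by positivity) (fun q hq => lvl1_norm (hP2 q hq) _)
  have hvB : ∀ B : ι → Finset ℕ, |∏ i, v i (B i)| ≤ (∏ i, M i) * ∏ i, 3 ^ (B i).card := by
    intro B
    rw [abs_prod, ← prod_mul_distrib]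
    refine prod_le_prod (fun i _ => abs_nonneg _) (fun i _ => ?_)
    rw [mul_comm]
    exact (hv i (B i)).1
  -- the error sum
  have herr : |∑ B ∈ S, (∏ i, v i (B i)) * (A B - T / W * e B)|
      ≤ (∏ i, M i) * (C ^ Fintype.card ι * V * exp (11 / 10 * ∑ i, lam i)) := by
    have h1 : ∀ B ∈ S, |(∏ i, v i (B i)) * (A B - T / W * e B)|
        ≤ V * ∏ i, (M i * if sz (B i) ≤ lam i then 9 ^ (B i).card else 0) := by
      intro B hB
      rw [abs_mul, mul_comm]
      refine (mul_le_mul_of_nonneg_right (hAe B hB) (abs_nonneg _)).trans ?_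
      rw [mul_assoc]
      refine mul_le_mul_of_nonneg_left ?_ hV0
      rw [abs_prod, ← prod_mul_distrib]
      refine prod_le_prod (fun i _ => by positivity) (fun i _ => ?_)
      split_ifs with hs
      · have h9 : (9 : ℝ) ^ (B i).card = 3 ^ (B i).card * 3 ^ (B i).card := by
          rw [← mul_pow]; norm_num
        rw [h9]
        calc 3 ^ (B i).card * |v i (B i)| ≤ 3 ^ (B i).card * (3 ^ (B i).card * M i) :=
              mul_le_mul_of_nonneg_left (hv i (B i)).1 (by positivity)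
          _ = _ := by ring
      · have : v i (B i) = 0 := by
          by_contra hne
          exact hs ((hv i (B i)).2 hne)
        simp [this]
    refine (abs_sum_le_sum_abs _ _).trans ((sum_le_sum h1).trans ?_)
    rw [← mul_sum, hS, ← prod_univ_sum (fun _ : ι => P.powerset)
      (fun i B => M i * if sz B ≤ lam i then (9 : ℝ) ^ B.card else 0)]
    have h2 : ∏ i, ∑ B ∈ P.powerset, (M i * if sz B ≤ lam i then (9 : ℝ) ^ B.card else 0)
        ≤ ∏ i, (M i * (C * exp (11 / 10 * lam i))) := by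
      refine prod_le_prod (fun i _ => sum_nonneg fun B _ => mul_nonneg (hM0 i) ?_) (fun i _ => ?_)
      · split_ifs <;> positivity
      · rw [← mul_sum, ← sum_filter]
        exact mul_le_mul_of_nonneg_left (hC P (lam i) hP2) (hM0 i)
    refine (mul_le_mul_of_nonneg_left h2 hV0).trans (le_of_eq ?_)
    rw [prod_mul_distrib, prod_mul_distrib, prod_const, card_univ, ← exp_sum, ← mul_sum]
    ring
  -- the main term
  have hmain : |∑ B ∈ S, (∏ i, v i (B i)) * e B - ∏ i, v i ∅| ≤ (∏ i, M i) * ε := by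
    have h0 : (fun _ : ι => (∅ : Finset ℕ)) ∈ S :=
      Fintype.mem_piFinset.2 fun _ => empty_mem_powerset _
    have hbq0 : ∀ q, bq (fun _ : ι => (∅ : Finset ℕ)) q = ∅ := fun q => by simp [hbq]
    have he0 : e (fun _ : ι => (∅ : Finset ℕ)) = 1 := by simp [he, hbq0]
    set g : (ι → Finset ℕ) → ℝ := fun B => ∏ q ∈ P, (3 ^ (bq B q).card *
      |(1 - ((bq B q).card : ℝ)) * (1 / ((q : ℝ) - 1)) ^ (bq B q).card|) with hg
    have hg0 : g (fun _ : ι => (∅ : Finset ℕ)) = 1 := by simp [hg, hbq0]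
    have h1 : ∀ B ∈ S, |(∏ i, v i (B i)) * e B| ≤ (∏ i, M i) * g B := by
      intro B hB
      rw [abs_mul]
      refine (mul_le_mul_of_nonneg_right (hvB B) (abs_nonneg _)).trans (le_of_eq ?_)
      rw [prod_pow_card P 3 B (hSsub B hB), mul_assoc]
      congr 1
      simp only [he, hg]
      rw [abs_prod, ← prod_mul_distrib]
    have h2 : ∑ B ∈ S, g B ≤ 1 + ε := by
      have h3 := sum_pi_powerset (ι := ι) P (fun q b => (3 : ℝ) ^ b.card *
        |(1 - (b.card : ℝ)) * (1 / ((q : ℝ) - 1)) ^ b.card|)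
      have h4 : ∑ B ∈ S, g B ≤ ∏ q ∈ P, exp (K * (1 / ((q : ℝ) - 1)) ^ 2) := by
        refine (le_of_eq h3).trans (prod_le_prod (fun q _ => by positivity) (fun q hq => ?_))
        refine (lvl1_locsum (hP2 q hq)).trans ?_
        rw [add_comm]
        exact add_one_le_exp _
      rw [← exp_sum, ← mul_sum] at h4
      refine h4.trans ?_
      rw [← exp_log (show (0 : ℝ) < 1 + ε by linarith), exp_le_exp]
      have h5 := lvl1_tail (D := D0 + 1) (by omega) P (fun q hq => (hP q hq).2.1)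
      refine (mul_le_mul_of_nonneg_left h5 hK0).trans ?_
      rw [div_le_iff₀ hlog] at hD0
      have h6 : (0 : ℝ) < ((D0 + 1 : ℕ) : ℝ) := by positivity
      rw [← mul_div_assoc, div_le_iff₀ h6]
      push_cast
      nlinarith
    rw [← add_sum_erase S _ h0, he0, mul_one, add_sub_cancel_left]
    rw [← add_sum_erase S _ h0, hg0] at h2
    refine (abs_sum_le_sum_abs _ _).trans
      ((sum_le_sum fun B hB => h1 B (mem_of_mem_erase hB)).trans ?_)
    rw [← mul_sum]
    exact mul_le_mul_of_nonneg_left (by linarith) hMp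
  have hsplit : ∑ B ∈ S, (∏ i, v i (B i)) * A B - T / W * ∏ i, v i ∅
      = T / W * (∑ B ∈ S, (∏ i, v i (B i)) * e B - ∏ i, v i ∅)
        + ∑ B ∈ S, (∏ i, v i (B i)) * (A B - T / W * e B) := by
    rw [mul_sub, mul_sum]
    have : ∀ B, (∏ i, v i (B i)) * (A B - T / W * e B)
        = (∏ i, v i (B i)) * A B - T / W * ((∏ i, v i (B i)) * e B) := fun B => by ring
    simp_rw [this]
    rw [sum_sub_distrib]
    ring
  rw [hexp, hsplit]
  refine (abs_add_le _ _).trans ?_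
  rw [mul_add]
  refine add_le_add ?_ herr
  rw [abs_mul, abs_div, abs_of_pos hW']
  refine (mul_le_mul_of_nonneg_left hmain (by positivity)).trans (le_of_eq ?_)
  ring

end Pool.Agent.Lib.Tup
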