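import Pool.Agent.Lib.Tup.Basic
import Pool.Agent.Lib.Tup.ALS

namespace Pool.Agent.Lib.Tup
open Finset Real Filter

namespace MLS

open Classical in
theorem bessel {ι G : Type*} [Fintype G] (I : Finset ι) (ξ : ι → G → ℂ)
    (h : ∀ i ∈ I, ∀ i' ∈ I,
      ∑ u, (starRingEnd ℂ) (ξ i u) * ξ i' u = if i = i' then 1 else 0) (f : G → ℂ) :
    ∑ i ∈ I, ‖∑ u, (starRingEnd ℂ) (ξ i u) * f u‖ ^ 2 ≤ ∑ u, ‖f u‖ ^ 2 := by
  let v : I → EuclideanSpace ℂ G := fun i => WithLp.toLp 2 (ξ i)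
  have hin : ∀ g g' : G → ℂ, inner ℂ (WithLp.toLp 2 g : EuclideanSpace ℂ G) (WithLp.toLp 2 g')
      = ∑ u, (starRingEnd ℂ) (g u) * g' u := by
    intro g g'
    rw [PiLp.inner_apply]
    refine Finset.sum_congr rfl fun u _ => ?_
    simp [mul_comm]
  have hv : Orthonormal ℂ v := by
    rw [orthonormal_iff_ite]
    intro i j
    simp only [v]
    rw [hin, h i i.2 j j.2]
    by_cases hij : i = j
    · simp [hij]
    · have : (i : ι) ≠ j := fun h' => hij (Subtype.ext h')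
      simp [hij, this]
  have key := hv.sum_inner_products_le (WithLp.toLp 2 f : EuclideanSpace ℂ G) (s := univ)
  rw [EuclideanSpace.norm_sq_eq] at key
  simp only [v, hin] at key
  rw [← Finset.sum_coe_sort I]
  exact key

section Local
variable {q : ℕ} [hq : Fact q.Prime]

/-- Local orthonormal functions. -/
noncomputable def loc (j : Option (DirichletCharacter ℂ q)) (t : ZMod q) : ℂ :=
  match j with
  | none => if t = 0 then 1 else 0
  | some χ => χ t / ((Real.sqrt ((q : ℝ) - 1) : ℝ) : ℂ)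

theorem q_sub_pos : (0 : ℝ) < (q : ℝ) - 1 := by
  have : (2 : ℝ) ≤ q := by exact_mod_cast hq.out.two_le
  linarith

theorem sqrt_ne : (((Real.sqrt ((q : ℝ) - 1) : ℝ) : ℂ)) ≠ 0 := by
  have := Real.sqrt_pos.mpr (q_sub_pos (q := q))
  exact_mod_cast this.ne'

theorem sqrt_mul : (((Real.sqrt ((q : ℝ) - 1) : ℝ) : ℂ)) * ((Real.sqrt ((q : ℝ) - 1) : ℝ) : ℂ)
    = (q : ℂ) - 1 := by
  have := Real.mul_self_sqrt (q_sub_pos (q := q)).le
  exact_mod_cast this

open Classical in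
theorem char_orth (χ χ' : DirichletCharacter ℂ q) :
    ∑ t : ZMod q, (starRingEnd ℂ) (χ t) * χ' t = if χ = χ' then (q : ℂ) - 1 else 0 := by
  have h1 : ∀ t : ZMod q, (starRingEnd ℂ) (χ t) * χ' t = (χ⁻¹ * χ') t := by
    intro t
    rw [MulChar.mul_apply, ← MulChar.star_apply']
    rfl
  simp only [h1]
  split_ifs with h
  · subst h
    rw [inv_mul_cancel, MulChar.sum_one_eq_card_units, ZMod.card_units q]
    have := hq.out.one_le
    push_cast [Nat.cast_sub this]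
    rfl
  · apply MulChar.sum_eq_zero_of_ne_one
    intro h'
    exact h (inv_mul_eq_one.mp h')

open Classical in
theorem loc_orth (j j' : Option (DirichletCharacter ℂ q)) :
    ∑ t : ZMod q, (starRingEnd ℂ) (loc j t) * loc j' t = if j = j' then 1 else 0 := by
  rcases j with _ | χ <;> rcases j' with _ | χ'
  · simp [loc]
  · simp [loc, apply_ite (starRingEnd ℂ), MulChar.map_zero]
  · simp [loc, MulChar.map_zero]
  · simp only [loc, map_div₀, Complex.conj_ofReal, div_mul_div_comm, sqrt_mul, ← Finset.sum_div,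
      char_orth, Option.some.injEq]
    have : (q : ℂ) - 1 ≠ 0 := by
      have := (q_sub_pos (q := q)).ne'
      exact_mod_cast this
    split_ifs
    · exact div_self this
    · simp

theorem loc_ne_zero {j : Option (DirichletCharacter ℂ q)} {t : ZMod q} (h : loc j t ≠ 0)
    (ht : t ≠ 0) : j ≠ none := by
  rintro rfl
  simp [loc, ht] at h

/-- Local Fourier coefficient. -/
noncomputable def four (j : Option (DirichletCharacter ℂ q)) (m : ZMod q) : ℂ :=
  ∑ t : ZMod q, (starRingEnd ℂ) (loc j t) * ZMod.stdAddChar (m * t)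

theorem four_none (m : ZMod q) : four none m = 1 := by
  simp [four, loc, apply_ite (starRingEnd ℂ)]

theorem four_some (χ : DirichletCharacter ℂ q) (m : ZMod q) :
    four (some χ) m = gaussSum χ⁻¹ (ZMod.stdAddChar.mulShift m) /
      ((Real.sqrt ((q : ℝ) - 1) : ℝ) : ℂ) := by
  simp only [four, loc, gaussSum, Finset.sum_div, map_div₀, Complex.conj_ofReal,
    AddChar.mulShift_apply]
  refine Finset.sum_congr rfl fun t _ => ?_
  rw [← MulChar.star_apply']
  simp only [starRingEnd_apply]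
  ring

theorem four_one {m : ZMod q} (hm : m ≠ 0) :
    four (some 1) m = -1 / ((Real.sqrt ((q : ℝ) - 1) : ℝ) : ℂ) := by
  rw [four_some, inv_one, gaussSum_one_left (ZMod.isPrimitive_stdAddChar q hm)]

theorem four_ne {χ : DirichletCharacter ℂ q} (hχ : χ ≠ 1) (m : ZMod q) :
    four (some χ) m = gaussSum χ⁻¹ ZMod.stdAddChar / ((Real.sqrt ((q : ℝ) - 1) : ℝ) : ℂ)
      * χ m := by
  rw [four_some]
  by_cases hm : m = 0
  · subst hm
    rw [AddChar.mulShift_zero, gaussSum_one_right (inv_ne_one.mpr hχ)]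
    simp [MulChar.map_zero]
  · have := gaussSum_mulShift_eq χ⁻¹ ZMod.stdAddChar (Units.mk0 m hm)
    simp only [Units.val_mk0, inv_inv] at this
    rw [this]
    ring

theorem norm_gauss {χ : DirichletCharacter ℂ q} (hχ : χ ≠ 1) :
    ‖gaussSum χ⁻¹ ZMod.stdAddChar / ((Real.sqrt ((q : ℝ) - 1) : ℝ) : ℂ)‖ ^ 2
      = 1 + 1 / ((q : ℝ) - 1) := by
  have h1 := gaussSum_mul_gaussSum_eq_card (inv_ne_one.mpr hχ) (ZMod.isPrimitive_stdAddChar q)
  rw [← star_gaussSum_eq, ZMod.card] at h1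
  have h2 : ‖gaussSum χ⁻¹ (ZMod.stdAddChar (N := q))‖ ^ 2 = q := by
    have h3 := Complex.mul_conj' (gaussSum χ⁻¹ (ZMod.stdAddChar (N := q)))
    rw [starRingEnd_apply, h1] at h3
    exact_mod_cast h3.symm
  have h4 := q_sub_pos (q := q)
  rw [norm_div, div_pow, h2, Complex.norm_real, Real.norm_eq_abs, sq_abs, Real.sq_sqrt h4.le]
  field_simp
  ring

theorem norm_ram : ‖(-1 : ℂ) / ((Real.sqrt ((q : ℝ) - 1) : ℝ) : ℂ)‖ ^ 2 = 1 / ((q : ℝ) - 1) := by
  have h4 := q_sub_pos (q := q)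
  rw [norm_div, div_pow, Complex.norm_real, Real.norm_eq_abs, sq_abs, Real.sq_sqrt h4.le]
  simp

end Local


theorem reindex {W : ℕ} (hW : 0 < W) (M H a0 : ℕ) :
    ∃ m0 : ℕ, ∀ {β : Type} [AddCommMonoid β] (F : ℕ → β),
      ∑ m ∈ (Ico M (M + H)).filter (fun m => m ≡ a0 [MOD W]), F m =
        ∑ j ∈ range (H / W + 1), if m0 + W * j < M + H then F (m0 + W * j) else 0 := by
  obtain ⟨m0, h1, h2, h3⟩ : ∃ m0 : ℕ, M ≤ m0 ∧ m0 < M + W ∧ m0 ≡ a0 [MOD W] := by
    refine ⟨M + (a0 + (W - 1) * M) % W, by omega, ?_, ?_⟩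
    · have := Nat.mod_lt (a0 + (W - 1) * M) hW
      omega
    · have e : M + (a0 + (W - 1) * M) = a0 + W * M := by
        obtain ⟨V, rfl⟩ : ∃ V, W = V + 1 := ⟨W - 1, by omega⟩
        simp only [Nat.add_sub_cancel]
        ring
      calc M + (a0 + (W - 1) * M) % W ≡ M + (a0 + (W - 1) * M) [MOD W] :=
            Nat.ModEq.add_left _ (Nat.mod_modEq _ _)
        _ = a0 + W * M := e
        _ ≡ a0 [MOD W] := by simp [Nat.ModEq]
  refine ⟨m0, fun F => ?_⟩
  rw [← Finset.sum_filter]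
  symm
  refine Finset.sum_bij (fun j _ => m0 + W * j) ?_ ?_ ?_ ?_
  · intro j hj
    simp only [mem_filter, mem_range, mem_Ico] at hj ⊢
    refine ⟨⟨by omega, hj.2⟩, ?_⟩
    calc m0 + W * j ≡ m0 [MOD W] := by simp [Nat.ModEq]
      _ ≡ a0 [MOD W] := h3
  · intro j _ j' _ h
    have : W * j = W * j' := by omega
    exact Nat.eq_of_mul_eq_mul_left hW this
  · intro m hm
    simp only [mem_filter, mem_Ico] at hm
    obtain ⟨⟨hm1, hm2⟩, hm3⟩ := hm
    have h4 : m0 ≡ m [MOD W] := h3.trans hm3.symm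
    have h5 : m0 ≤ m := by
      by_contra hlt
      push Not at hlt
      have h6 : W ∣ m0 - m := (Nat.modEq_iff_dvd' hlt.le).mp h4.symm
      have := Nat.le_of_dvd (by omega) h6
      omega
    obtain ⟨j, hj⟩ := (Nat.modEq_iff_dvd' h5).mp h4
    refine ⟨j, ?_, by omega⟩
    simp only [mem_filter, mem_range]
    refine ⟨?_, by omega⟩
    have : j ≤ H / W := by
      rw [Nat.le_div_iff_mul_le hW, mul_comm]
      omega
    omega
  · intro j _
    rfl

theorem lam_le {P D : Finset ℕ} (hP : ∀ q ∈ P, 2 ≤ q) (hD : D ⊆ P) (y : ℝ) :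
    ∑ A ∈ P.powerset, win 0 y (sz A) * wt A ≤
      ∑ s ∈ (P \ D).powerset.filter (fun s => sz s < y), Eul D * wt s := by
  classical
  rw [← sum_wt_eq, ← Finset.mul_sum, Finset.sum_mul_sum, ← Finset.sum_product']
  have e1 : ∑ A ∈ P.powerset, win 0 y (sz A) * wt A =
      ∑ A ∈ P.powerset.filter (fun A => sz A < y), wt (A ∩ D) * wt (A \ D) := by
    rw [Finset.sum_filter]
    refine Finset.sum_congr rfl fun A _ => ?_
    have : wt A = wt (A ∩ D) * wt (A \ D) := by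
      unfold wt
      rw [Finset.prod_inter_mul_prod_sdiff]
    simp only [win, sz_nonneg A, true_and]
    split_ifs
    · rw [one_mul, this]
    · simp
  rw [e1]
  have hinj : Set.InjOn (fun A : Finset ℕ => (A ∩ D, A \ D))
      (P.powerset.filter (fun A => sz A < y)) := by
    intro A _ B _ h
    simp only [Prod.mk.injEq] at h
    rw [← Finset.sdiff_union_inter A D, ← Finset.sdiff_union_inter B D, h.1, h.2]
  have e2 := Finset.sum_image (f := fun x : Finset ℕ × Finset ℕ => wt x.1 * wt x.2) hinj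
  rw [← e2]
  refine Finset.sum_le_sum_of_subset_of_nonneg ?_ ?_
  · intro x hx
    simp only [mem_image, mem_filter, mem_powerset] at hx
    obtain ⟨A, ⟨hA, hA'⟩, rfl⟩ := hx
    simp only [mem_product, mem_powerset, mem_filter]
    refine ⟨inter_subset_right, sdiff_subset_sdiff hA subset_rfl, lt_of_le_of_lt ?_ hA'⟩
    unfold sz
    refine Finset.sum_le_sum_of_subset_of_nonneg sdiff_subset fun q _ _ => ?_
    exact Real.log_natCast_nonneg q
  · intro x hx _
    simp only [mem_product, mem_powerset, mem_filter] at hx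
    refine mul_nonneg (wt_nonneg fun q hq => hP q (hD (hx.1 hq)))
      (wt_nonneg fun q hq => hP q (mem_sdiff.mp (hx.2.1 hq)).1)

section Global
variable {P : Finset ℕ} [hP : ∀ q : P, Fact (q : ℕ).Prime]

/-- Global orthonormal functions. -/
noncomputable def xi (j : (q : P) → Option (DirichletCharacter ℂ (q : ℕ)))
    (u : (q : P) → ZMod (q : ℕ)) : ℂ := ∏ q, loc (j q) (u q)

open Classical in
theorem xi_orth (j j' : (q : P) → Option (DirichletCharacter ℂ (q : ℕ))) :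
    ∑ u, (starRingEnd ℂ) (xi j u) * xi j' u = if j = j' then 1 else 0 := by
  simp only [xi, map_prod, ← Finset.prod_mul_distrib]
  have := Finset.prod_univ_sum (fun q : P => (univ : Finset (ZMod (q : ℕ))))
    (fun q t => (starRingEnd ℂ) (loc (j q) t) * loc (j' q) t)
  rw [Fintype.piFinset_univ] at this
  rw [← this]
  simp only [loc_orth]
  split_ifs with h
  · subst h
    simp
  · obtain ⟨q, hq⟩ := Function.ne_iff.mp h
    exact Finset.prod_eq_zero (mem_univ q) (if_neg hq)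

/-- Additive characters of the product group. -/
noncomputable def ee (m : ℤ) (u : (q : P) → ZMod (q : ℕ)) : ℂ :=
  ∏ q : P, ZMod.stdAddChar ((m : ZMod (q : ℕ)) * u q)

theorem xi_four (j : (q : P) → Option (DirichletCharacter ℂ (q : ℕ))) (m : ℤ) :
    ∑ u, (starRingEnd ℂ) (xi j u) * ee m u = ∏ q, four (j q) (m : ZMod (q : ℕ)) := by
  classical
  simp only [xi, ee, map_prod, ← Finset.prod_mul_distrib, four]
  have := Finset.prod_univ_sum (fun q : P => (univ : Finset (ZMod (q : ℕ))))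
    (fun q t => (starRingEnd ℂ) (loc (j q) t) * ZMod.stdAddChar ((m : ZMod (q : ℕ)) * t))
  rw [Fintype.piFinset_univ] at this
  rw [this]

/-- Denominator of a point. -/
def den (u : (q : P) → ZMod (q : ℕ)) : ℕ := ∏ q : P, if u q = 0 then 1 else (q : ℕ)

theorem den_pos (u : (q : P) → ZMod (q : ℕ)) : 0 < den u := by
  refine Finset.prod_pos fun q _ => ?_
  split_ifs
  · exact one_pos
  · exact (hP q).out.pos

/-- The point of the circle. -/
noncomputable def tt (u : (q : P) → ZMod (q : ℕ)) : ℝ := ∑ q : P, ((u q).val : ℝ) / (q : ℕ)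

theorem ee_eq (m : ℤ) (u : (q : P) → ZMod (q : ℕ)) :
    ee m u = Complex.exp (2 * π * Complex.I * (m * (tt u : ℝ))) := by
  simp only [ee, tt]
  push_cast
  rw [Finset.mul_sum, Finset.mul_sum, Complex.exp_sum]
  refine Finset.prod_congr rfl fun q _ => ?_
  have : (m : ZMod (q : ℕ)) * u q = ((m * ((u q).val : ℤ) : ℤ) : ZMod (q : ℕ)) := by
    push_cast
    rw [ZMod.natCast_zmod_val]
  rw [this, ZMod.stdAddChar_coe]
  push_cast
  congr 1
  ring

theorem den_mul_tt (u : (q : P) → ZMod (q : ℕ)) : ∃ z : ℤ, (den u : ℝ) * tt u = z := by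
  have h : ∀ q : P, ∃ z : ℤ, (den u : ℝ) * (((u q).val : ℝ) / (q : ℕ)) = z := by
    intro q
    by_cases hu : u q = 0
    · exact ⟨0, by simp [hu]⟩
    · have : (q : ℕ) ∣ den u := by
        have := Finset.dvd_prod_of_mem (fun q : P => if u q = 0 then 1 else (q : ℕ)) (mem_univ q)
        rw [if_neg hu] at this
        exact this
      obtain ⟨c, hc⟩ := this
      refine ⟨c * (u q).val, ?_⟩
      have hq : ((q : ℕ) : ℝ) ≠ 0 := by exact_mod_cast (hP q).out.ne_zero
      rw [hc]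
      push_cast
      field_simp
  choose z hz using h
  refine ⟨∑ q, z q, ?_⟩
  simp only [tt, Finset.mul_sum, hz]
  push_cast
  rfl

theorem tt_ne {W : ℕ} (hPW : ∀ q ∈ P, ¬ q ∣ W) {u u' : (q : P) → ZMod (q : ℕ)} (h : u ≠ u')
    (k : ℤ) : W * tt u - W * tt u' - k ≠ 0 := by
  classical
  intro h0
  obtain ⟨q0, hq0⟩ := Function.ne_iff.mp h
  let N : P → ℕ := fun q => ∏ q' ∈ univ.erase q, (q' : ℕ)
  have hN : ∀ q : P, ((∏ q' : P, (q' : ℕ) : ℕ) : ℝ) = (q : ℕ) * N q := by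
    intro q
    have := Finset.mul_prod_erase univ (fun q' : P => (q' : ℕ)) (mem_univ q)
    rw [← this, Nat.cast_mul]
  have ht : ∀ v : (q : P) → ZMod (q : ℕ), ((∏ q' : P, (q' : ℕ) : ℕ) : ℝ) * tt v =
      ((∑ q : P, (v q).val * N q : ℕ) : ℝ) := by
    intro v
    rw [tt, Finset.mul_sum, Nat.cast_sum]
    refine Finset.sum_congr rfl fun q _ => ?_
    have hq : ((q : ℕ) : ℝ) ≠ 0 := by exact_mod_cast (hP q).out.ne_zero
    rw [hN q]
    push_cast
    field_simp
  have h1 : (W : ℤ) * ((∑ q : P, (u q).val * N q : ℕ) : ℤ) -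
      W * ((∑ q : P, (u' q).val * N q : ℕ) : ℤ) - k * ((q0 : ℕ) * N q0) = 0 := by
    have h2 : (W : ℝ) * ((∑ q : P, (u q).val * N q : ℕ) : ℝ) -
      W * ((∑ q : P, (u' q).val * N q : ℕ) : ℝ) - k * ((q0 : ℕ) * N q0) = 0 := by
      rw [← ht, ← ht, ← hN]
      linear_combination ((∏ q' : P, (q' : ℕ) : ℕ) : ℝ) * h0
    exact_mod_cast h2
  have hv : ∀ v : (q : P) → ZMod (q : ℕ),
      ((∑ q : P, (v q).val * N q : ℕ) : ZMod (q0 : ℕ)) = v q0 * N q0 := by
    intro v
    rw [Nat.cast_sum, Finset.sum_eq_single q0]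
    · push_cast
      rw [ZMod.natCast_zmod_val]
    · intro q _ hq
      rw [ZMod.natCast_eq_zero_iff]
      refine Dvd.dvd.mul_left ?_ _
      exact Finset.dvd_prod_of_mem (fun q' : P => (q' : ℕ)) (mem_erase.mpr ⟨hq.symm, mem_univ _⟩)
    · simp
  have h3 := congrArg (Int.cast : ℤ → ZMod (q0 : ℕ)) h1
  simp only [Int.cast_sub, Int.cast_mul, Int.cast_natCast, hv, ZMod.natCast_self, zero_mul,
    mul_zero, sub_zero, Int.cast_zero] at h3
  have h4 : (W : ZMod (q0 : ℕ)) ≠ 0 := by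
    rw [Ne, ZMod.natCast_eq_zero_iff]
    exact hPW q0 q0.2
  have h5 : (N q0 : ZMod (q0 : ℕ)) ≠ 0 := by
    rw [Ne, ZMod.natCast_eq_zero_iff]
    intro hd
    obtain ⟨q, hq, hq'⟩ := ((hP q0).out.prime.dvd_finsetProd_iff _).mp hd
    have := (Nat.prime_dvd_prime_iff_eq (hP q0).out (hP q).out).mp hq'
    exact (mem_erase.mp hq).1 (Subtype.ext this.symm)
  have h6 : (W : ZMod (q0 : ℕ)) * N q0 * (u q0 - u' q0) = 0 := by linear_combination h3
  rcases mul_eq_zero.mp h6 with h7 | h7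
  · exact mul_ne_zero h4 h5 h7
  · exact hq0 (sub_eq_zero.mp h7)

theorem tt_sep {W : ℕ} (hPW : ∀ q ∈ P, ¬ q ∣ W) {R : ℝ} {u u' : (q : P) → ZMod (q : ℕ)}
    (hu : (den u : ℝ) ≤ R) (hu' : (den u' : ℝ) ≤ R) (h : u ≠ u') (k : ℤ) :
    1 / R ^ 2 ≤ |W * tt u - W * tt u' - k| := by
  obtain ⟨z, hz⟩ := den_mul_tt u
  obtain ⟨z', hz'⟩ := den_mul_tt u'
  have p1 : (0 : ℝ) < den u := by exact_mod_cast den_pos u
  have p2 : (0 : ℝ) < den u' := by exact_mod_cast den_pos u'
  have h1 : (den u * den u' : ℝ) * (W * tt u - W * tt u' - k) =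
      ((W * den u' * z - W * den u * z' - den u * den u' * k : ℤ) : ℝ) := by
    push_cast
    rw [← hz, ← hz']
    ring
  have h2 : (W * den u' * z - W * den u * z' - den u * den u' * k : ℤ) ≠ 0 := by
    intro h3
    rw [h3, Int.cast_zero] at h1
    rcases mul_eq_zero.mp h1 with h4 | h4
    · exact (mul_pos p1 p2).ne' h4
    · exact tt_ne hPW h k h4
  have h3 : (1 : ℝ) ≤ (den u * den u' : ℝ) * |W * tt u - W * tt u' - k| := by
    rw [← abs_of_pos (mul_pos p1 p2), ← abs_mul, h1]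
    exact_mod_cast Int.one_le_abs h2
  have hR : 0 < R := p1.trans_le hu
  rw [div_le_iff₀ (by positivity)]
  calc (1 : ℝ) ≤ (den u * den u' : ℝ) * |W * tt u - W * tt u' - k| := h3
    _ ≤ (R * R) * |W * tt u - W * tt u' - k| := by gcongr
    _ = _ := by ring


open Classical in
/-- The index attached to a character family and a set of primes. -/
noncomputable def jj (χ : CF P) (s : Finset ℕ) :
    (q : P) → Option (DirichletCharacter ℂ (q : ℕ)) :=
  fun q => if χ q = 1 ∧ (q : ℕ) ∉ s then none else some (χ q)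

open Classical in
/-- Primes dividing the conductor. -/
noncomputable def DD (χ : CF P) : Finset ℕ :=
  P.filter (fun q => ∃ h : q ∈ P, χ ⟨q, h⟩ ≠ 1)

theorem mem_DD (χ : CF P) (q : P) : (q : ℕ) ∈ DD χ ↔ χ q ≠ 1 := by
  simp [DD]

theorem DD_subset (χ : CF P) : DD χ ⊆ P := Finset.filter_subset _ _

theorem eq_one_of_mem {χ : CF P} {s : Finset ℕ} (hs : s ⊆ P \ DD χ) {q : P} (hq : (q : ℕ) ∈ s) :
    χ q = 1 := by
  by_contra h
  exact (mem_sdiff.mp (hs hq)).2 ((mem_DD χ q).mpr h)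

theorem jj_inj {χ χ' : CF P} {s s' : Finset ℕ} (hs : s ⊆ P \ DD χ) (hs' : s' ⊆ P \ DD χ')
    (h : jj χ s = jj χ' s') : χ = χ' ∧ s = s' := by
  have h1 : ∀ (χ : CF P) (s : Finset ℕ) (q : P), (jj χ s q).getD 1 = χ q := by
    intro χ s q
    unfold jj
    split_ifs with h
    · simp [h.1]
    · simp
  have h2 : ∀ (χ : CF P) (s : Finset ℕ), s ⊆ P \ DD χ → ∀ q : P,
      (q : ℕ) ∈ s ↔ jj χ s q = some 1 := by
    intro χ s hs q
    unfold jj
    constructor
    · intro hq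
      rw [if_neg (fun h => h.2 hq), eq_one_of_mem hs hq]
    · intro hq
      by_contra hq'
      split_ifs at hq with h
      exact h ⟨Option.some.inj hq, hq'⟩
  refine ⟨funext fun q => by rw [← h1 χ s q, ← h1 χ' s' q, h], ?_⟩
  ext q
  constructor
  · intro hq
    have hqP := (mem_sdiff.mp (hs hq)).1
    exact (h2 χ' s' hs' ⟨q, hqP⟩).mpr (h ▸ (h2 χ s hs ⟨q, hqP⟩).mp hq)
  · intro hq
    have hqP := (mem_sdiff.mp (hs' hq)).1
    exact (h2 χ s hs ⟨q, hqP⟩).mpr (h ▸ (h2 χ' s' hs' ⟨q, hqP⟩).mp hq)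

omit hP in
theorem prod_ite_mem {β : Type*} [CommMonoid β] {s : Finset ℕ} (hs : s ⊆ P) (f : ℕ → β) :
    ∏ q : P, (if (q : ℕ) ∈ s then f q else 1) = ∏ q ∈ s, f q := by
  rw [Finset.prod_coe_sort P (fun q => if q ∈ s then f q else 1), Finset.prod_ite_mem,
    Finset.inter_eq_right.mpr hs]

theorem den_le {χ : CF P} {s : Finset ℕ} (hs : s ⊆ P) {u : (q : P) → ZMod (q : ℕ)}
    (h : xi (jj χ s) u ≠ 0) : (den u : ℝ) ≤ cond χ * exp (sz s) := by
  classical
  have e1 : exp (sz s) = ((∏ q : P, if (q : ℕ) ∈ s then (q : ℕ) else 1 : ℕ) : ℝ) := by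
    rw [prod_ite_mem hs (fun q => q), sz, Real.exp_sum, Nat.cast_prod]
    refine Finset.prod_congr rfl fun q hq => Real.exp_log ?_
    exact_mod_cast (hP ⟨q, hs hq⟩).out.pos
  rw [e1, ← Nat.cast_mul, Nat.cast_le, den, cond, ← Finset.prod_mul_distrib]
  refine Finset.prod_le_prod' fun q _ => ?_
  have h1 := (hP q).out.one_le
  have h2 : loc (jj χ s q) (u q) ≠ 0 := (Finset.prod_ne_zero_iff.mp h) q (mem_univ q)
  by_cases hu : u q = 0
  · rw [if_pos hu]
    split_ifs <;> nlinarith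
  · rw [if_neg hu]
    have h3 := loc_ne_zero h2 hu
    unfold jj at h3
    split_ifs with h4 h5 h5
    · simp
    · exact absurd (if_pos ⟨h4, h5⟩) h3
    · nlinarith
    · simp

open Classical in
/-- The coefficient. -/
noncomputable def cf (χ : CF P) (s : Finset ℕ) : ℂ :=
  ∏ q : P, if χ q = 1 then (if (q : ℕ) ∈ s then -1 / ((Real.sqrt (((q : ℕ) : ℝ) - 1) : ℝ) : ℂ)
    else 1) else gaussSum (χ q)⁻¹ ZMod.stdAddChar / ((Real.sqrt (((q : ℕ) : ℝ) - 1) : ℝ) : ℂ)

theorem four_jj (χ : CF P) (s : Finset ℕ) (m : ℤ) (hm : ∀ q ∈ s, ¬ (q : ℤ) ∣ m) :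
    ∏ q, four (jj χ s q) (m : ZMod (q : ℕ)) = cf χ s * Ch χ m := by
  classical
  rw [cf, Ch, ← Finset.prod_mul_distrib]
  refine Finset.prod_congr rfl fun q _ => ?_
  unfold jj
  by_cases h1 : χ q = 1
  · by_cases h2 : (q : ℕ) ∈ s
    · rw [if_neg (fun h => h.2 h2), if_pos h1, if_pos h1, if_pos h2, h1, four_one, mul_one]
      rw [Ne, ZMod.intCast_zmod_eq_zero_iff_dvd]
      exact hm q h2
    · rw [if_pos ⟨h1, h2⟩, if_pos h1, if_pos h1, if_neg h2, four_none, mul_one]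
  · rw [if_neg (fun h => h1 h.1), if_neg h1, if_neg h1, four_ne h1]

theorem norm_cf {χ : CF P} {s : Finset ℕ} (hs : s ⊆ P \ DD χ) :
    ‖cf χ s‖ ^ 2 = Eul (DD χ) * wt s := by
  classical
  have hs' : s ⊆ P := hs.trans sdiff_subset
  rw [cf, norm_prod, ← Finset.prod_pow, Eul, wt,
    ← prod_ite_mem (DD_subset χ) (fun q => 1 + 1 / ((q : ℝ) - 1)),
    ← prod_ite_mem hs' (fun q => 1 / ((q : ℝ) - 1)), ← Finset.prod_mul_distrib]
  refine Finset.prod_congr rfl fun q _ => ?_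
  by_cases h1 : χ q = 1
  · have h3 : (q : ℕ) ∉ DD χ := fun h => (mem_DD χ q).mp h h1
    rw [if_pos h1, if_neg h3, one_mul]
    split_ifs
    · exact norm_ram
    · simp
  · have h3 : (q : ℕ) ∉ s := fun h => h1 (eq_one_of_mem hs h)
    rw [if_neg h1, if_pos ((mem_DD χ q).mpr h1), if_neg h3, mul_one]
    exact norm_gauss h1

open Classical in
theorem mult_le (T : Finset ℕ) (a : ℕ → ℂ) {Q y : ℝ}
    (ha : ∀ m, a m ≠ 0 → ∀ q ∈ P, log q < y → ¬ q ∣ m) :
    (∑ A ∈ P.powerset, win 0 y (sz A) * wt A) *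
      ∑ χ ∈ univ.filter (fun χ : CF P => (cond χ : ℝ) ≤ Q), ‖∑ m ∈ T, a m * Ch χ m‖ ^ 2
      ≤ ∑ u ∈ univ.filter (fun u : (q : P) → ZMod (q : ℕ) => (den u : ℝ) ≤ Q * exp y),
        ‖∑ m ∈ T, a m * ee m u‖ ^ 2 := by
  have hP2 : ∀ q ∈ P, 2 ≤ q := fun q hq => (hP ⟨q, hq⟩).out.two_le
  let I : Finset (Σ _ : CF P, Finset ℕ) :=
    (univ.filter (fun χ : CF P => (cond χ : ℝ) ≤ Q)).sigma
      (fun χ => (P \ DD χ).powerset.filter (fun s => sz s < y))
  let f : ((q : P) → ZMod (q : ℕ)) → ℂ := fun u =>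
    if (den u : ℝ) ≤ Q * exp y then ∑ m ∈ T, a m * ee m u else 0
  have hB := bessel I (fun i => xi (jj i.1 i.2)) (by
    intro i hi i' hi'
    simp only [I, mem_sigma, mem_filter, mem_powerset] at hi hi'
    rw [xi_orth]
    by_cases h : i = i'
    · simp [h]
    · rw [if_neg h, if_neg]
      intro h'
      obtain ⟨h1, h2⟩ := jj_inj hi.2.1 hi'.2.1 h'
      exact h (Sigma.ext h1 (heq_of_eq h2))) f
  have e1 : ∑ u, ‖f u‖ ^ 2 =
      ∑ u ∈ univ.filter (fun u : (q : P) → ZMod (q : ℕ) => (den u : ℝ) ≤ Q * exp y),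
        ‖∑ m ∈ T, a m * ee m u‖ ^ 2 := by
    rw [Finset.sum_filter]
    refine Finset.sum_congr rfl fun u _ => ?_
    simp only [f]
    split_ifs <;> simp
  rw [← e1]
  refine le_trans ?_ hB
  rw [Finset.sum_sigma, Finset.mul_sum]
  refine Finset.sum_le_sum fun χ hχ => ?_
  have hχQ := (mem_filter.mp hχ).2
  refine le_trans (mul_le_mul_of_nonneg_right (lam_le hP2 (DD_subset χ) y) (by positivity)) ?_
  rw [Finset.sum_mul]
  refine Finset.sum_le_sum fun s hs => le_of_eq ?_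
  simp only [mem_filter, mem_powerset] at hs
  obtain ⟨hs1, hs2⟩ := hs
  have hs' : s ⊆ P := hs1.trans sdiff_subset
  have e2 : ∑ u, (starRingEnd ℂ) (xi (jj χ s) u) * f u =
      ∑ u, (starRingEnd ℂ) (xi (jj χ s) u) * ∑ m ∈ T, a m * ee m u := by
    refine Finset.sum_congr rfl fun u _ => ?_
    by_cases h : xi (jj χ s) u = 0
    · simp [h]
    · have h1 := den_le hs' h
      have h2 : (den u : ℝ) ≤ Q * exp y := by
        refine h1.trans (mul_le_mul hχQ (Real.exp_le_exp.mpr hs2.le) (Real.exp_pos _).le ?_)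
        exact le_trans (Nat.cast_nonneg _) hχQ
      simp only [f, if_pos h2]
  have e3 : ∑ u, (starRingEnd ℂ) (xi (jj χ s) u) * ∑ m ∈ T, a m * ee m u =
      cf χ s * ∑ m ∈ T, a m * Ch χ m := by
    simp only [Finset.mul_sum]
    rw [Finset.sum_comm]
    refine Finset.sum_congr rfl fun m _ => ?_
    by_cases h : a m = 0
    · simp [h]
    · have h1 : ∀ q ∈ s, ¬ (q : ℤ) ∣ (m : ℤ) := by
        intro q hq
        rw [Int.natCast_dvd_natCast]
        refine ha m h q (hs' hq) (lt_of_le_of_lt ?_ hs2)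
        exact Finset.single_le_sum (f := fun q : ℕ => log (q : ℝ))
          (fun q _ => Real.log_natCast_nonneg q) hq
      have h2 := xi_four (jj χ s) m
      rw [four_jj χ s m h1] at h2
      calc ∑ u, (starRingEnd ℂ) (xi (jj χ s) u) * (a m * ee m u)
          = a m * ∑ u, (starRingEnd ℂ) (xi (jj χ s) u) * ee m u := by
            rw [Finset.mul_sum]
            exact Finset.sum_congr rfl fun u _ => by ring
        _ = _ := by rw [h2]; ring
  simp only
  rw [e2, e3, norm_mul, mul_pow, norm_cf hs1]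

open Classical in
theorem add_le {W : ℕ} (hW : 0 < W) (hPW : ∀ q ∈ P, ¬ q ∣ W) (a : ℕ → ℂ) (M H a0 : ℕ) {R : ℝ}
    (hR : 1 ≤ R) :
    ∑ u ∈ univ.filter (fun u : (q : P) → ZMod (q : ℕ) => (den u : ℝ) ≤ R),
        ‖∑ m ∈ (Ico M (M + H)).filter (fun m => m ≡ a0 [MOD W]), a m * ee m u‖ ^ 2
      ≤ 30 * (H / W + 1 + R ^ 2) *
        ∑ m ∈ (Ico M (M + H)).filter (fun m => m ≡ a0 [MOD W]), ‖a m‖ ^ 2 := by
  obtain ⟨m0, hm0⟩ := reindex hW M H a0
  let b : ℕ → ℂ := fun j => if m0 + W * j < M + H then a (m0 + W * j) else 0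
  have h1 := als (univ.filter (fun u : (q : P) → ZMod (q : ℕ) => (den u : ℝ) ≤ R))
    (fun u => W * tt u) (δ := 1 / R ^ 2) (by positivity)
    (by rw [div_le_one (by positivity)]; nlinarith)
    (fun u hu u' hu' h k => tt_sep hPW (mem_filter.mp hu).2 (mem_filter.mp hu').2 h k)
    (H / W + 1) b
  have e1 : ∑ j ∈ range (H / W + 1), ‖b j‖ ^ 2 =
      ∑ m ∈ (Ico M (M + H)).filter (fun m => m ≡ a0 [MOD W]), ‖a m‖ ^ 2 := by
    rw [hm0]
    refine Finset.sum_congr rfl fun j _ => ?_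
    simp only [b]
    split_ifs <;> simp
  have e2 : ∀ u : (q : P) → ZMod (q : ℕ),
      ‖∑ m ∈ (Ico M (M + H)).filter (fun m => m ≡ a0 [MOD W]), a m * ee m u‖ =
      ‖∑ j ∈ range (H / W + 1),
        b j * Complex.exp (2 * π * Complex.I * (j * ((W * tt u : ℝ) : ℂ)))‖ := by
    intro u
    have e3 : ∑ m ∈ (Ico M (M + H)).filter (fun m => m ≡ a0 [MOD W]), a m * ee m u =
        Complex.exp (((2 * π * (m0 * tt u) : ℝ) : ℂ) * Complex.I) * ∑ j ∈ range (H / W + 1),
          b j * Complex.exp (2 * π * Complex.I * (j * ((W * tt u : ℝ) : ℂ))) := by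
      rw [hm0, Finset.mul_sum]
      refine Finset.sum_congr rfl fun j _ => ?_
      simp only [b]
      split_ifs
      · rw [ee_eq, mul_left_comm (Complex.exp _), ← Complex.exp_add]
        congr 2
        push_cast
        ring
      · simp
    rw [e3, norm_mul, Complex.norm_exp_ofReal_mul_I, one_mul]
  simp only [e2]
  rw [e1] at h1
  refine h1.trans (mul_le_mul_of_nonneg_right ?_ (by positivity))
  have : ((H / W : ℕ) : ℝ) ≤ H / W := Nat.cast_div_le
  rw [one_div_one_div]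
  push_cast
  linarith

end Global

end MLS

open Classical in
/-- Multiplicative large sieve for sifted sequences in a progression modulo `W`. -/
theorem mls (P : Finset ℕ) (hP : ∀ q ∈ P, q.Prime) {W : ℕ} (hW : 0 < W) (hPW : ∀ q ∈ P, ¬ q ∣ W)
    (a : ℕ → ℂ) (M H a0 : ℕ) {Q y : ℝ} (hQ : 1 ≤ Q) (hy : 0 ≤ y)
    (ha : ∀ m, a m ≠ 0 → ∀ q ∈ P, log q < y → ¬ q ∣ m) :
    (∑ A ∈ P.powerset, win 0 y (sz A) * wt A) *
      ∑ χ ∈ univ.filter (fun χ : CF P => (cond χ : ℝ) ≤ Q),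
        ‖∑ m ∈ (Ico M (M + H)).filter (fun m => m ≡ a0 [MOD W]), a m * Ch χ m‖ ^ 2
      ≤ 30 * (H / W + 1 + (Q * exp y) ^ 2) *
        ∑ m ∈ (Ico M (M + H)).filter (fun m => m ≡ a0 [MOD W]), ‖a m‖ ^ 2 := by
  have : ∀ q : P, Fact (q : ℕ).Prime := fun q => ⟨hP q q.2⟩
  have hR : 1 ≤ Q * exp y := one_le_mul_of_one_le_of_one_le hQ (Real.one_le_exp hy)
  exact (MLS.mult_le _ a ha).trans (MLS.add_le hW hPW a M H a0 hR)

theorem Ch_mul {P : Finset ℕ} (χ : CF P) (m n : ℤ) : Ch χ (m * n) = Ch χ m * Ch χ n := by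
  unfold Ch
  rw [← Finset.prod_mul_distrib]
  refine Finset.prod_congr rfl fun q _ => ?_
  split_ifs
  · simp
  · rw [Int.cast_mul, map_mul]

theorem Ch_one {P : Finset ℕ} (m : ℤ) : Ch (1 : CF P) m = 1 := by
  simp [Ch]

theorem cond_one {P : Finset ℕ} : cond (1 : CF P) = 1 := by
  simp [cond]

end Pool.Agent.Lib.Tup
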